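import Pool.Agent.GNP.N5TREE

/-!
Leaves: caps. Smooth partitions of unity on the grid of step `r` in `ℝ × ℝ^m`.
-/

set_option autoImplicit false

namespace Pool.Agent.LF

open MeasureTheory Set Pool.Agent.MP_6cbfb8_an Pool.Agent.GNP
open scoped ENNReal Real RealInnerProductSpace ContDiff

/-! ### The basic functions -/

theorem caps_th_nonneg (x : ℝ) : 0 ≤ th x :=
  sub_nonneg.2 (Real.smoothTransition.monotone (by linarith))

theorem caps_th_le_one (x : ℝ) : th x ≤ 1 := by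
  unfold th
  linarith [Real.smoothTransition.le_one (x + 1), Real.smoothTransition.nonneg x]

theorem caps_ch_nonneg {d : ℕ} (z : E d) : 0 ≤ ch z :=
  Finset.prod_nonneg fun _ _ => caps_th_nonneg _

theorem caps_ch_le_one {d : ℕ} (z : E d) : ch z ≤ 1 :=
  Finset.prod_le_one (fun _ _ => caps_th_nonneg _) fun _ _ => caps_th_le_one _

/-- The `i`-th grid point on the line. -/
noncomputable def tc (t0 r : ℝ) (M i : ℕ) : ℝ := t0 + r * ((i : ℝ) - M)

/-- The grid point `k` of `ℝ^m`. -/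
noncomputable def zc {m : ℕ} (z0 : E m) (r : ℝ) (M : ℕ) (k : Fin m → ℕ) : E m := z0 + r • trp M k

/-- The cut-off at the grid point `tc`. -/
noncomputable def chi1 (t0 r : ℝ) (M i : ℕ) (t : ℝ) : ℝ := th ((t - tc t0 r M i) / r)

/-- The cut-off at the grid point `zc`. -/
noncomputable def chi2 {m : ℕ} (z0 : E m) (r : ℝ) (M : ℕ) (k : Fin m → ℕ) (z : E m) : ℝ :=
  ch (r⁻¹ • (z - zc z0 r M k))

/-- The grid indices on the line. -/
def gi (M : ℕ) : Finset ℕ := Finset.range (2 * M + 1)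

/-- The grid indices of `ℝ^m`. -/
def gk (m M : ℕ) : Finset (Fin m → ℕ) := Fintype.piFinset fun _ => Finset.range (2 * M + 1)

theorem card_gi (M : ℕ) : (gi M).card = 2 * M + 1 := by simp [gi]

theorem card_gk (m M : ℕ) : (gk m M).card = (2 * M + 1) ^ m := by simp [gk]

theorem chi1_nonneg (t0 r : ℝ) (M i : ℕ) (t : ℝ) : 0 ≤ chi1 t0 r M i t := caps_th_nonneg _

theorem chi1_le_one (t0 r : ℝ) (M i : ℕ) (t : ℝ) : chi1 t0 r M i t ≤ 1 := caps_th_le_one _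

theorem chi2_nonneg {m : ℕ} (z0 : E m) (r : ℝ) (M : ℕ) (k : Fin m → ℕ) (z : E m) :
    0 ≤ chi2 z0 r M k z := caps_ch_nonneg _

theorem chi2_le_one {m : ℕ} (z0 : E m) (r : ℝ) (M : ℕ) (k : Fin m → ℕ) (z : E m) :
    chi2 z0 r M k z ≤ 1 := caps_ch_le_one _

theorem contDiff_chi1 (t0 r : ℝ) (M i : ℕ) : ContDiff ℝ ∞ (chi1 t0 r M i) :=
  tr_contDiff_th.comp ((contDiff_id.sub contDiff_const).div_const _)

theorem contDiff_chi2 {m : ℕ} (z0 : E m) (r : ℝ) (M : ℕ) (k : Fin m → ℕ) :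
    ContDiff ℝ ∞ (chi2 z0 r M k) :=
  tr_contDiff_ch.comp ((contDiff_id.sub contDiff_const).const_smul _)

/-! ### Supports -/

theorem chi1_zero {t0 r : ℝ} (hr : 0 < r) {M i : ℕ} {t : ℝ} (h : r ≤ |t - tc t0 r M i|) :
    chi1 t0 r M i t = 0 := by
  refine tr_th_zero ?_
  rw [abs_div, abs_of_pos hr, le_div_iff₀ hr, one_mul]
  exact h

theorem chi1_supp {t0 r : ℝ} (hr : 0 < r) {M i : ℕ} {t : ℝ} (h : chi1 t0 r M i t ≠ 0) :
    |t - tc t0 r M i| < r := by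
  by_contra h1
  exact h (chi1_zero hr (not_lt.1 h1))

theorem chi2_zero {m : ℕ} {z0 : E m} {r : ℝ} (hr : 0 < r) {M : ℕ} {k : Fin m → ℕ} {z : E m}
    (h : √m * r < ‖z - zc z0 r M k‖) : chi2 z0 r M k z = 0 := by
  refine tr_ch_zero ?_
  rw [norm_smul, norm_inv, Real.norm_of_nonneg hr.le, inv_mul_eq_div, lt_div_iff₀ hr]
  exact h

theorem chi2_supp {m : ℕ} {z0 : E m} {r : ℝ} (hr : 0 < r) {M : ℕ} {k : Fin m → ℕ} {z : E m}
    (h : chi2 z0 r M k z ≠ 0) : ‖z - zc z0 r M k‖ ≤ √m * r := by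
  by_contra h1
  exact h (chi2_zero hr (not_le.1 h1))

/-! ### Sums -/

theorem caps_sum_th (M : ℕ) (x : ℝ) (hx : |x| ≤ M) :
    ∑ i ∈ gi M, th (x - ((i : ℝ) - M)) = 1 := by
  have h2 : ∀ j : ℕ, th (x - ((j : ℝ) - M)) =
      Real.smoothTransition (x + M + 1 - j) - Real.smoothTransition (x + M + 1 - (j + 1 : ℕ)) := by
    intro j
    unfold th
    congr 2
    · ring
    · push_cast
      ring
  simp only [h2, gi]
  rw [Finset.sum_range_sub' (fun j : ℕ => Real.smoothTransition (x + M + 1 - j))]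
  have h3 := abs_le.1 hx
  rw [Real.smoothTransition.one_of_one_le (by push_cast; linarith [h3.1]),
    Real.smoothTransition.zero_of_nonpos (by push_cast; linarith [h3.2]), sub_zero]

theorem sum_chi1 {t0 r : ℝ} (hr : 0 < r) {M : ℕ} {t : ℝ} (ht : |t - t0| ≤ r * M) :
    ∑ i ∈ gi M, chi1 t0 r M i t = 1 := by
  have h1 : |(t - t0) / r| ≤ M := by
    rw [abs_div, abs_of_pos hr, div_le_iff₀ hr, mul_comm]
    exact ht
  rw [← caps_sum_th M _ h1]
  refine Finset.sum_congr rfl fun i _ => ?_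
  unfold chi1 tc
  congr 1
  field_simp
  ring

theorem sum_chi2 {m : ℕ} {z0 : E m} {r : ℝ} (hr : 0 < r) {M : ℕ} {z : E m}
    (hz : ‖z - z0‖ ≤ r * M) : ∑ k ∈ gk m M, chi2 z0 r M k z = 1 := by
  have h1 : ∀ i, |(r⁻¹ • (z - z0)) i| ≤ M := by
    intro i
    refine (tr_coord_le _ i).trans ?_
    rw [norm_smul, norm_inv, Real.norm_of_nonneg hr.le, inv_mul_eq_div, div_le_iff₀ hr, mul_comm]
    exact hz
  rw [← tr_sum_ch m M _ h1]
  refine Finset.sum_congr rfl fun k _ => ?_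
  unfold chi2 zc
  congr 1
  rw [← sub_sub, smul_sub, smul_smul, inv_mul_cancel₀ hr.ne', one_smul]

theorem sum_chi {m : ℕ} {t0 : ℝ} {z0 : E m} {r : ℝ} (hr : 0 < r) {M : ℕ} {t : ℝ} {z : E m}
    (ht : |t - t0| ≤ r * M) (hz : ‖z - z0‖ ≤ r * M) :
    ∑ c ∈ gi M ×ˢ gk m M, chi1 t0 r M c.1 t * chi2 z0 r M c.2 z = 1 := by
  rw [Finset.sum_product]
  simp only
  rw [← Finset.sum_mul_sum, sum_chi1 hr ht, sum_chi2 hr hz, one_mul]

/-- A density supported near the centre is the sum of its pieces. -/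
theorem sum_pieces {m : ℕ} {t0 : ℝ} {z0 : E m} {r : ℝ} (hr : 0 < r) {M : ℕ} {b : ℝ → E m → ℂ}
    (hb : ∀ t z, b t z ≠ 0 → |t - t0| ≤ r * M ∧ ‖z - z0‖ ≤ r * M) (t : ℝ) (z : E m) :
    b t z = ∑ c ∈ gi M ×ˢ gk m M, ((chi1 t0 r M c.1 t * chi2 z0 r M c.2 z : ℝ) : ℂ) * b t z := by
  rw [← Finset.sum_mul, ← Complex.ofReal_sum]
  by_cases h : b t z = 0
  · rw [h, mul_zero]
  · rw [sum_chi hr (hb t z h).1 (hb t z h).2, Complex.ofReal_one, one_mul]

/-! ### Derivatives -/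

theorem caps_th_bound : ∃ B : ℕ → ℝ, (∀ j, 0 ≤ B j) ∧
    ∀ j x, ‖iteratedFDeriv ℝ j th x‖ ≤ B j := by
  have hs : HasCompactSupport th := by
    refine HasCompactSupport.intro (isCompact_closedBall (0 : ℝ) 1) fun y hy => tr_th_zero ?_
    rw [Metric.mem_closedBall, dist_zero_right, not_le, Real.norm_eq_abs] at hy
    exact hy.le
  have h1 : ∀ j : ℕ, ∃ B : ℝ, ∀ z, ‖iteratedFDeriv ℝ j th z‖ ≤ B := by
    intro j
    have h2 : Continuous (iteratedFDeriv ℝ j th) :=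
      tr_contDiff_th.continuous_iteratedFDeriv (by exact_mod_cast le_top)
    obtain ⟨B, hB⟩ := (hs.iteratedFDeriv j).exists_bound_of_continuous h2
    exact ⟨B, hB⟩
  choose B hB using h1
  exact ⟨fun j => |B j|, fun j => abs_nonneg _, fun j z => (hB j z).trans (le_abs_self _)⟩

/-- Scaling: the derivatives of `F(r⁻¹ (x - a))`. -/
theorem caps_scale {X : Type*} [NormedAddCommGroup X] [NormedSpace ℝ X] {F : X → ℝ}
    (hF : ContDiff ℝ ∞ F) {r : ℝ} (hr : 0 < r) (a : X) (j : ℕ) {B : ℝ}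
    (hB : ∀ x, ‖iteratedFDeriv ℝ j F x‖ ≤ B) (x : X) :
    ‖iteratedFDeriv ℝ j (fun x => F (r⁻¹ • (x - a))) x‖ ≤ B / r ^ j := by
  rw [iteratedFDeriv_comp_sub (f := fun y : X => F (r⁻¹ • y))]
  have h2 : (fun y : X => F (r⁻¹ • y)) =
      F ∘ (r⁻¹ • ContinuousLinearMap.id ℝ X) := by
    funext y; simp
  rw [h2, ContinuousLinearMap.iteratedFDeriv_comp_right _ (hF.of_le (by exact_mod_cast le_top)) _
    le_rfl]
  refine (ContinuousMultilinearMap.norm_compContinuousLinearMap_le _ _).trans ?_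
  rw [Finset.prod_const, Finset.card_univ, Fintype.card_fin]
  have h3 : ‖r⁻¹ • ContinuousLinearMap.id ℝ X‖ ≤ r⁻¹ := by
    rw [norm_smul, norm_inv, Real.norm_of_nonneg hr.le]
    exact mul_le_of_le_one_right (by positivity) ContinuousLinearMap.norm_id_le
  have hB0 : 0 ≤ B := (norm_nonneg _).trans (hB x)
  calc _ ≤ B * (r⁻¹) ^ j :=
        mul_le_mul (hB _) (pow_le_pow_left₀ (norm_nonneg _) h3 j) (by positivity) hB0
    _ = B / r ^ j := by rw [inv_pow, div_eq_mul_inv]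

theorem caps_bounds (m : ℕ) : ∃ B : ℕ → ℝ, (∀ j, 0 ≤ B j) ∧
    (∀ (t0 r : ℝ) (M i : ℕ), 0 < r → ∀ j t, ‖iteratedFDeriv ℝ j (chi1 t0 r M i) t‖ ≤ B j / r ^ j) ∧
    ∀ (z0 : E m) (r : ℝ) (M : ℕ) (k : Fin m → ℕ), 0 < r →
      ∀ j z, ‖iteratedFDeriv ℝ j (chi2 z0 r M k) z‖ ≤ B j / r ^ j := by
  obtain ⟨B1, h10, h1⟩ := caps_th_bound
  obtain ⟨B2, h20, h2⟩ := tr_ch_bound m
  refine ⟨fun j => max (B1 j) (B2 j), fun j => le_max_of_le_left (h10 j), ?_, ?_⟩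
  · intro t0 r M i hr j t
    have h3 := caps_scale tr_contDiff_th hr (tc t0 r M i) j (h1 j) t
    have h4 : (fun x : ℝ => th (r⁻¹ • (x - tc t0 r M i))) = chi1 t0 r M i := by
      funext x
      unfold chi1
      rw [smul_eq_mul, inv_mul_eq_div]
    rw [h4] at h3
    exact h3.trans (div_le_div_of_nonneg_right (le_max_left _ _) (by positivity))
  · intro z0 r M k hr j z
    exact (caps_scale tr_contDiff_ch hr (zc z0 r M k) j (h2 j) z).trans
      (div_le_div_of_nonneg_right (le_max_right _ _) (by positivity))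

/-! ### Counting -/

theorem tc_sub (t0 r : ℝ) (M i i' : ℕ) : tc t0 r M i - tc t0 r M i' = r * ((i : ℝ) - i') := by
  unfold tc; ring

theorem abs_tc_sub {r : ℝ} (hr : 0 < r) (t0 : ℝ) (M i i' : ℕ) :
    |tc t0 r M i - tc t0 r M i'| = r * |(i : ℝ) - i'| := by
  rw [tc_sub, abs_mul, abs_of_pos hr]

/-- Grid points on the line near a point. -/
theorem card_tc {r : ℝ} (hr : 0 < r) (t0 : ℝ) (M : ℕ) (t D : ℝ) (Z : Finset ℕ)
    (hZ : ∀ i ∈ Z, |t - tc t0 r M i| ≤ D) : Z.card ≤ 2 * ⌈2 * (D / r)⌉₊ + 1 := by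
  rcases Z.eq_empty_or_nonempty with h0 | ⟨i0, hi0⟩
  · rw [h0]; simp
  have hkey : ∀ i ∈ Z, |(i : ℝ) - i0| ≤ 2 * (D / r) := by
    intro i hi
    have h1 := hZ i hi
    have h2 := hZ i0 hi0
    have h3 : |tc t0 r M i - tc t0 r M i0| ≤ 2 * D := by
      have : tc t0 r M i - tc t0 r M i0 = (t - tc t0 r M i0) - (t - tc t0 r M i) := by ring
      rw [this]
      exact (abs_sub _ _).trans (by linarith)
    rw [abs_tc_sub hr, mul_comm, ← le_div_iff₀ hr] at h3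
    rw [mul_div_assoc] at h3
    exact h3
  have hsub : Z ⊆ Finset.Icc (i0 - ⌈2 * (D / r)⌉₊) (i0 + ⌈2 * (D / r)⌉₊) := by
    intro i hi
    have h1 := abs_le.1 ((hkey i hi).trans (Nat.le_ceil _))
    rw [Finset.mem_Icc]
    have h2 : (i : ℝ) ≤ (i0 + ⌈2 * (D / r)⌉₊ : ℕ) := by push_cast; linarith [h1.2]
    have h3 : (i0 : ℝ) ≤ (i + ⌈2 * (D / r)⌉₊ : ℕ) := by push_cast; linarith [h1.1]
    have h2' : i ≤ i0 + ⌈2 * (D / r)⌉₊ := by exact_mod_cast h2
    have h3' : i0 ≤ i + ⌈2 * (D / r)⌉₊ := by exact_mod_cast h3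
    omega
  refine (Finset.card_le_card hsub).trans ?_
  rw [Nat.card_Icc]
  omega

/-- Grid points of `ℝ^m` near a point. -/
theorem card_zc {m : ℕ} {r : ℝ} (hr : 0 < r) (z0 : E m) (M : ℕ) (z : E m) (D : ℝ)
    (Z : Finset (Fin m → ℕ)) (hZ : ∀ k ∈ Z, ‖z - zc z0 r M k‖ ≤ D) :
    Z.card ≤ (2 * ⌈2 * (D / r)⌉₊ + 1) ^ m := by
  refine tr_count m (D / r) M (r⁻¹ • (z - z0)) Z fun k hk => ?_
  have h1 := hZ k hk
  have h2 : r⁻¹ • (z - z0) - trp M k = r⁻¹ • (z - zc z0 r M k) := by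
    unfold zc
    rw [← sub_sub, smul_sub r⁻¹ (z - z0), smul_smul, inv_mul_cancel₀ hr.ne', one_smul]
  rw [h2, norm_smul, norm_inv, Real.norm_of_nonneg hr.le, inv_mul_eq_div]
  exact div_le_div_of_nonneg_right h1 hr.le

/-- Caps near a point. -/
theorem card_caps {m : ℕ} {r : ℝ} (hr : 0 < r) (t0 : ℝ) (z0 : E m) (M : ℕ) (t : ℝ) (z : E m)
    (D : ℝ) (Z : Finset (ℕ × (Fin m → ℕ)))
    (hZ : ∀ c ∈ Z, |t - tc t0 r M c.1| ≤ D ∧ ‖z - zc z0 r M c.2‖ ≤ D) :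
    Z.card ≤ (2 * ⌈2 * (D / r)⌉₊ + 1) ^ (m + 1) := by
  classical
  have h1 : Z ⊆ Z.image Prod.fst ×ˢ Z.image Prod.snd := by
    intro c hc
    rw [Finset.mem_product]
    exact ⟨Finset.mem_image_of_mem _ hc, Finset.mem_image_of_mem _ hc⟩
  refine (Finset.card_le_card h1).trans ?_
  rw [Finset.card_product, pow_succ, mul_comm]
  refine Nat.mul_le_mul ?_ ?_
  · refine card_zc hr z0 M z D _ fun k hk => ?_
    obtain ⟨c, hc, rfl⟩ := Finset.mem_image.1 hk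
    exact (hZ c hc).2
  · refine card_tc hr t0 M t D _ fun i hi => ?_
    obtain ⟨c, hc, rfl⟩ := Finset.mem_image.1 hi
    exact (hZ c hc).1

/-- The number of caps near a given cap (the constant `M` of the orthogonality), for `D ≥ r`. -/
theorem caps_near_le {r D : ℝ} (hr : 0 < r) (hD : r ≤ D) (n : ℕ) :
    (((2 * ⌈2 * (D / r)⌉₊ + 1) ^ n : ℕ) : ℝ) ≤ (7 * (D / r)) ^ n := by
  have h1 : 1 ≤ D / r := by rwa [one_le_div hr]
  have h2 : (⌈2 * (D / r)⌉₊ : ℝ) < 2 * (D / r) + 1 := Nat.ceil_lt_add_one (by positivity)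
  push_cast
  exact pow_le_pow_left₀ (by positivity) (by linarith) n

/-- The number of the caps which are needed for the ball of radius `δ`. -/
theorem caps_card_le (m : ℕ) {r δ : ℝ} (hr : 0 < r) (hr1 : r ≤ δ) :
    (((gi ⌈δ / r⌉₊ ×ˢ gk m ⌈δ / r⌉₊).card : ℕ) : ℝ) ≤ (5 * (δ / r)) ^ (m + 1) := by
  have h1 : 1 ≤ δ / r := by rwa [one_le_div hr]
  have h2 : (⌈δ / r⌉₊ : ℝ) < δ / r + 1 := Nat.ceil_lt_add_one (by positivity)
  rw [Finset.card_product, card_gi, card_gk, ← pow_succ']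
  push_cast
  exact pow_le_pow_left₀ (by positivity) (by linarith) _

theorem caps_le_ceil {r δ : ℝ} (hr : 0 < r) : δ ≤ r * ⌈δ / r⌉₊ := by
  have h := Nat.le_ceil (δ / r)
  rw [div_le_iff₀ hr] at h
  linarith

end Pool.Agent.LF
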