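import Pool.Agent.GNP.P0

/-!
A chart `X(t, z)` of the sphere: the gradients of the linear functions along it.
-/

set_option autoImplicit false

namespace Pool.Agent.LF

open Pool.Agent.MP_6cbfb8_an
open scoped RealInnerProductSpace

/-- The derivative of the chart in `t`. -/
noncomputable def Xt {m n : ℕ} (X : ℝ × E m → E n) (p : ℝ × E m) : E n := fderiv ℝ X p (1, 0)

/-- The derivative of the chart in `z`. -/
noncomputable def Xz {m n : ℕ} (X : ℝ × E m → E n) (p : ℝ × E m) : E m →L[ℝ] E n :=
  (fderiv ℝ X p).comp (ContinuousLinearMap.inr ℝ ℝ (E m))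

/-- The gradient in `z` of `w · X`. -/
noncomputable def Vw {m n : ℕ} (X : ℝ × E m → E n) (w : E n) (p : ℝ × E m) : E m :=
  ContinuousLinearMap.adjoint (Xz X p) w

/-- The gradient of `w · X`. -/
noncomputable def Gw {m n : ℕ} (X : ℝ × E m → E n) (w : E n) (p : ℝ × E m) : ℝ × E m :=
  (⟪w, Xt X p⟫, Vw X w p)

end Pool.Agent.LF
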