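import Pool.Agent.LF.G01

/-!
[LEAF] the number of active caps.
-/

set_option autoImplicit false

namespace Pool.Agent.LF.ACT

open Set Filter Topology Function Module Pool.Agent.MP_6cbfb8_an Pool.Agent.LF.G1
open scoped RealInnerProductSpace ContDiff

/-! ### Separated sets -/

/-- A separated set of reals in an interval. -/
theorem sep_card {κ : Type*} (S : Finset κ) (f : κ → ℝ) {d u L : ℝ} (hd : 0 < d) (hL : 0 ≤ L)
    (hf : ∀ a ∈ S, u ≤ f a ∧ f a ≤ u + L) (hsep : ∀ a ∈ S, ∀ b ∈ S, a ≠ b → d ≤ |f a - f b|) :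
    (S.card : ℝ) ≤ 1 + L / d := by
  have h1 : S.card ≤ (Finset.range (⌊L / d⌋₊ + 1)).card := by
    refine Finset.card_le_card_of_injOn (fun a => ⌊(f a - u) / d⌋₊) (fun a ha => ?_)
      (fun a ha b hb hab => ?_)
    · have h2 := hf a ha
      simp only [Finset.coe_range, Set.mem_Iio]
      refine Nat.lt_succ_of_le (Nat.floor_le_floor ?_)
      exact div_le_div_of_nonneg_right (by linarith) hd.le
    · by_contra hne
      have h2 := hsep a ha b hb hne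
      simp only at hab
      have h3 : 0 ≤ (f a - u) / d := div_nonneg (by linarith [(hf a ha).1]) hd.le
      have h4 : 0 ≤ (f b - u) / d := div_nonneg (by linarith [(hf b hb).1]) hd.le
      have h5 := Nat.floor_le h3
      have h6 := Nat.lt_floor_add_one ((f a - u) / d)
      have h7 := Nat.floor_le h4
      have h8 := Nat.lt_floor_add_one ((f b - u) / d)
      rw [hab] at h5 h6
      have h9 : |(f a - u) / d - (f b - u) / d| < 1 := by
        rw [abs_lt]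
        constructor <;> linarith
      rw [← sub_div, abs_div, abs_of_pos hd, div_lt_one hd] at h9
      have h10 : f a - u - (f b - u) = f a - f b := by ring
      rw [h10] at h9
      linarith
  rw [Finset.card_range] at h1
  have h2 : (S.card : ℝ) ≤ (⌊L / d⌋₊ : ℝ) + 1 := by exact_mod_cast h1
  have h3 := Nat.floor_le (div_nonneg hL hd.le)
  linarith

/-- Covering by the neighbours of a separated set. -/
theorem cover_card {κ P : Type*} [Fintype κ] [NormedAddCommGroup P] (pc : κ → P) (A : Set κ)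
    {D M K : ℝ} (hD : 0 ≤ D) (hM : 0 ≤ M)
    (hnear : ∀ a, ({a' | ‖pc a - pc a'‖ ≤ D}.ncard : ℝ) ≤ M)
    (hsep : ∀ S : Finset κ, (∀ a ∈ S, a ∈ A) →
      (∀ a ∈ S, ∀ b ∈ S, a ≠ b → D < ‖pc a - pc b‖) → (S.card : ℝ) ≤ K) :
    (A.ncard : ℝ) ≤ K * M := by
  classical
  obtain ⟨S, hS, hmax⟩ := Finset.exists_max_image
    ((Finset.univ : Finset (Finset κ)).filter fun S => (∀ a ∈ S, a ∈ A) ∧
      ∀ a ∈ S, ∀ b ∈ S, a ≠ b → D < ‖pc a - pc b‖) Finset.card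
    ⟨∅, by simp⟩
  simp only [Finset.mem_filter, Finset.mem_univ, true_and] at hS hmax
  have hsub : A ⊆ ⋃ s ∈ S, {a' | ‖pc s - pc a'‖ ≤ D} := by
    intro a ha
    by_contra h0
    simp only [mem_iUnion, exists_prop, not_exists, not_and, mem_ofPred_eq, not_le] at h0
    have haS : a ∉ S := fun h => by
      have h2 := h0 a h
      rw [sub_self, norm_zero] at h2
      exact absurd hD (not_le.2 h2)
    have h3 := hmax (insert a S) ⟨fun b hb => ?_, fun b hb b' hb' hne => ?_⟩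
    · rw [Finset.card_insert_of_notMem haS] at h3
      omega
    · rcases Finset.mem_insert.1 hb with rfl | hb
      · exact ha
      · exact hS.1 b hb
    · rcases Finset.mem_insert.1 hb with h4 | h4
      · rcases Finset.mem_insert.1 hb' with h5 | h5
        · exact absurd (h4.trans h5.symm) hne
        · rw [norm_sub_rev, h4]
          exact h0 b' h5
      · rcases Finset.mem_insert.1 hb' with h5 | h5
        · rw [h5]
          exact h0 b h4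
        · exact hS.2 b h4 b' h5 hne
  have h1 : (A.ncard : ℝ) ≤ ∑ s ∈ S, ({a' | ‖pc s - pc a'‖ ≤ D}.ncard : ℝ) := by
    have h2 : A.ncard ≤ (⋃ s ∈ S, {a' | ‖pc s - pc a'‖ ≤ D}).ncard :=
      ncard_le_ncard hsub (toFinite _)
    have h3 : (⋃ s ∈ S, {a' | ‖pc s - pc a'‖ ≤ D}).ncard ≤
        ∑ s ∈ S, ({a' | ‖pc s - pc a'‖ ≤ D}.ncard) := Finset.set_ncard_biUnion_le S _
    exact_mod_cast h2.trans h3
  refine h1.trans ((Finset.sum_le_card_nsmul S _ M fun s _ => hnear s).trans ?_)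
  rw [nsmul_eq_mul]
  exact mul_le_mul_of_nonneg_right (hsep S hS.1 hS.2) hM

/-! ### The strip -/

section

variable {m n : ℕ} {X : ℝ × E m → E n} (hX : ContDiff ℝ ∞ X) {p0 : ℝ × E m}

include hX

theorem g_linVb {δ η : ℝ} {p p' p1 : ℝ × E m} {w : E n} (hη : 0 ≤ η) (hw : ‖w‖ ≤ 8)
    (h : ∀ q, ‖q - p0‖ ≤ δ → ‖fderiv ℝ (fderiv ℝ X) q - fderiv ℝ (fderiv ℝ X) p1‖ ≤ η)
    (hp : ‖p - p0‖ ≤ δ) (hp' : ‖p' - p0‖ ≤ δ) :
    ‖Vw X w p - Vw X w p' - fderiv ℝ (Vw X w) p1 (p - p')‖ ≤ 8 * η * ‖p - p'‖ := by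
  refine (convex_closedBall p0 δ).norm_image_sub_le_of_norm_fderiv_le' (f := Vw X w)
    (fun x _ => (hasFDerivAt_Vw hX w x).differentiableAt) (fun x hx => ?_) ?_ ?_
  · rw [mem_closedBall_iff_norm] at hx
    refine ContinuousLinearMap.opNorm_le_bound _ (by positivity) fun u => ?_
    have e : fderiv ℝ (fderiv ℝ X) x u - fderiv ℝ (fderiv ℝ X) p1 u =
      (fderiv ℝ (fderiv ℝ X) x - fderiv ℝ (fderiv ℝ X) p1) u := rfl
    rw [sub_apply, fderiv_Vw hX, fderiv_Vw hX, ← Prod.snd_sub, ← map_sub, e]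
    refine (norm_snd_le _).trans ((norm_gl_le _ _).trans ?_)
    calc ‖w‖ * ‖(fderiv ℝ (fderiv ℝ X) x - fderiv ℝ (fderiv ℝ X) p1) u‖
        ≤ 8 * (η * ‖u‖) := by
          refine mul_le_mul hw ?_ (norm_nonneg _) (by norm_num)
          exact (ContinuousLinearMap.le_opNorm _ _).trans
            (mul_le_mul_of_nonneg_right (h x hx) (norm_nonneg _))
      _ = 8 * η * ‖u‖ := by ring
  · rwa [mem_closedBall_iff_norm]
  · rwa [mem_closedBall_iff_norm]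

/-- The chord of two points with small `V` is nearly a kernel vector at a third point. -/
theorem g_kapb {δ η c : ℝ} {p p' p1 : ℝ × E m} {w : E n} (hη : 0 ≤ η) (hc : 0 < c) (hw : ‖w‖ ≤ 8)
    (hq : ∀ v : E m, c * ‖v‖ ≤ ‖fderiv ℝ (Gw X w) p1 (0, v)‖)
    (h : ∀ q, ‖q - p0‖ ≤ δ → ‖fderiv ℝ (fderiv ℝ X) q - fderiv ℝ (fderiv ℝ X) p1‖ ≤ η)
    (hp : ‖p - p0‖ ≤ δ) (hp' : ‖p' - p0‖ ≤ δ) {θ C : ℝ} (hC : 0 < C) (hV : ‖Vw X w p‖ ≤ θ)
    (hV' : ‖Vw X w p'‖ ≤ θ) (hθ : C * θ ≤ ‖p - p'‖) :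
    ∃ k : ℝ × E m, fderiv ℝ (Vw X w) p1 k = 0 ∧
      ‖(p - p') - k‖ ≤ (2 / C + 8 * η) / c * ‖p - p'‖ := by
  obtain ⟨x, hx1, hx2⟩ := g_right hX hc hq (fderiv ℝ (Vw X w) p1 (p - p'))
  refine ⟨(p - p') - x, by rw [map_sub, hx1, sub_self], ?_⟩
  rw [sub_sub_cancel]
  have h1 := g_linVb hX hη hw h hp hp'
  have h2 : ‖fderiv ℝ (Vw X w) p1 (p - p')‖ ≤ 2 * θ + 8 * η * ‖p - p'‖ := by
    have e : fderiv ℝ (Vw X w) p1 (p - p') = (Vw X w p - Vw X w p') -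
        (Vw X w p - Vw X w p' - fderiv ℝ (Vw X w) p1 (p - p')) := by abel
    rw [e]
    refine (norm_sub_le _ _).trans (add_le_add ((norm_sub_le _ _).trans ?_) h1)
    linarith
  have h3 : θ ≤ ‖p - p'‖ / C := by
    rw [le_div_iff₀ hC]
    linarith
  have h4 : c * ‖x‖ ≤ (2 / C + 8 * η) * ‖p - p'‖ := by
    refine hx2.trans (h2.trans ?_)
    have : 2 * (‖p - p'‖ / C) = 2 / C * ‖p - p'‖ := by ring
    nlinarith
  rw [div_mul_eq_mul_div, le_div_iff₀ hc]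
  linarith

/-- **The strip.** A separated set of points with small `V` has at most `1 + C / θ` elements. -/
theorem strip (himm : Injective (fderiv ℝ X p0))
    (hN : ∀ w, w ≠ 0 → Vw X w p0 = 0 → ∀ v : E m, v ≠ 0 → fderiv ℝ (Gw X w) p0 (0, v) ≠ 0) :
    ∃ C δ : ℝ, 1 ≤ C ∧ 0 < δ ∧ ∀ (w : E n), 1 / 4 ≤ ‖w‖ → ‖w‖ ≤ 8 → ∀ θ : ℝ, 0 < θ →
      ∀ (κ : Type) (pc : κ → ℝ × E m) (S : Finset κ), (∀ a ∈ S, ‖pc a - p0‖ ≤ δ) →
      (∀ a ∈ S, ‖Vw X w (pc a)‖ ≤ θ) →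
      (∀ a ∈ S, ∀ b ∈ S, a ≠ b → C * θ < ‖pc a - pc b‖) → (S.card : ℝ) ≤ 1 + 1 / θ := by
  obtain ⟨c, A, hc, hA, H⟩ := g_base hX himm hN
  obtain ⟨δ1, hδ1, hb⟩ := H (c * (1 / 4) / 16) (by positivity)
  set C : ℝ := max 1 (4 / (c * (1 / 4))) with hC
  have hC1 : 1 ≤ C := le_max_left _ _
  have hC2 : 4 / (c * (1 / 4)) ≤ C := le_max_right _ _
  have hC0 : 0 < C := by linarith
  have hε' : (2 / C + 8 * (c * (1 / 4) / 16)) / c ≤ 1 / 4 := by
    rw [div_le_iff₀ hc]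
    have h1 : 2 / C ≤ c * (1 / 4) / 2 := by
      rw [div_le_iff₀ hC0]
      rw [div_le_iff₀ (by positivity)] at hC2
      nlinarith
    linarith
  refine ⟨C, min (min δ1 (c / 4)) (1 / 4), hC1, lt_min (lt_min hδ1 (by positivity)) (by norm_num),
    fun w hw1 hw2 θ hθ κ pc S hS hV hsep => ?_⟩
  rcases S.eq_empty_or_nonempty with rfl | ⟨a1, ha1⟩
  · rw [Finset.card_empty, Nat.cast_zero]
    positivity
  -- a single point
  by_cases hone : ∀ a ∈ S, a = a1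
  · have h1 : S.card ≤ 1 := Finset.card_le_one.2 fun a ha b hb => by rw [hone a ha, hone b hb]
    have h2 : (S.card : ℝ) ≤ 1 := by exact_mod_cast h1
    have : 0 < 1 / θ := by positivity
    linarith
  push Not at hone
  obtain ⟨a2, ha2, hne⟩ := hone
  have d1 : ∀ a ∈ S, ‖pc a - p0‖ ≤ δ1 := fun a ha =>
    (hS a ha).trans ((min_le_left _ _).trans (min_le_left _ _))
  have d2 : ∀ a ∈ S, ‖pc a - p0‖ ≤ c / 4 := fun a ha =>
    (hS a ha).trans ((min_le_left _ _).trans (min_le_right _ _))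
  have d3 : ∀ a ∈ S, ‖pc a - p0‖ ≤ 1 / 4 := fun a ha => (hS a ha).trans (min_le_right _ _)
  set p1 := pc a1 with hp1
  obtain ⟨_, _, _, b4, b5⟩ := hb p1 (d1 a1 ha1)
  have hVc : ‖Vw X w p1‖ < c := by
    have hs : ‖pc a2 - pc a1‖ ≤ c / 4 + c / 4 := by
      have e : pc a2 - pc a1 = (pc a2 - p0) - (pc a1 - p0) := by abel
      rw [e]
      exact (norm_sub_le _ _).trans (add_le_add (d2 _ ha2) (d2 _ ha1))
    have h1 := hsep a2 ha2 a1 ha1 hne
    have h2 : θ ≤ C * θ := by nlinarith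
    have h3 := hV a1 ha1
    linarith
  have hq := b4 w hw1 hw2 hVc
  have e6 : ∀ q, ‖q - p0‖ ≤ δ1 →
      ‖fderiv ℝ (fderiv ℝ X) q - fderiv ℝ (fderiv ℝ X) p1‖ ≤ c * (1 / 4) / 16 := fun q hq => by
    have h := norm_sub_rev (fderiv ℝ (fderiv ℝ X) q) (fderiv ℝ (fderiv ℝ X) p1)
    exact h.le.trans (b5 q hq).2
  have kap : ∀ a ∈ S, ∀ b ∈ S, a ≠ b → ∃ k : ℝ × E m, fderiv ℝ (Vw X w) p1 k = 0 ∧
      ‖(pc a - pc b) - k‖ ≤ 1 / 4 * ‖pc a - pc b‖ := fun a ha b hb' hab => by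
    obtain ⟨k, hk1, hk2⟩ := g_kapb hX (by positivity) hc hw2 hq e6 (d1 a ha) (d1 b hb') hC0
      (hV a ha) (hV b hb') (hsep a ha b hb' hab).le
    exact ⟨k, hk1, hk2.trans (mul_le_mul_of_nonneg_right hε' (norm_nonneg _))⟩
  -- the fixed kernel vector
  obtain ⟨k0, hk01, hk02⟩ := kap a2 ha2 a1 ha1 hne
  have hk0 : k0 ≠ 0 := by
    rintro rfl
    rw [sub_zero] at hk02
    have h1 := hsep a2 ha2 a1 ha1 hne
    have h2 : 0 < C * θ := by positivity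
    linarith
  obtain ⟨l, hl1, hl2⟩ := exists_dual_vector ℝ k0 (norm_ne_zero_iff.2 hk0)
  have hlow : ∀ a ∈ S, ∀ b ∈ S, a ≠ b → 1 / 2 * (C * θ) ≤ |l (pc a) - l (pc b)| :=
    fun a ha b hb' hab => by
      obtain ⟨k, hk1, hk2⟩ := kap a ha b hb' hab
      obtain ⟨s, rfl⟩ := g_prop hX hc hq hk01 hk1 hk0
      have h1 : |l (s • k0)| = ‖s • k0‖ := by
        rw [map_smul, hl2, norm_smul, smul_eq_mul, abs_mul]
        simp
      have h2 : ‖pc a - pc b‖ - ‖s • k0‖ ≤ ‖(pc a - pc b) - s • k0‖ := norm_sub_norm_le _ _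
      have h3 : |l ((pc a - pc b) - s • k0)| ≤ ‖(pc a - pc b) - s • k0‖ := by
        have := l.le_opNorm ((pc a - pc b) - s • k0)
        rwa [hl1, one_mul] at this
      rw [map_sub, map_sub] at h3
      have h4 : |l (s • k0)| - |l (pc a) - l (pc b) - l (s • k0)| ≤ |l (pc a) - l (pc b)| := by
        have := abs_sub_abs_le_abs_sub (l (s • k0)) (l (s • k0) - (l (pc a) - l (pc b)))
        have e1 : l (s • k0) - (l (s • k0) - (l (pc a) - l (pc b))) = l (pc a) - l (pc b) := by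
          ring
        rw [e1, abs_sub_comm (l (s • k0)) (l (pc a) - l (pc b))] at this
        exact this
      have h5 := hsep a ha b hb' hab
      linarith
  have hup : ∀ a ∈ S, l p0 - 1 / 4 ≤ l (pc a) ∧ l (pc a) ≤ l p0 - 1 / 4 + 1 / 2 := fun a ha => by
    have h3 : |l (pc a - p0)| ≤ 1 / 4 := by
      have := l.le_opNorm (pc a - p0)
      rw [hl1, one_mul] at this
      exact this.trans (d3 a ha)
    rw [map_sub, abs_le] at h3
    constructor <;> linarith [h3.1, h3.2]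
  have h1 := sep_card S (fun a => l (pc a)) (d := 1 / 2 * (C * θ)) (by positivity)
    (by norm_num : (0 : ℝ) ≤ 1 / 2) hup hlow
  refine h1.trans (add_le_add le_rfl ?_)
  rw [div_le_div_iff₀ (by positivity) hθ]
  nlinarith

/-- **The number of active caps.** -/
theorem act (himm : Injective (fderiv ℝ X p0))
    (hN : ∀ w, w ≠ 0 → Vw X w p0 = 0 → ∀ v : E m, v ≠ 0 → fderiv ℝ (Gw X w) p0 (0, v) ≠ 0) :
    ∃ C δ : ℝ, 1 ≤ C ∧ 0 < δ ∧ ∀ (w : E n), 1 / 4 ≤ ‖w‖ → ‖w‖ ≤ 8 → ∀ θ M : ℝ, 0 < θ → 0 ≤ M →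
      ∀ (κ : Type) [Fintype κ] (pc : κ → ℝ × E m), (∀ a, ‖pc a - p0‖ ≤ δ) →
      (∀ a, ({a' | ‖pc a - pc a'‖ ≤ C * θ}.ncard : ℝ) ≤ M) →
      ({a | ‖Vw X w (pc a)‖ ≤ θ}.ncard : ℝ) ≤ (1 + 1 / θ) * M := by
  obtain ⟨C, δ, hC, hδ, h⟩ := strip hX himm hN
  refine ⟨C, δ, hC, hδ, fun w hw1 hw2 θ M hθ hM κ _ pc hpc hnear => ?_⟩
  refine cover_card pc _ (by positivity : 0 ≤ C * θ) hM hnear fun S hS hsep => ?_
  exact h w hw1 hw2 θ hθ κ pc S (fun a _ => hpc a) hS hsep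

end

end Pool.Agent.LF.ACT
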