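-- Pool/Agent/LF/Cut.lean
import Mathlib

/-!
Row CH1 of LEAF, second half: a map which is smooth near a point is cut off to a smooth map of the
whole space with all derivatives bounded.
-/

namespace Pool.Agent.LF

open Set Filter Topology
open scoped ContDiff

/-- A map which is smooth in the ball of radius `r` about `p0` agrees in the closed ball of radius
`δ < r` with a smooth map with compact support in the ball and bounded derivatives. -/
theorem cut_off {W F : Type*} [NormedAddCommGroup W] [NormedSpace ℝ W] [FiniteDimensional ℝ W]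
    [NormedAddCommGroup F] [NormedSpace ℝ F] (X : W → F) (p0 : W) {δ r : ℝ} (hδ : 0 < δ)
    (hδr : δ < r) (hX : ∀ p, ‖p - p0‖ < r → ContDiffAt ℝ ∞ X p) :
    ∃ (Y : W → F) (A : ℕ → ℝ), ContDiff ℝ ∞ Y ∧ (∀ j, 0 ≤ A j) ∧
      (∀ j p, ‖iteratedFDeriv ℝ j Y p‖ ≤ A j) ∧ (∀ p, ‖p - p0‖ ≤ δ → Y p = X p) ∧
      (∀ p, ‖p - p0‖ < δ → Y =ᶠ[𝓝 p] X) ∧ ∀ p, r ≤ ‖p - p0‖ → Y p = 0 := by
  obtain ⟨ρ, h1, h2⟩ := exists_between hδr
  obtain ⟨ρ', h3, h4⟩ := exists_between h2
  let f : ContDiffBump p0 := ⟨δ, ρ, hδ, h1⟩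
  obtain ⟨Y, hY⟩ : ∃ Y : W → F, Y = fun p => f p • X p := ⟨_, rfl⟩
  have hz : ∀ p, ρ < ‖p - p0‖ → Y p = 0 := by
    intro p hp
    have h5 : f p = 0 := f.zero_of_le_dist (by rw [dist_eq_norm]; exact hp.le)
    rw [hY]
    simp only
    rw [h5, zero_smul]
  have hsm : ContDiff ℝ ∞ Y := by
    rw [contDiff_iff_contDiffAt]
    intro p
    rcases lt_or_ge ‖p - p0‖ r with h | h
    · rw [hY]
      exact f.contDiffAt.smul (hX p h)
    · have h5 : Y =ᶠ[𝓝 p] fun _ => (0 : F) := by
        have h6 : {q : W | ρ < ‖q - p0‖} ∈ 𝓝 p :=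
          (isOpen_lt continuous_const (by fun_prop)).mem_nhds (h2.trans_le h)
        filter_upwards [h6] with q hq using hz q hq
      exact contDiffAt_const.congr_of_eventuallyEq h5
  have hcs : HasCompactSupport Y := by
    refine HasCompactSupport.intro (isCompact_closedBall p0 ρ) fun p hp => hz p ?_
    rw [Metric.mem_closedBall, dist_eq_norm, not_le] at hp
    exact hp
  have hb : ∀ j : ℕ, ∃ A : ℝ, ∀ p, ‖iteratedFDeriv ℝ j Y p‖ ≤ A := fun j =>
    (hcs.iteratedFDeriv (𝕜 := ℝ) j).exists_bound_of_continuous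
      (hsm.continuous_iteratedFDeriv (by exact_mod_cast le_top))
  choose A hA using hb
  have heq : ∀ p, ‖p - p0‖ ≤ δ → Y p = X p := by
    intro p hp
    have h5 : f p = 1 := f.one_of_mem_closedBall (by
      rw [Metric.mem_closedBall, dist_eq_norm]
      exact hp)
    rw [hY]
    simp only
    rw [h5, one_smul]
  refine ⟨Y, A, hsm, fun j => (norm_nonneg _).trans (hA j p0), hA, heq, fun p hp => ?_,
    fun p hp => hz p (h2.trans_le hp)⟩
  have h6 : {q : W | ‖q - p0‖ < δ} ∈ 𝓝 p :=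
    (isOpen_lt (by fun_prop) continuous_const).mem_nhds hp
  filter_upwards [h6] with q hq using heq q (le_of_lt hq)

end Pool.Agent.LF
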