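import Pool.Agent.LF.GPT

/-!
[LEAF] the same with the frame.
-/

set_option autoImplicit false

namespace Pool.Agent.LF

open Pool.Agent.MP_6cbfb8_an
open scoped RealInnerProductSpace ContDiff

/-- The bi-Lipschitz bound, the rectangle form, the determinant form and the frame. -/
theorem gpf {m : ℕ} {X : ℝ × E m → E (m + 2)} {p0 : ℝ × E m} {δ : ℝ} (hδ : 0 < δ)
    (hX : ContDiff ℝ ∞ X) (h1 : ∀ p, ‖p - p0‖ ≤ δ → ‖X p‖ = 1)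
    (himm : ∀ p, ‖p - p0‖ ≤ δ → ∀ v, fderiv ℝ X p v = 0 → v = 0)
    (hN : ∀ w, w ≠ 0 → Vw X w p0 = 0 → ∀ y, fderiv ℝ (Gw X w) p0 (0, y) = 0 → y = 0) :
    ∃ c C δ1 : ℝ, 0 < c ∧ 1 ≤ C ∧ 0 < δ1 ∧ δ1 ≤ δ ∧ δ1 ≤ 1 / 4 ∧
      (∀ p p', ‖p - p0‖ ≤ δ1 → ‖p' - p0‖ ≤ δ1 →
        c * ‖p - p'‖ ≤ ‖X p - X p'‖ ∧ ‖X p - X p'‖ ≤ C * ‖p - p'‖) ∧
      (∀ (w : E (m + 2)) (θ : ℝ) (p p' p'' : ℝ × E m), 1 / 4 ≤ ‖w‖ → ‖w‖ ≤ 8 →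
        ‖p - p0‖ ≤ δ1 → ‖p' - p0‖ ≤ δ1 → ‖p'' - p0‖ ≤ δ1 →
        ‖Vw X w p‖ ≤ θ → ‖Vw X w p'‖ ≤ θ → ‖Vw X w p''‖ ≤ θ →
        C * θ ≤ ‖p - p'‖ → C * θ ≤ ‖p - p''‖ →
        c * (‖p - p'‖ * ‖p - p''‖) ≤ |⟪X p - X p', X p - X p''⟫|) ∧
      Trv X p0 δ1 c C ∧
      (∀ p, ‖p - p0‖ ≤ δ1 → ∀ ξ : E (m + 2), c * ‖ξ‖ ≤ |⟪ξ, X p⟫| + ‖Gw X ξ p‖) := by
  obtain ⟨c, C, δ1, h2, h3, h4, h5, h6, h7, h8, h9⟩ := gpt hδ hX h1 himm hN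
  have hi : Function.Injective (fderiv ℝ X p0) := by
    intro u v huv
    have h2 : fderiv ℝ X p0 (u - v) = 0 := by rw [map_sub, huv, sub_self]
    exact sub_eq_zero.1 (himm p0 (by simpa using hδ.le) _ h2)
  obtain ⟨cf, hcf, δf, hδf, hf⟩ := G1.g_frame hX hi ⟨δ, hδ, h1⟩
  have e1 : ∀ {q : ℝ × E m}, ‖q - p0‖ ≤ min δ1 δf → ‖q - p0‖ ≤ δ1 := fun h =>
    h.trans (min_le_left _ _)
  refine ⟨min c cf, C, min δ1 δf, lt_min h2 hcf, h3, lt_min h4 hδf, (min_le_left _ _).trans h5,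
    (min_le_left _ _).trans h6, fun p p' hp hp' => ⟨?_, (h7 p p' (e1 hp) (e1 hp')).2⟩,
    fun w θ p p' p'' hw1 hw2 hp hp' hp'' hV hV' hV'' h10 h11 => ?_,
    fun p p' w θ a1 a2 a3 a4 a5 a6 a7 a8 w1 y1 => ?_, fun p hp ξ => ?_⟩
  · exact (mul_le_mul_of_nonneg_right (min_le_left _ _) (norm_nonneg _)).trans
      (h7 p p' (e1 hp) (e1 hp')).1
  · exact (mul_le_mul_of_nonneg_right (min_le_left _ _) (by positivity)).trans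
      (h8 w θ p p' p'' hw1 hw2 (e1 hp) (e1 hp') (e1 hp'') hV hV' hV'' h10 h11)
  · exact (mul_le_mul_of_nonneg_right (min_le_left _ _) (by positivity)).trans
      (h9 p p' w θ (e1 a1) (e1 a2) a3 a4 a5 a6 a7 a8 w1 y1)
  · exact (mul_le_mul_of_nonneg_right (min_le_right _ _) (norm_nonneg _)).trans
      (hf p (hp.trans (min_le_right _ _)) ξ)

end Pool.Agent.LF
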