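import Pool.Agent.LF.KAK2

/-!
The square function estimate: all pairs of intervals, assembly.
-/

set_option autoImplicit false

namespace Pool.Agent.LF

open MeasureTheory Set Module Pool.Agent.MP_6cbfb8_an Pool.Agent.GNP
open scoped ENNReal NNReal Real RealInnerProductSpace ContDiff

/-- The number of dyadic scales. -/
theorem kak_L {a : ℝ} (ha : 0 < a) : ∃ C : ℝ, 0 < C ∧ ∀ R : ℝ, 1 ≤ R → ∃ L : ℕ,
    R / a ≤ 2 ^ L ∧ (L : ℝ) ≤ C * (1 + Real.log R) := by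
  have hl2 : 0 < Real.log 2 := Real.log_pos (by norm_num)
  refine ⟨(1 + |Real.log a|) / Real.log 2 + 1, by positivity, fun R hR => ?_⟩
  have hR0 : 0 < R := by linarith
  have hlR : 0 ≤ Real.log R := Real.log_nonneg hR
  refine ⟨⌈Real.log (R / a) / Real.log 2⌉₊, ?_, ?_⟩
  · have h1 : Real.log (R / a) / Real.log 2 ≤ (⌈Real.log (R / a) / Real.log 2⌉₊ : ℝ) :=
      Nat.le_ceil _
    rw [div_le_iff₀ hl2] at h1
    have h2 : Real.log (R / a) ≤ Real.log (2 ^ ⌈Real.log (R / a) / Real.log 2⌉₊) := by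
      rw [Real.log_pow]
      exact h1
    exact (Real.log_le_log_iff (by positivity) (by positivity)).1 h2
  · have h1 : Real.log (R / a) / Real.log 2 ≤ (1 + |Real.log a|) / Real.log 2 *
        (1 + Real.log R) := by
      rw [Real.log_div hR0.ne' ha.ne', div_mul_eq_mul_div]
      refine div_le_div_of_nonneg_right ?_ hl2.le
      have h3 := neg_abs_le (Real.log a)
      have h4 := abs_nonneg (Real.log a)
      nlinarith [mul_nonneg h4 hlR]
    have h2 : (⌈Real.log (R / a) / Real.log 2⌉₊ : ℝ) ≤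
        (1 + |Real.log a|) / Real.log 2 * (1 + Real.log R) + 1 := by
      rcases le_or_gt 0 (Real.log (R / a) / Real.log 2) with h3 | h3
      · exact (Nat.ceil_lt_add_one h3).le.trans (by linarith)
      · rw [Nat.ceil_eq_zero.2 h3.le]
        push_cast
        positivity
    calc (⌈Real.log (R / a) / Real.log 2⌉₊ : ℝ)
        ≤ (1 + |Real.log a|) / Real.log 2 * (1 + Real.log R) + 1 := h2
      _ ≤ (1 + |Real.log a|) / Real.log 2 * (1 + Real.log R) + 1 * (1 + Real.log R) := by linarith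
      _ = _ := by ring

/-- **The square function estimate.** -/
theorem kak {m : ℕ} {X : ℝ × E m → E (m + 2)} (hX : ContDiff ℝ ∞ X) {A : ℝ} (hA : 0 ≤ A)
    (h2 : ∀ p, ‖fderiv ℝ (fderiv ℝ X) p‖ ≤ A)
    (h3 : ∀ p p', ‖fderiv ℝ (fderiv ℝ X) p - fderiv ℝ (fderiv ℝ X) p'‖ ≤ A * ‖p - p'‖)
    {p0 : ℝ × E m} {δ c C0 cf : ℝ} (hδ : 0 ≤ δ) (hδ1 : δ ≤ 1 / 4) (hc : 0 < c) (hC0 : 0 < C0)
    (hcf : 0 < cf) (hT : Trv X p0 δ c C0) (hX1 : ∀ p, ‖p - p0‖ ≤ δ → ‖X p‖ = 1)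
    (hfr : ∀ p, ‖p - p0‖ ≤ δ → ∀ ξ, cf * ‖ξ‖ ≤ |⟪ξ, X p⟫| + ‖Gw X ξ p‖) :
    ∃ Ck : ℝ, 0 < Ck ∧ ∀ R : ℝ, 1 ≤ R → ∀ (ι : Type) [Fintype ι] (t : ι → ℝ)
      (g : ι → ℝ → ℝ≥0∞) (Λ : ℝ), √R ≤ Λ → (∀ i, |t i - p0.1| ≤ δ) →
      (∀ i j, i ≠ j → 1 / √R ≤ |t i - t j|) → (∀ i, Measurable (g i)) →
      (∀ i, ∫⁻ τ, g i τ ≤ ENNReal.ofReal (1 / √R)) → (∀ i τ, g i τ ≤ ENNReal.ofReal (1 / R)) →
      ∫⁻ ξ in {ξ : E (m + 2) | R / 2 ≤ ‖ξ‖ ∧ ‖ξ‖ ≤ 4 * R},
        (∑ i, ∫⁻ z in Metric.closedBall p0.2 δ,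
          ({z | ‖Vw X ξ (t i, z)‖ ≤ Λ}.indicator fun z => g i ⟪ξ, Xt X (t i, z)⟫) z) ^ 2 ≤
        ENNReal.ofReal (Ck * (Λ / √R) ^ (2 * m + 1) * (1 + Real.log R)) := by
  obtain ⟨C1, hC1, hk1⟩ := kak1 hX hA h2 h3 hδ1 hc hT
  obtain ⟨Cn, hCn, hnear⟩ := kak_near m hcf
  obtain ⟨CL, hCL, hL⟩ := kak_L (a := 4 * C0) (by positivity)
  refine ⟨2 * (4 * C0 + 1) * (Cn * (2 * C0) ^ m) + CL * (2 * C1 * (4 + 1 / (2 * C0))),
    by positivity, ?_⟩
  intro R hR ι _ t g Λ hΛ ht hsep hg hgi hgs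
  have hR0 : 0 < R := by linarith
  have hsR : 0 < √R := Real.sqrt_pos.2 hR0
  have hsR1 : 1 ≤ √R := Real.one_le_sqrt.2 hR
  have hRR : √R * √R = R := Real.mul_self_sqrt hR0.le
  have hΛ0 : 0 < Λ := hsR.trans_le hΛ
  set x : ℝ := Λ / √R with hx
  have hx1 : 1 ≤ x := by rwa [hx, one_le_div hsR]
  have hx0 : 0 < x := by linarith
  have hlR : 0 ≤ Real.log R := Real.log_nonneg hR
  set B : Set (E m) := Metric.closedBall p0.2 δ with hB
  have hBm : MeasurableSet B := Metric.isClosed_closedBall.measurableSet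
  set Ann : Set (E (m + 2)) := {ξ | R / 2 ≤ ‖ξ‖ ∧ ‖ξ‖ ≤ 4 * R} with hAnn
  set r0 : ℝ := 2 * C0 * Λ / R with hr0
  have hr00 : 0 < r0 := by positivity
  have hdR : ∀ a : ℝ, a / R = a / √R / √R := fun a => by rw [div_div, hRR]
  have hr0x : r0 * √R = 2 * C0 * x := by
    rw [hr0, hx, hdR, div_mul_cancel₀ _ hsR.ne', mul_div_assoc]
  obtain ⟨L, hL1, hL2⟩ := hL R hR
  -- the number of intervals
  have hcard : (Fintype.card ι : ℝ) ≤ 2 * √R := by
    have h1 := ks_card_sep t (h := 1 / √R) (by positivity) hsep p0.1 δ hδ Finset.univ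
      fun i _ => ht i
    rw [Finset.card_univ] at h1
    refine h1.trans ?_
    rw [div_div_eq_mul_div, div_one]
    nlinarith
  have hcardE : (Fintype.card ι : ℝ≥0∞) ≤ ENNReal.ofReal (2 * √R) := by
    rw [← ENNReal.ofReal_natCast]
    exact ENNReal.ofReal_le_ofReal hcard
  -- the functions
  set F : ι → E (m + 2) → E m → ℝ≥0∞ := fun i => kF X B Λ (t i) (g i) with hF
  have hFB : ∀ i ξ z, F i ξ z ≠ 0 → z ∈ B := by
    intro i ξ z h1
    by_contra h4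
    apply h1
    rw [hF]
    unfold kF
    exact indicator_of_notMem (fun h5 => h4 h5.1) _
  have hFeq : ∀ i ξ, ∫⁻ z in B, ({z | ‖Vw X ξ (t i, z)‖ ≤ Λ}.indicator
      fun z => g i ⟪ξ, Xt X (t i, z)⟫) z = ∫⁻ z in B, F i ξ z := by
    intro i ξ
    refine setLIntegral_congr_fun hBm fun z hz => ?_
    simp only [hF]
    unfold kF
    by_cases h5 : ‖Vw X ξ (t i, z)‖ ≤ Λ
    · rw [indicator_of_mem (show (ξ, z) ∈ {x : E (m + 2) × E m | x.2 ∈ B ∧
        ‖Vw X x.1 (t i, x.2)‖ ≤ Λ} from ⟨hz, h5⟩), indicator_of_mem (show z ∈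
        {z | ‖Vw X ξ (t i, z)‖ ≤ Λ} from h5)]
    · rw [indicator_of_notMem (show (ξ, z) ∉ {x : E (m + 2) × E m | x.2 ∈ B ∧
        ‖Vw X x.1 (t i, x.2)‖ ≤ Λ} from fun h6 => h5 h6.2), indicator_of_notMem (show z ∉
        {z | ‖Vw X ξ (t i, z)‖ ≤ Λ} from h5)]
  simp only [hFeq]
  set D : ι → ι → E m → E m → ℝ := fun i j z z' => ‖((t i, z) : ℝ × E m) - (t j, z')‖ with hD
  have hD2 : 2 * δ ≤ 2 ^ L * r0 := by
    have h4 : R / (4 * C0) * r0 ≤ 2 ^ L * r0 := mul_le_mul_of_nonneg_right hL1 hr00.le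
    refine le_trans ?_ h4
    have h5 : R / (4 * C0) * r0 = Λ / 2 := by
      rw [hr0]
      field_simp
      ring
    rw [h5]
    linarith
  -- the scales
  have hoff : ∀ i j, ∀ k < L, ∫⁻ ξ in Ann, ∫⁻ z in B, ∫⁻ z' in B,
      {x : ℝ | 2 ^ k * r0 ≤ x ∧ x ≤ 2 * (2 ^ k * r0)}.indicator 1 (D i j z z') *
        (F i ξ z * F j ξ z') ≤ ENNReal.ofReal (C1 * x ^ (2 * m) / (R * (2 ^ k * r0))) := by
    intro i j k _
    have hρ0 : 0 < 2 ^ k * r0 := by positivity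
    have h4 := hk1 R Λ (2 ^ k * r0) hR hΛ hρ0 (by
      have h5 : R * (2 ^ k * r0) = 2 ^ k * (2 * C0 * Λ) := by
        rw [hr0]
        field_simp
      rw [h5]
      exact le_mul_of_one_le_left (by positivity) (one_le_pow₀ (by norm_num)))
      (t i) (t j) (ht i) (ht j) (g i) (g j) (hg i) (hg j) (hgi i) (hgi j)
    refine le_trans (lintegral_mono fun ξ => ?_) h4
    refine setLIntegral_mono' hBm fun z hz => setLIntegral_mono' hBm fun z' hz' => ?_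
    by_cases h5 : (ξ, z, z') ∈ kS X (t i) (t j) (2 ^ k * r0) Λ
    · rw [indicator_of_mem h5, Pi.one_apply, one_mul]
      have h6 : {x : ℝ | 2 ^ k * r0 ≤ x ∧ x ≤ 2 * (2 ^ k * r0)}.indicator (1 : ℝ → ℝ≥0∞)
          (D i j z z') ≤ 1 := indicator_le_self _ _ _
      refine (mul_le_mul' h6 le_rfl).trans ?_
      rw [one_mul]
      simp only [hF]
      unfold kF
      exact mul_le_mul' (indicator_le_self _ _ _) (indicator_le_self _ _ _)
    · rw [indicator_of_notMem h5, zero_mul, nonpos_iff_eq_zero]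
      by_cases h6 : D i j z z' ∈ {x : ℝ | 2 ^ k * r0 ≤ x ∧ x ≤ 2 * (2 ^ k * r0)}
      · have h7 : ¬ (‖Vw X ξ (t i, z)‖ ≤ Λ ∧ ‖Vw X ξ (t j, z')‖ ≤ Λ) := fun h8 =>
          h5 ⟨h6.1, h6.2, h8.1, h8.2⟩
        simp only [hF]
        unfold kF
        rw [not_and_or] at h7
        rcases h7 with h7 | h7
        · rw [indicator_of_notMem (show (ξ, z) ∉ {x : E (m + 2) × E m | x.2 ∈ B ∧
            ‖Vw X x.1 (t i, x.2)‖ ≤ Λ} from fun h8 => h7 h8.2), zero_mul, mul_zero]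
        · rw [indicator_of_notMem (show (ξ, z') ∉ {x : E (m + 2) × E m | x.2 ∈ B ∧
            ‖Vw X x.1 (t j, x.2)‖ ≤ Λ} from fun h8 => h7 h8.2), mul_zero, mul_zero]
      · rw [indicator_of_notMem h6, zero_mul]
  have hne : ∀ i j, ∫⁻ ξ in Ann, ∫⁻ z in B, ∫⁻ z' in B, {x : ℝ | x ≤ r0}.indicator 1 (D i j z z') *
      (F i ξ z * F j ξ z') ≤ ENNReal.ofReal (Cn * (Λ ^ m * r0 ^ m) / √R) := fun i j =>
    hnear X hX p0 δ hδ1 hX1 hfr R Λ r0 (t i) (t j) (g i) (g j) hR0 hΛ0.le hr00.le (ht i) (hg i)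
      (hg j) (hgi i) (hgs j)
  have key := ks_sq_sum (volume.restrict Ann) (volume.restrict B) F
    (fun i => kF_meas hX hBm Λ (t i) (hg i)) D (fun i j => by
      have : Continuous fun x : E m × E m => ‖((t i, x.1) : ℝ × E m) - (t j, x.2)‖ := by fun_prop
      exact this.measurable) t (h := 1 / √R) (by positivity) hsep (fun i j z z' => by
      simp only [hD]
      rw [Prod.norm_def]
      exact le_max_left _ _) r0 hr00 L (fun i j ξ z z' h4 h5 =>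
        (kak_dist (ht i) (ht j) (hFB i ξ z h4) (hFB j ξ z' h5)).trans hD2)
    (ENNReal.ofReal (Cn * (Λ ^ m * r0 ^ m) / √R))
    (fun k => ENNReal.ofReal (C1 * x ^ (2 * m) / (R * (2 ^ k * r0)))) hne hoff
  refine key.trans ?_
  -- the two sums
  have hs1 : (Fintype.card ι : ℝ≥0∞) * (ENNReal.ofReal (2 * r0 / (1 / √R) + 1) *
      ENNReal.ofReal (Cn * (Λ ^ m * r0 ^ m) / √R)) ≤
      ENNReal.ofReal (2 * (4 * C0 + 1) * (Cn * (2 * C0) ^ m) * x ^ (2 * m + 1)) := by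
    rw [← ENNReal.ofReal_mul (by positivity)]
    refine (mul_le_mul' hcardE le_rfl).trans ?_
    rw [← ENNReal.ofReal_mul (by positivity)]
    apply ENNReal.ofReal_le_ofReal
    have e1 : 2 * r0 / (1 / √R) + 1 = 4 * C0 * x + 1 := by
      rw [div_div_eq_mul_div, div_one, mul_assoc, hr0x]
      ring
    have e2 : Λ ^ m * r0 ^ m = (2 * C0) ^ m * x ^ (2 * m) := by
      have e3 : Λ * r0 = 2 * C0 * (x * x) := by
        rw [hr0, hx, hdR]
        ring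
      rw [← mul_pow, e3, mul_pow, ← sq, ← pow_mul]
    rw [e1, e2]
    have e4 : 4 * C0 * x + 1 ≤ (4 * C0 + 1) * x := by nlinarith
    calc 2 * √R * ((4 * C0 * x + 1) * (Cn * ((2 * C0) ^ m * x ^ (2 * m)) / √R))
        = 2 * (4 * C0 * x + 1) * (Cn * (2 * C0) ^ m) * x ^ (2 * m) := by
          field_simp
      _ ≤ 2 * ((4 * C0 + 1) * x) * (Cn * (2 * C0) ^ m) * x ^ (2 * m) := by gcongr
      _ = _ := by ring
  have hs2 : ∀ k ∈ Finset.range L, (Fintype.card ι : ℝ≥0∞) *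
      (ENNReal.ofReal (2 * (2 * (2 ^ k * r0)) / (1 / √R) + 1) *
        ENNReal.ofReal (C1 * x ^ (2 * m) / (R * (2 ^ k * r0)))) ≤
      ENNReal.ofReal (2 * C1 * (4 + 1 / (2 * C0)) * x ^ (2 * m)) := by
    intro k _
    rw [← ENNReal.ofReal_mul (by positivity)]
    refine (mul_le_mul' hcardE le_rfl).trans ?_
    rw [← ENNReal.ofReal_mul (by positivity)]
    apply ENNReal.ofReal_le_ofReal
    set y : ℝ := 2 ^ k * r0 * √R with hy
    have hy0 : 2 * C0 ≤ y := by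
      rw [hy, mul_assoc, hr0x]
      have h4 : (1 : ℝ) ≤ 2 ^ k := one_le_pow₀ (by norm_num)
      nlinarith [mul_pos hC0 hx0]
    have hy1 : 0 < y := by linarith
    have e1 : 2 * (2 * (2 ^ k * r0)) / (1 / √R) + 1 = 4 * y + 1 := by
      rw [div_div_eq_mul_div, div_one, hy]
      ring
    have e2 : R * (2 ^ k * r0) = √R * y := by
      calc R * (2 ^ k * r0) = (√R * √R) * (2 ^ k * r0) := by rw [hRR]
        _ = √R * y := by rw [hy]; ring
    rw [e1, e2]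
    calc 2 * √R * ((4 * y + 1) * (C1 * x ^ (2 * m) / (√R * y)))
        = 2 * C1 * (4 + 1 / y) * x ^ (2 * m) := by
          field_simp
      _ ≤ _ := by
          gcongr
  refine (add_le_add hs1 (Finset.sum_le_sum hs2)).trans ?_
  rw [Finset.sum_const, Finset.card_range, nsmul_eq_mul, ← ENNReal.ofReal_natCast,
    ← ENNReal.ofReal_mul (Nat.cast_nonneg _), ← ENNReal.ofReal_add (by positivity) (by positivity)]
  apply ENNReal.ofReal_le_ofReal
  have e1 : x ^ (2 * m) ≤ x ^ (2 * m + 1) := pow_le_pow_right₀ hx1 (by omega)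
  have e2 : 0 < x ^ (2 * m + 1) := by positivity
  have e3 : 0 < x ^ (2 * m) := by positivity
  have e4 : (L : ℝ) * (2 * C1 * (4 + 1 / (2 * C0)) * x ^ (2 * m)) ≤
      CL * (1 + Real.log R) * (2 * C1 * (4 + 1 / (2 * C0)) * x ^ (2 * m + 1)) := by
    gcongr
  have e5 : 2 * (4 * C0 + 1) * (Cn * (2 * C0) ^ m) * x ^ (2 * m + 1) ≤
      2 * (4 * C0 + 1) * (Cn * (2 * C0) ^ m) * x ^ (2 * m + 1) * (1 + Real.log R) :=
    le_mul_of_one_le_right (by positivity) (by linarith)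
  calc _ ≤ 2 * (4 * C0 + 1) * (Cn * (2 * C0) ^ m) * x ^ (2 * m + 1) * (1 + Real.log R) +
        CL * (1 + Real.log R) * (2 * C1 * (4 + 1 / (2 * C0)) * x ^ (2 * m + 1)) :=
        add_le_add e5 e4
    _ = _ := by ring

end Pool.Agent.LF
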