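import Pool.Agent.LF.Df0

/-!
The form of the condition `(N)` used by the core.
-/

set_option autoImplicit false

namespace Pool.Agent.LF

open MeasureTheory Set Filter Topology Pool.Agent.MP_6cbfb8_an
open scoped Real RealInnerProductSpace ContDiff

/-- The form of the condition `(N)` used by the core. -/
theorem asm_N {m : ℕ} (X : ℝ × E m → E (m + 2)) (p0 : ℝ × E m) (hX : ContDiff ℝ ∞ X)
    (w : E (m + 2))
    (hN : (∀ v : E m, ⟪w, fderiv ℝ X p0 (0, v)⟫ = 0) →
      ∀ v : E m, v ≠ 0 → ∃ u : ℝ × E m, ⟪w, fderiv ℝ (fderiv ℝ X) p0 (0, v) u⟫ ≠ 0)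
    (hV : Vw X w p0 = 0) (y : E m) (hy : fderiv ℝ (Gw X w) p0 (0, y) = 0) : y = 0 := by
  by_contra hy0
  have hVv : ∀ p v, ⟪w, fderiv ℝ X p (0, v)⟫ = ⟪Vw X w p, v⟫ := by
    intro p v
    rw [Vw, ContinuousLinearMap.adjoint_inner_left]
    rfl
  obtain ⟨u, hu⟩ := hN (fun v => by rw [hVv, hV, inner_zero_left]) y hy0
  apply hu
  have hdX : Differentiable ℝ (fderiv ℝ X) :=
    (hX.fderiv_right (m := 1) (by norm_cast)).differentiable (by norm_num)
  have hdu : ∀ v : ℝ × E m, DifferentiableAt ℝ (fun p => fderiv ℝ X p v) p0 := fun v =>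
    (hdX p0).clm_apply (differentiableAt_const v)
  have hdz : DifferentiableAt ℝ (fun p => Xz X p) p0 := by
    have h : (fun p => Xz X p) = fun p =>
        ((ContinuousLinearMap.compL ℝ (E m) (ℝ × E m) (E (m + 2))).flip
          (ContinuousLinearMap.inr ℝ ℝ (E m))) (fderiv ℝ X p) := rfl
    rw [h]
    exact (ContinuousLinearMap.differentiableAt _).comp p0 (hdX p0)
  have hdV : DifferentiableAt ℝ (Vw X w) p0 := by
    have h : Vw X w = fun p =>
        (ContinuousLinearMap.adjoint (𝕜 := ℝ) (E := E m) (F := E (m + 2))).toContinuousLinearEquiv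
          (Xz X p) w := rfl
    rw [h]
    exact ((ContinuousLinearEquiv.differentiableAt _).comp p0 hdz).clm_apply
      (differentiableAt_const w)
  have hdG : DifferentiableAt ℝ (Gw X w) p0 := by
    have h : Gw X w = fun p => (⟪w, fderiv ℝ X p (1, 0)⟫, Vw X w p) := rfl
    rw [h]
    exact ((differentiableAt_const w).inner ℝ (hdu (1, 0))).prodMk hdV
  have hsum : (fun p => ⟪w, fderiv ℝ X p u⟫) = fun p =>
      u.1 * (Gw X w p).1 + ⟪(Gw X w p).2, u.2⟫ := by
    funext p
    have h : u = u.1 • ((1 : ℝ), (0 : E m)) + ((0 : ℝ), u.2) := by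
      ext <;> simp
    conv_lhs => rw [h]
    rw [map_add, map_smul, inner_add_right, inner_smul_right, hVv]
    rfl
  have h1 : fderiv ℝ (fun p => ⟪w, fderiv ℝ X p u⟫) p0 (0, y) =
      ⟪w, fderiv ℝ (fderiv ℝ X) p0 (0, y) u⟫ := by
    rw [fderiv_inner_apply ℝ (differentiableAt_const w) (hdu u),
      fderiv_clm_apply (hdX p0) (differentiableAt_const u)]
    simp
  rw [← h1, hsum]
  have hd1 : DifferentiableAt ℝ (fun p => (Gw X w p).1) p0 := hdG.fst
  have hd2 : DifferentiableAt ℝ (fun p => (Gw X w p).2) p0 := hdG.snd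
  have e1 : fderiv ℝ (fun p => (Gw X w p).1) p0 (0, y) = 0 := by
    rw [fderiv.fst hdG]
    simp [hy]
  have e2 : fderiv ℝ (fun p => (Gw X w p).2) p0 (0, y) = 0 := by
    rw [fderiv.snd hdG]
    simp [hy]
  rw [fderiv_fun_add (hd1.const_mul _) (hd2.inner ℝ (differentiableAt_const u.2)), _root_.add_apply,
    fderiv_inner_apply ℝ hd2 (differentiableAt_const u.2), fderiv_const_mul hd1]
  simp [e1, e2]

end Pool.Agent.LF
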