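import Pool.Agent.LF.CORE2
import Pool.Agent.LF.GPF
import Pool.Agent.LF.NF
import Pool.Agent.LF.KAK3
import Pool.Agent.LEAF.DOM4

/-!
CORE: the `L^4` bound on one annulus for densities which are only measurable in one variable.
-/

set_option autoImplicit false

namespace Pool.Agent.LF

open MeasureTheory Set Metric Pool.Agent.MP_6cbfb8_an Pool.Agent.GNP
open scoped ENNReal Real RealInnerProductSpace ContDiff ComplexConjugate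

/-- The bound for bounded `R`. -/
theorem core_small {m : ℕ} (X : ℝ × E m → E (m + 2)) (p0 : ℝ × E m) (δ B0 R0 ε : ℝ)
    (hR0 : 1 ≤ R0) (hε : 0 < ε) (hB0 : 0 ≤ B0) : ∃ Cs : ℝ, 0 ≤ Cs ∧
    ∀ b : ℝ × E m → ℂ, Measurable b → (∀ p, ‖b p‖ ≤ B0) → (∀ p, δ < ‖p - p0‖ → b p = 0) →
      ∀ R : ℝ, 1 ≤ R → R ≤ R0 →
        ∫⁻ ξ in {ξ : E (m + 2) | R ≤ ‖ξ‖ ∧ ‖ξ‖ ≤ 2 * R}, ‖Tb X b ξ‖ₑ ^ 4 ≤
          ENNReal.ofReal (Cs * R ^ (-(m : ℝ) + ε)) := by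
  obtain ⟨Cv, hCv, hvol⟩ := core_vol (m + 2)
  set S : ℝ := B0 * volume.real (closedBall p0 δ) with hS
  have hS0 : 0 ≤ S := by positivity
  refine ⟨S ^ 4 * (Cv * R0 ^ (m + 2)) * R0 ^ m, by positivity, ?_⟩
  intro b hbm hbB hb0 R hR hRR
  have hRp : 0 < R := by linarith
  have hbi := core_int hbm hbB hb0
  have h1 : ∀ ξ, ‖Tb X b ξ‖ₑ ≤ ENNReal.ofReal S := by
    intro ξ
    rw [← ofReal_norm]
    exact ENNReal.ofReal_le_ofReal ((Tb_norm_le X b ξ).trans hbi.2)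
  have h2 : volume {ξ : E (m + 2) | R ≤ ‖ξ‖ ∧ ‖ξ‖ ≤ 2 * R} ≤
      ENNReal.ofReal (Cv * R0 ^ (m + 2)) := by
    refine (measure_mono ?_).trans ((hvol R hR).trans (ENNReal.ofReal_le_ofReal ?_))
    · intro ξ hξ
      exact ⟨by linarith [hξ.1], by linarith [hξ.2]⟩
    · gcongr
  have h3 : (1 : ℝ) ≤ R0 ^ m * R ^ (-(m : ℝ) + ε) := by
    have h4 : R ^ (-(m : ℝ)) ≤ R ^ (-(m : ℝ) + ε) :=
      Real.rpow_le_rpow_of_exponent_le hR (by linarith)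
    have h5 : R ^ (-(m : ℝ)) = (R ^ m)⁻¹ := by
      rw [Real.rpow_neg hRp.le, Real.rpow_natCast]
    calc (1 : ℝ) = R ^ m * (R ^ m)⁻¹ := by
          rw [mul_inv_cancel₀ (by positivity)]
      _ ≤ R0 ^ m * R ^ (-(m : ℝ) + ε) := by
          rw [← h5]
          gcongr
  calc ∫⁻ ξ in {ξ : E (m + 2) | R ≤ ‖ξ‖ ∧ ‖ξ‖ ≤ 2 * R}, ‖Tb X b ξ‖ₑ ^ 4 ≤
      ∫⁻ _ in {ξ : E (m + 2) | R ≤ ‖ξ‖ ∧ ‖ξ‖ ≤ 2 * R}, ENNReal.ofReal S ^ 4 := by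
        refine lintegral_mono fun ξ => ?_
        gcongr
        exact h1 ξ
    _ = ENNReal.ofReal S ^ 4 * volume {ξ : E (m + 2) | R ≤ ‖ξ‖ ∧ ‖ξ‖ ≤ 2 * R} :=
        setLIntegral_const _ _
    _ ≤ ENNReal.ofReal S ^ 4 * ENNReal.ofReal (Cv * R0 ^ (m + 2)) := by gcongr
    _ = ENNReal.ofReal (S ^ 4 * (Cv * R0 ^ (m + 2))) := by
        rw [← ENNReal.ofReal_pow hS0, ← ENNReal.ofReal_mul (by positivity)]
    _ ≤ _ := by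
        refine ENNReal.ofReal_le_ofReal ?_
        have h6 : 0 ≤ S ^ 4 * (Cv * R0 ^ (m + 2)) := by positivity
        calc S ^ 4 * (Cv * R0 ^ (m + 2)) = S ^ 4 * (Cv * R0 ^ (m + 2)) * 1 := (mul_one _).symm
          _ ≤ S ^ 4 * (Cv * R0 ^ (m + 2)) * (R0 ^ m * R ^ (-(m : ℝ) + ε)) := by gcongr
          _ = _ := by ring

/-- Bounds of the second derivatives of the chart. -/
theorem core_fd2 {m n : ℕ} {X : ℝ × E m → E n} {A : ℕ → ℝ}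
    (hA : ∀ j p, ‖iteratedFDeriv ℝ j X p‖ ≤ A j) (p : ℝ × E m) :
    ‖fderiv ℝ (fderiv ℝ X) p‖ ≤ A 2 := by
  rw [← norm_iteratedFDeriv_one, norm_iteratedFDeriv_fderiv]
  exact hA 2 p

theorem core_fd3 {m n : ℕ} {X : ℝ × E m → E n} (hX : ContDiff ℝ ∞ X) {A : ℕ → ℝ}
    (hA : ∀ j p, ‖iteratedFDeriv ℝ j X p‖ ≤ A j) (p p' : ℝ × E m) :
    ‖fderiv ℝ (fderiv ℝ X) p - fderiv ℝ (fderiv ℝ X) p'‖ ≤ A 3 * ‖p - p'‖ := by
  have h1 : ContDiff ℝ ∞ (fderiv ℝ X) := hX.fderiv_right (m := ∞) (by simp)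
  have h2 : ContDiff ℝ ∞ (fderiv ℝ (fderiv ℝ X)) := h1.fderiv_right (m := ∞) (by simp)
  refine Convex.norm_image_sub_le_of_norm_fderiv_le (𝕜 := ℝ) (s := univ)
    (fun x _ => (h2.differentiable (by simp)) x) (fun x _ => ?_) convex_univ (mem_univ p')
    (mem_univ p)
  rw [← norm_iteratedFDeriv_one, norm_iteratedFDeriv_fderiv, norm_iteratedFDeriv_fderiv]
  exact hA 3 x

/-- **CORE**, immersion on the ball, with (N) in terms of the gradients. -/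
theorem core_gw {m : ℕ} (hm : 1 ≤ m) (X : ℝ × E m → E (m + 2)) (A : ℕ → ℝ) (p0 : ℝ × E m)
    {δ : ℝ} (hδ : 0 < δ) (hX : ContDiff ℝ ∞ X) (hA : ∀ j p, ‖iteratedFDeriv ℝ j X p‖ ≤ A j)
    (h1 : ∀ p, ‖p - p0‖ ≤ δ → ‖X p‖ = 1)
    (him : ∀ p, ‖p - p0‖ ≤ δ → ∀ v, fderiv ℝ X p v = 0 → v = 0)
    (hN : ∀ w : E (m + 2), w ≠ 0 → Vw X w p0 = 0 → ∀ y : E m,
      fderiv ℝ (Gw X w) p0 (0, y) = 0 → y = 0) :
    ∃ δ1 : ℝ, 0 < δ1 ∧ δ1 ≤ δ ∧ ∀ (B : ℕ → ℝ) (ε : ℝ), 0 < ε → ∃ C : ℝ,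
      ∀ b : ℝ × E m → ℂ, Measurable b → (∀ t, ContDiff ℝ ∞ fun z => b (t, z)) →
        (∀ t k z, ‖iteratedFDeriv ℝ k (fun z => b (t, z)) z‖ ≤ B k) →
        (∀ p, δ1 < ‖p - p0‖ → b p = 0) →
        ∀ R : ℝ, 1 ≤ R → ∫⁻ ξ in {ξ : E (m + 2) | R ≤ ‖ξ‖ ∧ ‖ξ‖ ≤ 2 * R}, ‖Tb X b ξ‖ₑ ^ (4 : ℝ) ≤
          ENNReal.ofReal (C * R ^ (-(m : ℝ) + ε)) := by
  have hA0 : ∀ j, 0 ≤ A j := fun j => (norm_nonneg _).trans (hA j p0)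
  obtain ⟨c, C, δ', hc, hC, hδ', hδ'1, hδ'2, hbl, hrect, hT, hfr⟩ := gpf hδ hX h1 him hN
  set A' : ℝ := max (A 2) (A 3) with hA'
  have hA'0 : 0 ≤ A' := le_max_of_le_left (hA0 2)
  obtain ⟨Ck, hCk, hkak⟩ := kak hX hA'0 (fun p => (core_fd2 hA p).trans (le_max_left _ _))
    (fun p p' => (core_fd3 hX hA p p').trans (by gcongr; exact le_max_right _ _)) hδ'.le hδ'2
    hc (by linarith) hc hT (fun p hp => h1 p (hp.trans hδ'1)) hfr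
  refine ⟨δ' / 2, by positivity, by linarith, fun B ε hε => ?_⟩
  obtain ⟨Cd, hCd, hdom⟩ := LEAF.dom_caps (m + 2) m B (A 2) (δ' / 2) (hA0 2)
  obtain ⟨Cf, R0, hCf, hR0, hbig⟩ := core_big hm X A p0 hδ' hX hA
    (fun p hp => h1 p (hp.trans hδ'1)) hc (by linarith) hbl hrect hCk.le hkak ε hε
    (fun k => |B k|) Cd hCd
  obtain ⟨Cs, hCs, hsmall⟩ := core_small X p0 (δ' / 2) |B 0| R0 ε hR0 hε (abs_nonneg _)
  refine ⟨Cf + Cs, fun b hbm hbs hbB hb0 R hR => ?_⟩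
  have hRp : 0 < R := by linarith
  have e4 : ∀ x : ℝ≥0∞, x ^ (4 : ℝ) = x ^ 4 := fun x => by
    rw [show (4 : ℝ) = ((4 : ℕ) : ℝ) by norm_num, ENNReal.rpow_natCast]
  simp_rw [e4]
  have hRε : 0 ≤ R ^ (-(m : ℝ) + ε) := Real.rpow_nonneg hRp.le _
  by_cases hRR : R0 ≤ R
  · refine (hbig R hRR b hbm hbs ?_ hb0 ?_).trans (ENNReal.ofReal_le_ofReal ?_)
    · intro k t z
      refine (hbB t k z).trans ((le_abs_self _).trans ?_)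
      exact le_mul_of_one_le_right (abs_nonneg _) (one_le_pow₀ (Real.one_le_sqrt.2 hR))
    · intro M i
      obtain ⟨GG, g1, g2, g3, g4⟩ := hdom X hX (hA 2) b p0.2 hbm hbs (fun k t z => hbB t k z)
        (fun t z hz => hb0 (t, z)
          (lt_of_lt_of_le hz (by rw [Prod.norm_def]; exact le_max_right _ _))) R p0.1 M i hR
      exact ⟨GG, g1, g2, g3, fun k ξ hξ => g4 k ξ hξ⟩
    · gcongr
      linarith
  · push Not at hRR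
    refine (hsmall b hbm (fun p => ?_) hb0 R hR hRR.le).trans (ENNReal.ofReal_le_ofReal ?_)
    · have h2 := hbB p.1 0 p.2
      rw [norm_iteratedFDeriv_zero] at h2
      exact h2.trans (le_abs_self _)
    · gcongr
      linarith

/-- **CORE.** -/
theorem core {m : ℕ} (hm : 1 ≤ m) (X : ℝ × E m → E (m + 2)) (A : ℕ → ℝ) (p0 : ℝ × E m) {δ : ℝ}
    (hδ : 0 < δ) (hX : ContDiff ℝ ∞ X) (hA : ∀ j p, ‖iteratedFDeriv ℝ j X p‖ ≤ A j)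
    (h1 : ∀ p, ‖p - p0‖ ≤ δ → ‖X p‖ = 1)
    (him : ∀ v, fderiv ℝ X p0 v = 0 → v = 0)
    (hN : ∀ w : E (m + 2), w ≠ 0 → (∀ v : E m, ⟪w, fderiv ℝ X p0 (0, v)⟫ = 0) →
      ∀ v : E m, v ≠ 0 → ∃ u : ℝ × E m, ⟪w, fderiv ℝ (fderiv ℝ X) p0 (0, v) u⟫ ≠ 0) :
    ∃ δ1 : ℝ, 0 < δ1 ∧ δ1 ≤ δ ∧ ∀ (B : ℕ → ℝ) (ε : ℝ), 0 < ε → ∃ C : ℝ,
      ∀ b : ℝ × E m → ℂ, Measurable b → (∀ t, ContDiff ℝ ∞ fun z => b (t, z)) →
        (∀ t k z, ‖iteratedFDeriv ℝ k (fun z => b (t, z)) z‖ ≤ B k) →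
        (∀ p, δ1 ≤ ‖p - p0‖ → b p = 0) →
        ∀ R : ℝ, 1 ≤ R → ∫⁻ ξ in {ξ : E (m + 2) | R ≤ ‖ξ‖ ∧ ‖ξ‖ ≤ 2 * R}, ‖Tb X b ξ‖ₑ ^ (4 : ℝ) ≤
          ENNReal.ofReal (C * R ^ (-(m : ℝ) + ε)) := by
  have hN1 : ∀ w : E (m + 2), w ≠ 0 → Vw X w p0 = 0 → ∀ y : E m,
      fderiv ℝ (Gw X w) p0 (0, y) = 0 → y = 0 :=
    fun w hw hV y hy => asm_N X p0 hX w (hN w hw) hV y hy
  have hi : Function.Injective (fderiv ℝ X p0) := by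
    intro u v huv
    exact sub_eq_zero.1 (him _ (by rw [map_sub, huv, sub_self]))
  obtain ⟨c, hc, δ', hδ', hq⟩ := G1.g_qnc hX hi
    (fun w hw hV v hv h0 => hv (hN1 w hw hV v h0))
  obtain ⟨δ1, hδ1, hδ11, H⟩ := core_gw hm X A p0 (lt_min hδ hδ') hX hA
    (fun p hp => h1 p (hp.trans (min_le_left _ _)))
    (fun p hp v hv => by
      have h2 := (hq p (hp.trans (min_le_right _ _))).1 v
      rw [hv, norm_zero] at h2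
      have h3 : ‖v‖ ≤ 0 := by
        by_contra h4
        push Not at h4
        have := mul_pos hc h4
        linarith
      exact norm_le_zero_iff.1 h3) hN1
  refine ⟨δ1, hδ1, hδ11.trans (min_le_left _ _), fun B ε hε => ?_⟩
  obtain ⟨C, h⟩ := H B ε hε
  exact ⟨C, fun b hbm hbs hbB hb0 => h b hbm hbs hbB fun p hp => hb0 p hp.le⟩

end Pool.Agent.LF
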