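import Pool.Agent.MP_6cbfb8_an.Defs

/-!
Functions of a real variable and of a point of the sphere, rough in the real variable.
-/

namespace Pool.Agent.LF

open MeasureTheory Set Pool.Agent.MP_6cbfb8_an
open scoped ContDiff

/-- Functions `G t x` of a real number `t` and of a point `x` of `R^n`: measurable in `(t, x)`,
smooth in `x`, with derivatives in `x` of order `k` bounded by `B k`, and zero at the points `x` of
the unit sphere which are not in `K`. -/
def Cl {n : ℕ} (K : Set (E n)) (B : ℕ → ℝ) (G : ℝ → E n → ℂ) : Prop :=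
  Measurable (Function.uncurry G) ∧ (∀ t, ContDiff ℝ ∞ (G t)) ∧
    (∀ k t x, ‖iteratedFDeriv ℝ k (G t) x‖ ≤ B k) ∧ ∀ t x, ‖x‖ = 1 → x ∉ K → G t x = 0

end Pool.Agent.LF
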