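import Pool.Agent.LF.LP
import Pool.Agent.LF.Cl
import Pool.Agent.LF.CH1
import Pool.Agent.LF.CH3
import Pool.Agent.LF.CORE

/-!
Densities `g(x) = G(φ(x), x)` on the unit sphere of `R^n`, `n ≥ 3`, with `G` only measurable in the
first variable and smooth in the second: the Fourier transform of `g σ` is in `L^p`,
`p > 2n/(n-1)`, if `g` is supported near a point where the foliation `φ = const` is in general
position.
-/

set_option autoImplicit false

namespace Pool.Agent.LF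

open MeasureTheory Set Filter Topology Pool.Agent.MP_6cbfb8_an
open scoped ENNReal Real RealInnerProductSpace ContDiff

/-- Change of variables `ξ ↦ c ξ` on a measurable set. -/
theorem asm_scale {n : ℕ} (c : ℝ) (hc : 0 < c) (f : E n → ℝ≥0∞) (A : Set (E n)) :
    ∫⁻ ξ in (fun ξ => c • ξ) ⁻¹' A, f (c • ξ) =
      ENNReal.ofReal ((c ^ n)⁻¹) * ∫⁻ ξ in A, f ξ := by
  have h1 : Measure.map (fun ξ : E n => c • ξ) volume =
      ENNReal.ofReal ((c ^ n)⁻¹) • (volume : Measure (E n)) := by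
    have h := Measure.map_addHaar_smul (volume : Measure (E n)) hc.ne'
    rw [finrank_euclideanSpace_fin, abs_of_pos (by positivity)] at h
    exact h
  have he : MeasurableEmbedding (fun ξ : E n => c • ξ) :=
    (Homeomorph.smulOfNeZero c hc.ne').measurableEmbedding
  rw [← he.lintegral_map, ← he.restrict_map, h1, Measure.restrict_smul, lintegral_smul_measure,
    smul_eq_mul]

/-- The integral over the chart is a measurable bounded function of the frequency. -/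
theorem asm_meas {m : ℕ} (X : ℝ × E m → E (m + 2)) (hX : Continuous X) (b : ℝ × E m → ℂ)
    (hb : Measurable b) : Measurable fun ξ : E (m + 2) =>
      Tb X b ((2 * π) • ξ) := by
  have h1 : Measurable fun q : E (m + 2) × (ℝ × E m) =>
      b q.2 * Complex.exp (((-⟪(2 * π) • q.1, X q.2⟫ : ℝ) : ℂ) * Complex.I) := by
    refine (hb.comp measurable_snd).mul (Continuous.measurable ?_)
    fun_prop
  exact (h1.stronglyMeasurable.integral_prod_right').measurable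

theorem asm_bound {m : ℕ} (X : ℝ × E m → E (m + 2)) (b : ℝ × E m → ℂ) (p0 : ℝ × E m) {δ1 B0 : ℝ}
    (hb : ∀ p, ‖b p‖ ≤ B0) (hs : ∀ p, δ1 ≤ ‖p - p0‖ → b p = 0) (ξ : E (m + 2)) :
    ‖Tb X b ξ‖ ≤ B0 * (volume : Measure (ℝ × E m)).real (Metric.closedBall p0 δ1) := by
  have h1 : ∫ p, b p * Complex.exp (((-⟪ξ, X p⟫ : ℝ) : ℂ) * Complex.I) =
      ∫ p in Metric.closedBall p0 δ1,
        b p * Complex.exp (((-⟪ξ, X p⟫ : ℝ) : ℂ) * Complex.I) := by
    rw [setIntegral_eq_integral_of_forall_compl_eq_zero]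
    intro p hp
    rw [Metric.mem_closedBall, not_le, dist_eq_norm] at hp
    rw [hs p hp.le, zero_mul]
  rw [Tb, h1]
  refine norm_setIntegral_le_of_norm_le_const measure_closedBall_lt_top fun p _ => ?_
  rw [norm_mul, Complex.norm_exp_ofReal_mul_I, mul_one]
  exact hb p

/-- **The sphere.**  `n ≥ 3`, `|x0| = 1`, `φ` smooth near `x0` and in general position at `x0`: there
is a neighbourhood of `x0` such that for all `p > 2n/(n-1)` the Fourier transforms of the densities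
`G(φ(x), x)` supported there, with given bounds for the derivatives of `G` in the second variable,
have bounded `L^p` norms; nothing but measurability is assumed in the first variable. -/
theorem leaf_at (n : ℕ) (hn : 3 ≤ n) (φ : E n → ℝ) (x0 : E n) (hx0 : ‖x0‖ = 1)
    (hφ : ∀ᶠ x in 𝓝 x0, ContDiffAt ℝ ∞ φ x) (hcyc : Cyc φ x0) :
    ∃ r : ℝ, 0 < r ∧ ∀ (p : ℝ) (B : ℕ → ℝ), 2 * (n : ℝ) / (n - 1) < p → ∃ C : ℝ≥0∞, C ≠ ⊤ ∧
      ∀ G : ℝ → E n → ℂ, Measurable (fun q : ℝ × E n => G q.1 q.2) →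
        (∀ t, ContDiff ℝ ∞ (G t)) → (∀ t k x, ‖iteratedFDeriv ℝ k (G t) x‖ ≤ B k) →
        (∀ t x, r ≤ ‖x - x0‖ → G t x = 0) →
        ∫⁻ ξ, ‖extn (fun x => G (φ x) x) ξ‖ₑ ^ p ≤ C := by
  obtain ⟨m, rfl⟩ : ∃ m, n = m + 2 := ⟨n - 2, by omega⟩
  have hm : 1 ≤ m := by omega
  obtain ⟨X, A, p0, δ, hδ, hX, hA, hp0, h1, h2, hinj, him, hnb⟩ := ch1 hm φ x0 hx0 hφ hcyc
  have him0 : ∀ v, fderiv ℝ X p0 v = 0 → v = 0 := him p0 (by simpa using hδ.le)
  have hnear : ∀ᶠ q in 𝓝 p0, ‖q - p0‖ ≤ δ := by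
    filter_upwards [Metric.closedBall_mem_nhds p0 hδ] with q hq
    rwa [Metric.mem_closedBall, dist_eq_norm] at hq
  have hN : ∀ w : E (m + 2), w ≠ 0 → (∀ v : E m, ⟪w, fderiv ℝ X p0 (0, v)⟫ = 0) →
      ∀ v : E m, v ≠ 0 → ∃ u : ℝ × E m, ⟪w, fderiv ℝ (fderiv ℝ X) p0 (0, v) u⟫ ≠ 0 := by
    intro w hw hwV v hv
    refine cyc_N (Y := E m) (by rw [finrank_euclideanSpace_fin]) (X := X) (φ := φ) (p := p0)
      (hX.of_le (by norm_cast)).contDiffAt ?_ ?_ ?_ ?_ ?_ hw hwV hv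
    · rw [hp0]
      exact hφ.self_of_nhds.of_le (by norm_cast)
    · exact hnear.mono h1
    · exact hnear.mono h2
    · intro a c hac
      have h3 : fderiv ℝ X p0 (a - c) = 0 := by rw [map_sub, hac, sub_self]
      exact sub_eq_zero.1 (him0 _ h3)
    · rwa [hp0]
  obtain ⟨δ1, hδ1, -, hcore⟩ := core hm X A p0 hδ hX hA h1 him0 hN
  obtain ⟨r, hr, hch3⟩ := ch3 φ x0 X p0 hδ hX A hA hp0 h1 h2 hinj him hnb δ1 hδ1
  refine ⟨r, hr, fun p B hp => ?_⟩
  obtain ⟨B', hB'⟩ := hch3 B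
  obtain ⟨ε, hε, hlp⟩ := lp (m + 2) (by omega) p hp
  obtain ⟨C1, hC1⟩ := hcore B' ε hε
  obtain ⟨C, hC, H⟩ := hlp (((2 * π) ^ (m + 2))⁻¹ * (|C1| * (2 * π) ^ (-(m : ℝ) + ε)))
    (B' 0 * (volume : Measure (ℝ × E m)).real (Metric.closedBall p0 δ1))
  refine ⟨C, hC, fun G hG1 hG2 hG3 hG4 => ?_⟩
  obtain ⟨b, hb1, hb2, hb3, hb4, hb5⟩ := hB' G hG1 hG2 hG3 hG4
  replace hb5 : ∀ ξ, extn (fun x => G (φ x) x) ξ = Tb X b ((2 * π) • ξ) := hb5
  have hext : (fun ξ => extn (fun x => G (φ x) x) ξ) = fun ξ : E (m + 2) =>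
      Tb X b ((2 * π) • ξ) := funext hb5
  have hb0 : ∀ p, ‖b p‖ ≤ B' 0 := by
    intro p
    have h3 := hb3 p.1 0 p.2
    rwa [norm_iteratedFDeriv_zero] at h3
  refine H (fun ξ => extn (fun x => G (φ x) x) ξ) ?_ ?_ ?_
  · rw [hext]
    exact asm_meas X hX.continuous b hb1
  · intro ξ
    rw [hb5]
    exact asm_bound X b p0 hb0 hb4 _
  · intro R hR
    have h2π : 0 < 2 * π := by positivity
    have h2π1 : 1 ≤ 2 * π := by linarith [Real.pi_gt_three]
    have hset : {ξ : E (m + 2) | R ≤ ‖ξ‖ ∧ ‖ξ‖ ≤ 2 * R} = (fun ξ => (2 * π) • ξ) ⁻¹'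
        {ξ : E (m + 2) | 2 * π * R ≤ ‖ξ‖ ∧ ‖ξ‖ ≤ 2 * (2 * π * R)} := by
      ext ξ
      simp only [mem_ofPred_eq, mem_preimage, norm_smul, Real.norm_of_nonneg h2π.le]
      rw [mul_le_mul_iff_right₀ h2π, show 2 * (2 * π * R) = 2 * π * (2 * R) by ring,
        mul_le_mul_iff_right₀ h2π]
    have h4 := hC1 b hb1 hb2 hb3 hb4 (2 * π * R)
      (by nlinarith)
    simp_rw [hb5]
    rw [hset, asm_scale (2 * π) h2π (fun η : E (m + 2) =>
      ‖Tb X b η‖ₑ ^ (4 : ℝ))]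
    refine (mul_le_mul_right h4 _).trans ?_
    rw [← ENNReal.ofReal_mul (by positivity)]
    refine ENNReal.ofReal_le_ofReal ?_
    have hcast : -(((m + 2 : ℕ) : ℝ) - 2) + ε = -(m : ℝ) + ε := by
      push_cast
      ring
    rw [hcast, Real.mul_rpow h2π.le (by linarith), mul_assoc ((2 * π) ^ (m + 2))⁻¹, mul_assoc |C1|]
    refine mul_le_mul_of_nonneg_left ?_ (by positivity)
    exact mul_le_mul_of_nonneg_right (le_abs_self C1) (by positivity)

/-- **The sphere**, for functions which vanish on the sphere outside a neighbourhood of `x0`. -/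
theorem leaf_cl (n : ℕ) (hn : 3 ≤ n) (φ : E n → ℝ) (x0 : E n) (hx0 : ‖x0‖ = 1)
    (hφ : ∀ᶠ x in 𝓝 x0, ContDiffAt ℝ ∞ φ x) (hcyc : Cyc φ x0) :
    ∃ U : Set (E n), IsOpen U ∧ x0 ∈ U ∧ ∀ p : ℝ, 2 * (n : ℝ) / (n - 1) < p → ∀ B : ℕ → ℝ,
      ∃ C : ℝ≥0∞, C ≠ ⊤ ∧ ∀ G : ℝ → E n → ℂ, Cl U B G →
        ∫⁻ ξ, ‖extn (fun x => G (φ x) x) ξ‖ₑ ^ p ≤ C := by
  obtain ⟨r, hr, H⟩ := leaf_at n hn φ x0 hx0 hφ hcyc
  let χ : ContDiffBump x0 := ⟨r / 2, r, half_pos hr, half_lt_self hr⟩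
  have hχ : ContDiff ℝ ∞ (χ : E n → ℝ) := χ.contDiff
  have hb : ∀ k : ℕ, ∃ A : ℝ, ∀ x, ‖iteratedFDeriv ℝ k (χ : E n → ℝ) x‖ ≤ A := fun k =>
    (χ.hasCompactSupport.iteratedFDeriv (𝕜 := ℝ) k).exists_bound_of_continuous
      (hχ.continuous_iteratedFDeriv (by exact_mod_cast le_top))
  choose D hD using hb
  refine ⟨Metric.ball x0 (r / 2), Metric.isOpen_ball, Metric.mem_ball_self (half_pos hr),
    fun p hp B => ?_⟩
  obtain ⟨C, hC, H'⟩ := H p
    (fun k => ∑ i ∈ Finset.range (k + 1), (k.choose i : ℝ) * D i * B (k - i)) hp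
  refine ⟨C, hC, fun G hG => ?_⟩
  obtain ⟨hG1, hG2, hG3, hG4⟩ := hG
  have h := H' (fun t x => χ x • G t x) ?_ (fun t => hχ.smul (hG2 t)) ?_ ?_
  · refine le_trans (le_of_eq ?_) h
    refine lintegral_congr fun ξ => ?_
    congr 2
    unfold extn
    refine integral_congr_ae (Eventually.of_forall fun x => ?_)
    simp only
    congr 1
    by_cases hx : (x : E n) ∈ Metric.ball x0 (r / 2)
    · rw [χ.one_of_mem_closedBall (Metric.ball_subset_closedBall hx), one_smul]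
    · rw [hG4 _ _ (by simp) hx, smul_zero]
  · exact (hχ.continuous.measurable.comp measurable_snd).smul hG1
  · intro t k x
    refine (norm_iteratedFDeriv_smul_le hχ (hG2 t) x (n := k) (by exact_mod_cast le_top)).trans
      (Finset.sum_le_sum fun i _ => ?_)
    have h1 := hD i x
    have h2 := hG3 (k - i) t x
    have h3 : 0 ≤ D i := (norm_nonneg _).trans h1
    gcongr
  · intro t x hx
    rw [χ.zero_of_le_dist (by rwa [dist_eq_norm]), zero_smul]

/-- **The sphere, products.**  The Fourier transform of `a(x) F(φ(x)) σ`, `a` smooth with support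
near `x0`, is bounded in `L^p`, `p > 2n/(n-1)`, for all measurable `F` with `|F| ≤ 1`. -/
theorem leaf_mul (n : ℕ) (hn : 3 ≤ n) (φ : E n → ℝ) (x0 : E n) (hx0 : ‖x0‖ = 1)
    (hφ : ∀ᶠ x in 𝓝 x0, ContDiffAt ℝ ∞ φ x) (hcyc : Cyc φ x0) :
    ∃ r : ℝ, 0 < r ∧ ∀ (p : ℝ) (a : E n → ℂ), 2 * (n : ℝ) / (n - 1) < p → ContDiff ℝ ∞ a →
      (∀ x, r ≤ ‖x - x0‖ → a x = 0) → ∃ C : ℝ≥0∞, C ≠ ⊤ ∧
      ∀ F : ℝ → ℂ, Measurable F → (∀ t, ‖F t‖ ≤ 1) →
        ∫⁻ ξ, ‖extn (fun x => a x * F (φ x)) ξ‖ₑ ^ p ≤ C := by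
  obtain ⟨r, hr, H⟩ := leaf_at n hn φ x0 hx0 hφ hcyc
  refine ⟨r, hr, fun p a hp ha hs => ?_⟩
  have hcs : HasCompactSupport a := by
    refine HasCompactSupport.intro (isCompact_closedBall x0 r) fun x hx => hs x ?_
    rw [Metric.mem_closedBall, dist_eq_norm, not_le] at hx
    exact hx.le
  have hb : ∀ k : ℕ, ∃ A : ℝ, ∀ x, ‖iteratedFDeriv ℝ k a x‖ ≤ A := fun k =>
    (hcs.iteratedFDeriv (𝕜 := ℝ) k).exists_bound_of_continuous
      (ha.continuous_iteratedFDeriv (by exact_mod_cast le_top))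
  choose B hB using hb
  obtain ⟨C, hC, H'⟩ := H p B hp
  refine ⟨C, hC, fun F hF hF1 => ?_⟩
  have h := H' (fun t x => F t * a x) ((hF.comp measurable_fst).mul
    (ha.continuous.measurable.comp measurable_snd)) (fun t => contDiff_const.mul ha) ?_ ?_
  · refine le_trans (le_of_eq ?_) h
    simp only [mul_comm]
  · intro t k x
    have h1 : iteratedFDeriv ℝ k (fun x => F t * a x) x = F t • iteratedFDeriv ℝ k a x := by
      have h2 : (fun x => F t * a x) = F t • a := rfl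
      rw [h2, iteratedFDeriv_const_smul_apply (ha.contDiffAt.of_le (by exact_mod_cast le_top))]
    rw [h1, norm_smul]
    calc ‖F t‖ * ‖iteratedFDeriv ℝ k a x‖ ≤ 1 * ‖iteratedFDeriv ℝ k a x‖ :=
          mul_le_mul_of_nonneg_right (hF1 t) (norm_nonneg _)
      _ ≤ B k := by rw [one_mul]; exact hB k x
  · intro t x hx
    rw [hs x hx, mul_zero]

end Pool.Agent.LF
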