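import Mathlib

/-!
[LEAF2] the Cauchy-Schwarz step over the active caps.
-/

set_option autoImplicit false

namespace Pool.Agent.LF.ACT

open MeasureTheory Set
open scoped ENNReal

/-- Cauchy-Schwarz over the active indices, pointwise. -/
theorem cs_pt {κ : Type*} [Fintype κ] (g : κ → ℝ) (hg : ∀ a, 0 ≤ g a) (A : Set κ) {N e : ℝ}
    (hA : (A.ncard : ℝ) ≤ N) (he : ∀ a, a ∉ A → g a ≤ e) :
    (∑ a, g a ^ 2) ^ 2 ≤ 2 * N * ∑ a, g a ^ 4 + 2 * ((Fintype.card κ : ℝ) * e ^ 2) ^ 2 := by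
  classical
  have h1 : ∑ a, g a ^ 2 = ∑ a ∈ A.toFinset, g a ^ 2 + ∑ a ∈ A.toFinsetᶜ, g a ^ 2 :=
    (Finset.sum_add_sum_compl _ _).symm
  have h2 : (∑ a ∈ A.toFinset, g a ^ 2) ^ 2 ≤ N * ∑ a, g a ^ 4 := by
    refine (sq_sum_le_card_mul_sum_sq).trans ?_
    have e1 : ∑ a ∈ A.toFinset, (g a ^ 2) ^ 2 ≤ ∑ a, g a ^ 4 := by
      have : ∀ a, (g a ^ 2) ^ 2 = g a ^ 4 := fun a => by ring
      simp only [this]
      exact Finset.sum_le_sum_of_subset_of_nonneg (Finset.subset_univ _)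
        fun a _ _ => pow_nonneg (hg a) _
    have e2 : ((A.toFinset.card : ℕ) : ℝ) ≤ N := by
      rwa [Set.ncard_eq_toFinset_card'] at hA
    exact mul_le_mul e2 e1 (Finset.sum_nonneg fun a _ => sq_nonneg _)
      ((Nat.cast_nonneg _).trans e2)
  have h3 : ∑ a ∈ A.toFinsetᶜ, g a ^ 2 ≤ (Fintype.card κ : ℝ) * e ^ 2 := by
    have e1 : ∀ a ∈ A.toFinsetᶜ, g a ^ 2 ≤ e ^ 2 := fun a ha => by
      have ha' : a ∉ A := by simpa using ha
      exact pow_le_pow_left₀ (hg a) (he a ha') 2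
    refine (Finset.sum_le_card_nsmul _ _ _ e1).trans ?_
    rw [nsmul_eq_mul]
    refine mul_le_mul_of_nonneg_right ?_ (sq_nonneg _)
    exact_mod_cast Finset.card_le_univ _
  have h4 : 0 ≤ ∑ a ∈ A.toFinsetᶜ, g a ^ 2 := Finset.sum_nonneg fun a _ => sq_nonneg _
  have h5 : (∑ a ∈ A.toFinsetᶜ, g a ^ 2) ^ 2 ≤ ((Fintype.card κ : ℝ) * e ^ 2) ^ 2 :=
    pow_le_pow_left₀ h4 h3 2
  rw [h1]
  nlinarith [sq_nonneg (∑ a ∈ A.toFinset, g a ^ 2 - ∑ a ∈ A.toFinsetᶜ, g a ^ 2)]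

/-- Cauchy-Schwarz over the active indices. -/
theorem cs_int {κ α : Type*} [Fintype κ] [MeasurableSpace α] (μ : Measure α) (f : κ → α → ℂ)
    (hf : ∀ a, Measurable (f a)) (act : α → Set κ) {N e : ℝ} (hN : 0 ≤ N)
    (hA : ∀ᵐ x ∂μ, ((act x).ncard : ℝ) ≤ N) (he : ∀ᵐ x ∂μ, ∀ a, a ∉ act x → ‖f a x‖ ≤ e) :
    ∫⁻ x, (∑ a, ‖f a x‖ₑ ^ 2) ^ 2 ∂μ ≤ ENNReal.ofReal (2 * N) * (∑ a, ∫⁻ x, ‖f a x‖ₑ ^ 4 ∂μ) +
      ENNReal.ofReal (2 * ((Fintype.card κ : ℝ) * e ^ 2) ^ 2) * μ univ := by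
  have h1 : ∀ᵐ x ∂μ, (∑ a, ‖f a x‖ₑ ^ 2) ^ 2 ≤ ENNReal.ofReal (2 * N) * (∑ a, ‖f a x‖ₑ ^ 4) +
      ENNReal.ofReal (2 * ((Fintype.card κ : ℝ) * e ^ 2) ^ 2) := by
    filter_upwards [hA, he] with x h1 h2
    have h3 := cs_pt (fun a => ‖f a x‖) (fun a => norm_nonneg _) (act x) h1 h2
    have e1 : ∀ (k : ℕ) a, ‖f a x‖ₑ ^ k = ENNReal.ofReal (‖f a x‖ ^ k) := fun k a => by
      rw [← ofReal_norm, ENNReal.ofReal_pow (norm_nonneg _)]
    simp only [e1]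
    rw [← ENNReal.ofReal_sum_of_nonneg (fun a _ => by positivity),
      ← ENNReal.ofReal_sum_of_nonneg (fun a _ => by positivity),
      ← ENNReal.ofReal_pow (Finset.sum_nonneg fun a _ => by positivity),
      ← ENNReal.ofReal_mul (by positivity), ← ENNReal.ofReal_add (by positivity) (by positivity)]
    exact ENNReal.ofReal_le_ofReal h3
  refine (lintegral_mono_ae h1).trans ?_
  rw [lintegral_add_right _ measurable_const, lintegral_const, lintegral_const_mul,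
    lintegral_finsetSum]
  · exact fun a _ => ((hf a).enorm.pow_const _)
  · exact Finset.measurable_sum _ fun a _ => ((hf a).enorm.pow_const _)

end Pool.Agent.LF.ACT
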