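import Pool.Agent.LF.EX

/-!
[LEAF], row CH2: the condition on the phase at one point of the sphere gives the condition `(N)` for
every chart of the sphere adapted to the phase.
-/

set_option autoImplicit false

namespace Pool.Agent.LF

open Set Filter Topology
open scoped RealInnerProductSpace

variable {n : ℕ}

section

variable {P : Type*} [NormedAddCommGroup P] [NormedSpace ℝ P]

/-- The second derivative of `|X|^2 = 1`. -/
theorem sphere_second {X : P → EuclideanSpace ℝ (Fin n)} {p : P} (hX : ContDiffAt ℝ 2 X p)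
    (h1 : ∀ᶠ q in 𝓝 p, ‖X q‖ = 1) (u v : P) :
    ⟪X p, fderiv ℝ X p v⟫ = 0 ∧
      ⟪fderiv ℝ X p u, fderiv ℝ X p v⟫ + ⟪X p, fderiv ℝ (fderiv ℝ X) p u v⟫ = 0 := by
  have hd : ∀ᶠ q in 𝓝 p, DifferentiableAt ℝ X q := by
    filter_upwards [hX.eventually (by simp)] with q hq
    exact hq.differentiableAt (by norm_num)
  have h2 : ∀ᶠ q in 𝓝 p, ⟪X q, fderiv ℝ X q v⟫ = 0 := by
    filter_upwards [h1.eventually_nhds, hd] with q hq hdq
    have e1 : (fun r => ⟪X r, X r⟫) =ᶠ[𝓝 q] fun _ => (1 : ℝ) := by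
      filter_upwards [hq] with r hr
      rw [real_inner_self_eq_norm_sq, hr, one_pow]
    have e2 : fderiv ℝ (fun r => ⟪X r, X r⟫) q v = 0 := by
      rw [e1.fderiv_eq]
      simp
    rw [fderiv_inner_apply ℝ hdq hdq, real_inner_comm (X q) (fderiv ℝ X q v)] at e2
    linarith
  refine ⟨h2.self_of_nhds, ?_⟩
  have hdX : DifferentiableAt ℝ X p := hd.self_of_nhds
  have hdd : DifferentiableAt ℝ (fderiv ℝ X) p :=
    (hX.fderiv_right (m := 1) (by norm_num)).differentiableAt (by norm_num)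
  have hdv : DifferentiableAt ℝ (fun q => fderiv ℝ X q v) p := by
    exact hdd.clm_apply (differentiableAt_const v)
  have e2 : fderiv ℝ (fun r => ⟪X r, fderiv ℝ X r v⟫) p u = 0 := by
    have e1 : (fun r => ⟪X r, fderiv ℝ X r v⟫) =ᶠ[𝓝 p] fun _ => (0 : ℝ) := h2
    rw [e1.fderiv_eq]
    simp
  rw [fderiv_inner_apply ℝ hdX hdv] at e2
  have e3 : fderiv ℝ (fun q => fderiv ℝ X q v) p u = fderiv ℝ (fderiv ℝ X) p u v := by
    rw [fderiv_clm_apply hdd (differentiableAt_const v)]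
    simp
  rw [e3] at e2
  linarith

/-- The second derivative of `φ(X)`, if it is linear. -/
theorem phase_second {X : P → EuclideanSpace ℝ (Fin n)} {φ : EuclideanSpace ℝ (Fin n) → ℝ} {p : P}
    (hX : ContDiffAt ℝ 2 X p) (hφ : ContDiffAt ℝ 2 φ (X p)) (l : P →L[ℝ] ℝ)
    (h1 : ∀ᶠ q in 𝓝 p, φ (X q) = l q) (u v : P) :
    fderiv ℝ φ (X p) (fderiv ℝ X p v) = l v ∧
      fderiv ℝ (fderiv ℝ φ) (X p) (fderiv ℝ X p u) (fderiv ℝ X p v) +
        fderiv ℝ φ (X p) (fderiv ℝ (fderiv ℝ X) p u v) = 0 := by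
  have hd : ∀ᶠ q in 𝓝 p, DifferentiableAt ℝ X q := by
    filter_upwards [hX.eventually (by simp)] with q hq
    exact hq.differentiableAt (by norm_num)
  have hdφ : ∀ᶠ q in 𝓝 p, DifferentiableAt ℝ φ (X q) := by
    have : ∀ᶠ y in 𝓝 (X p), DifferentiableAt ℝ φ y := by
      filter_upwards [hφ.eventually (by simp)] with q hq
      exact hq.differentiableAt (by norm_num)
    exact hX.continuousAt.eventually this
  have h2 : ∀ᶠ q in 𝓝 p, fderiv ℝ φ (X q) (fderiv ℝ X q v) = l v := by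
    filter_upwards [h1.eventually_nhds, hd, hdφ] with q hq hdq hdφq
    have e1 : (fun r => φ (X r)) =ᶠ[𝓝 q] fun r => l r := hq
    have e2 : fderiv ℝ (fun r => φ (X r)) q v = l v := by
      rw [e1.fderiv_eq]
      simp
    have e3 : fderiv ℝ (fun r => φ (X r)) q = (fderiv ℝ φ (X q)).comp (fderiv ℝ X q) :=
      fderiv_comp q hdφq hdq
    rw [e3] at e2
    exact e2
  refine ⟨h2.self_of_nhds, ?_⟩
  have hdX : DifferentiableAt ℝ X p := hd.self_of_nhds
  have hdd : DifferentiableAt ℝ (fderiv ℝ X) p :=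
    (hX.fderiv_right (m := 1) (by norm_num)).differentiableAt (by norm_num)
  have hddφ : DifferentiableAt ℝ (fderiv ℝ φ) (X p) :=
    (hφ.fderiv_right (m := 1) (by norm_num)).differentiableAt (by norm_num)
  have hdv : DifferentiableAt ℝ (fun q => fderiv ℝ X q v) p :=
    hdd.clm_apply (differentiableAt_const v)
  have hc : DifferentiableAt ℝ (fun q => fderiv ℝ φ (X q)) p := hddφ.comp p hdX
  have e2 : fderiv ℝ (fun r => fderiv ℝ φ (X r) (fderiv ℝ X r v)) p u = 0 := by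
    have e1 : (fun r => fderiv ℝ φ (X r) (fderiv ℝ X r v)) =ᶠ[𝓝 p] fun _ => l v := h2
    rw [e1.fderiv_eq]
    simp
  rw [fderiv_clm_apply hc hdv] at e2
  have e3 : fderiv ℝ (fun q => fderiv ℝ X q v) p u = fderiv ℝ (fderiv ℝ X) p u v := by
    rw [fderiv_clm_apply hdd (differentiableAt_const v)]
    simp
  have e4 : fderiv ℝ (fun q => fderiv ℝ φ (X q)) p = (fderiv ℝ (fderiv ℝ φ) (X p)).comp
      (fderiv ℝ X p) := fderiv_comp p hddφ hdX
  simp only [e4, _root_.add_apply, ContinuousLinearMap.comp_apply,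
    ContinuousLinearMap.flip_apply, e3] at e2
  linarith

end

/-- **Row CH2**: `(Cyc)` gives `(N)`. -/
theorem cyc_N {Y : Type*} [NormedAddCommGroup Y] [NormedSpace ℝ Y] [FiniteDimensional ℝ Y]
    (hY : Module.finrank ℝ Y + 2 = n) {X : ℝ × Y → EuclideanSpace ℝ (Fin n)}
    {φ : EuclideanSpace ℝ (Fin n) → ℝ} {p : ℝ × Y}
    (hX : ContDiffAt ℝ 2 X p) (hφ : ContDiffAt ℝ 2 φ (X p))
    (h1 : ∀ᶠ q in 𝓝 p, ‖X q‖ = 1) (h2 : ∀ᶠ q in 𝓝 p, φ (X q) = q.1)
    (himm : Function.Injective (fderiv ℝ X p)) (hcyc : Cyc φ (X p))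
    {w : EuclideanSpace ℝ (Fin n)} (hw : w ≠ 0) (hV : ∀ v : Y, ⟪w, fderiv ℝ X p (0, v)⟫ = 0)
    {v : Y} (hv : v ≠ 0) :
    ∃ u : ℝ × Y, ⟪w, fderiv ℝ (fderiv ℝ X) p (0, v) u⟫ ≠ 0 := by
  set x : EuclideanSpace ℝ (Fin n) := X p with hx
  set A : ℝ × Y →L[ℝ] EuclideanSpace ℝ (Fin n) := fderiv ℝ X p with hA
  set g : EuclideanSpace ℝ (Fin n) := (InnerProductSpace.toDual ℝ _).symm (fderiv ℝ φ x) with hg
  have hgv : ∀ y, ⟪g, y⟫ = fderiv ℝ φ x y := fun y => by
    rw [hg, InnerProductSpace.toDual_symm_apply]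
  have hxx : ⟪x, x⟫ = 1 := by
    rw [real_inner_self_eq_norm_sq, h1.self_of_nhds, one_pow]
  have hxA : ∀ u, ⟪x, A u⟫ = 0 := fun u => (sphere_second hX h1 u u).1
  have hsph : ∀ u v', ⟪A u, A v'⟫ + ⟪x, fderiv ℝ (fderiv ℝ X) p u v'⟫ = 0 := fun u v' =>
    (sphere_second hX h1 u v').2
  have hl : ∀ᶠ q in 𝓝 p, φ (X q) = (ContinuousLinearMap.fst ℝ ℝ Y) q := h2
  have hLA : ∀ u : ℝ × Y, fderiv ℝ φ x (A u) = u.1 := fun u => (phase_second hX hφ _ hl u u).1
  have hph : ∀ u v', fderiv ℝ (fderiv ℝ φ) x (A u) (A v') +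
      fderiv ℝ φ x (fderiv ℝ (fderiv ℝ X) p u v') = 0 := fun u v' =>
    (phase_second hX hφ _ hl u v').2
  -- the space spanned by the z-derivatives and its complement
  set T : Submodule ℝ (EuclideanSpace ℝ (Fin n)) :=
    LinearMap.range ((A : ℝ × Y →ₗ[ℝ] EuclideanSpace ℝ (Fin n)).comp (LinearMap.inr ℝ ℝ Y)) with hT
  have hTdim : Module.finrank ℝ T = Module.finrank ℝ Y := by
    rw [hT]
    refine LinearMap.finrank_range_of_inj ?_
    intro a b hab
    have h3 : A (0, a) = A (0, b) := hab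
    exact (Prod.ext_iff.1 (himm h3)).2
  have hTc : Module.finrank ℝ Tᗮ = 2 := by
    have h3 := T.finrank_add_finrank_orthogonal
    rw [hTdim, finrank_euclideanSpace, Fintype.card_fin] at h3
    omega
  have memT : ∀ y, (∀ v', ⟪y, A (0, v')⟫ = 0) → y ∈ Tᗮ := by
    intro y hy
    rw [Submodule.mem_orthogonal]
    rintro _ ⟨v', rfl⟩
    rw [real_inner_comm]
    exact hy v'
  have hxT : x ∈ Tᗮ := memT x fun v' => hxA _
  have hgT : g ∈ Tᗮ := memT g fun v' => by rw [hgv, hLA]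
  have hwT : w ∈ Tᗮ := memT w hV
  have hli : LinearIndependent ℝ ![(⟨x, hxT⟩ : Tᗮ), ⟨g, hgT⟩] := by
    rw [LinearIndependent.pair_iff]
    intro s t hst
    have h3 : s • x + t • g = 0 := by
      have := congrArg Subtype.val hst
      simpa using this
    have h4 : t = 0 := by
      have h5 := congrArg (fun y => ⟪y, A (1, 0)⟫) h3
      simp only [inner_add_left, inner_smul_left, inner_zero_left, hxA, hgv, hLA] at h5
      simpa using h5
    rw [h4, zero_smul, add_zero] at h3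
    have h6 := congrArg (fun y => ⟪y, x⟫) h3
    simp only [inner_smul_left, inner_zero_left, hxx] at h6
    exact ⟨by simpa using h6, h4⟩
  have hspan : Submodule.span ℝ (Set.range ![(⟨x, hxT⟩ : Tᗮ), ⟨g, hgT⟩]) = ⊤ :=
    hli.span_eq_top_of_card_eq_finrank' (by simp [hTc])
  obtain ⟨lam, kap, hwe⟩ : ∃ lam kap : ℝ, w = lam • x + kap • g := by
    have h3 : (⟨w, hwT⟩ : Tᗮ) ∈ Submodule.span ℝ (Set.range ![(⟨x, hxT⟩ : Tᗮ), ⟨g, hgT⟩]) := by
      rw [hspan]
      trivial
    rw [Matrix.range_cons, Matrix.range_cons, Matrix.range_empty, Set.union_empty,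
      Set.singleton_union, Submodule.mem_span_pair] at h3
    obtain ⟨a, b, hab⟩ := h3
    exact ⟨a, b, by simpa using (congrArg Subtype.val hab).symm⟩
  by_contra hcon
  push Not at hcon
  set V : EuclideanSpace ℝ (Fin n) := A (0, v) with hVdef
  have hV0 : V ≠ 0 := by
    intro h3
    have h4 : ((0 : ℝ), v) = 0 := himm (by rw [← hVdef, h3, map_zero])
    exact hv (Prod.ext_iff.1 h4).2
  have key : ∀ u, lam * ⟪V, A u⟫ + kap * fderiv ℝ (fderiv ℝ φ) x V (A u) = 0 := by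
    intro u
    have h3 := hcon u
    rw [hwe, inner_add_left, inner_smul_left, inner_smul_left, hgv] at h3
    have h4 := hsph (0, v) u
    have h5 := hph (0, v) u
    simp only [conj_trivial] at h3
    have h6 : ⟪x, fderiv ℝ (fderiv ℝ X) p (0, v) u⟫ = -⟪V, A u⟫ := by linarith
    have h7 : fderiv ℝ φ x (fderiv ℝ (fderiv ℝ X) p (0, v) u) =
        -fderiv ℝ (fderiv ℝ φ) x V (A u) := by linarith
    rw [h6, h7] at h3
    linarith
  -- the range of `A` is the tangent space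
  have hrange : ∀ y, ⟪x, y⟫ = 0 → ∃ u, A u = y := by
    intro y hy
    set W : Submodule ℝ (EuclideanSpace ℝ (Fin n)) :=
      LinearMap.range (A : ℝ × Y →ₗ[ℝ] EuclideanSpace ℝ (Fin n)) with hW
    have hWdim : Module.finrank ℝ W + 1 = n := by
      rw [hW, LinearMap.finrank_range_of_inj himm, Module.finrank_prod, Module.finrank_self]
      omega
    have hWle : W ≤ (ℝ ∙ x)ᗮ := by
      rintro _ ⟨u, rfl⟩
      rw [Submodule.mem_orthogonal_singleton_iff_inner_right]
      exact hxA u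
    have hx0 : x ≠ 0 := by
      intro h3
      rw [h3, inner_zero_left] at hxx
      exact zero_ne_one hxx
    have hdim2 : Module.finrank ℝ (ℝ ∙ x)ᗮ + 1 = n := by
      have h3 := (ℝ ∙ x).finrank_add_finrank_orthogonal
      rw [finrank_span_singleton hx0, finrank_euclideanSpace, Fintype.card_fin] at h3
      omega
    have hWe : W = (ℝ ∙ x)ᗮ := Submodule.eq_of_le_of_finrank_eq hWle (by omega)
    have h3 : y ∈ (ℝ ∙ x)ᗮ := by
      rw [Submodule.mem_orthogonal_singleton_iff_inner_right]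
      exact hy
    rw [← hWe] at h3
    obtain ⟨u, hu⟩ := h3
    exact ⟨u, hu⟩
  by_cases hk : kap = 0
  · have h3 := key (0, v)
    rw [hk, zero_mul, add_zero, ← hVdef] at h3
    have h4 : ⟪V, V⟫ ≠ 0 := by
      rw [real_inner_self_eq_norm_sq]
      exact pow_ne_zero 2 (norm_ne_zero_iff.2 hV0)
    have h5 : lam = 0 := by
      rcases mul_eq_zero.1 h3 with h | h
      · exact h
      · exact absurd h h4
    apply hw
    rw [hwe, h5, hk, zero_smul, zero_smul, add_zero]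
  · obtain ⟨y, hy1, hy2⟩ := hcyc V hV0 (by rw [real_inner_comm]; exact hxA _) (hLA _) (-(lam / kap))
    obtain ⟨u, rfl⟩ := hrange y (by rw [real_inner_comm]; exact hy1)
    refine hy2 ?_
    have h3 := key u
    field_simp
    linarith

end Pool.Agent.LF
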