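import Pool.Agent.LF.Tb
import Pool.Agent.LF.CAPS

/-!
The pieces of the density: bounds, supports, the sum.
-/

set_option autoImplicit false

namespace Pool.Agent.LF

open MeasureTheory Set Metric Pool.Agent.MP_6cbfb8_an Pool.Agent.GNP
open scoped ENNReal Real RealInnerProductSpace ContDiff

/-- The centre of the cap `c`. -/
noncomputable def pcs {m : ℕ} (p0 : ℝ × E m) (r : ℝ) (M : ℕ) (c : ℕ × (Fin m → ℕ)) : ℝ × E m :=
  (tc p0.1 r M c.1, zc p0.2 r M c.2)

/-- The piece of `b` on the cap `c`. -/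
noncomputable def bcs {m : ℕ} (p0 : ℝ × E m) (r : ℝ) (M : ℕ) (b : ℝ × E m → ℂ)
    (c : ℕ × (Fin m → ℕ)) (p : ℝ × E m) : ℂ :=
  ((chi1 p0.1 r M c.1 p.1 * chi2 p0.2 r M c.2 p.2 : ℝ) : ℂ) * b p

theorem abs_chi_le {m : ℕ} (p0 : ℝ × E m) (r : ℝ) (M : ℕ) (c : ℕ × (Fin m → ℕ)) (p : ℝ × E m) :
    |chi1 p0.1 r M c.1 p.1 * chi2 p0.2 r M c.2 p.2| ≤ 1 := by
  rw [abs_mul, abs_of_nonneg (chi1_nonneg _ _ _ _ _), abs_of_nonneg (chi2_nonneg _ _ _ _ _)]
  exact mul_le_one₀ (chi1_le_one _ _ _ _ _) (chi2_nonneg _ _ _ _ _) (chi2_le_one _ _ _ _ _)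

theorem bcs_norm_le {m : ℕ} (p0 : ℝ × E m) (r : ℝ) (M : ℕ) (b : ℝ × E m → ℂ)
    (c : ℕ × (Fin m → ℕ)) (p : ℝ × E m) : ‖bcs p0 r M b c p‖ ≤ ‖b p‖ := by
  unfold bcs
  rw [norm_mul, Complex.norm_real, Real.norm_eq_abs]
  calc |chi1 p0.1 r M c.1 p.1 * chi2 p0.2 r M c.2 p.2| * ‖b p‖ ≤ 1 * ‖b p‖ := by
        gcongr
        exact abs_chi_le p0 r M c p
    _ = ‖b p‖ := one_mul _

theorem bcs_meas {m : ℕ} (p0 : ℝ × E m) (r : ℝ) (M : ℕ) {b : ℝ × E m → ℂ} (hb : Measurable b)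
    (c : ℕ × (Fin m → ℕ)) : Measurable (bcs p0 r M b c) := by
  unfold bcs
  have h1 : Measurable fun p : ℝ × E m => chi1 p0.1 r M c.1 p.1 :=
    (contDiff_chi1 p0.1 r M c.1).continuous.measurable.comp measurable_fst
  have h2 : Measurable fun p : ℝ × E m => chi2 p0.2 r M c.2 p.2 :=
    (contDiff_chi2 p0.2 r M c.2).continuous.measurable.comp measurable_snd
  exact (Complex.measurable_ofReal.comp (h1.mul h2)).mul hb

theorem bcs_supp {m : ℕ} (hm : 1 ≤ m) {p0 : ℝ × E m} {r : ℝ} (hr : 0 < r) {M : ℕ}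
    {b : ℝ × E m → ℂ} {c : ℕ × (Fin m → ℕ)} {p : ℝ × E m} (h : bcs p0 r M b c p ≠ 0) :
    ‖p - pcs p0 r M c‖ ≤ √m * r ∧ b p ≠ 0 := by
  unfold bcs at h
  have hb : b p ≠ 0 := right_ne_zero_of_mul h
  have hc : ((chi1 p0.1 r M c.1 p.1 * chi2 p0.2 r M c.2 p.2 : ℝ) : ℂ) ≠ 0 := left_ne_zero_of_mul h
  have hc' : chi1 p0.1 r M c.1 p.1 * chi2 p0.2 r M c.2 p.2 ≠ 0 := by
    intro h0
    exact hc (by rw [h0]; simp)
  have h1 := chi1_supp hr (left_ne_zero_of_mul hc')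
  have h2 := chi2_supp hr (right_ne_zero_of_mul hc')
  have hm1 : (1 : ℝ) ≤ √m := by
    rw [Real.one_le_sqrt]
    exact_mod_cast hm
  refine ⟨?_, hb⟩
  rw [Prod.norm_def]
  refine max_le ?_ h2
  calc ‖(p - pcs p0 r M c).1‖ = |p.1 - tc p0.1 r M c.1| := by
        rw [Prod.fst_sub, Real.norm_eq_abs]; rfl
    _ ≤ 1 * r := by linarith
    _ ≤ √m * r := by gcongr

theorem bcs_smooth {m : ℕ} (p0 : ℝ × E m) (r : ℝ) (M : ℕ) {b : ℝ × E m → ℂ}
    (hb : ∀ t, ContDiff ℝ ∞ fun z => b (t, z)) (c : ℕ × (Fin m → ℕ)) (t : ℝ) :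
    ContDiff ℝ ∞ fun z => bcs p0 r M b c (t, z) := by
  unfold bcs
  simp only
  have h1 : ContDiff ℝ ∞ fun z : E m => chi1 p0.1 r M c.1 t * chi2 p0.2 r M c.2 z :=
    contDiff_const.mul (contDiff_chi2 p0.2 r M c.2)
  have h2 : ContDiff ℝ ∞ fun z : E m =>
      ((chi1 p0.1 r M c.1 t * chi2 p0.2 r M c.2 z : ℝ) : ℂ) := Complex.ofRealCLM.contDiff.comp h1
  exact h2.mul (hb t)

/-- Bounds of the derivatives of the pieces along the leaves. -/
theorem bcs_bound {m : ℕ} (N : ℕ) (B : ℕ → ℝ) : ∃ Bd : ℝ, 0 ≤ Bd ∧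
    ∀ (p0 : ℝ × E m) (r : ℝ) (M : ℕ) (b : ℝ × E m → ℂ) (c : ℕ × (Fin m → ℕ)), 0 < r → r ≤ 1 →
      (∀ t, ContDiff ℝ ∞ fun z => b (t, z)) →
      (∀ t k z, ‖iteratedFDeriv ℝ k (fun z => b (t, z)) z‖ ≤ B k * (1 / r) ^ k) →
      ∀ j ≤ N, ∀ t z, ‖iteratedFDeriv ℝ j (fun z => bcs p0 r M b c (t, z)) z‖ ≤
        Bd * (1 / r) ^ j := by
  obtain ⟨Bc, hBc0, -, hBc⟩ := caps_bounds m
  refine ⟨∑ j ∈ Finset.range (N + 1), ∑ i ∈ Finset.range (j + 1),
    (j.choose i : ℝ) * Bc i * |B (j - i)|, ?_, ?_⟩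
  · exact Finset.sum_nonneg fun j _ => Finset.sum_nonneg fun i _ =>
      mul_nonneg (mul_nonneg (Nat.cast_nonneg _) (hBc0 i)) (abs_nonneg _)
  intro p0 r M b c hr hr1 hb hB j hj t z
  have h1r : 1 ≤ 1 / r := by rwa [one_le_div hr]
  set u : E m → ℝ := fun z => chi1 p0.1 r M c.1 t * chi2 p0.2 r M c.2 z with hu
  have huc : ContDiff ℝ ∞ u := contDiff_const.mul (contDiff_chi2 p0.2 r M c.2)
  have e1 : (fun z => bcs p0 r M b c (t, z)) = fun z => u z • b (t, z) := by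
    funext z
    simp only [bcs, hu, Complex.real_smul]
  have hub : ∀ i x, ‖iteratedFDeriv ℝ i u x‖ ≤ Bc i * (1 / r) ^ i := by
    intro i x
    have h2 : u = fun z => chi1 p0.1 r M c.1 t • chi2 p0.2 r M c.2 z := by
      funext z; simp [hu]
    rw [h2]
    have h3 := iteratedFDeriv_const_smul_apply (𝕜 := ℝ) (i := i) (a := chi1 p0.1 r M c.1 t)
      (f := chi2 p0.2 r M c.2) (x := x)
      ((contDiff_chi2 p0.2 r M c.2).contDiffAt.of_le (by exact_mod_cast le_top))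
    have h4 : (fun z => chi1 p0.1 r M c.1 t • chi2 p0.2 r M c.2 z) =
        chi1 p0.1 r M c.1 t • chi2 p0.2 r M c.2 := rfl
    rw [h4, h3, norm_smul, Real.norm_eq_abs, abs_of_nonneg (chi1_nonneg _ _ _ _ _)]
    calc chi1 p0.1 r M c.1 t * ‖iteratedFDeriv ℝ i (chi2 p0.2 r M c.2) x‖ ≤
          1 * (Bc i / r ^ i) := by
          gcongr
          · exact chi1_le_one _ _ _ _ _
          · exact hBc p0.2 r M c.2 hr i x
      _ = Bc i * (1 / r) ^ i := by rw [one_mul, one_div, inv_pow]; ring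
  rw [e1]
  refine (norm_iteratedFDeriv_smul_le huc (hb t) z (n := j) (by exact_mod_cast le_top)).trans ?_
  calc ∑ i ∈ Finset.range (j + 1), (j.choose i : ℝ) * ‖iteratedFDeriv ℝ i u z‖ *
        ‖iteratedFDeriv ℝ (j - i) (fun z => b (t, z)) z‖ ≤
        ∑ i ∈ Finset.range (j + 1), (j.choose i : ℝ) * Bc i * |B (j - i)| * (1 / r) ^ j := by
        refine Finset.sum_le_sum fun i hi => ?_
        have hij : i ≤ j := Nat.lt_succ_iff.1 (Finset.mem_range.1 hi)
        calc (j.choose i : ℝ) * ‖iteratedFDeriv ℝ i u z‖ *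
              ‖iteratedFDeriv ℝ (j - i) (fun z => b (t, z)) z‖ ≤
              (j.choose i : ℝ) * (Bc i * (1 / r) ^ i) * (|B (j - i)| * (1 / r) ^ (j - i)) := by
              gcongr
              · exact mul_nonneg (Nat.cast_nonneg _) (mul_nonneg (hBc0 i) (by positivity))
              · exact hub i z
              · refine (hB t (j - i) z).trans ?_
                gcongr
                exact le_abs_self _
          _ = (j.choose i : ℝ) * Bc i * |B (j - i)| * ((1 / r) ^ i * (1 / r) ^ (j - i)) := by ring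
          _ = (j.choose i : ℝ) * Bc i * |B (j - i)| * (1 / r) ^ j := by
              rw [← pow_add, Nat.add_sub_cancel' hij]
    _ = (∑ i ∈ Finset.range (j + 1), (j.choose i : ℝ) * Bc i * |B (j - i)|) * (1 / r) ^ j := by
        rw [Finset.sum_mul]
    _ ≤ _ := by
        gcongr
        refine Finset.single_le_sum (f := fun j => ∑ i ∈ Finset.range (j + 1),
          (j.choose i : ℝ) * Bc i * |B (j - i)|) (fun j _ => Finset.sum_nonneg fun i _ =>
          mul_nonneg (mul_nonneg (Nat.cast_nonneg _) (hBc0 i)) (abs_nonneg _)) ?_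
        exact Finset.mem_range.2 (by omega)

/-- Integrability of a bounded measurable function supported in a ball. -/
theorem core_int {m : ℕ} {b : ℝ × E m → ℂ} (hb : Measurable b) {B0 δ : ℝ} {p0 : ℝ × E m}
    (hB : ∀ p, ‖b p‖ ≤ B0) (hs : ∀ p, δ < ‖p - p0‖ → b p = 0) :
    Integrable b ∧ ∫ p, ‖b p‖ ≤ B0 * volume.real (closedBall p0 δ) := by
  have hv : volume (closedBall p0 δ) ≠ ⊤ := (isCompact_closedBall p0 δ).measure_lt_top.ne
  have h1 : (closedBall p0 δ).indicator b = b := by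
    funext p
    by_cases hp : p ∈ closedBall p0 δ
    · rw [indicator_of_mem hp]
    · rw [indicator_of_notMem hp, hs p]
      rwa [mem_closedBall, dist_eq_norm, not_le] at hp
  have h2 : IntegrableOn b (closedBall p0 δ) :=
    Measure.integrableOn_of_bounded (M := B0) hv hb.aestronglyMeasurable
      (Filter.Eventually.of_forall hB)
  refine ⟨?_, ?_⟩
  · rw [← h1, integrable_indicator_iff measurableSet_closedBall]
    exact h2
  · have h3 : ∫ p, ‖b p‖ = ∫ p in closedBall p0 δ, ‖b p‖ := by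
      rw [← integral_indicator measurableSet_closedBall]
      refine integral_congr_ae (Filter.Eventually.of_forall fun p => ?_)
      simp only
      conv_lhs => rw [← h1]
      rw [norm_indicator_eq_indicator_norm]
    rw [h3]
    calc ∫ p in closedBall p0 δ, ‖b p‖ ≤ ∫ _ in closedBall p0 δ, B0 := by
          refine integral_mono_of_nonneg (Filter.Eventually.of_forall fun _ => norm_nonneg _)
            ?_ (Filter.Eventually.of_forall hB)
          exact integrableOn_const hv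
      _ = B0 * volume.real (closedBall p0 δ) := by
          rw [setIntegral_const, smul_eq_mul, mul_comm]

theorem Tb_norm_le {m n : ℕ} (X : ℝ × E m → E n) (b : ℝ × E m → ℂ) (ξ : E n) :
    ‖Tb X b ξ‖ ≤ ∫ p, ‖b p‖ := by
  unfold Tb
  refine (norm_integral_le_integral_norm _).trans (le_of_eq ?_)
  refine integral_congr_ae (Filter.Eventually.of_forall fun p => ?_)
  simp only
  rw [norm_mul, Complex.norm_exp_ofReal_mul_I, mul_one]

theorem Tb_integrable {m n : ℕ} {X : ℝ × E m → E n} (hX : Continuous X) {b : ℝ × E m → ℂ}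
    (hb : Integrable b) (ξ : E n) :
    Integrable fun p => b p * Complex.exp (((-⟪ξ, X p⟫ : ℝ) : ℂ) * Complex.I) := by
  refine hb.mul_bdd (c := 1) ?_ (Filter.Eventually.of_forall fun p => ?_)
  · have h1 : Continuous fun p : ℝ × E m =>
        Complex.exp (((-⟪ξ, X p⟫ : ℝ) : ℂ) * Complex.I) := by fun_prop
    exact h1.aestronglyMeasurable
  · rw [Complex.norm_exp_ofReal_mul_I]

/-- The density is the sum of its pieces. -/
theorem Tb_sum {m n : ℕ} {X : ℝ × E m → E n} (hX : Continuous X) {b : ℝ × E m → ℂ}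
    (hb : Measurable b) {B0 δ : ℝ} {p0 : ℝ × E m} (hB : ∀ p, ‖b p‖ ≤ B0)
    (hs : ∀ p, δ < ‖p - p0‖ → b p = 0) {r : ℝ} (hr : 0 < r) (ξ : E n) :
    Tb X b ξ = ∑ c : ↥(gi ⌈δ / r⌉₊ ×ˢ gk m ⌈δ / r⌉₊),
      Tb X (bcs p0 r ⌈δ / r⌉₊ b c.1) ξ := by
  set M : ℕ := ⌈δ / r⌉₊ with hM
  have hδM : δ ≤ r * M := caps_le_ceil hr
  have h1 : ∀ p, b p = ∑ c ∈ gi M ×ˢ gk m M, bcs p0 r M b c p := by
    intro p
    have h2 := sum_pieces (t0 := p0.1) (z0 := p0.2) hr (M := M) (b := fun t z => b (t, z)) ?_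
      p.1 p.2
    · simpa [bcs] using h2
    · intro t z h3
      have h4 : ‖(t, z) - p0‖ ≤ δ := by
        by_contra h5
        exact h3 (hs _ (not_le.1 h5))
      rw [Prod.norm_def] at h4
      exact ⟨((le_max_left _ _).trans h4).trans hδM, ((le_max_right _ _).trans h4).trans hδM⟩
  have h3 : ∀ c, Integrable (bcs p0 r M b c) := by
    intro c
    refine (core_int (bcs_meas p0 r M hb c) (B0 := B0) (δ := δ) (p0 := p0) ?_ ?_).1
    · exact fun p => (bcs_norm_le p0 r M b c p).trans (hB p)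
    · intro p hp
      unfold bcs
      rw [hs p hp, mul_zero]
  rw [Finset.sum_coe_sort (gi M ×ˢ gk m M) fun c => Tb X (bcs p0 r M b c) ξ]
  unfold Tb
  rw [← integral_finsetSum _ fun c _ => Tb_integrable hX (h3 c) ξ]
  refine integral_congr_ae (Filter.Eventually.of_forall fun p => ?_)
  simp only
  rw [← Finset.sum_mul, ← h1 p]

end Pool.Agent.LF
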