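import Mathlib.Analysis.SpecialFunctions.Pow.Asymptotics
import Mathlib.Analysis.SpecialFunctions.Pow.Real
import Mathlib.Tactic

/-!
The powers of `R` in CORE.
-/

set_option autoImplicit false

namespace Pool.Agent.LF

theorem core_num {m N : ℕ} {ε σ R K : ℝ} (hε : 0 < ε) (hσ : 0 < σ) (hσ1 : σ ≤ 1)
    (hσε : σ * (4 * m + 3) ≤ ε / 2) (hN : 6 * (m : ℝ) + 6 ≤ σ * N) (hR : 1 ≤ R)
    (hK : K = R ^ σ) {D1 Db Cκ Ce Cv Co S n0 e v ε2 : ℝ} (hD1 : 0 ≤ D1) (hDb : 0 ≤ Db)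
    (hCκ : 0 ≤ Cκ) (hCe : 0 ≤ Ce) (hCv : 0 ≤ Cv) (hCo : 0 ≤ Co) (hS : 0 ≤ S) (hn00 : 0 ≤ n0)
    (he0 : 0 ≤ e) (hv0 : 0 ≤ v) (hε20 : 0 ≤ ε2)
    (hn0 : n0 ≤ Cκ * R ^ (m + 1)) (he : e ≤ Ce * (K ^ N)⁻¹) (hv : v ≤ Cv * R ^ (m + 2))
    (hε2 : ε2 ≤ Co * R ^ (m + 2) * (K ^ N)⁻¹) :
    2 * ((D1 * K) ^ (m + 1)) ^ 2 * (Db * (1 / R) ^ m * K ^ (2 * m + 1) * (1 + Real.log R) +
      2 * (n0 * e ^ 2) ^ 2 * v) + n0 ^ 4 * (e * S ^ 3 * v + ε2) ≤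
    (2 * D1 ^ (2 * m + 2) * Db * (1 + 2 / ε) + 4 * D1 ^ (2 * m + 2) * Cκ ^ 2 * Ce ^ 4 * Cv +
      Cκ ^ 4 * (Ce * S ^ 3 * Cv + Co)) * R ^ (-(m : ℝ) + ε) := by
  have hR0 : 0 < R := by linarith
  have hK1 : 1 ≤ K := by rw [hK]; exact Real.one_le_rpow hR hσ.le
  have hK0 : 0 < K := by linarith
  have hKR : K ≤ R := by
    rw [hK]
    calc R ^ σ ≤ R ^ (1 : ℝ) := Real.rpow_le_rpow_of_exponent_le hR hσ1
      _ = R := Real.rpow_one R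
  have hKN : (K ^ N)⁻¹ ≤ (R ^ (6 * m + 6))⁻¹ := by
    refine inv_anti₀ (by positivity) ?_
    rw [hK, ← Real.rpow_natCast (R ^ σ), ← Real.rpow_mul hR0.le, ← Real.rpow_natCast R]
    refine Real.rpow_le_rpow_of_exponent_le hR ?_
    push_cast
    exact hN
  have hKN0 : 0 ≤ (K ^ N)⁻¹ := by positivity
  have hKN1 : (K ^ N)⁻¹ ≤ 1 := inv_le_one_of_one_le₀ (one_le_pow₀ hK1)
  have hlog0 : 0 ≤ Real.log R := Real.log_nonneg hR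
  have hRε : (0 : ℝ) < R ^ (ε / 2) := Real.rpow_pos_of_pos hR0 _
  have hRε1 : (1 : ℝ) ≤ R ^ (ε / 2) := Real.one_le_rpow hR (by positivity)
  have hlog : 1 + Real.log R ≤ (1 + 2 / ε) * R ^ (ε / 2) := by
    have h1 := Real.log_le_rpow_div hR0.le (ε := ε / 2) (by positivity)
    have h2 : R ^ (ε / 2) / (ε / 2) = 2 / ε * R ^ (ε / 2) := by
      field_simp
    rw [h2] at h1
    nlinarith
  have hK4 : K ^ (4 * m + 3) ≤ R ^ (ε / 2) := by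
    rw [hK, ← Real.rpow_natCast (R ^ σ), ← Real.rpow_mul hR0.le]
    refine Real.rpow_le_rpow_of_exponent_le hR ?_
    push_cast
    exact hσε
  have hmain : 2 * ((D1 * K) ^ (m + 1)) ^ 2 *
      (Db * (1 / R) ^ m * K ^ (2 * m + 1) * (1 + Real.log R)) ≤
      2 * D1 ^ (2 * m + 2) * Db * (1 + 2 / ε) * R ^ (-(m : ℝ) + ε) := by
    have h1 : R ^ (-(m : ℝ) + ε) = (1 / R) ^ m * (R ^ (ε / 2) * R ^ (ε / 2)) := by
      rw [← Real.rpow_add hR0, add_halves, Real.rpow_add hR0, Real.rpow_neg hR0.le,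
        Real.rpow_natCast, one_div, inv_pow]
    rw [h1]
    calc 2 * ((D1 * K) ^ (m + 1)) ^ 2 *
          (Db * (1 / R) ^ m * K ^ (2 * m + 1) * (1 + Real.log R)) =
          2 * D1 ^ (2 * m + 2) * Db * (1 / R) ^ m * (K ^ (4 * m + 3) * (1 + Real.log R)) := by
          ring
      _ ≤ 2 * D1 ^ (2 * m + 2) * Db * (1 / R) ^ m *
          (R ^ (ε / 2) * ((1 + 2 / ε) * R ^ (ε / 2))) := by
          gcongr
      _ = _ := by ring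
  have hRm : (1 / R) ^ m ≤ R ^ (-(m : ℝ) + ε) := by
    rw [Real.rpow_add hR0, Real.rpow_neg hR0.le, Real.rpow_natCast, one_div, inv_pow]
    have : (1 : ℝ) ≤ R ^ ε := Real.one_le_rpow hR hε.le
    exact le_mul_of_one_le_right (by positivity) this
  have hpow : R ^ (5 * m + 6) * (R ^ (6 * m + 6))⁻¹ = (1 / R) ^ m := by
    rw [one_div, inv_pow]
    field_simp
    ring
  have he4 : e ^ 4 ≤ Ce ^ 4 * (R ^ (6 * m + 6))⁻¹ := by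
    calc e ^ 4 ≤ (Ce * (K ^ N)⁻¹) ^ 4 := by gcongr
      _ = Ce ^ 4 * ((K ^ N)⁻¹ * (K ^ N)⁻¹ * (K ^ N)⁻¹ * (K ^ N)⁻¹) := by ring
      _ ≤ Ce ^ 4 * (1 * 1 * 1 * (R ^ (6 * m + 6))⁻¹) := by gcongr
      _ = _ := by ring
  have he1 : e ≤ Ce * (R ^ (6 * m + 6))⁻¹ := he.trans (by gcongr)
  have hε21 : ε2 ≤ Co * R ^ (m + 2) * (R ^ (6 * m + 6))⁻¹ := hε2.trans (by gcongr)
  have hE1 : 2 * ((D1 * K) ^ (m + 1)) ^ 2 * (2 * (n0 * e ^ 2) ^ 2 * v) ≤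
      4 * D1 ^ (2 * m + 2) * Cκ ^ 2 * Ce ^ 4 * Cv * R ^ (-(m : ℝ) + ε) := by
    calc 2 * ((D1 * K) ^ (m + 1)) ^ 2 * (2 * (n0 * e ^ 2) ^ 2 * v) =
          4 * D1 ^ (2 * m + 2) * K ^ (2 * m + 2) * n0 ^ 2 * e ^ 4 * v := by ring
      _ ≤ 4 * D1 ^ (2 * m + 2) * R ^ (2 * m + 2) * (Cκ * R ^ (m + 1)) ^ 2 *
          (Ce ^ 4 * (R ^ (6 * m + 6))⁻¹) * (Cv * R ^ (m + 2)) := by
          gcongr
      _ = 4 * D1 ^ (2 * m + 2) * Cκ ^ 2 * Ce ^ 4 * Cv *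
          (R ^ (5 * m + 6) * (R ^ (6 * m + 6))⁻¹) := by ring
      _ ≤ _ := by
          rw [hpow]
          gcongr
  have hE2 : n0 ^ 4 * (e * S ^ 3 * v + ε2) ≤
      Cκ ^ 4 * (Ce * S ^ 3 * Cv + Co) * R ^ (-(m : ℝ) + ε) := by
    calc n0 ^ 4 * (e * S ^ 3 * v + ε2) ≤ (Cκ * R ^ (m + 1)) ^ 4 *
          (Ce * (R ^ (6 * m + 6))⁻¹ * S ^ 3 * (Cv * R ^ (m + 2)) +
            Co * R ^ (m + 2) * (R ^ (6 * m + 6))⁻¹) := by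
          gcongr
      _ = Cκ ^ 4 * (Ce * S ^ 3 * Cv + Co) * (R ^ (5 * m + 6) * (R ^ (6 * m + 6))⁻¹) := by ring
      _ ≤ _ := by
          rw [hpow]
          gcongr
  calc _ = 2 * ((D1 * K) ^ (m + 1)) ^ 2 *
        (Db * (1 / R) ^ m * K ^ (2 * m + 1) * (1 + Real.log R)) +
        2 * ((D1 * K) ^ (m + 1)) ^ 2 * (2 * (n0 * e ^ 2) ^ 2 * v) +
        n0 ^ 4 * (e * S ^ 3 * v + ε2) := by ring
    _ ≤ _ := by
        refine (add_le_add (add_le_add hmain hE1) hE2).trans (le_of_eq ?_)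
        ring

end Pool.Agent.LF
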