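import Pool.Agent.LF.COREA

/-!
Leaves, row CORE-A: the final form.
-/

set_option autoImplicit false

namespace Pool.Agent.LF

open MeasureTheory Set Metric
open scoped ENNReal Real RealInnerProductSpace ComplexConjugate

/-- The measure with density `η (ξ / R)`. -/
noncomputable def ca_mu {n : ℕ} (η : EuclideanSpace ℝ (Fin n) → ℝ) (R : ℝ) :
    Measure (EuclideanSpace ℝ (Fin n)) :=
  (volume : Measure (EuclideanSpace ℝ (Fin n))).withDensity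
    fun ξ => ENNReal.ofReal (η (R⁻¹ • ξ))

/-- The annulus. -/
def ca_an (n : ℕ) (R : ℝ) : Set (EuclideanSpace ℝ (Fin n)) := {ξ | R / 2 ≤ ‖ξ‖ ∧ ‖ξ‖ ≤ 4 * R}

theorem ca_an_meas (n : ℕ) (R : ℝ) : MeasurableSet (ca_an n R) := by
  have b1 : MeasurableSet {ξ : EuclideanSpace ℝ (Fin n) | R / 2 ≤ ‖ξ‖} :=
    measurableSet_le measurable_const measurable_norm
  have b2 : MeasurableSet {ξ : EuclideanSpace ℝ (Fin n) | ‖ξ‖ ≤ 4 * R} :=
    measurableSet_le measurable_norm measurable_const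
  exact b1.inter b2

theorem ca_an_fin (n : ℕ) (R : ℝ) :
    (volume : Measure (EuclideanSpace ℝ (Fin n))) (ca_an n R) ≠ ⊤ := by
  have h1 : ca_an n R ⊆ closedBall 0 (4 * R) := by
    intro ξ hξ
    simpa using hξ.2
  exact ((measure_mono h1).trans_lt measure_closedBall_lt_top).ne

section

variable {n : ℕ} {η : EuclideanSpace ℝ (Fin n) → ℝ} {R : ℝ}

theorem ca_eta_meas (hη : Continuous η) :
    Measurable fun ξ : EuclideanSpace ℝ (Fin n) => ENNReal.ofReal (η (R⁻¹ • ξ)) := by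
  have : Continuous fun ξ : EuclideanSpace ℝ (Fin n) => η (R⁻¹ • ξ) :=
    hη.comp (continuous_const_smul _)
  exact ENNReal.measurable_ofReal.comp this.measurable

theorem ca_eta_supp (hR : 0 < R) (hηs : ∀ x, η x ≠ 0 → 1 / 2 ≤ ‖x‖ ∧ ‖x‖ ≤ 4)
    {ξ : EuclideanSpace ℝ (Fin n)} (h : ξ ∉ ca_an n R) : η (R⁻¹ • ξ) = 0 := by
  by_contra h1
  have h2 := hηs _ h1
  rw [norm_smul, norm_inv, Real.norm_of_nonneg hR.le, inv_mul_le_iff₀ hR,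
    le_inv_mul_iff₀ hR] at h2
  exact h ⟨by linarith [h2.1], by linarith [h2.2]⟩

theorem ca_mu_le (hR : 0 < R) (hη1 : ∀ x, η x ≤ 1)
    (hηs : ∀ x, η x ≠ 0 → 1 / 2 ≤ ‖x‖ ∧ ‖x‖ ≤ 4) {g : EuclideanSpace ℝ (Fin n) → ℝ≥0∞}
    (hη : Continuous η) (hg : Measurable g) :
    ∫⁻ ξ, g ξ ∂(ca_mu η R) ≤ ∫⁻ ξ in ca_an n R, g ξ := by
  unfold ca_mu
  rw [lintegral_withDensity_eq_lintegral_mul _ (ca_eta_meas hη) hg,
    ← lintegral_indicator (ca_an_meas n R)]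
  refine lintegral_mono fun ξ => ?_
  simp only [Pi.mul_apply]
  by_cases h : ξ ∈ ca_an n R
  · rw [indicator_of_mem h]
    calc ENNReal.ofReal (η (R⁻¹ • ξ)) * g ξ ≤ 1 * g ξ := by
          gcongr
          exact ENNReal.ofReal_le_one.2 (hη1 _)
      _ = g ξ := one_mul _
  · rw [ca_eta_supp hR hηs h, ENNReal.ofReal_zero, zero_mul]
    exact zero_le

theorem ca_mu_ge (hR : 0 < R) (hηo : ∀ x, 1 ≤ ‖x‖ → ‖x‖ ≤ 2 → η x = 1)
    {g : EuclideanSpace ℝ (Fin n) → ℝ≥0∞} (hη : Continuous η) (hg : Measurable g) :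
    ∫⁻ ξ in {ξ : EuclideanSpace ℝ (Fin n) | R ≤ ‖ξ‖ ∧ ‖ξ‖ ≤ 2 * R}, g ξ ≤
      ∫⁻ ξ, g ξ ∂(ca_mu η R) := by
  unfold ca_mu
  have hm : MeasurableSet {ξ : EuclideanSpace ℝ (Fin n) | R ≤ ‖ξ‖ ∧ ‖ξ‖ ≤ 2 * R} := by
    have b1 : MeasurableSet {ξ : EuclideanSpace ℝ (Fin n) | R ≤ ‖ξ‖} :=
      measurableSet_le measurable_const measurable_norm
    have b2 : MeasurableSet {ξ : EuclideanSpace ℝ (Fin n) | ‖ξ‖ ≤ 2 * R} :=
      measurableSet_le measurable_norm measurable_const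
    exact b1.inter b2
  rw [lintegral_withDensity_eq_lintegral_mul _ (ca_eta_meas hη) hg, ← lintegral_indicator hm]
  refine lintegral_mono fun ξ => ?_
  simp only [Pi.mul_apply]
  by_cases h : ξ ∈ {ξ : EuclideanSpace ℝ (Fin n) | R ≤ ‖ξ‖ ∧ ‖ξ‖ ≤ 2 * R}
  · rw [indicator_of_mem h]
    have h1 : ‖R⁻¹ • ξ‖ = R⁻¹ * ‖ξ‖ := by rw [norm_smul, norm_inv, Real.norm_of_nonneg hR.le]
    have h2 : η (R⁻¹ • ξ) = 1 := by
      refine hηo _ ?_ ?_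
      · rw [h1, le_inv_mul_iff₀ hR, mul_one]
        exact h.1
      · rw [h1, inv_mul_le_iff₀ hR]
        linarith [h.2]
    rw [h2, ENNReal.ofReal_one, one_mul]
  · rw [indicator_of_notMem h]
    exact zero_le

theorem ca_mu_fin (hR : 0 < R) (hη1 : ∀ x, η x ≤ 1)
    (hηs : ∀ x, η x ≠ 0 → 1 / 2 ≤ ‖x‖ ∧ ‖x‖ ≤ 4) (hη : Continuous η) :
    ca_mu η R univ ≤ volume (ca_an n R) := by
  have h1 := ca_mu_le hR hη1 hηs hη (g := fun _ => 1) measurable_const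
  simpa using h1

theorem ca_mu_ae (hR : 0 < R) (hηs : ∀ x, η x ≠ 0 → 1 / 2 ≤ ‖x‖ ∧ ‖x‖ ≤ 4) (hη : Continuous η) :
    ∀ᵐ ξ ∂(ca_mu η R), ξ ∈ ca_an n R := by
  rw [ae_iff]
  change ca_mu η R (ca_an n R)ᶜ = 0
  unfold ca_mu
  rw [withDensity_apply _ (ca_an_meas n R).compl]
  refine le_antisymm ?_ zero_le
  calc ∫⁻ ξ in (ca_an n R)ᶜ, ENNReal.ofReal (η (R⁻¹ • ξ)) = ∫⁻ ξ in (ca_an n R)ᶜ, 0 := by
        refine setLIntegral_congr_fun (ca_an_meas n R).compl fun ξ hξ => ?_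
        rw [ca_eta_supp hR hηs hξ, ENNReal.ofReal_zero]
    _ ≤ 0 := by simp

theorem ca_mu_int (hη0 : ∀ x, 0 ≤ η x) (hη : Continuous η) (g : EuclideanSpace ℝ (Fin n) → ℂ) :
    ∫ ξ, g ξ ∂(ca_mu η R) = ∫ ξ, (η (R⁻¹ • ξ) : ℂ) * g ξ := by
  unfold ca_mu
  rw [integral_withDensity_eq_integral_toReal_smul (ca_eta_meas hη)
    (Filter.Eventually.of_forall fun ξ => ENNReal.ofReal_lt_top)]
  refine integral_congr_ae (Filter.Eventually.of_forall fun ξ => ?_)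
  simp only
  rw [ENNReal.toReal_ofReal (hη0 _), Complex.real_smul]

end

/-- **(CORE-A)** -/
theorem coreA (m n : ℕ) (A C2 c C : ℝ) (hA : 0 ≤ A) (hC2 : 0 ≤ C2) (hc : 0 < c) (hC : 0 ≤ C) :
    ∃ D0 : ℝ, 0 ≤ D0 ∧
    ∀ (X : ℝ × EuclideanSpace ℝ (Fin m) → EuclideanSpace ℝ (Fin n))
      (V : EuclideanSpace ℝ (Fin n) → ℝ × EuclideanSpace ℝ (Fin m) → EuclideanSpace ℝ (Fin m))
      (p0 : ℝ × EuclideanSpace ℝ (Fin m)) (δ R Λ e ε2 B M : ℝ)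
      (η : EuclideanSpace ℝ (Fin n) → ℝ), 1 ≤ R → √R ≤ Λ → Λ ≤ R → 0 ≤ e → 0 ≤ ε2 →
      (∀ (s : ℝ) w p, V (s • w) p = s • V w p) →
      (∀ ξ p p', ‖V ξ p - V ξ p'‖ ≤ A * ‖ξ‖ * ‖p - p'‖) →
      (∀ p ∈ closedBall p0 δ, ‖X p‖ = 1) →
      (∀ p ∈ closedBall p0 δ, ∀ p' ∈ closedBall p0 δ,
        c * ‖p - p'‖ ≤ ‖X p - X p'‖ ∧ ‖X p - X p'‖ ≤ C * ‖p - p'‖) →
      (∀ w, 1 / 4 ≤ ‖w‖ → ‖w‖ ≤ 8 → ∀ th : ℝ, ∀ p ∈ closedBall p0 δ, ∀ p' ∈ closedBall p0 δ,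
        ∀ p'' ∈ closedBall p0 δ, ‖V w p‖ ≤ th → ‖V w p'‖ ≤ th → ‖V w p''‖ ≤ th →
        C * th ≤ ‖p - p'‖ → C * th ≤ ‖p - p''‖ →
        c * (‖p - p'‖ * ‖p - p''‖) ≤ |⟪X p - X p', X p - X p''⟫|) →
      Continuous η → (∀ x, 0 ≤ η x) → (∀ x, η x ≤ 1) → (∀ x, 1 ≤ ‖x‖ → ‖x‖ ≤ 2 → η x = 1) →
      (∀ x, η x ≠ 0 → 1 / 2 ≤ ‖x‖ ∧ ‖x‖ ≤ 4) →
      ∀ (κ : Type) [Fintype κ] (pc : κ → ℝ × EuclideanSpace ℝ (Fin m))
        (T : κ → Set (ℝ × EuclideanSpace ℝ (Fin m))) (f : κ → EuclideanSpace ℝ (Fin n) → ℂ),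
        (∀ a, ∀ p ∈ T a, p ∈ closedBall p0 δ ∧ ‖p - pc a‖ ≤ C2 / √R) →
        (∀ a, (({a' | ‖pc a - pc a'‖ ≤ D0 * (Λ / R)} : Set κ).ncard : ℝ) ≤ M) →
        (∀ a, Measurable (f a)) → (∀ a ξ, ‖f a ξ‖ ≤ B) →
        (∀ a ξ, R / 2 ≤ ‖ξ‖ → ‖ξ‖ ≤ 4 * R → Λ ≤ ‖V ξ (pc a)‖ → ‖f a ξ‖ ≤ e) →
        (∀ a1 a2 a3 a4, (∀ p1 ∈ T a1, ∀ p2 ∈ T a2, ∀ p3 ∈ T a3, ∀ p4 ∈ T a4,
          (Λ / R) ^ 2 < ‖X p1 + X p2 - X p3 - X p4‖) →
          ‖∫ ξ, (η (R⁻¹ • ξ) : ℂ) * (f a1 ξ * f a2 ξ * conj (f a3 ξ) * conj (f a4 ξ))‖ ≤ ε2) →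
        ∫⁻ ξ in {ξ : EuclideanSpace ℝ (Fin n) | R ≤ ‖ξ‖ ∧ ‖ξ‖ ≤ 2 * R}, ‖∑ a, f a ξ‖ₑ ^ 4 ≤
          ENNReal.ofReal (2 * M ^ 2) *
            (∫⁻ ξ in {ξ : EuclideanSpace ℝ (Fin n) | R / 2 ≤ ‖ξ‖ ∧ ‖ξ‖ ≤ 4 * R},
              (∑ a, ‖f a ξ‖ₑ ^ 2) ^ 2) +
          ENNReal.ofReal ((Fintype.card κ : ℝ) ^ 4 * (e * B ^ 3 *
            (volume : Measure (EuclideanSpace ℝ (Fin n))).real
              {ξ : EuclideanSpace ℝ (Fin n) | R / 2 ≤ ‖ξ‖ ∧ ‖ξ‖ ≤ 4 * R} + ε2)) := by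
  obtain ⟨C', hC'⟩ : ∃ C' : ℝ, C' = C * (1 + 4 * A * C2) + 2 / c + 1 := ⟨_, rfl⟩
  have hC'0 : 0 ≤ C' := by rw [hC']; positivity
  refine ⟨C' + c⁻¹ * (C * C' + 1) + 2 * C2, by positivity, ?_⟩
  intro X V p0 δ R Λ e ε2 B M η hR hΛ hΛR he hε2 hVh hVL hX1 hbl hrect hηc hη0 hη1 hηo hηs κ _ pc T
    f hT hM hf hB hnsp horth
  have hR0 : 0 < R := by linarith
  have hs : 0 < √R := Real.sqrt_pos.2 hR0
  have hsR : √R * √R = R := Real.mul_self_sqrt hR0.le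
  have hΛ0 : 0 < Λ := lt_of_lt_of_le hs hΛ
  set q : ℝ := Λ / R with hq
  have hq0 : 0 < q := by positivity
  have hq1 : q ≤ 1 := by rw [hq, div_le_one hR0]; exact hΛR
  have hsq : 1 / √R ≤ q := by
    rw [hq, div_le_div_iff₀ hs hR0, one_mul]
    nlinarith
  by_cases hκ : IsEmpty κ
  · simp
  rw [not_isEmpty_iff] at hκ
  obtain ⟨a0⟩ := hκ
  have hB0 : 0 ≤ B := (norm_nonneg _).trans (hB a0 0)
  set μ := ca_mu η R with hμ
  have hfin : μ univ ≤ volume (ca_an n R) := ca_mu_fin hR0 hη1 hηs hηc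
  have : IsFiniteMeasure μ := ⟨hfin.trans_lt (ca_an_fin n R).lt_top⟩
  -- the estimate at one scale
  have key := core_a μ (A := ca_an n R) (ca_mu_ae hR0 hηs hηc) (X := X) (V := V)
    (Bs := closedBall p0 δ) pc T (r := C2 / √R) (L := c⁻¹) (L' := C) (c := c) (D := C' * q)
    (e := q ^ 2) (θ := Λ) (θ' := (1 + 4 * A * C2) * Λ) (M := M) (B := B) (ε1 := e) (ε2 := ε2)
    (by positivity) hC hc (by positivity) he (by nlinarith) (by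
      have h1 : 2 ≤ c * C' ^ 2 := by
        have h2 : 2 / c + 1 ≤ C' := by
          rw [hC']
          have : 0 ≤ C * (1 + 4 * A * C2) := by positivity
          linarith
        have h3 : (2 / c + 1) ^ 2 ≤ C' ^ 2 := pow_le_pow_left₀ (by positivity) h2 2
        have h4 : 2 ≤ c * (2 / c + 1) ^ 2 := by
          have e1 : c * (2 / c + 1) ^ 2 = 4 / c + 4 + c := by
            field_simp
            ring
          rw [e1]
          have : 0 < 4 / c := by positivity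
          linarith
        exact h4.trans (mul_le_mul_of_nonneg_left h3 hc.le)
      have h2 : 0 ≤ q ^ 2 := by positivity
      calc 2 * q ^ 2 ≤ c * C' ^ 2 * q ^ 2 := mul_le_mul_of_nonneg_right h1 h2
        _ = c * (C' * q) ^ 2 := by ring)
    hX1
    (fun p hp p' hp' => by
      rw [← div_eq_inv_mul, le_div_iff₀ hc, mul_comm]
      exact (hbl p hp p' hp').1)
    (fun p hp p' hp' => (hbl p hp p' hp').2)
    (fun ξ hξ p hp p' hp' p'' hp'' h1 h2 h3 h4 h5 => by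
      have hw : ‖R⁻¹ • ξ‖ = R⁻¹ * ‖ξ‖ := by
        rw [norm_smul, norm_inv, Real.norm_of_nonneg hR0.le]
      have hVw : ∀ p, ‖V ξ p‖ ≤ (1 + 4 * A * C2) * Λ → ‖V (R⁻¹ • ξ) p‖ ≤ (1 + 4 * A * C2) * q := by
        intro p h
        rw [hVh, norm_smul, norm_inv, Real.norm_of_nonneg hR0.le, inv_mul_le_iff₀ hR0]
        refine h.trans (le_of_eq ?_)
        rw [hq]
        field_simp
      have hth : C * ((1 + 4 * A * C2) * q) ≤ C' * q := by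
        rw [← mul_assoc]
        refine mul_le_mul_of_nonneg_right ?_ hq0.le
        rw [hC']
        have : 0 < 2 / c := by positivity
        linarith
      refine hrect (R⁻¹ • ξ) ?_ ?_ ((1 + 4 * A * C2) * q) p hp p' hp' p'' hp'' (hVw p h1)
        (hVw p' h2) (hVw p'' h3) (hth.trans h4.le) (hth.trans h5.le)
      · rw [hw, le_inv_mul_iff₀ hR0]
        linarith [hξ.1]
      · rw [hw, inv_mul_le_iff₀ hR0]
        linarith [hξ.2])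
    hT
    (fun ξ hξ a p hp h1 => by
      have h2 := hVL ξ p (pc a)
      have h3 : A * ‖ξ‖ * ‖p - pc a‖ ≤ A * (4 * R) * (C2 / √R) := by
        gcongr
        · exact hξ.2
        · exact (hT a p hp).2
      have h4 : A * (4 * R) * (C2 / √R) = 4 * A * C2 * √R := by
        field_simp
        rw [Real.sq_sqrt hR0.le]
        ring
      have h5 : 4 * A * C2 * √R ≤ 4 * A * C2 * Λ := by gcongr
      have h6 : ‖V ξ p‖ ≤ ‖V ξ (pc a)‖ + ‖V ξ p - V ξ (pc a)‖ := by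
        have := norm_add_le (V ξ (pc a)) (V ξ p - V ξ (pc a))
        rwa [add_sub_cancel] at this
      linarith)
    (fun a => by
      refine le_trans ?_ (hM a)
      have h1 : max (C' * q) (c⁻¹ * (C * (C' * q) + q ^ 2)) + 2 * (C2 / √R) ≤
          (C' + c⁻¹ * (C * C' + 1) + 2 * C2) * q := by
        have h2 : 2 * (C2 / √R) ≤ 2 * C2 * q := by
          calc 2 * (C2 / √R) = 2 * C2 * (1 / √R) := by ring
            _ ≤ 2 * C2 * q := by gcongr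
        have h3 : c⁻¹ * (C * (C' * q) + q ^ 2) ≤ c⁻¹ * (C * C' + 1) * q := by
          rw [mul_assoc c⁻¹]
          refine mul_le_mul_of_nonneg_left ?_ (by positivity)
          have : q ^ 2 ≤ q := by nlinarith
          nlinarith
        have h4 : 0 ≤ C' * q := by positivity
        have h5 : 0 ≤ c⁻¹ * (C * (C' * q) + q ^ 2) := by positivity
        have h6 := max_le_add_of_nonneg h4 h5
        calc _ ≤ C' * q + c⁻¹ * (C * C' + 1) * q + 2 * C2 * q := by linarith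
          _ = _ := by ring
      exact_mod_cast Set.ncard_le_ncard (fun a' ha' => le_trans ha' h1) (Set.toFinite _))
    f hf hB (fun a ξ hξ h1 => hnsp a ξ hξ.1 hξ.2 h1.le)
    (fun a1 a2 a3 a4 h => by
      rw [hμ, ca_mu_int hη0 hηc]
      exact horth a1 a2 a3 a4 h)
  -- measurability
  have hms : Measurable fun ξ => ∑ a, f a ξ := Finset.measurable_fun_sum _ fun a _ => hf a
  have hm1 : Measurable fun ξ => ‖∑ a, f a ξ‖ₑ ^ 4 := hms.enorm.pow_const 4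
  have hm2 : Measurable fun ξ => (∑ a, ‖f a ξ‖ₑ ^ 2) ^ 2 :=
    (Finset.measurable_fun_sum _ fun a _ => (hf a).enorm.pow_const 2).pow_const 2
  have hsum : ∀ ξ, ‖∑ a, f a ξ‖ ≤ ∑ _a : κ, B := fun ξ =>
    (norm_sum_le _ _).trans (Finset.sum_le_sum fun a _ => hB a ξ)
  have hsq : ∀ ξ, ∑ a, ‖f a ξ‖ ^ 2 ≤ ∑ _a : κ, B ^ 2 := fun ξ =>
    Finset.sum_le_sum fun a _ => pow_le_pow_left₀ (norm_nonneg _) (hB a ξ) 2
  have hi1 : Integrable (fun ξ => ‖∑ a, f a ξ‖ ^ 4) μ := by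
    refine Integrable.of_bound (hms.norm.pow_const 4).aestronglyMeasurable ((∑ _a : κ, B) ^ 4)
      (Filter.Eventually.of_forall fun ξ => ?_)
    rw [Real.norm_of_nonneg (by positivity)]
    exact pow_le_pow_left₀ (norm_nonneg _) (hsum ξ) 4
  have hi2 : Integrable (fun ξ => (∑ a, ‖f a ξ‖ ^ 2) ^ 2) μ := by
    refine Integrable.of_bound ((Finset.measurable_fun_sum _ fun a _ =>
      (hf a).norm.pow_const 2).pow_const 2).aestronglyMeasurable ((∑ _a : κ, B ^ 2) ^ 2)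
      (Filter.Eventually.of_forall fun ξ => ?_)
    rw [Real.norm_of_nonneg (by positivity)]
    exact pow_le_pow_left₀ (by positivity) (hsq ξ) 2
  have e1 : ∫⁻ ξ, ‖∑ a, f a ξ‖ₑ ^ 4 ∂μ = ENNReal.ofReal (∫ ξ, ‖∑ a, f a ξ‖ ^ 4 ∂μ) := by
    rw [ofReal_integral_eq_lintegral_ofReal hi1 (Filter.Eventually.of_forall fun ξ => by positivity)]
    refine lintegral_congr fun ξ => ?_
    rw [ENNReal.ofReal_pow (norm_nonneg _), ofReal_norm]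
  have e2 : ENNReal.ofReal (∫ ξ, (∑ a, ‖f a ξ‖ ^ 2) ^ 2 ∂μ) =
      ∫⁻ ξ, (∑ a, ‖f a ξ‖ₑ ^ 2) ^ 2 ∂μ := by
    rw [ofReal_integral_eq_lintegral_ofReal hi2 (Filter.Eventually.of_forall fun ξ => by positivity)]
    refine lintegral_congr fun ξ => ?_
    rw [ENNReal.ofReal_pow (by positivity), ENNReal.ofReal_sum_of_nonneg fun a _ => by positivity]
    congr 1
    refine Finset.sum_congr rfl fun a _ => ?_
    rw [ENNReal.ofReal_pow (norm_nonneg _), ofReal_norm]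
  have hreal : μ.real univ ≤
      (volume : Measure (EuclideanSpace ℝ (Fin n))).real (ca_an n R) := by
    unfold Measure.real
    exact ENNReal.toReal_mono (ca_an_fin n R) hfin
  have hi0 : 0 ≤ ∫ ξ, (∑ a, ‖f a ξ‖ ^ 2) ^ 2 ∂μ := integral_nonneg fun ξ => by positivity
  calc ∫⁻ ξ in {ξ : EuclideanSpace ℝ (Fin n) | R ≤ ‖ξ‖ ∧ ‖ξ‖ ≤ 2 * R}, ‖∑ a, f a ξ‖ₑ ^ 4
      ≤ ∫⁻ ξ, ‖∑ a, f a ξ‖ₑ ^ 4 ∂μ := ca_mu_ge hR0 hηo hηc hm1
    _ = ENNReal.ofReal (∫ ξ, ‖∑ a, f a ξ‖ ^ 4 ∂μ) := e1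
    _ ≤ ENNReal.ofReal (2 * M ^ 2 * ∫ ξ, (∑ a, ‖f a ξ‖ ^ 2) ^ 2 ∂μ +
          (Fintype.card κ : ℝ) ^ 4 * max (e * B ^ 3 * μ.real univ) ε2) :=
        ENNReal.ofReal_le_ofReal key
    _ ≤ ENNReal.ofReal (2 * M ^ 2 * ∫ ξ, (∑ a, ‖f a ξ‖ ^ 2) ^ 2 ∂μ +
          (Fintype.card κ : ℝ) ^ 4 * (e * B ^ 3 *
            (volume : Measure (EuclideanSpace ℝ (Fin n))).real (ca_an n R) + ε2)) := by
        refine ENNReal.ofReal_le_ofReal ?_
        have h1 : max (e * B ^ 3 * μ.real univ) ε2 ≤ e * B ^ 3 *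
            (volume : Measure (EuclideanSpace ℝ (Fin n))).real (ca_an n R) + ε2 := by
          have h2 : e * B ^ 3 * μ.real univ ≤ e * B ^ 3 *
              (volume : Measure (EuclideanSpace ℝ (Fin n))).real (ca_an n R) :=
            mul_le_mul_of_nonneg_left hreal (by positivity)
          have h3 : 0 ≤ e * B ^ 3 *
              (volume : Measure (EuclideanSpace ℝ (Fin n))).real (ca_an n R) := by positivity
          exact max_le (by linarith) (by linarith)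
        have h2 : (0 : ℝ) ≤ (Fintype.card κ : ℝ) ^ 4 := by positivity
        linarith [mul_le_mul_of_nonneg_left h1 h2]
    _ = ENNReal.ofReal (2 * M ^ 2) * ∫⁻ ξ, (∑ a, ‖f a ξ‖ₑ ^ 2) ^ 2 ∂μ +
          ENNReal.ofReal ((Fintype.card κ : ℝ) ^ 4 * (e * B ^ 3 *
            (volume : Measure (EuclideanSpace ℝ (Fin n))).real (ca_an n R) + ε2)) := by
        rw [ENNReal.ofReal_add (by positivity) (by positivity), ENNReal.ofReal_mul (by positivity), e2]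
    _ ≤ ENNReal.ofReal (2 * M ^ 2) *
            (∫⁻ ξ in {ξ : EuclideanSpace ℝ (Fin n) | R / 2 ≤ ‖ξ‖ ∧ ‖ξ‖ ≤ 4 * R},
              (∑ a, ‖f a ξ‖ₑ ^ 2) ^ 2) +
          ENNReal.ofReal ((Fintype.card κ : ℝ) ^ 4 * (e * B ^ 3 *
            (volume : Measure (EuclideanSpace ℝ (Fin n))).real (ca_an n R) + ε2)) := by
        have h1 : ∫⁻ ξ, (∑ a, ‖f a ξ‖ₑ ^ 2) ^ 2 ∂μ ≤
            ∫⁻ ξ in {ξ : EuclideanSpace ℝ (Fin n) | R / 2 ≤ ‖ξ‖ ∧ ‖ξ‖ ≤ 4 * R},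
              (∑ a, ‖f a ξ‖ₑ ^ 2) ^ 2 := ca_mu_le hR0 hη1 hηs hηc hm2
        gcongr

end Pool.Agent.LF
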