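import Pool.Agent.LF.COREB0

/-!
From the domination of the pieces to the square function, with the counting of KAK as a hypothesis.
-/

namespace Pool.Agent.LF

open MeasureTheory Set Metric
open scoped ENNReal RealInnerProductSpace

/-- The square function of the pieces. -/
theorem coreB (m n Mo : ℕ) (A C C2 Ck : ℝ) (hA : 0 ≤ A) (hC : 0 ≤ C) (hC2 : 0 ≤ C2)
    (hCk : 0 ≤ Ck) : ∃ D : ℝ, 0 ≤ D ∧
    ∀ (V : EuclideanSpace ℝ (Fin n) → ℝ × EuclideanSpace ℝ (Fin m) → EuclideanSpace ℝ (Fin m))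
      (T : ℝ × EuclideanSpace ℝ (Fin m) → EuclideanSpace ℝ (Fin n))
      (p0 : ℝ × EuclideanSpace ℝ (Fin m)) (δ δ0 R Λ0 e : ℝ), δ0 ≤ δ → 1 ≤ R → √R ≤ Λ0 → 0 ≤ e →
      (∀ ξ t z z', ‖V ξ (t, z) - V ξ (t, z')‖ ≤ A * ‖ξ‖ * ‖z - z'‖) →
      (∀ t, Continuous fun z => T (t, z)) →
      (∀ (ι : Type) [Fintype ι] (t : ι → ℝ) (g : ι → ℝ → ℝ≥0∞) (Λ : ℝ), √R ≤ Λ →
        (∀ i, |t i - p0.1| ≤ δ) → (∀ i j, i ≠ j → 1 / √R ≤ |t i - t j|) →
        (∀ i, Measurable (g i)) → (∀ i, ∫⁻ τ, g i τ ≤ ENNReal.ofReal (1 / √R)) →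
        (∀ i τ, g i τ ≤ ENNReal.ofReal (1 / R)) →
        ∫⁻ ξ in {ξ : EuclideanSpace ℝ (Fin n) | R / 2 ≤ ‖ξ‖ ∧ ‖ξ‖ ≤ 4 * R},
          (∑ i, ∫⁻ z in closedBall p0.2 δ,
            ({z | ‖V ξ (t i, z)‖ ≤ Λ}.indicator fun z => g i ⟪ξ, T (t i, z)⟫) z) ^ 2 ≤
          ENNReal.ofReal (Ck * (Λ / √R) ^ (2 * m + 1) * (1 + Real.log R))) →
      ∀ (κ ι : Type) [Fintype κ] [Fintype ι] (pr : κ → ι) (t : ι → ℝ)
        (zc : κ → EuclideanSpace ℝ (Fin m)) (GG : ι → ℝ → ℝ≥0∞)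
        (f : κ → EuclideanSpace ℝ (Fin n) → ℂ),
        (∀ i, |t i - p0.1| ≤ δ) → (∀ i j, i ≠ j → 1 / √R ≤ |t i - t j|) →
        (∀ i, Measurable (GG i)) → (∀ i, ∫⁻ τ, GG i τ ≤ ENNReal.ofReal (C / √R)) →
        (∀ i τ, GG i τ ≤ ENNReal.ofReal (C / R)) →
        (∀ i z, ({c | pr c = i ∧ ‖z - zc c‖ ≤ C2 / √R} : Set κ).ncard ≤ Mo) →
        (∀ c ξ, ‖ξ‖ ≤ 4 * R → ‖f c ξ‖ₑ ^ 2 ≤ ENNReal.ofReal (C * (1 / √R) ^ m) *
          ∫⁻ z in closedBall (zc c) (C2 / √R) ∩ closedBall p0.2 δ0,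
            GG (pr c) ⟪ξ, T (t (pr c), z)⟫) →
        (∀ c ξ, R / 2 ≤ ‖ξ‖ → ‖ξ‖ ≤ 4 * R → Λ0 ≤ ‖V ξ (t (pr c), zc c)‖ → ‖f c ξ‖ ≤ e) →
        ∫⁻ ξ in {ξ : EuclideanSpace ℝ (Fin n) | R / 2 ≤ ‖ξ‖ ∧ ‖ξ‖ ≤ 4 * R},
          (∑ c, ‖f c ξ‖ₑ ^ 2) ^ 2 ≤
          ENNReal.ofReal (D * (1 / R) ^ m * (Λ0 / √R) ^ (2 * m + 1) * (1 + Real.log R)) +
            2 * (Fintype.card κ * ENNReal.ofReal (e ^ 2)) ^ 2 *
              volume {ξ : EuclideanSpace ℝ (Fin n) | R / 2 ≤ ‖ξ‖ ∧ ‖ξ‖ ≤ 4 * R} := by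
  classical
  set C' : ℝ := C + 1 with hC'
  have hC'0 : 0 < C' := by positivity
  refine ⟨2 * (C * C' * Mo) ^ 2 * Ck * (1 + 4 * A * C2) ^ (2 * m + 1), by positivity, ?_⟩
  intro V T p0 δ δ0 R Λ0 e hδ hR hΛ he hVL hTc hkak κ ι _ _ pr t zc GG f ht htt hGm hG1 hG2 hov
    hdom hnsp
  have hR0 : 0 < R := by linarith
  have hs : 0 < √R := Real.sqrt_pos.2 hR0
  have hsR : √R * √R = R := Real.mul_self_sqrt hR0.le
  have hlog : 0 ≤ Real.log R := Real.log_nonneg hR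
  have hΛ0 : 0 < Λ0 := lt_of_lt_of_le hs hΛ
  set An : Set (EuclideanSpace ℝ (Fin n)) := {ξ | R / 2 ≤ ‖ξ‖ ∧ ‖ξ‖ ≤ 4 * R} with hAn
  have hAnm : MeasurableSet An := by
    have b1 : MeasurableSet {ξ : EuclideanSpace ℝ (Fin n) | R / 2 ≤ ‖ξ‖} :=
      measurableSet_le measurable_const measurable_norm
    have b2 : MeasurableSet {ξ : EuclideanSpace ℝ (Fin n) | ‖ξ‖ ≤ 4 * R} :=
      measurableSet_le measurable_norm measurable_const
    exact b1.inter b2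
  set Λ : ℝ := Λ0 + 4 * A * C2 * √R with hΛd
  have hΛΛ : Λ0 ≤ Λ := by
    have : 0 ≤ 4 * A * C2 * √R := by positivity
    linarith
  have hΛ' : Λ / √R ≤ (1 + 4 * A * C2) * (Λ0 / √R) := by
    rw [← mul_div_assoc]
    gcongr
    have : 4 * A * C2 * √R ≤ 4 * A * C2 * Λ0 := by gcongr
    linarith
  -- continuity of `V`
  have hVc : ∀ ξ t, Continuous fun z => V ξ (t, z) := by
    intro ξ t
    have hl : LipschitzWith (A * ‖ξ‖).toNNReal fun z => V ξ (t, z) := by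
      refine LipschitzWith.of_dist_le_mul fun z z' => ?_
      rw [dist_eq_norm, dist_eq_norm, Real.coe_toNNReal _ (by positivity)]
      exact hVL ξ t z z'
    exact hl.continuous
  -- normalisation
  set g : ι → ℝ → ℝ≥0∞ := fun i τ => ENNReal.ofReal C'⁻¹ * GG i τ with hg
  have hgm : ∀ i, Measurable (g i) := fun i => (hGm i).const_mul _
  have hCC : C'⁻¹ * C ≤ 1 := by
    rw [inv_mul_le_iff₀ hC'0]
    linarith
  have hg1 : ∀ i, ∫⁻ τ, g i τ ≤ ENNReal.ofReal (1 / √R) := by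
    intro i
    simp only [hg]
    rw [lintegral_const_mul' _ _ ENNReal.ofReal_ne_top]
    calc ENNReal.ofReal C'⁻¹ * ∫⁻ τ, GG i τ ≤
          ENNReal.ofReal C'⁻¹ * ENNReal.ofReal (C / √R) := by
          gcongr
          exact hG1 i
      _ = ENNReal.ofReal (C'⁻¹ * C / √R) := by
          rw [← ENNReal.ofReal_mul (by positivity), mul_div_assoc]
      _ ≤ _ := ENNReal.ofReal_le_ofReal (by gcongr)
  have hg2 : ∀ i τ, g i τ ≤ ENNReal.ofReal (1 / R) := by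
    intro i τ
    simp only [hg]
    calc ENNReal.ofReal C'⁻¹ * GG i τ ≤
          ENNReal.ofReal C'⁻¹ * ENNReal.ofReal (C / R) := by
          gcongr
          exact hG2 i τ
      _ = ENNReal.ofReal (C'⁻¹ * C / R) := by
          rw [← ENNReal.ofReal_mul (by positivity), mul_div_assoc]
      _ ≤ _ := ENNReal.ofReal_le_ofReal (by gcongr)
  have hgG : ∀ i τ, GG i τ = ENNReal.ofReal C' * g i τ := by
    intro i τ
    simp only [hg]
    rw [← mul_assoc, ← ENNReal.ofReal_mul hC'0.le, mul_inv_cancel₀ hC'0.ne', ENNReal.ofReal_one,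
      one_mul]
  have hk := hkak ι t g Λ (hΛ.trans hΛΛ) ht htt hgm hg1 hg2
  set w : ι → EuclideanSpace ℝ (Fin n) → EuclideanSpace ℝ (Fin m) → ℝ≥0∞ := fun i ξ =>
    {z | ‖V ξ (t i, z)‖ ≤ Λ}.indicator fun z => g i ⟪ξ, T (t i, z)⟫ with hw
  have hwm : ∀ i ξ, Measurable (w i ξ) := by
    intro i ξ
    have h1 : Measurable fun z => g i ⟪ξ, T (t i, z)⟫ := by
      have h2 : Continuous fun z => (⟪ξ, T (t i, z)⟫ : ℝ) := continuous_const.inner (hTc (t i))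
      exact (hgm i).comp h2.measurable
    refine h1.indicator ?_
    exact (isClosed_le (hVc ξ (t i)).norm continuous_const).measurableSet
  set G : κ → Set (EuclideanSpace ℝ (Fin m)) := fun c =>
    closedBall (zc c) (C2 / √R) ∩ closedBall p0.2 δ0 with hGd
  have hGmeas : ∀ c, MeasurableSet (G c) := fun c =>
    measurableSet_closedBall.inter measurableSet_closedBall
  have hGB : ∀ c, G c ⊆ closedBall p0.2 δ := fun c =>
    inter_subset_right.trans (closedBall_subset_closedBall hδ)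
  have hM : ∀ i z, ({c | pr c = i ∧ z ∈ G c} : Set κ).ncard ≤ Mo := by
    intro i z
    refine le_trans (Set.ncard_le_ncard ?_ (Set.toFinite _)) (hov i z)
    rintro c ⟨h1, h2, _⟩
    refine ⟨h1, ?_⟩
    rwa [mem_closedBall, dist_eq_norm] at h2
  set a : ℝ≥0∞ := ENNReal.ofReal (C * C' * (1 / √R) ^ m) with ha
  have hF : ∀ c, ∀ ξ ∈ An, ‖f c ξ‖ₑ ^ 2 ≤
      (a * ∫⁻ z in G c, w (pr c) ξ z) + ENNReal.ofReal (e ^ 2) := by
    intro c ξ hξ
    by_cases hV : Λ0 ≤ ‖V ξ (t (pr c), zc c)‖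
    · refine le_trans ?_ le_add_self
      rw [← ofReal_norm, ← ENNReal.ofReal_pow (norm_nonneg _)]
      exact ENNReal.ofReal_le_ofReal
        (pow_le_pow_left₀ (norm_nonneg _) (hnsp c ξ hξ.1 hξ.2 hV) 2)
    · refine le_trans ?_ le_self_add
      push Not at hV
      refine (hdom c ξ hξ.2).trans (le_of_eq ?_)
      have h1 : ∀ z ∈ G c, GG (pr c) ⟪ξ, T (t (pr c), z)⟫ =
          ENNReal.ofReal C' * w (pr c) ξ z := by
        intro z hz
        have h2 : ‖V ξ (t (pr c), z)‖ ≤ Λ := by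
          have h3 := hVL ξ (t (pr c)) z (zc c)
          have h4 : ‖z - zc c‖ ≤ C2 / √R := by
            have := hz.1
            rwa [mem_closedBall, dist_eq_norm] at this
          have h5 : A * ‖ξ‖ * ‖z - zc c‖ ≤ 4 * A * C2 * √R := by
            calc A * ‖ξ‖ * ‖z - zc c‖ ≤ A * (4 * R) * (C2 / √R) := by
                  gcongr
                  exact hξ.2
              _ = 4 * A * C2 * (R / √R) := by ring
              _ = 4 * A * C2 * √R := by rw [Real.div_sqrt]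
          have h6 : ‖V ξ (t (pr c), z)‖ ≤ ‖V ξ (t (pr c), zc c)‖ +
              ‖V ξ (t (pr c), z) - V ξ (t (pr c), zc c)‖ := by
            have := norm_add_le (V ξ (t (pr c), zc c)) (V ξ (t (pr c), z) - V ξ (t (pr c), zc c))
            simpa using this
          linarith
        simp only [hw]
        rw [indicator_of_mem (show z ∈ {z | ‖V ξ (t (pr c), z)‖ ≤ Λ} from h2), hgG]
      rw [setLIntegral_congr_fun (hGmeas c) h1, lintegral_const_mul' _ _ ENNReal.ofReal_ne_top,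
        ← mul_assoc, ← ENNReal.ofReal_mul (by positivity)]
      congr 2
      ring
  have key := corb_abs (volume : Measure (EuclideanSpace ℝ (Fin m)))
    (volume : Measure (EuclideanSpace ℝ (Fin n))) An hAnm pr G (closedBall p0.2 δ) w
    (fun c ξ => ‖f c ξ‖ₑ ^ 2) Mo a (ENNReal.ofReal (e ^ 2)) ENNReal.ofReal_ne_top hGmeas hGB
    measurableSet_closedBall hwm hM hF
  refine key.trans (add_le_add_left ?_ _)
  calc 2 * (a * Mo) ^ 2 * ∫⁻ ξ in An, (∑ i, ∫⁻ z in closedBall p0.2 δ, w i ξ z) ^ 2 ≤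
      2 * (a * Mo) ^ 2 * ENNReal.ofReal (Ck * (Λ / √R) ^ (2 * m + 1) * (1 + Real.log R)) := by
        gcongr
    _ = ENNReal.ofReal (2 * (C * C' * (1 / √R) ^ m * Mo) ^ 2 *
          (Ck * (Λ / √R) ^ (2 * m + 1) * (1 + Real.log R))) := by
        rw [ha, ← ENNReal.ofReal_natCast Mo, ← ENNReal.ofReal_mul (by positivity),
          ← ENNReal.ofReal_pow (by positivity),
          show (2 : ℝ≥0∞) = ENNReal.ofReal 2 by norm_num, ← ENNReal.ofReal_mul (by norm_num),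
          ← ENNReal.ofReal_mul (by positivity)]
    _ ≤ _ := by
        refine ENNReal.ofReal_le_ofReal ?_
        have h1 : (1 / √R) ^ (m * 2) = (1 / R) ^ m := by
          rw [mul_comm, pow_mul, div_pow, one_pow, Real.sq_sqrt hR0.le]
        calc 2 * (C * C' * (1 / √R) ^ m * Mo) ^ 2 *
              (Ck * (Λ / √R) ^ (2 * m + 1) * (1 + Real.log R)) ≤
            2 * (C * C' * (1 / √R) ^ m * Mo) ^ 2 *
              (Ck * ((1 + 4 * A * C2) * (Λ0 / √R)) ^ (2 * m + 1) * (1 + Real.log R)) := by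
              gcongr
          _ = 2 * (C * C' * Mo) ^ 2 * Ck * (1 + 4 * A * C2) ^ (2 * m + 1) *
              (1 / √R) ^ (m * 2) * (Λ0 / √R) ^ (2 * m + 1) * (1 + Real.log R) := by
              rw [mul_pow (1 + 4 * A * C2), pow_mul (1 / √R) m 2]
              ring
          _ = _ := by rw [h1]

end Pool.Agent.LF
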