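import Pool.Agent.LF.NSP0
import Pool.Agent.LF.Df0

/-!
LEAF row NSP, part 2: non-stationary phase in `z` with a parameter `t`, for one cap.
-/

set_option autoImplicit false

namespace Pool.Agent.LF

open MeasureTheory Set Metric Pool.Agent.MP_6cbfb8_an
open scoped Real ContDiff RealInnerProductSpace


/-- The derivatives along a slice. -/
theorem nsp_slice {m : ℕ} {Φ : ℝ × E m → ℝ} {j : ℕ} (hΦ : ContDiff ℝ j Φ) (t : ℝ) (z : E m) :
    ‖iteratedFDeriv ℝ j (fun z => Φ (t, z)) z‖ ≤ ‖iteratedFDeriv ℝ j Φ (t, z)‖ := by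
  have h1 : ContDiff ℝ j (fun w => Φ ((t, 0) + w)) := hΦ.comp (contDiff_const.add contDiff_id)
  have h2 : (fun z => Φ (t, z)) =
      (fun w => Φ ((t, 0) + w)) ∘ (ContinuousLinearMap.inr ℝ ℝ (E m)) := by
    funext y; simp
  rw [h2, ContinuousLinearMap.iteratedFDeriv_comp_right _ h1 z le_rfl]
  refine (ContinuousMultilinearMap.norm_compContinuousLinearMap_le _ _).trans ?_
  rw [iteratedFDeriv_comp_add_left, Finset.prod_const, Finset.card_univ, Fintype.card_fin]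
  have h3 : ((t, 0) : ℝ × E m) + (ContinuousLinearMap.inr ℝ ℝ (E m)) z = (t, z) := by simp
  rw [h3]
  refine mul_le_of_le_one_right (norm_nonneg _) (pow_le_one₀ (norm_nonneg _) ?_)
  exact ContinuousLinearMap.opNorm_le_bound _ zero_le_one fun y => by
    rw [ContinuousLinearMap.inr_apply, Prod.norm_mk, norm_zero, one_mul]
    exact max_le (norm_nonneg _) le_rfl

theorem nsp_slice_fderiv {m : ℕ} {Φ : ℝ × E m → ℝ} (hΦ : ContDiff ℝ ∞ Φ) (t : ℝ) (z : E m) :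
    fderiv ℝ (fun z => Φ (t, z)) z =
      (fderiv ℝ Φ (t, z)).comp (ContinuousLinearMap.inr ℝ ℝ (E m)) := by
  have h1 : HasFDerivAt Φ (fderiv ℝ Φ (t, z)) (t, z) :=
    (hΦ.differentiable (by simp) (t, z)).hasFDerivAt
  have h2 : HasFDerivAt (fun z : E m => (t, z)) (ContinuousLinearMap.inr ℝ ℝ (E m)) z :=
    hasFDerivAt_prodMk_right t z
  exact (h1.comp z h2).fderiv

/-- Non-stationary phase in `z`, uniformly in the parameter `t`. -/
theorem nsp_abs (m N : ℕ) (ρ : ℝ) (hρ : 1 ≤ ρ) : ∃ C : ℝ, 0 ≤ C ∧ ∀ (M Bd R : ℝ)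
    (b : ℝ × E m → ℂ) (Φ : ℝ × E m → ℝ) (tc : ℝ) (zc : E m), 1 ≤ M → 0 ≤ Bd → 1 ≤ R →
    ContDiff ℝ ∞ Φ → (∀ j, 2 ≤ j → j ≤ N + 2 → ∀ p, ‖iteratedFDeriv ℝ j Φ p‖ ≤ M * R) →
    (∀ t, ContDiff ℝ N fun z => b (t, z)) → (∀ t z, ρ / √R < |t - tc| → b (t, z) = 0) →
    (∀ t z, ρ / √R < ‖z - zc‖ → b (t, z) = 0) →
    (∀ j ≤ N, ∀ t z, ‖iteratedFDeriv ℝ j (fun z => b (t, z)) z‖ ≤ Bd * √R ^ j) →
    ‖∫ p, b p * Complex.exp ((Φ p : ℂ) * Complex.I)‖ ≤
      C * Bd * M ^ (2 * N) * (1 / √R) ^ (m + 1) *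
        (1 / (1 + ‖(fderiv ℝ Φ (tc, zc)).comp (ContinuousLinearMap.inr ℝ ℝ (E m))‖ / √R)) ^ N := by
  obtain ⟨C, hC, hcore⟩ := nsp_core m N ρ hρ
  refine ⟨C * (2 * ρ) ^ N * (2 * ρ), by positivity, ?_⟩
  intro M Bd R b Φ tc zc hM hBd hR hΦ hΦb hbN hbt hbz hbd
  have hR0 : (0 : ℝ) < √R := Real.sqrt_pos.2 (by linarith)
  have hR1 : (1 : ℝ) ≤ √R := Real.one_le_sqrt.2 hR
  set l : ℝ := 1 / √R with hl
  have hl0 : 0 < l := by positivity
  have hl1 : l ≤ 1 := by rw [hl, div_le_one hR0]; exact hR1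
  have hl2 : (l ^ 2)⁻¹ = R := by
    rw [hl, one_div, inv_pow, Real.sq_sqrt (by linarith), inv_inv]
  have hlj : ∀ j : ℕ, (l ^ j)⁻¹ = √R ^ j := by
    intro j
    rw [hl, one_div, inv_pow, inv_inv]
  have hρl : ρ / √R = ρ * l := by rw [hl, mul_one_div]
  set x : ℝ := ‖(fderiv ℝ Φ (tc, zc)).comp (ContinuousLinearMap.inr ℝ ℝ (E m))‖ with hx
  have hx0 : 0 ≤ x := norm_nonneg _
  have hxl : x / √R = l * x := by rw [hl]; ring
  rw [hxl]
  have hρM : 1 ≤ ρ * M := one_le_mul_of_one_le_of_one_le hρ hM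
  by_cases hint : Integrable (fun p : ℝ × E m => b p * Complex.exp ((Φ p : ℂ) * Complex.I))
  swap
  · rw [integral_undef hint, norm_zero]
    positivity
  rw [Measure.volume_eq_prod] at hint ⊢
  rw [integral_prod _ hint]
  -- the bound for one `t`
  have hone : ∀ t, |t - tc| ≤ ρ * l → ‖∫ z, b (t, z) * Complex.exp ((Φ (t, z) : ℂ) * Complex.I)‖ ≤
      C * Bd * M ^ N * l ^ m * ((2 * ρ * M) ^ N * (1 / (1 + l * x)) ^ N) := by
    intro t ht
    have hΦt : ContDiff ℝ ∞ fun z : E m => Φ (t, z) :=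
      hΦ.comp (contDiff_const.prodMk contDiff_id)
    have h1 := hcore Bd M l (fun z => b (t, z)) (fun z => Φ (t, z)) zc hBd hM hl0 hl1 (hbN t) hΦt
      (fun z hz => hbz t z (by rwa [hρl])) (fun j hj z => by rw [hlj]; exact hbd j hj t z)
      (fun j hj1 hj2 z _ => by
        rw [hl2]
        exact (nsp_slice (hΦ.of_le (by exact_mod_cast le_top)) t z).trans (hΦb j hj1 hj2 (t, z)))
    refine h1.trans ?_
    have h2 : x ≤ ‖fderiv ℝ (fun z => Φ (t, z)) zc‖ + M * R * (ρ * l) := by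
      have h3 : ‖fderiv ℝ Φ (tc, zc) - fderiv ℝ Φ (t, zc)‖ ≤
          M * R * ‖((tc, zc) : ℝ × E m) - (t, zc)‖ := by
        refine (convex_univ (𝕜 := ℝ)).norm_image_sub_le_of_norm_fderiv_le (𝕜 := ℝ)
          (fun z _ => (hΦ.fderiv_right (m := 1) (by norm_cast)).differentiable (by simp) z)
          (fun z _ => ?_) (mem_univ _) (mem_univ _)
        have h7 : ‖fderiv ℝ (fderiv ℝ Φ) z‖ = ‖iteratedFDeriv ℝ 2 Φ z‖ := by
          rw [← norm_iteratedFDeriv_fderiv, ← norm_iteratedFDeriv_fderiv, norm_iteratedFDeriv_zero]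
        rw [h7]
        exact hΦb 2 le_rfl (by omega) z
      have h4 : ‖((tc, zc) : ℝ × E m) - (t, zc)‖ = |t - tc| := by
        rw [Prod.mk_sub_mk, sub_self, Prod.norm_mk, norm_zero, Real.norm_eq_abs, abs_sub_comm]
        exact max_eq_left (abs_nonneg _)
      rw [h4] at h3
      have h5 : (fderiv ℝ Φ (tc, zc)).comp (ContinuousLinearMap.inr ℝ ℝ (E m)) =
          fderiv ℝ (fun z => Φ (t, z)) zc +
            (fderiv ℝ Φ (tc, zc) - fderiv ℝ Φ (t, zc)).comp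
              (ContinuousLinearMap.inr ℝ ℝ (E m)) := by
        rw [nsp_slice_fderiv hΦ, ← ContinuousLinearMap.add_comp, add_sub_cancel]
      rw [hx, h5]
      refine (norm_add_le _ _).trans (add_le_add le_rfl ?_)
      refine (ContinuousLinearMap.opNorm_comp_le _ _).trans ?_
      have h6 : ‖ContinuousLinearMap.inr ℝ ℝ (E m)‖ ≤ 1 :=
        ContinuousLinearMap.opNorm_le_bound _ zero_le_one fun y => by
          rw [ContinuousLinearMap.inr_apply, Prod.norm_mk, norm_zero, one_mul]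
          exact max_le (norm_nonneg _) le_rfl
      refine (mul_le_of_le_one_right (norm_nonneg _) h6).trans (h3.trans ?_)
      have : 0 ≤ M * R := by positivity
      exact mul_le_mul_of_nonneg_left ht this
    have h8 : l * (M * R * (ρ * l)) = ρ * M := by
      have : l * l * R = 1 := by
        rw [← hl2, ← sq]
        exact mul_inv_cancel₀ (by positivity)
      calc l * (M * R * (ρ * l)) = ρ * M * (l * l * R) := by ring
        _ = ρ * M := by rw [this, mul_one]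
    set y : ℝ := ‖fderiv ℝ (fun z => Φ (t, z)) zc‖ with hy
    have hy0 : 0 ≤ y := norm_nonneg _
    have h9 : 1 + l * x ≤ 2 * ρ * M * (1 + l * y) := by
      have h10 : l * x ≤ l * y + ρ * M := by
        rw [← h8, ← mul_add]
        exact mul_le_mul_of_nonneg_left h2 hl0.le
      have h11 : 0 ≤ l * y := by positivity
      nlinarith
    have h12 : 1 / (1 + l * y) ≤ 2 * ρ * M * (1 / (1 + l * x)) := by
      rw [mul_one_div, div_le_div_iff₀ (by positivity) (by positivity), one_mul]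
      exact h9
    have h13 : (1 / (1 + l * y)) ^ N ≤ (2 * ρ * M) ^ N * (1 / (1 + l * x)) ^ N := by
      rw [← mul_pow]
      exact pow_le_pow_left₀ (by positivity) h12 N
    exact mul_le_mul_of_nonneg_left h13 (by positivity)
  -- the integral over `t`
  have hout : ∀ t, t ∉ closedBall tc (ρ * l) →
      ∫ z, b (t, z) * Complex.exp ((Φ (t, z) : ℂ) * Complex.I) = 0 := by
    intro t ht
    rw [mem_closedBall, Real.dist_eq, not_le] at ht
    have : ∀ z : E m, b (t, z) * Complex.exp ((Φ (t, z) : ℂ) * Complex.I) = 0 := by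
      intro z
      rw [hbt t z (by rwa [hρl]), zero_mul]
    simp [this]
  rw [← setIntegral_eq_integral_of_forall_compl_eq_zero hout]
  refine (norm_setIntegral_le_of_norm_le_const measure_closedBall_lt_top
    fun t ht => hone t (by rwa [mem_closedBall, Real.dist_eq] at ht)).trans (le_of_eq ?_)
  rw [measureReal_def, Real.volume_closedBall, ENNReal.toReal_ofReal (by positivity), pow_succ,
    mul_pow (2 * ρ) M, two_mul N, pow_add]
  ring

/-- Non-stationary phase for a cap. -/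
theorem nsp (m n N : ℕ) (ρ A L : ℝ) (hρ : 1 ≤ ρ) : ∃ C : ℝ, 0 ≤ C ∧ ∀ (X : ℝ × E m → E n),
    ContDiff ℝ ∞ X → (∀ j ≤ N + 2, ∀ p, ‖iteratedFDeriv ℝ j X p‖ ≤ A) →
    ∀ (b : ℝ × E m → ℂ) (tc : ℝ) (zc : E m) (R Bd : ℝ), 1 ≤ R → 0 ≤ Bd →
    (∀ t, ContDiff ℝ N fun z => b (t, z)) → (∀ t z, ρ / √R < |t - tc| → b (t, z) = 0) →
    (∀ t z, ρ / √R < ‖z - zc‖ → b (t, z) = 0) →
    (∀ j ≤ N, ∀ t z, ‖iteratedFDeriv ℝ j (fun z => b (t, z)) z‖ ≤ Bd * √R ^ j) →
    ∀ (κ : ℝ) (ξ : E n), |κ| * ‖ξ‖ ≤ L * R →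
      ‖∫ p, b p * Complex.exp (((κ * ⟪ξ, X p⟫ : ℝ) : ℂ) * Complex.I)‖ ≤
        C * Bd * (1 / √R) ^ (m + 1) * (1 / (1 + |κ| * ‖Vw X ξ (tc, zc)‖ / √R)) ^ N := by
  obtain ⟨C, hC, habs⟩ := nsp_abs m N ρ hρ
  refine ⟨C * (1 + |L| * |A|) ^ (2 * N), by positivity, ?_⟩
  intro X hX hXb b tc zc R Bd hR hBd hbN hbt hbz hbd κ ξ hξ
  have hM : 1 ≤ 1 + |L| * |A| := by
    have : 0 ≤ |L| * |A| := by positivity
    linarith
  have hΦ : ContDiff ℝ ∞ fun p => κ * ⟪ξ, X p⟫ := contDiff_const.mul (contDiff_const.inner ℝ hX)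
  have hcomp : (fun p => κ * ⟪ξ, X p⟫) = (κ • innerSL ℝ ξ) ∘ X := by
    funext p
    simp
  have hnorm : ‖κ • innerSL ℝ ξ‖ ≤ |L| * R := by
    rw [norm_smul, innerSL_apply_norm, Real.norm_eq_abs]
    exact hξ.trans (mul_le_mul_of_nonneg_right (le_abs_self L) (by linarith))
  have h1 := habs (1 + |L| * |A|) Bd R b (fun p => κ * ⟪ξ, X p⟫) tc zc hM hBd hR hΦ
    (fun j _ hj p => by
      rw [hcomp]
      refine (ContinuousLinearMap.norm_iteratedFDeriv_comp_left _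
        (hX.contDiffAt.of_le (by exact_mod_cast le_top)) le_rfl).trans ?_
      calc ‖κ • innerSL ℝ ξ‖ * ‖iteratedFDeriv ℝ j X p‖ ≤ |L| * R * |A| :=
            mul_le_mul hnorm ((hXb j hj p).trans (le_abs_self A)) (norm_nonneg _) (by positivity)
        _ ≤ (1 + |L| * |A|) * R := by nlinarith)
    hbN hbt hbz hbd
  have h2 : ‖(fderiv ℝ (fun p => κ * ⟪ξ, X p⟫) (tc, zc)).comp
      (ContinuousLinearMap.inr ℝ ℝ (E m))‖ = |κ| * ‖Vw X ξ (tc, zc)‖ := by
    have h3 : (fderiv ℝ (fun p => κ * ⟪ξ, X p⟫) (tc, zc)).comp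
        (ContinuousLinearMap.inr ℝ ℝ (E m)) = κ • innerSL ℝ (Vw X ξ (tc, zc)) := by
      rw [hcomp]
      have h4 : fderiv ℝ ((κ • innerSL ℝ ξ) ∘ X) (tc, zc) =
          (κ • innerSL ℝ ξ).comp (fderiv ℝ X (tc, zc)) :=
        (((κ • innerSL ℝ ξ).hasFDerivAt).comp _
          ((hX.differentiable (by simp)) (tc, zc)).hasFDerivAt).fderiv
      rw [h4]
      ext y
      simp only [ContinuousLinearMap.comp_apply, smul_apply, smul_eq_mul,
        innerSL_apply_apply, Vw, ContinuousLinearMap.adjoint_inner_left, Xz]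
    rw [h3, norm_smul, innerSL_apply_norm, Real.norm_eq_abs]
  rw [h2] at h1
  refine h1.trans (le_of_eq ?_)
  ring

end Pool.Agent.LF
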