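import Pool.Agent.LF.ORTHF

/-!
Fubini half of the orthogonality of caps, in the form used by the square function estimate.
-/

namespace Pool.Agent.LF

open MeasureTheory Set Pool.Agent.MP_6cbfb8_an
open scoped ENNReal Real RealInnerProductSpace ContDiff ComplexConjugate

/-- The cut-off to an annulus. -/
theorem lff_eta (n : ℕ) : ∃ η : E n → ℝ, ContDiff ℝ ∞ η ∧ HasCompactSupport η ∧
    (∀ x, 0 ≤ η x) ∧ (∀ x, η x ≤ 1) ∧ (∀ x, 1 ≤ ‖x‖ → ‖x‖ ≤ 2 → η x = 1) ∧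
    ∀ x, η x ≠ 0 → 1 / 2 ≤ ‖x‖ ∧ ‖x‖ ≤ 4 := by
  let b1 : ContDiffBump (0 : E n) := ⟨2, 4, by norm_num, by norm_num⟩
  let b2 : ContDiffBump (0 : E n) := ⟨1 / 2, 1, by norm_num, by norm_num⟩
  refine ⟨fun x => b1 x * (1 - b2 x), ?_, ?_, ?_, ?_, ?_, ?_⟩
  · exact b1.contDiff.mul (contDiff_const.sub b2.contDiff)
  · exact b1.hasCompactSupport.mul_right
  · intro x
    have h1 : 0 ≤ b1 x := b1.nonneg
    have h2 : b2 x ≤ 1 := b2.le_one
    exact mul_nonneg h1 (by linarith)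
  · intro x
    have h1 : 0 ≤ b1 x := b1.nonneg
    have h2 : b1 x ≤ 1 := b1.le_one
    have h3 : 0 ≤ b2 x := b2.nonneg
    show b1 x * (1 - b2 x) ≤ 1
    nlinarith [mul_nonneg h1 h3]
  · intro x h1 h2
    have e1 : b1 x = 1 := b1.one_of_mem_closedBall (by
      rw [Metric.mem_closedBall, dist_zero_right]
      exact h2)
    have e2 : b2 x = 0 := b2.zero_of_le_dist (by
      rw [dist_zero_right]
      exact h1)
    show b1 x * (1 - b2 x) = 1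
    rw [e1, e2]
    norm_num
  · intro x hx
    have e1 : b1 x ≠ 0 := fun h => hx (by show b1 x * (1 - b2 x) = 0; rw [h, zero_mul])
    have e2 : b2 x ≠ 1 := fun h => hx (by show b1 x * (1 - b2 x) = 0; rw [h, sub_self, mul_zero])
    constructor
    · by_contra h
      push Not at h
      exact e2 (b2.one_of_mem_closedBall (by
        rw [Metric.mem_closedBall, dist_zero_right]
        exact h.le))
    · by_contra h
      push Not at h
      exact e1 (b1.zero_of_le_dist (by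
        rw [dist_zero_right]
        exact h.le))

/-- **Row ORTH-F** for the transform `∫ b p e^{-i ⟪ξ, X p⟫} dp`. -/
theorem orthF_R (m n N : ℕ) (η : E n → ℝ) (hη : ContDiff ℝ ∞ η) (hη1 : HasCompactSupport η)
    (h0 : ∀ x, 0 ≤ η x) :
    ∃ C : ℝ, 0 < C ∧ ∀ (X : ℝ × E m → E n), Measurable X → ∀ (R e : ℝ), 0 < R → 0 ≤ e →
      ∀ b1 b2 b3 b4 : ℝ × E m → ℂ, Integrable b1 → Integrable b2 → Integrable b3 →
      Integrable b4 →
      (∀ p1 p2 p3 p4, b1 p1 ≠ 0 → b2 p2 ≠ 0 → b3 p3 ≠ 0 → b4 p4 ≠ 0 →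
        e < ‖X p1 + X p2 - X p3 - X p4‖) →
      ‖∫ ξ, ((η (R⁻¹ • ξ) : ℝ) : ℂ) *
          ((∫ p, b1 p * Complex.exp (((-⟪ξ, X p⟫ : ℝ) : ℂ) * Complex.I)) *
            (∫ p, b2 p * Complex.exp (((-⟪ξ, X p⟫ : ℝ) : ℂ) * Complex.I)) *
            conj (∫ p, b3 p * Complex.exp (((-⟪ξ, X p⟫ : ℝ) : ℂ) * Complex.I)) *
            conj (∫ p, b4 p * Complex.exp (((-⟪ξ, X p⟫ : ℝ) : ℂ) * Complex.I)))‖ ≤
        C * R ^ n * ((1 + R * e) ^ N)⁻¹ *
          ((∫ p, ‖b1 p‖) * (∫ p, ‖b2 p‖) * (∫ p, ‖b3 p‖) * (∫ p, ‖b4 p‖)) := by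
  obtain ⟨C, hC, h⟩ := orthF η hη hη1 h0 N 1 one_pos
  refine ⟨C, hC, ?_⟩
  intro X hX R e hR he b1 b2 b3 b4 hb1 hb2 hb3 hb4 hsep
  have h1 := h R hR (ℝ × E m) volume X hX b1 b2 b3 b4 hb1 hb2 hb3 hb4 (R * e) (by positivity)
    (fun p1 p2 p3 p4 a1 a2 a3 a4 =>
      mul_le_mul_of_nonneg_left (hsep p1 p2 p3 p4 a1 a2 a3 a4).le hR.le)
  have hT : ∀ (b : ℝ × E m → ℂ) (ξ : E n), lfT 1 volume X b ξ =
      ∫ p, b p * Complex.exp (((-⟪ξ, X p⟫ : ℝ) : ℂ) * Complex.I) := by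
    intro b ξ
    unfold lfT
    refine integral_congr_ae (Filter.Eventually.of_forall fun p => ?_)
    simp only
    rw [one_mul, real_inner_comm]
  rw [lff_integral η hη.continuous h0] at h1
  simp only [hT] at h1
  refine h1.trans (le_of_eq ?_)
  ring

end Pool.Agent.LF
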