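import Pool.Agent.LF.Df0

/-!
Leaves: the gradient along the leaves is linear in the frequency and Lipschitz.
-/

set_option autoImplicit false

namespace Pool.Agent.LF

open Pool.Agent.MP_6cbfb8_an
open scoped RealInnerProductSpace

variable {m n : ℕ}

theorem lf_Vw_smul (X : ℝ × E m → E n) (s : ℝ) (w : E n) (p : ℝ × E m) :
    Vw X (s • w) p = s • Vw X w p := by
  unfold Vw
  exact map_smul _ _ _

theorem lf_Vw_add (X : ℝ × E m → E n) (w w' : E n) (p : ℝ × E m) :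
    Vw X (w + w') p = Vw X w p + Vw X w' p := by
  unfold Vw
  exact map_add _ _ _

theorem lf_Xz_lip {X : ℝ × E m → E n} (hX : ContDiff ℝ 2 X) {A : ℝ}
    (hA : ∀ p, ‖iteratedFDeriv ℝ 2 X p‖ ≤ A) (p p' : ℝ × E m) :
    ‖Xz X p - Xz X p'‖ ≤ A * ‖p - p'‖ := by
  have hA0 : 0 ≤ A := (norm_nonneg _).trans (hA p)
  have h1 : ‖fderiv ℝ X p - fderiv ℝ X p'‖ ≤ A * ‖p - p'‖ := by
    refine Convex.norm_image_sub_le_of_norm_fderiv_le (𝕜 := ℝ) (f := fderiv ℝ X) (s := Set.univ)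
      (fun x _ => ?_) (fun x _ => ?_) convex_univ (Set.mem_univ _) (Set.mem_univ _)
    · exact ((hX.fderiv_right (m := 1) (by norm_num)).differentiable (by norm_num)) x
    · refine le_trans (le_of_eq ?_) (hA x)
      rw [← norm_iteratedFDeriv_fderiv (n := 1), norm_iteratedFDeriv_one]
  have h2 : Xz X p - Xz X p' =
      (fderiv ℝ X p - fderiv ℝ X p').comp (ContinuousLinearMap.inr ℝ ℝ (E m)) := by
    unfold Xz
    rw [ContinuousLinearMap.sub_comp]
  rw [h2]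
  refine (ContinuousLinearMap.opNorm_comp_le _ _).trans ?_
  have h3 : ‖ContinuousLinearMap.inr ℝ ℝ (E m)‖ ≤ 1 := by
    refine ContinuousLinearMap.opNorm_le_bound _ zero_le_one fun y => ?_
    simp [Prod.norm_def]
  calc ‖fderiv ℝ X p - fderiv ℝ X p'‖ * ‖ContinuousLinearMap.inr ℝ ℝ (E m)‖
      ≤ (A * ‖p - p'‖) * 1 := by gcongr
    _ = A * ‖p - p'‖ := mul_one _

/-- The Lipschitz bound. -/
theorem lf_Vw_lip {X : ℝ × E m → E n} (hX : ContDiff ℝ 2 X) {A : ℝ}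
    (hA : ∀ p, ‖iteratedFDeriv ℝ 2 X p‖ ≤ A) (w : E n) (p p' : ℝ × E m) :
    ‖Vw X w p - Vw X w p'‖ ≤ A * ‖w‖ * ‖p - p'‖ := by
  have h1 : Vw X w p - Vw X w p' = ContinuousLinearMap.adjoint (Xz X p - Xz X p') w := by
    unfold Vw
    rw [map_sub]
    rfl
  rw [h1]
  refine (ContinuousLinearMap.le_opNorm _ _).trans ?_
  rw [LinearIsometryEquiv.norm_map]
  have h2 := mul_le_mul_of_nonneg_right (lf_Xz_lip hX hA p p') (norm_nonneg w)
  linarith

end Pool.Agent.LF
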