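import Pool.Agent.LF.CORE0
import Pool.Agent.LF.CORE1
import Pool.Agent.LF.COREB
import Pool.Agent.LF.COREA1
import Pool.Agent.LF.NSP
import Pool.Agent.LF.ORTHF2
import Pool.Agent.LF.VL

/-!
CORE over the geometry of the chart.
-/

set_option autoImplicit false

namespace Pool.Agent.LF

open MeasureTheory Set Metric Pool.Agent.MP_6cbfb8_an Pool.Agent.GNP
open scoped ENNReal Real RealInnerProductSpace ContDiff ComplexConjugate

/-- The volume of the annulus. -/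
theorem core_vol (n : ℕ) : ∃ Cv : ℝ, 0 ≤ Cv ∧ ∀ R : ℝ, 1 ≤ R →
    volume {ξ : E n | R / 2 ≤ ‖ξ‖ ∧ ‖ξ‖ ≤ 4 * R} ≤ ENNReal.ofReal (Cv * R ^ n) := by
  have hf : volume (ball (0 : E n) 1) ≠ ⊤ := measure_ball_lt_top.ne
  refine ⟨4 ^ n * (volume (ball (0 : E n) 1)).toReal, by positivity, fun R hR => ?_⟩
  calc volume {ξ : E n | R / 2 ≤ ‖ξ‖ ∧ ‖ξ‖ ≤ 4 * R} ≤ volume (closedBall (0 : E n) (4 * R)) := by
        refine measure_mono fun ξ hξ => ?_
        rw [mem_closedBall, dist_zero_right]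
        exact hξ.2
    _ = ENNReal.ofReal ((4 * R) ^ n) * volume (ball (0 : E n) 1) := by
        rw [Measure.addHaar_closedBall _ _ (by positivity), finrank_euclideanSpace_fin]
    _ = ENNReal.ofReal (4 ^ n * (volume (ball (0 : E n) 1)).toReal * R ^ n) := by
        conv_lhs => rw [← ENNReal.ofReal_toReal hf]
        rw [← ENNReal.ofReal_mul (by positivity)]
        congr 1
        ring

/-- The grid points on the line lie near the centre. -/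
theorem core_tc {t0 r δ1 : ℝ} (hr : 0 < r) (hδ1 : 0 ≤ δ1) {i : ℕ} (hi : i ∈ gi ⌈δ1 / r⌉₊) :
    |tc t0 r ⌈δ1 / r⌉₊ i - t0| ≤ δ1 + r := by
  set M : ℕ := ⌈δ1 / r⌉₊ with hM
  have h1 : (M : ℝ) < δ1 / r + 1 := Nat.ceil_lt_add_one (by positivity)
  have h2 : i < 2 * M + 1 := by
    unfold gi at hi
    exact Finset.mem_range.1 hi
  have h3 : (i : ℝ) ≤ 2 * M := by
    have : i ≤ 2 * M := by omega
    exact_mod_cast this
  have h4 : |(i : ℝ) - M| ≤ M := by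
    rw [abs_le]
    constructor
    · have : (0 : ℝ) ≤ i := Nat.cast_nonneg i
      linarith
    · linarith
  unfold tc
  rw [add_sub_cancel_left, abs_mul, abs_of_pos hr]
  calc r * |(i : ℝ) - M| ≤ r * (δ1 / r + 1) := by
        gcongr
        linarith
    _ = δ1 + r := by field_simp

/-- CORE over the geometry of the chart, large `R`. -/
theorem core_big {m : ℕ} (hm : 1 ≤ m) (X : ℝ × E m → E (m + 2)) (A : ℕ → ℝ) (p0 : ℝ × E m)
    {δ : ℝ} (hδ : 0 < δ) (hX : ContDiff ℝ ∞ X) (hA : ∀ j p, ‖iteratedFDeriv ℝ j X p‖ ≤ A j)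
    (h1 : ∀ p, ‖p - p0‖ ≤ δ → ‖X p‖ = 1) {c C : ℝ} (hc : 0 < c) (hC : 0 ≤ C)
    (hbl : ∀ p p', ‖p - p0‖ ≤ δ → ‖p' - p0‖ ≤ δ →
      c * ‖p - p'‖ ≤ ‖X p - X p'‖ ∧ ‖X p - X p'‖ ≤ C * ‖p - p'‖)
    (hrect : ∀ (w : E (m + 2)) (θ : ℝ) (p p' p'' : ℝ × E m), 1 / 4 ≤ ‖w‖ → ‖w‖ ≤ 8 →
      ‖p - p0‖ ≤ δ → ‖p' - p0‖ ≤ δ → ‖p'' - p0‖ ≤ δ → ‖Vw X w p‖ ≤ θ → ‖Vw X w p'‖ ≤ θ →
      ‖Vw X w p''‖ ≤ θ → C * θ ≤ ‖p - p'‖ → C * θ ≤ ‖p - p''‖ →
      c * (‖p - p'‖ * ‖p - p''‖) ≤ |⟪X p - X p', X p - X p''⟫|)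
    {Ck : ℝ} (hCk : 0 ≤ Ck)
    (hkak : ∀ R : ℝ, 1 ≤ R → ∀ (ι : Type) [Fintype ι] (t : ι → ℝ) (g : ι → ℝ → ℝ≥0∞) (Λ : ℝ),
      √R ≤ Λ → (∀ i, |t i - p0.1| ≤ δ) → (∀ i j, i ≠ j → 1 / √R ≤ |t i - t j|) →
      (∀ i, Measurable (g i)) → (∀ i, ∫⁻ τ, g i τ ≤ ENNReal.ofReal (1 / √R)) →
      (∀ i τ, g i τ ≤ ENNReal.ofReal (1 / R)) →
      ∫⁻ ξ in {ξ : E (m + 2) | R / 2 ≤ ‖ξ‖ ∧ ‖ξ‖ ≤ 4 * R},
        (∑ i, ∫⁻ z in closedBall p0.2 δ,
          ({z | ‖Vw X ξ (t i, z)‖ ≤ Λ}.indicator fun z => g i ⟪ξ, Xt X (t i, z)⟫) z) ^ 2 ≤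
        ENNReal.ofReal (Ck * (Λ / √R) ^ (2 * m + 1) * (1 + Real.log R)))
    (ε : ℝ) (hε : 0 < ε) (B : ℕ → ℝ) (Cd : ℝ) (hCd : 0 < Cd) : ∃ Cf R0 : ℝ, 0 ≤ Cf ∧ 1 ≤ R0 ∧
      ∀ R : ℝ, R0 ≤ R → ∀ b : ℝ × E m → ℂ, Measurable b →
        (∀ t, ContDiff ℝ ∞ fun z => b (t, z)) →
        (∀ k t z, ‖iteratedFDeriv ℝ k (fun z => b (t, z)) z‖ ≤ B k * √R ^ k) →
        (∀ p, δ / 2 < ‖p - p0‖ → b p = 0) →
        (∀ M i : ℕ, ∃ GG : ℝ → ℝ≥0∞, Measurable GG ∧ ∫⁻ τ, GG τ ≤ ENNReal.ofReal (Cd / √R) ∧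
          (∀ τ, GG τ ≤ ENNReal.ofReal (Cd / R)) ∧ ∀ (k : Fin m → ℕ) (ξ : E (m + 2)),
            ‖ξ‖ ≤ 4 * R → ‖Tb X (bcs p0 (1 / √R) M b (i, k)) ξ‖ₑ ^ 2 ≤
              ENNReal.ofReal (Cd * (1 / √R) ^ m) *
                ∫⁻ z in closedBall (zc p0.2 (1 / √R) M k) (√m / √R) ∩ closedBall p0.2 (δ / 2),
                  GG ⟪ξ, Xt X (tc p0.1 (1 / √R) M i, z)⟫) →
        ∫⁻ ξ in {ξ : E (m + 2) | R ≤ ‖ξ‖ ∧ ‖ξ‖ ≤ 2 * R}, ‖Tb X b ξ‖ₑ ^ 4 ≤
          ENNReal.ofReal (Cf * R ^ (-(m : ℝ) + ε)) := by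
  classical
  -- constants of the chart
  have hA0 : ∀ j, 0 ≤ A j := fun j => (norm_nonneg _).trans (hA j p0)
  have hXc : Continuous X := hX.continuous
  set ρ : ℝ := √m with hρ
  have hρ1 : 1 ≤ ρ := by
    rw [hρ, Real.one_le_sqrt]
    exact_mod_cast hm
  set δ1 : ℝ := δ / 2 with hδ1
  have hδ10 : 0 < δ1 := by positivity
  have hV1 : ∀ (s : ℝ) (w : E (m + 2)) (p : ℝ × E m), Vw X (s • w) p = s • Vw X w p :=
    fun s w p => lf_Vw_smul X s w p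
  have hV2 : ∀ (ξ : E (m + 2)) (p p' : ℝ × E m), ‖Vw X ξ p - Vw X ξ p'‖ ≤ A 2 * ‖ξ‖ * ‖p - p'‖ :=
    fun ξ p p' => lf_Vw_lip (hX.of_le (WithTop.coe_le_coe.2 (le_top : (2 : ℕ∞) ≤ ⊤))) (hA 2) ξ p p'
  have hXt : ∀ t : ℝ, Continuous fun z : E m => Xt X (t, z) := by
    intro t
    have h2 : Continuous (fderiv ℝ X) := hX.continuous_fderiv (by simp)
    unfold Xt
    have h3 : Continuous fun z : E m => fderiv ℝ X (t, z) := h2.comp (by fun_prop)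
    exact h3.clm_apply continuous_const
  -- constants of the rows
  obtain ⟨D0, hD0, hcoreA⟩ := coreA m (m + 2) (A 2) ρ c C (hA0 2) (by positivity) hc hC
  set Mo : ℕ := (2 * ⌈2 * ρ⌉₊ + 1) ^ m with hMo
  obtain ⟨Db, hDb, hcoreB⟩ := coreB m (m + 2) Mo (A 2) Cd ρ Ck (hA0 2) hCd.le (by positivity) hCk
  set σ : ℝ := min (1 / 2) (ε / (2 * (4 * m + 3))) with hσd
  have hσ : 0 < σ := lt_min (by norm_num) (by positivity)
  have hσ2 : σ ≤ 1 / 2 := min_le_left _ _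
  have hσε : σ * (4 * m + 3) ≤ ε / 2 := by
    have h2 : σ ≤ ε / (2 * (4 * m + 3)) := min_le_right _ _
    calc σ * (4 * m + 3) ≤ ε / (2 * (4 * m + 3)) * (4 * m + 3) := by gcongr
      _ = ε / 2 := by field_simp
  set N : ℕ := ⌈(6 * (m : ℝ) + 6) / σ⌉₊ with hNd
  have hN : 6 * (m : ℝ) + 6 ≤ σ * N := by
    have h2 : (6 * (m : ℝ) + 6) / σ ≤ N := Nat.le_ceil _
    rw [div_le_iff₀ hσ] at h2
    linarith
  obtain ⟨Bd, hBd, hbcs⟩ := bcs_bound (m := m) N B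
  set AN : ℝ := ∑ j ∈ Finset.range (N + 3), A j with hAN
  have hAN1 : ∀ j ≤ N + 2, ∀ p, ‖iteratedFDeriv ℝ j X p‖ ≤ AN := fun j hj p =>
    (hA j p).trans (Finset.single_le_sum (fun j _ => hA0 j) (Finset.mem_range.2 (by omega)))
  obtain ⟨Cn, hCn, hnsp⟩ := nsp m (m + 2) N ρ AN 4 hρ1
  obtain ⟨η, hη1, hη2, hη3, hη4, hη5, hη6⟩ := lff_eta (m + 2)
  obtain ⟨Co, hCo, horth⟩ := orthF_R m (m + 2) N η hη1 hη2 hη3
  obtain ⟨Cv, hCv, hvol⟩ := core_vol (m + 2)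
  set S : ℝ := |B 0| * volume.real (closedBall p0 δ1) with hS
  have hS0 : 0 ≤ S := by positivity
  set D1 : ℝ := 7 * (D0 + 1) with hD1
  have hD10 : 0 ≤ D1 := by positivity
  refine ⟨2 * D1 ^ (2 * m + 2) * Db * (1 + 2 / ε) +
      4 * D1 ^ (2 * m + 2) * ((5 * δ1) ^ (m + 1)) ^ 2 * (Cn * Bd) ^ 4 * Cv +
      ((5 * δ1) ^ (m + 1)) ^ 4 * (Cn * Bd * S ^ 3 * Cv + Co * S ^ 4),
    max 1 (1 / δ1 ^ 2), by positivity, le_max_left _ _, ?_⟩
  intro R hRR b hbm hbs hbB hb0 hdom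
  have hR : 1 ≤ R := (le_max_left _ _).trans hRR
  have hR0 : 0 < R := by linarith
  have hs : 0 < √R := Real.sqrt_pos.2 hR0
  have hs1 : 1 ≤ √R := Real.one_le_sqrt.2 hR
  have hsR : √R * √R = R := Real.mul_self_sqrt hR0.le
  set r : ℝ := 1 / √R with hr
  have hr0 : 0 < r := by positivity
  have hr1 : r ≤ 1 := by
    rw [hr, div_le_one hs]
    exact hs1
  have hrδ : r ≤ δ1 := by
    have h2 : 1 / δ1 ^ 2 ≤ R := (le_max_right _ _).trans hRR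
    rw [hr, div_le_iff₀ hs]
    have h3 : 1 / δ1 ≤ √R := by
      refine Real.le_sqrt_of_sq_le ?_
      rw [div_pow, one_pow]
      exact h2
    rw [div_le_iff₀ hδ10] at h3
    linarith
  set M : ℕ := ⌈δ1 / r⌉₊ with hM
  set K : ℝ := R ^ σ with hK
  have hK1 : 1 ≤ K := Real.one_le_rpow hR hσ.le
  have hK0 : 0 < K := by linarith
  have hKs : K ≤ √R := by
    rw [hK, Real.sqrt_eq_rpow]
    exact Real.rpow_le_rpow_of_exponent_le hR hσ2
  set Λ : ℝ := K * √R with hΛ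
  have hΛ1 : √R ≤ Λ := le_mul_of_one_le_left hs.le hK1
  have hΛR : Λ ≤ R := by
    calc Λ = K * √R := rfl
      _ ≤ √R * √R := by gcongr
      _ = R := hsR
  -- the density
  have hbB0 : ∀ p, ‖b p‖ ≤ |B 0| := by
    intro p
    have h2 := hbB 0 p.1 p.2
    rw [norm_iteratedFDeriv_zero, pow_zero, mul_one] at h2
    exact h2.trans (le_abs_self _)
  -- the pieces
  set κ := ↥(gi M ×ˢ gk m M) with hκ
  set ι := ↥(gi M) with hι
  set pr : κ → ι := fun a => ⟨a.1.1, (Finset.mem_product.1 a.2).1⟩ with hpr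
  set pc : κ → ℝ × E m := fun a => pcs p0 r M a.1 with hpc
  set bc : κ → ℝ × E m → ℂ := fun a => bcs p0 r M b a.1 with hbc
  set f : κ → E (m + 2) → ℂ := fun a => Tb X (bc a) with hf
  set T : κ → Set (ℝ × E m) := fun a => {p | bc a p ≠ 0} with hT
  have hbcm : ∀ a, Measurable (bc a) := fun a => bcs_meas p0 r M hbm a.1
  have hbcB : ∀ a p, ‖bc a p‖ ≤ |B 0| := fun a p => (bcs_norm_le p0 r M b a.1 p).trans (hbB0 p)
  have hbc0 : ∀ a p, δ1 < ‖p - p0‖ → bc a p = 0 := by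
    intro a p hp
    simp only [hbc, bcs]
    rw [hb0 p hp, mul_zero]
  have hbci : ∀ a, Integrable (bc a) ∧ ∫ p, ‖bc a p‖ ≤ S := fun a =>
    core_int (hbcm a) (hbcB a) (hbc0 a)
  have hfS : ∀ a ξ, ‖f a ξ‖ ≤ S := fun a ξ => (Tb_norm_le X (bc a) ξ).trans (hbci a).2
  have hfm : ∀ a, Measurable (f a) := by
    intro a
    have h3 := lff_continuous 1 volume X hXc.measurable (bc a) (hbci a).1
    have h4 : f a = lfT 1 volume X (bc a) := by
      funext ξ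
      simp only [hf, Tb, lfT, one_mul]
      refine integral_congr_ae (Filter.Eventually.of_forall fun p => ?_)
      simp only
      rw [real_inner_comm]
    rw [h4]
    exact h3.measurable
  have hsum : ∀ ξ, Tb X b ξ = ∑ a : κ, f a ξ := fun ξ =>
    Tb_sum hXc hbm hbB0 hb0 hr0 ξ
  have hsupp : ∀ a, ∀ p, bc a p ≠ 0 → ‖p - pc a‖ ≤ ρ / √R ∧ b p ≠ 0 := by
    intro a p hp
    obtain ⟨h2, h3⟩ := bcs_supp hm hr0 hp
    refine ⟨?_, h3⟩
    rw [div_eq_mul_one_div]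
    exact h2
  have hbδ : ∀ p, b p ≠ 0 → ‖p - p0‖ ≤ δ1 := by
    intro p hp
    by_contra h2
    exact hp (hb0 p (not_le.1 h2))
  set e : ℝ := Cn * Bd * (K ^ N)⁻¹ with he
  have he0 : 0 ≤ e := by positivity
  have hNSP : ∀ a ξ, R / 2 ≤ ‖ξ‖ → ‖ξ‖ ≤ 4 * R → Λ ≤ ‖Vw X ξ (pc a)‖ → ‖f a ξ‖ ≤ e := by
    intro a ξ _ hξ hV
    have h2 := hnsp X hX hAN1 (bc a) (pc a).1 (pc a).2 R Bd hR hBd
      (fun t => (bcs_smooth p0 r M hbs a.1 t).of_le (by exact_mod_cast le_top)) ?_ ?_ ?_ (-1) ξ ?_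
    · have e1 : f a ξ = ∫ p, bc a p *
          Complex.exp ((((-1) * ⟪ξ, X p⟫ : ℝ) : ℂ) * Complex.I) := by
        simp only [hf, Tb, neg_one_mul]
      rw [e1]
      refine h2.trans ?_
      have h3 : K ≤ |(-1 : ℝ)| * ‖Vw X ξ ((pc a).1, (pc a).2)‖ / √R := by
        rw [abs_neg, abs_one, one_mul, le_div_iff₀ hs]
        exact hV
      have h4 : 1 / (1 + |(-1 : ℝ)| * ‖Vw X ξ ((pc a).1, (pc a).2)‖ / √R) ≤ 1 / K := by
        refine one_div_le_one_div_of_le hK0 ?_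
        linarith
      have h5 : 0 ≤ 1 / (1 + |(-1 : ℝ)| * ‖Vw X ξ ((pc a).1, (pc a).2)‖ / √R) := by positivity
      calc Cn * Bd * (1 / √R) ^ (m + 1) *
            (1 / (1 + |(-1 : ℝ)| * ‖Vw X ξ ((pc a).1, (pc a).2)‖ / √R)) ^ N ≤
            Cn * Bd * 1 * (1 / K) ^ N := by
            gcongr
            exact pow_le_one₀ (by positivity) hr1
        _ = e := by rw [he, one_div, inv_pow, mul_one]
    · intro t z ht
      by_contra h3
      obtain ⟨h4, -⟩ := hsupp a (t, z) h3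
      rw [Prod.norm_def] at h4
      exact absurd ((le_max_left _ _).trans h4) (not_le.2 ht)
    · intro t z hz
      by_contra h3
      obtain ⟨h4, -⟩ := hsupp a (t, z) h3
      rw [Prod.norm_def] at h4
      exact absurd ((le_max_right _ _).trans h4) (not_le.2 hz)
    · intro j hj t z
      have h3 := hbcs p0 r M b a.1 hr0 hr1 hbs
        (fun t k z => by rw [hr, one_div_one_div]; exact hbB k t z) j hj t z
      rwa [hr, one_div_one_div] at h3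
    · rw [abs_neg, abs_one, one_mul]
      exact hξ
  have hΛr : Λ / R = K * r := by
    rw [hΛ, hr]
    rw [div_eq_iff hR0.ne']
    calc K * √R = K * (1 / √R) * (√R * √R) := by field_simp
      _ = K * (1 / √R) * R := by rw [hsR]
  -- CORE-A
  have hstepA := hcoreA X (Vw X) p0 δ R Λ e (Co * R ^ (m + 2) * (K ^ N)⁻¹ * S ^ 4) S
    ((D1 * K) ^ (m + 1)) η hR hΛ1 hΛR he0 (by positivity) hV1 hV2 ?_ ?_ ?_ hη1.continuous hη3
    hη4 hη5 hη6 κ pc T f ?_ ?_ hfm hfS hNSP ?_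
  rotate_left
  · intro p hp
    rw [mem_closedBall, dist_eq_norm] at hp
    exact h1 p hp
  · intro p hp p' hp'
    rw [mem_closedBall, dist_eq_norm] at hp hp'
    exact hbl p p' hp hp'
  · intro w hw1 hw2 th p hp p' hp' p'' hp''
    rw [mem_closedBall, dist_eq_norm] at hp hp' hp''
    exact hrect w th p p' p'' hw1 hw2 hp hp' hp''
  · intro a p hp
    obtain ⟨h2, h3⟩ := hsupp a p hp
    refine ⟨?_, h2⟩
    rw [mem_closedBall, dist_eq_norm]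
    have := hbδ p h3
    linarith
  · intro a
    set D : ℝ := (D0 + 1) * K * r with hD
    have hDr : r ≤ D := by
      have h2 : 1 ≤ (D0 + 1) * K := by nlinarith
      calc r = 1 * r := (one_mul r).symm
        _ ≤ (D0 + 1) * K * r := by gcongr
    have hsub : ∀ a' : κ, ‖pc a - pc a'‖ ≤ D0 * (Λ / R) →
        |(pc a).1 - tc p0.1 r M a'.1.1| ≤ D ∧ ‖(pc a).2 - zc p0.2 r M a'.1.2‖ ≤ D := by
      intro a' h2
      rw [hΛr, Prod.norm_def] at h2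
      have h3 : D0 * (K * r) ≤ D := by
        rw [hD]
        have : 0 ≤ K * r := by positivity
        nlinarith
      exact ⟨((le_max_left _ _).trans h2).trans h3, ((le_max_right _ _).trans h2).trans h3⟩
    set Z : Finset (ℕ × (Fin m → ℕ)) :=
      (Set.toFinset {a' : κ | ‖pc a - pc a'‖ ≤ D0 * (Λ / R)}).image Subtype.val with hZ
    have h2 : ({a' : κ | ‖pc a - pc a'‖ ≤ D0 * (Λ / R)} : Set κ).ncard = Z.card := by
      rw [Set.ncard_eq_toFinset_card', hZ, Finset.card_image_of_injective _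
        Subtype.val_injective]
    rw [h2]
    have h3 := card_caps hr0 p0.1 p0.2 M (pc a).1 (pc a).2 D Z ?_
    · calc (Z.card : ℝ) ≤ (((2 * ⌈2 * (D / r)⌉₊ + 1) ^ (m + 1) : ℕ) : ℝ) := by exact_mod_cast h3
        _ ≤ (7 * (D / r)) ^ (m + 1) := caps_near_le hr0 hDr (m + 1)
        _ = (D1 * K) ^ (m + 1) := by
            congr 1
            rw [hD, hD1]
            field_simp
    · intro c' hc'
      rw [hZ, Finset.mem_image] at hc'
      obtain ⟨a', ha', rfl⟩ := hc'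
      rw [Set.mem_toFinset] at ha'
      exact hsub a' ha'
  · intro a1 a2 a3 a4 hfar
    have h2 := horth X hXc.measurable R ((Λ / R) ^ 2) hR0 (by positivity) (bc a1) (bc a2) (bc a3)
      (bc a4) (hbci a1).1 (hbci a2).1 (hbci a3).1 (hbci a4).1
      (fun p1 p2 p3 p4 g1 g2 g3 g4 => hfar p1 g1 p2 g2 p3 g3 p4 g4)
    refine h2.trans ?_
    have h3 : K ^ N ≤ (1 + R * (Λ / R) ^ 2) ^ N := by
      refine pow_le_pow_left₀ hK0.le ?_ N
      have h4 : R * (Λ / R) ^ 2 = K ^ 2 := by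
        rw [hΛ, div_pow, mul_pow, Real.sq_sqrt hR0.le]
        field_simp
      rw [h4]
      nlinarith
    have h5 : ((1 + R * (Λ / R) ^ 2) ^ N)⁻¹ ≤ (K ^ N)⁻¹ := inv_anti₀ (by positivity) h3
    have h6 : ∀ a, 0 ≤ ∫ p, ‖bc a p‖ := fun a => integral_nonneg fun _ => norm_nonneg _
    calc Co * R ^ (m + 2) * ((1 + R * (Λ / R) ^ 2) ^ N)⁻¹ *
          ((∫ p, ‖bc a1 p‖) * (∫ p, ‖bc a2 p‖) * (∫ p, ‖bc a3 p‖) * (∫ p, ‖bc a4 p‖)) ≤
          Co * R ^ (m + 2) * (K ^ N)⁻¹ * (S * S * S * S) := by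
          gcongr
          · exact (hbci a1).2
          · exact (hbci a2).2
          · exact (hbci a3).2
          · exact (hbci a4).2
      _ = _ := by ring
  -- CORE-B
  choose GG hGm hG1 hG2 hG3 using fun i : ℕ => hdom M i
  have hstepB := hcoreB (Vw X) (Xt X) p0 δ δ1 R Λ e (by linarith) hR hΛ1 he0 ?_ hXt (hkak R hR)
    κ ι pr (fun i => tc p0.1 r M i.1) (fun a => zc p0.2 r M a.1.2) (fun i => GG i.1) f ?_ ?_
    (fun i => hGm i.1) (fun i => hG1 i.1) (fun i => hG2 i.1) ?_ ?_ ?_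
  rotate_left
  · intro ξ t z z'
    refine (hV2 ξ (t, z) (t, z')).trans (le_of_eq ?_)
    congr 1
    rw [Prod.norm_def]
    simp
  · intro i
    have h2 := core_tc (t0 := p0.1) hr0 hδ10.le i.2
    refine h2.trans ?_
    linarith
  · intro i j hij
    rw [abs_tc_sub hr0]
    have h2 : (1 : ℝ) ≤ |((i.1 : ℕ) : ℝ) - (j.1 : ℕ)| := by
      have h3 : ((i.1 : ℕ) : ℤ) - (j.1 : ℕ) ≠ 0 := by
        intro h4
        apply hij
        apply Subtype.ext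
        omega
      have h5 := Int.one_le_abs h3
      exact_mod_cast h5
    calc 1 / √R = r * 1 := by rw [mul_one]
      _ ≤ r * |((i.1 : ℕ) : ℝ) - (j.1 : ℕ)| := by gcongr
  · intro i z
    set Z : Finset (Fin m → ℕ) :=
      (Set.toFinset {a : κ | pr a = i ∧ ‖z - zc p0.2 r M a.1.2‖ ≤ ρ / √R}).image
        (fun a => a.1.2) with hZ
    have h2 : ({a : κ | pr a = i ∧ ‖z - zc p0.2 r M a.1.2‖ ≤ ρ / √R} : Set κ).ncard = Z.card := by
      rw [Set.ncard_eq_toFinset_card', hZ, Finset.card_image_of_injOn]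
      intro a ha a' ha' haa
      have h3 : pr a = i := (Set.mem_toFinset.1 ha).1
      have h4 : pr a' = i := (Set.mem_toFinset.1 ha').1
      have h5 : a.1.1 = a'.1.1 := by
        have h6 : pr a = pr a' := h3.trans h4.symm
        exact congrArg (fun i : ι => i.1) h6
      exact Subtype.ext (Prod.ext h5 haa)
    rw [h2]
    have h3 := card_zc hr0 p0.2 M z (ρ / √R) Z ?_
    · have h4 : ρ / √R / r = ρ := by
        rw [hr]
        field_simp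
      rwa [h4] at h3
    · intro k hk
      rw [hZ, Finset.mem_image] at hk
      obtain ⟨a, ha, rfl⟩ := hk
      exact (Set.mem_toFinset.1 ha).2
  · intro a ξ hξ
    exact hG3 a.1.1 a.1.2 ξ hξ
  · intro a ξ hξ1 hξ2 hV
    exact hNSP a ξ hξ1 hξ2 hV
  -- assembly
  set An : Set (E (m + 2)) := {ξ | R / 2 ≤ ‖ξ‖ ∧ ‖ξ‖ ≤ 4 * R} with hAn
  have hvf : volume An ≠ ⊤ := ne_top_of_le_ne_top ENNReal.ofReal_ne_top (hvol R hR)
  set v : ℝ := volume.real An with hv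
  have hvv : volume An = ENNReal.ofReal v := by
    rw [hv, measureReal_def, ENNReal.ofReal_toReal hvf]
  have hv1 : v ≤ Cv * R ^ (m + 2) := by
    rw [hv, measureReal_def]
    exact ENNReal.toReal_le_of_le_ofReal (by positivity) (hvol R hR)
  have hv0 : 0 ≤ v := measureReal_nonneg
  set n0 : ℝ := ((Fintype.card κ : ℕ) : ℝ) with hn0
  have hn00 : 0 ≤ n0 := Nat.cast_nonneg _
  have hn01 : n0 ≤ (5 * δ1) ^ (m + 1) * R ^ (m + 1) := by
    have h2 := caps_card_le m hr0 hrδ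
    rw [hn0, Fintype.card_coe]
    refine h2.trans ?_
    rw [← mul_pow]
    refine pow_le_pow_left₀ (by positivity) ?_ _
    rw [mul_assoc]
    gcongr
    rw [hr, div_div_eq_mul_div, div_one]
    gcongr
    calc √R = 1 * √R := (one_mul _).symm
      _ ≤ √R * √R := by gcongr
      _ = R := hsR
  have hlog0 : 0 ≤ Real.log R := Real.log_nonneg hR
  have hΛs : Λ / √R = K := by
    rw [hΛ]
    field_simp
  calc ∫⁻ ξ in {ξ : E (m + 2) | R ≤ ‖ξ‖ ∧ ‖ξ‖ ≤ 2 * R}, ‖Tb X b ξ‖ₑ ^ 4 =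
      ∫⁻ ξ in {ξ : E (m + 2) | R ≤ ‖ξ‖ ∧ ‖ξ‖ ≤ 2 * R}, ‖∑ a, f a ξ‖ₑ ^ 4 := by
        simp_rw [hsum]
    _ ≤ ENNReal.ofReal (2 * ((D1 * K) ^ (m + 1)) ^ 2) *
          (∫⁻ ξ in An, (∑ a, ‖f a ξ‖ₑ ^ 2) ^ 2) +
          ENNReal.ofReal (n0 ^ 4 * (e * S ^ 3 * v + Co * R ^ (m + 2) * (K ^ N)⁻¹ * S ^ 4)) :=
        hstepA
    _ ≤ ENNReal.ofReal (2 * ((D1 * K) ^ (m + 1)) ^ 2) *
          (ENNReal.ofReal (Db * (1 / R) ^ m * K ^ (2 * m + 1) * (1 + Real.log R)) +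
            ENNReal.ofReal (2 * (n0 * e ^ 2) ^ 2 * v)) +
          ENNReal.ofReal (n0 ^ 4 * (e * S ^ 3 * v + Co * R ^ (m + 2) * (K ^ N)⁻¹ * S ^ 4)) := by
        gcongr
        refine hstepB.trans (le_of_eq ?_)
        rw [hΛs]
        congr 1
        rw [hvv, ← ENNReal.ofReal_natCast, ← ENNReal.ofReal_mul (Nat.cast_nonneg _),
          ← ENNReal.ofReal_pow (by positivity),
          show (2 : ℝ≥0∞) = ENNReal.ofReal 2 by norm_num, ← ENNReal.ofReal_mul (by norm_num),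
          ← ENNReal.ofReal_mul (by positivity)]
    _ = ENNReal.ofReal (2 * ((D1 * K) ^ (m + 1)) ^ 2 *
          (Db * (1 / R) ^ m * K ^ (2 * m + 1) * (1 + Real.log R) + 2 * (n0 * e ^ 2) ^ 2 * v) +
          n0 ^ 4 * (e * S ^ 3 * v + Co * R ^ (m + 2) * (K ^ N)⁻¹ * S ^ 4)) := by
        rw [← ENNReal.ofReal_add (by positivity) (by positivity),
          ← ENNReal.ofReal_mul (by positivity), ← ENNReal.ofReal_add (by positivity)
          (by positivity)]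
    _ ≤ _ := by
        refine ENNReal.ofReal_le_ofReal ?_
        exact core_num (m := m) (N := N) hε hσ (by linarith) hσε hN hR hK hD10 hDb
          (by positivity) (by positivity) hCv (by positivity) hS0 hn00 he0 hv0 (by positivity)
          hn01 (le_of_eq he) hv1 (le_of_eq (by ring))

end Pool.Agent.LF
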