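import Pool.Agent.LF.ORTHG

/-!
Leaves, row CORE-A: non-stationary phase and orthogonality give the square function estimate at one
scale.
-/

set_option autoImplicit false

namespace Pool.Agent.LF

open MeasureTheory Set
open scoped ENNReal Real RealInnerProductSpace ComplexConjugate

/-- A product of four bounded functions, one of which is small at each point, has small integral. -/
theorem ca_small {α : Type*} [MeasurableSpace α] (μ : Measure α) [IsFiniteMeasure μ] {A : Set α}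
    (hA : ∀ᵐ x ∂μ, x ∈ A) {f1 f2 f3 f4 : α → ℂ} {B ε : ℝ} (hε : 0 ≤ ε)
    (h1 : ∀ x, ‖f1 x‖ ≤ B) (h2 : ∀ x, ‖f2 x‖ ≤ B) (h3 : ∀ x, ‖f3 x‖ ≤ B) (h4 : ∀ x, ‖f4 x‖ ≤ B)
    (h : ∀ x ∈ A, ‖f1 x‖ ≤ ε ∨ ‖f2 x‖ ≤ ε ∨ ‖f3 x‖ ≤ ε ∨ ‖f4 x‖ ≤ ε) :
    ‖∫ x, f1 x * f2 x * conj (f3 x) * conj (f4 x) ∂μ‖ ≤ ε * B ^ 3 * μ.real univ := by
  refine norm_integral_le_of_norm_le_const ?_
  filter_upwards [hA] with x hx
  have hB : 0 ≤ B := (norm_nonneg _).trans (h1 x)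
  simp only [norm_mul, RCLike.norm_conj]
  have n1 := norm_nonneg (f1 x)
  have n2 := norm_nonneg (f2 x)
  have n3 := norm_nonneg (f3 x)
  have n4 := norm_nonneg (f4 x)
  rcases h x hx with h5 | h5 | h5 | h5
  · calc ‖f1 x‖ * ‖f2 x‖ * ‖f3 x‖ * ‖f4 x‖ ≤ ε * B * B * B := by
          gcongr
          · exact h2 x
          · exact h3 x
          · exact h4 x
      _ = ε * B ^ 3 := by ring
  · calc ‖f1 x‖ * ‖f2 x‖ * ‖f3 x‖ * ‖f4 x‖ ≤ B * ε * B * B := by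
          gcongr
          · exact h1 x
          · exact h3 x
          · exact h4 x
      _ = ε * B ^ 3 := by ring
  · calc ‖f1 x‖ * ‖f2 x‖ * ‖f3 x‖ * ‖f4 x‖ ≤ B * B * ε * B := by
          gcongr
          · exact h1 x
          · exact h2 x
          · exact h4 x
      _ = ε * B ^ 3 := by ring
  · calc ‖f1 x‖ * ‖f2 x‖ * ‖f3 x‖ * ‖f4 x‖ ≤ B * B * B * ε := by
          gcongr
          · exact h1 x
          · exact h2 x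
          · exact h3 x
      _ = ε * B ^ 3 := by ring

/-- **(CORE-A)**, one scale: the fourth moment of the sum is bounded by that of the square function.
`V ξ` is the derivative of the phase along the leaves, `T c` the region of the cap `c`, `pc c` its
centre, `A` the annulus. -/
theorem core_a {P E W κ : Type*} [NormedAddCommGroup P] [NormedAddCommGroup E]
    [InnerProductSpace ℝ E] [MeasurableSpace E] [NormedAddCommGroup W] [Fintype κ]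
    (μ : Measure E) [IsFiniteMeasure μ] {A : Set E} (hA : ∀ᵐ ξ ∂μ, ξ ∈ A)
    {X : P → E} {V : E → P → W} {Bs : Set P} (pc : κ → P) (T : κ → Set P)
    {r L L' c D e θ θ' M B ε1 ε2 : ℝ} (hL : 0 ≤ L) (hL' : 0 ≤ L') (hc : 0 < c) (hD : 0 ≤ D)
    (hε1 : 0 ≤ ε1) (he1 : e ≤ 1) (hce : 2 * e ≤ c * D ^ 2)
    -- the map
    (hX1 : ∀ p ∈ Bs, ‖X p‖ = 1)
    (hLo : ∀ p ∈ Bs, ∀ p' ∈ Bs, ‖p - p'‖ ≤ L * ‖X p - X p'‖)
    (hUp : ∀ p ∈ Bs, ∀ p' ∈ Bs, ‖X p - X p'‖ ≤ L' * ‖p - p'‖)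
    (hrect : ∀ ξ ∈ A, ∀ p ∈ Bs, ∀ p' ∈ Bs, ∀ p'' ∈ Bs, ‖V ξ p‖ ≤ θ' → ‖V ξ p'‖ ≤ θ' →
      ‖V ξ p''‖ ≤ θ' → D < ‖p - p'‖ → D < ‖p - p''‖ →
      c * (‖p - p'‖ * ‖p - p''‖) ≤ |⟪X p - X p', X p - X p''⟫|)
    -- the caps
    (hT : ∀ a, ∀ p ∈ T a, p ∈ Bs ∧ ‖p - pc a‖ ≤ r)
    (hV : ∀ ξ ∈ A, ∀ a, ∀ p ∈ T a, ‖V ξ (pc a)‖ ≤ θ → ‖V ξ p‖ ≤ θ')
    (hM : ∀ a, ({a' | ‖pc a - pc a'‖ ≤ max D (L * (L' * D + e)) + 2 * r}.ncard : ℝ) ≤ M)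
    -- the pieces
    (f : κ → E → ℂ) (hf : ∀ a, Measurable (f a)) (hB : ∀ a ξ, ‖f a ξ‖ ≤ B)
    (hnsp : ∀ a, ∀ ξ ∈ A, θ < ‖V ξ (pc a)‖ → ‖f a ξ‖ ≤ ε1)
    (horth : ∀ a1 a2 a3 a4, (∀ p1 ∈ T a1, ∀ p2 ∈ T a2, ∀ p3 ∈ T a3, ∀ p4 ∈ T a4,
      e < ‖X p1 + X p2 - X p3 - X p4‖) →
      ‖∫ ξ, f a1 ξ * f a2 ξ * conj (f a3 ξ) * conj (f a4 ξ) ∂μ‖ ≤ ε2) :
    ∫ ξ, ‖∑ a, f a ξ‖ ^ 4 ∂μ ≤ 2 * M ^ 2 * ∫ ξ, (∑ a, ‖f a ξ‖ ^ 2) ^ 2 ∂μ +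
      (Fintype.card κ : ℝ) ^ 4 * max (ε1 * B ^ 3 * μ.real univ) ε2 := by
  by_cases hκ : IsEmpty κ
  · simp
  rw [not_isEmpty_iff] at hκ
  obtain ⟨a0⟩ := hκ
  have hB0 : 0 ≤ B := (norm_nonneg _).trans (hB a0 0)
  have hμ0 : 0 ≤ μ.real univ := measureReal_nonneg
  refine lf_orth μ (fun a a' => ‖pc a - pc a'‖ ≤ max D (L * (L' * D + e)) + 2 * r)
    (fun a a' h => by rwa [norm_sub_rev]) (le_max_of_le_left (by positivity)) hM f hf hB ?_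
  intro a1 a2 a3 a4 hfar
  by_cases hX : ∀ p1 ∈ T a1, ∀ p2 ∈ T a2, ∀ p3 ∈ T a3, ∀ p4 ∈ T a4,
      e < ‖X p1 + X p2 - X p3 - X p4‖
  · exact (horth a1 a2 a3 a4 hX).trans (le_max_right _ _)
  push Not at hX
  obtain ⟨p1, h1, p2, h2, p3, h3, p4, h4, he⟩ := hX
  refine le_trans ?_ (le_max_left _ _)
  refine ca_small μ hA hε1 (hB a1) (hB a2) (hB a3) (hB a4) ?_
  intro ξ hξ
  by_contra hcon
  push Not at hcon
  obtain ⟨c1, c2, c3, c4⟩ := hcon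
  have hθ : ∀ a, ε1 < ‖f a ξ‖ → ‖V ξ (pc a)‖ ≤ θ := by
    intro a ha
    by_contra h5
    push Not at h5
    exact absurd (hnsp a ξ hξ h5) (not_le.2 ha)
  have g1 := hV ξ hξ a1 p1 h1 (hθ a1 c1)
  have g3 := hV ξ hξ a3 p3 h3 (hθ a3 c3)
  have g4 := hV ξ hξ a4 p4 h4 (hθ a4 c4)
  obtain ⟨b1, d1⟩ := hT a1 p1 h1
  obtain ⟨b2, d2⟩ := hT a2 p2 h2
  obtain ⟨b3, d3⟩ := hT a3 p3 h3
  obtain ⟨b4, d4⟩ := hT a4 p4 h4
  have hpair := lf_pairs (B := Bs) (G := {p | p ∈ Bs ∧ ‖V ξ p‖ ≤ θ'}) hL hL' hX1 hLo hUp hc hD he1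
    (fun p hp p' hp' p'' hp'' => hrect ξ hξ p hp.1 p' hp'.1 p'' hp''.1 hp.2 hp'.2 hp''.2) hce
    b1 b2 b3 b4 ⟨b1, g1⟩ ⟨b3, g3⟩ ⟨b4, g4⟩ he
  have tri : ∀ (p p' q q' : P) (t : ℝ), ‖p - p'‖ ≤ t → ‖p - q‖ ≤ r → ‖p' - q'‖ ≤ r →
      ‖q - q'‖ ≤ t + 2 * r := by
    intro p p' q q' t h5 h6 h7
    have e1 : q - q' = -(p - q) + (p - p') + (p' - q') := by abel
    rw [e1]
    refine (norm_add_le _ _).trans ?_
    have h8 := norm_add_le (-(p - q)) (p - p')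
    rw [norm_neg] at h8
    linarith
  refine hfar ?_
  rcases hpair with ⟨h5, h6⟩ | ⟨h5, h6⟩
  · left
    exact ⟨tri _ _ _ _ _ (h5.trans (le_max_left _ _)) d1 d3,
      tri _ _ _ _ _ (h6.trans (le_max_right _ _)) d2 d4⟩
  · right
    exact ⟨tri _ _ _ _ _ (h5.trans (le_max_left _ _)) d1 d4,
      tri _ _ _ _ _ (h6.trans (le_max_right _ _)) d2 d3⟩

end Pool.Agent.LF
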