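import Mathlib

/-!
From the domination of the pieces to the square function: abstract form.
-/

namespace Pool.Agent.LF

open MeasureTheory Set
open scoped ENNReal

theorem corb_sq (x y : ℝ≥0∞) : (x + y) ^ 2 ≤ 2 * x ^ 2 + 2 * y ^ 2 := by
  have h := ENNReal.rpow_add_le_mul_rpow_add_rpow x y (p := 2) (by norm_num)
  have h1 : (2 : ℝ≥0∞) ^ ((2 : ℝ) - 1) = 2 := by norm_num
  rw [h1] at h
  simp only [ENNReal.rpow_two] at h
  rwa [mul_add] at h

/-- Sum over the caps of one interval: bounded overlap. -/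
theorem corb_overlap {κ ι Z : Type*} [Fintype κ] [Fintype ι] [DecidableEq ι] [MeasurableSpace Z]
    (ν : Measure Z) (pr : κ → ι) (G : κ → Set Z) (B : Set Z) (w : ι → Z → ℝ≥0∞) (Mo : ℕ)
    (hG : ∀ c, MeasurableSet (G c)) (hGB : ∀ c, G c ⊆ B) (hB : MeasurableSet B)
    (hw : ∀ i, Measurable (w i))
    (hM : ∀ i z, ({c | pr c = i ∧ z ∈ G c} : Set κ).ncard ≤ Mo) :
    ∑ c, ∫⁻ z in G c, w (pr c) z ∂ν ≤ Mo * ∑ i, ∫⁻ z in B, w i z ∂ν := by
  classical
  have h1 : ∑ c, ∫⁻ z in G c, w (pr c) z ∂ν =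
      ∑ i, ∑ c ∈ Finset.univ.filter (fun c => pr c = i), ∫⁻ z in G c, w i z ∂ν := by
    rw [← Finset.sum_fiberwise (s := Finset.univ) (g := pr)]
    refine Finset.sum_congr rfl fun i _ => Finset.sum_congr rfl fun c hc => ?_
    rw [(Finset.mem_filter.1 hc).2]
  rw [h1, Finset.mul_sum]
  refine Finset.sum_le_sum fun i _ => ?_
  have h2 : ∀ c, ∫⁻ z in G c, w i z ∂ν = ∫⁻ z, (G c).indicator (w i) z ∂ν := fun c =>
    (lintegral_indicator (hG c) _).symm
  simp_rw [h2]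
  rw [← lintegral_finsetSum _ fun c _ => (hw i).indicator (hG c),
    ← lintegral_const_mul' _ _ (ENNReal.natCast_ne_top Mo), ← lintegral_indicator hB]
  refine lintegral_mono fun z => ?_
  by_cases hz : z ∈ B
  · rw [indicator_of_mem hz]
    have h3 : ∑ c ∈ Finset.univ.filter (fun c => pr c = i), (G c).indicator (w i) z =
        ∑ c ∈ Finset.univ.filter (fun c => pr c = i ∧ z ∈ G c), w i z := by
      rw [← Finset.filter_filter, Finset.sum_filter (s := Finset.univ.filter fun c => pr c = i)]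
      refine Finset.sum_congr rfl fun c _ => ?_
      by_cases hc : z ∈ G c
      · rw [indicator_of_mem hc, if_pos hc]
      · rw [indicator_of_notMem hc, if_neg hc]
    rw [h3, Finset.sum_const, nsmul_eq_mul]
    gcongr
    have h4 := hM i z
    rw [Set.ncard_eq_toFinset_card'] at h4
    refine le_trans (Finset.card_le_card ?_) h4
    intro c hc
    rw [Set.mem_toFinset]
    exact (Finset.mem_filter.1 hc).2
  · rw [indicator_of_notMem hz]
    refine le_of_eq (Finset.sum_eq_zero fun c _ => ?_)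
    rw [indicator_of_notMem fun h => hz (hGB c h)]

/-- The square function from the domination of the pieces. -/
theorem corb_abs {κ ι Z Ω : Type*} [Fintype κ] [Fintype ι] [DecidableEq ι] [MeasurableSpace Z]
    [MeasurableSpace Ω] (ν : Measure Z) (μ : Measure Ω) (A : Set Ω) (hA : MeasurableSet A)
    (pr : κ → ι) (G : κ → Set Z) (B : Set Z) (w : ι → Ω → Z → ℝ≥0∞) (F : κ → Ω → ℝ≥0∞)
    (Mo : ℕ) (a b : ℝ≥0∞) (ha : a ≠ ∞)
    (hG : ∀ c, MeasurableSet (G c)) (hGB : ∀ c, G c ⊆ B) (hB : MeasurableSet B)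
    (hw : ∀ i x, Measurable (w i x))
    (hM : ∀ i z, ({c | pr c = i ∧ z ∈ G c} : Set κ).ncard ≤ Mo)
    (hF : ∀ c, ∀ x ∈ A, F c x ≤ a * ∫⁻ z in G c, w (pr c) x z ∂ν + b) :
    ∫⁻ x in A, (∑ c, F c x) ^ 2 ∂μ ≤
      2 * (a * Mo) ^ 2 * ∫⁻ x in A, (∑ i, ∫⁻ z in B, w i x z ∂ν) ^ 2 ∂μ +
        2 * (Fintype.card κ * b) ^ 2 * μ A := by
  have h1 : ∀ x ∈ A, (∑ c, F c x) ^ 2 ≤
      2 * (a * Mo) ^ 2 * (∑ i, ∫⁻ z in B, w i x z ∂ν) ^ 2 + 2 * (Fintype.card κ * b) ^ 2 := by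
    intro x hx
    have h2 : ∑ c, F c x ≤ a * Mo * (∑ i, ∫⁻ z in B, w i x z ∂ν) + Fintype.card κ * b := by
      calc ∑ c, F c x ≤ ∑ c, (a * ∫⁻ z in G c, w (pr c) x z ∂ν + b) :=
            Finset.sum_le_sum fun c _ => hF c x hx
        _ = a * ∑ c, ∫⁻ z in G c, w (pr c) x z ∂ν + Fintype.card κ * b := by
            rw [Finset.sum_add_distrib, ← Finset.mul_sum, Finset.sum_const, nsmul_eq_mul,
              Finset.card_univ]
        _ ≤ a * (Mo * (∑ i, ∫⁻ z in B, w i x z ∂ν)) + Fintype.card κ * b := by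
            gcongr
            exact corb_overlap ν pr G B (fun i z => w i x z) Mo hG hGB hB (fun i => hw i x) hM
        _ = _ := by rw [mul_assoc]
    calc (∑ c, F c x) ^ 2 ≤
          (a * Mo * (∑ i, ∫⁻ z in B, w i x z ∂ν) + Fintype.card κ * b) ^ 2 := by gcongr
      _ ≤ 2 * (a * Mo * (∑ i, ∫⁻ z in B, w i x z ∂ν)) ^ 2 + 2 * (Fintype.card κ * b) ^ 2 := by
          exact corb_sq _ _
      _ = _ := by rw [mul_pow, mul_assoc]
  calc ∫⁻ x in A, (∑ c, F c x) ^ 2 ∂μ ≤ ∫⁻ x in A, (2 * (a * Mo) ^ 2 *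
        (∑ i, ∫⁻ z in B, w i x z ∂ν) ^ 2 + 2 * (Fintype.card κ * b) ^ 2) ∂μ :=
        setLIntegral_mono' hA h1
    _ = _ := by
        have h3 : 2 * (a * (Mo : ℝ≥0∞)) ^ 2 ≠ ∞ := by
          refine ENNReal.mul_ne_top (by norm_num) (ENNReal.pow_ne_top (ENNReal.mul_ne_top ha ?_))
          exact ENNReal.natCast_ne_top Mo
        rw [lintegral_add_right _ measurable_const, lintegral_const_mul' _ _ h3,
          setLIntegral_const]

end Pool.Agent.LF
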