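import Mathlib
import Pool.Agent.MP_6cbfb8_an.Defs

/-!
The condition on the foliation: the spherical gradient is a cyclic vector of the spherical Hessian;
quadratic phases.
-/

namespace Pool.Agent.LF

open MeasureTheory Set Pool.Agent.MP_6cbfb8_an
open scoped ENNReal Real RealInnerProductSpace ContDiff

/-- No nonzero vector orthogonal to `x0` and to the gradient of `φ` at `x0` is an eigenvector of the
second derivative of `φ` at `x0`, compressed to the orthogonal complement of `x0`. -/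
def Cyc {n : ℕ} (φ : E n → ℝ) (x0 : E n) : Prop :=
  ∀ v : E n, v ≠ 0 → ⟪v, x0⟫ = 0 → fderiv ℝ φ x0 v = 0 → ∀ μ : ℝ,
    ∃ w : E n, ⟪w, x0⟫ = 0 ∧ fderiv ℝ (fderiv ℝ φ) x0 v w ≠ μ * ⟪v, w⟫

/-- The first derivative of `∑ b_i x_i²`. -/
theorem ex_fderiv {n : ℕ} (b : Fin n → ℝ) (x : E n) :
    fderiv ℝ (fun y : E n => ∑ i, b i * y i ^ 2) x =
      ∑ i, (2 * b i * x i) • (EuclideanSpace.proj i : E n →L[ℝ] ℝ) := by
  have h : HasFDerivAt (fun y : E n => ∑ i, b i * y i ^ 2)
      (∑ i, (2 * b i * x i) • (EuclideanSpace.proj i : E n →L[ℝ] ℝ)) x := by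
    apply HasFDerivAt.fun_sum
    intro i _
    have h1 : HasFDerivAt (fun y : E n => y i) (EuclideanSpace.proj i : E n →L[ℝ] ℝ) x :=
      (EuclideanSpace.proj i : E n →L[ℝ] ℝ).hasFDerivAt
    have h2 := (h1.pow 2).const_mul (b i)
    refine h2.congr_fderiv ?_
    ext v
    simp
    ring
  exact h.fderiv

theorem ex_fderiv2 {n : ℕ} (b : Fin n → ℝ) (x v w : E n) :
    fderiv ℝ (fderiv ℝ (fun y : E n => ∑ i, b i * y i ^ 2)) x v w =
      ∑ i, 2 * b i * v i * w i := by
  have h0 : fderiv ℝ (fun y : E n => ∑ i, b i * y i ^ 2) =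
      fun x => ∑ i, (2 * b i * x i) • (EuclideanSpace.proj i : E n →L[ℝ] ℝ) := by
    funext x
    exact ex_fderiv b x
  have h : HasFDerivAt (fun x : E n => ∑ i, (2 * b i * x i) • (EuclideanSpace.proj i : E n →L[ℝ] ℝ))
      (∑ i, ((2 * b i) • (EuclideanSpace.proj i : E n →L[ℝ] ℝ)).smulRight
        (EuclideanSpace.proj i : E n →L[ℝ] ℝ)) x := by
    apply HasFDerivAt.fun_sum
    intro i _
    have h1 : HasFDerivAt (fun y : E n => 2 * b i * y i)
        ((2 * b i) • (EuclideanSpace.proj i : E n →L[ℝ] ℝ)) x :=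
      ((EuclideanSpace.proj i : E n →L[ℝ] ℝ).hasFDerivAt).const_mul (2 * b i)
    exact h1.smul_const (EuclideanSpace.proj i : E n →L[ℝ] ℝ)
  rw [h0, h.fderiv]
  simp

/-- Quadratic phases with different coefficients, at the points with no coordinate zero. -/
theorem cyc_quad {n : ℕ} (b : Fin n → ℝ) (hb : Function.Injective b) (x0 : E n)
    (hx : ∀ i, x0 i ≠ 0) : Cyc (fun x => ∑ i, b i * x i ^ 2) x0 := by
  intro v hv hvx hgv μ
  by_contra hcon
  push Not at hcon
  -- `2 B v - μ v` is orthogonal to everything orthogonal to `x0`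
  have hx0 : x0 ≠ 0 := by
    rintro rfl
    obtain ⟨i⟩ : Nonempty (Fin n) := by
      by_contra hn
      rw [not_nonempty_iff] at hn
      exact hv (Subsingleton.elim _ _)
    exact hx i rfl
  have hgv' : ∑ i, b i * x0 i * v i = 0 := by
    rw [ex_fderiv] at hgv
    simp at hgv
    have : ∑ i, 2 * b i * x0 i * v i = 2 * ∑ i, b i * x0 i * v i := by
      rw [Finset.mul_sum]
      exact Finset.sum_congr rfl fun i _ => by ring
    rw [this] at hgv
    linarith
  set u : E n := WithLp.toLp 2 (fun i => 2 * b i * v i - μ * v i) with hu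
  have hui : ∀ i, u i = 2 * b i * v i - μ * v i := fun i => rfl
  have huw : ∀ w : E n, ⟪w, x0⟫ = 0 → ⟪u, w⟫ = 0 := by
    intro w hw
    have h := hcon w hw
    rw [ex_fderiv2] at h
    have h1 : ⟪u, w⟫ = ∑ i, (2 * b i * v i * w i) - μ * ⟪v, w⟫ := by
      simp only [PiLp.inner_apply, RCLike.inner_apply, conj_trivial, hui]
      rw [Finset.mul_sum, ← Finset.sum_sub_distrib]
      exact Finset.sum_congr rfl fun i _ => by ring
    rw [h1, h, sub_self]
  have hux : ⟪u, x0⟫ = 0 := by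
    have h1 : ⟪u, x0⟫ = 2 * (∑ i, b i * x0 i * v i) - μ * ⟪v, x0⟫ := by
      simp only [PiLp.inner_apply, RCLike.inner_apply, conj_trivial, hui]
      rw [Finset.mul_sum, Finset.mul_sum, ← Finset.sum_sub_distrib]
      exact Finset.sum_congr rfl fun i _ => by ring
    rw [h1, hgv', hvx]
    ring
  have hu0 : u = 0 := by
    have h := huw u hux
    exact inner_self_eq_zero.1 h
  have hi : ∀ i, (2 * b i - μ) * v i = 0 := by
    intro i
    have h := congrArg (fun z : E n => z i) hu0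
    simp only [hui] at h
    have h' : 2 * b i * v i - μ * v i = 0 := h
    linarith
  obtain ⟨i, hvi⟩ : ∃ i, v i ≠ 0 := by
    by_contra hn
    push Not at hn
    exact hv (by ext i; exact hn i)
  have hμ : 2 * b i = μ := by
    rcases mul_eq_zero.1 (hi i) with h | h
    · linarith
    · exact absurd h hvi
  have hj : ∀ j, j ≠ i → v j = 0 := by
    intro j hji
    rcases mul_eq_zero.1 (hi j) with h | h
    · exact absurd (hb (by linarith : b j = b i)) hji
    · exact h
  have h3 : ⟪v, x0⟫ = v i * x0 i := by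
    simp only [PiLp.inner_apply, RCLike.inner_apply, conj_trivial]
    rw [Finset.sum_eq_single i]
    · ring
    · intro j _ hji
      rw [hj j hji]
      ring
    · intro h
      exact absurd (Finset.mem_univ i) h
  rw [h3] at hvx
  rcases mul_eq_zero.1 hvx with h | h
  · exact hvi h
  · exact hx i h


/-- At a point with a coordinate zero the condition fails, whatever the coefficients. -/
theorem not_cyc_quad {n : ℕ} (b : Fin n → ℝ) (x0 : E n) (i : Fin n) (hx : x0 i = 0) :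
    ¬ Cyc (fun x => ∑ i, b i * x i ^ 2) x0 := by
  intro hcyc
  set v : E n := EuclideanSpace.single i (1 : ℝ) with hv
  have hvw : ∀ w : E n, ⟪v, w⟫ = w i := by
    intro w
    rw [hv, EuclideanSpace.inner_single_left]
    simp
  have hv0 : v ≠ 0 := by
    intro h
    have h1 := congrArg (fun z : E n => z i) h
    simp [hv] at h1
  obtain ⟨w, hw, hne⟩ := hcyc v hv0 (by rw [hvw, hx]) (by
    rw [ex_fderiv]
    simp only [FunLike.coe_sum, Finset.sum_apply, FunLike.coe_smul,
      Pi.smul_apply, EuclideanSpace.coe_proj, smul_eq_mul]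
    apply Finset.sum_eq_zero
    intro j _
    by_cases hji : j = i
    · rw [hji, hx]; ring
    · rw [hv, PiLp.single_apply, if_neg hji, mul_zero]) (2 * b i)
  apply hne
  rw [ex_fderiv2, hvw, Finset.sum_eq_single i]
  · rw [hv, PiLp.single_apply, if_pos rfl, mul_one]
  · intro j _ hji
    rw [hv, PiLp.single_apply, if_neg hji]
    ring
  · intro h
    exact absurd (Finset.mem_univ i) h

/-- Quadratic phases with different coefficients: the condition holds exactly at the points with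
no coordinate zero. -/
theorem cyc_quad_iff {n : ℕ} (b : Fin n → ℝ) (hb : Function.Injective b) (x0 : E n) :
    Cyc (fun x => ∑ i, b i * x i ^ 2) x0 ↔ ∀ i, x0 i ≠ 0 :=
  ⟨fun h i hi => not_cyc_quad b x0 i hi h, cyc_quad b hb x0⟩


theorem tendsto_clm_apply {ι F G : Type*} [NormedAddCommGroup F] [NormedSpace ℝ F]
    [NormedAddCommGroup G] [NormedSpace ℝ G] {l : Filter ι} {f : ι → F →L[ℝ] G} {g : ι → F}
    {f0 : F →L[ℝ] G} {g0 : F} (hf : Filter.Tendsto f l (nhds f0)) (hg : Filter.Tendsto g l (nhds g0)) :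
    Filter.Tendsto (fun i => f i (g i)) l (nhds (f0 g0)) :=
  ((isBoundedBilinearMap_apply (𝕜 := ℝ) (E := F) (F := G)).continuous.tendsto (f0, g0)).comp
    (hf.prodMk_nhds hg)

/-- The condition is open. -/
theorem cyc_open {n : ℕ} (φ : E n → ℝ) (x0 : E n) (hx0 : x0 ≠ 0) (hφ : ContDiffAt ℝ 2 φ x0)
    (hcyc : Cyc φ x0) : ∀ᶠ x in nhds x0, Cyc φ x := by
  by_contra hcon
  obtain ⟨x, hx, hxc⟩ : ∃ x : ℕ → E n, Filter.Tendsto x Filter.atTop (nhds x0) ∧
      ∀ k, ¬ Cyc φ (x k) :=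
    Filter.exists_seq_forall_of_frequently (Filter.not_eventually.1 hcon)
  have hc1 : ContinuousAt (fderiv ℝ φ) x0 := (hφ.fderiv_right (m := 1) le_rfl).continuousAt
  have hc2 : ContinuousAt (fderiv ℝ (fderiv ℝ φ)) x0 :=
    ((hφ.fderiv_right (m := 1) le_rfl).fderiv_right (m := 0) le_rfl).continuousAt
  -- unit vectors
  have hex : ∀ k, ∃ v : E n, ‖v‖ = 1 ∧ ⟪v, x k⟫ = 0 ∧ fderiv ℝ φ (x k) v = 0 ∧ ∃ μ : ℝ,
      ∀ w : E n, ⟪w, x k⟫ = 0 → fderiv ℝ (fderiv ℝ φ) (x k) v w = μ * ⟪v, w⟫ := by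
    intro k
    have h := hxc k
    unfold Cyc at h
    push Not at h
    obtain ⟨v, hv0, hvx, hgv, μ, hμ⟩ := h
    have hnv : ‖v‖ ≠ 0 := norm_ne_zero_iff.2 hv0
    refine ⟨‖v‖⁻¹ • v, ?_, ?_, ?_, μ, ?_⟩
    · rw [norm_smul, norm_inv, norm_norm, inv_mul_cancel₀ hnv]
    · rw [real_inner_smul_left, hvx, mul_zero]
    · rw [map_smul, hgv, smul_zero]
    · intro w hw
      rw [map_smul, smul_apply, hμ w hw, real_inner_smul_left, smul_eq_mul]
      ring
  choose v hv1 hvx hgv μ hμ using hex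
  obtain ⟨v0, hv0, θ, hθ, hlim⟩ :=
    (isCompact_sphere (0 : E n) 1).tendsto_subseq (fun k => by simpa using hv1 k :
      ∀ k, v k ∈ Metric.sphere (0 : E n) 1)
  have hv01 : ‖v0‖ = 1 := by simpa using hv0
  have hxθ : Filter.Tendsto (fun k => x (θ k)) Filter.atTop (nhds x0) :=
    hx.comp hθ.tendsto_atTop
  have hlim' : Filter.Tendsto (fun k => v (θ k)) Filter.atTop (nhds v0) := hlim
  have hD1 : Filter.Tendsto (fun k => fderiv ℝ φ (x (θ k))) Filter.atTop (nhds (fderiv ℝ φ x0)) :=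
    hc1.tendsto.comp hxθ
  have hD2 : Filter.Tendsto (fun k => fderiv ℝ (fderiv ℝ φ) (x (θ k))) Filter.atTop
      (nhds (fderiv ℝ (fderiv ℝ φ) x0)) :=
    hc2.tendsto.comp hxθ
  have hvx0 : ⟪v0, x0⟫ = 0 :=
    tendsto_nhds_unique (hlim'.inner hxθ) (by simp only [hvx]; exact tendsto_const_nhds)
  have hgv0 : fderiv ℝ φ x0 v0 = 0 :=
    tendsto_nhds_unique (tendsto_clm_apply hD1 hlim') (by simp only [hgv]; exact tendsto_const_nhds)
  obtain ⟨w, hw, hne⟩ := hcyc v0 (by rintro rfl; simp at hv01) hvx0 hgv0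
    (fderiv ℝ (fderiv ℝ φ) x0 v0 v0)
  apply hne
  -- the second coordinates, projected
  set W : ℕ → E n := fun k => w - (⟪w, x (θ k)⟫ / ⟪x (θ k), x (θ k)⟫) • x (θ k) with hW
  have hxx : ⟪x0, x0⟫ ≠ (0 : ℝ) := by
    rw [Ne, inner_self_eq_zero]; exact hx0
  have hWlim : Filter.Tendsto W Filter.atTop (nhds w) := by
    have h1 : Filter.Tendsto (fun k => ⟪w, x (θ k)⟫) Filter.atTop (nhds ⟪w, x0⟫) :=
      tendsto_const_nhds.inner hxθ
    have h2 : Filter.Tendsto (fun k => ⟪x (θ k), x (θ k)⟫) Filter.atTop (nhds ⟪x0, x0⟫) :=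
      hxθ.inner hxθ
    have h3 := (tendsto_const_nhds (x := w)).sub ((h1.div h2 hxx).smul hxθ)
    rw [hw, zero_div, zero_smul, sub_zero] at h3
    exact h3
  have hWx : ∀ᶠ k in Filter.atTop, ⟪W k, x (θ k)⟫ = 0 := by
    have h2 : Filter.Tendsto (fun k => ⟪x (θ k), x (θ k)⟫) Filter.atTop (nhds ⟪x0, x0⟫) :=
      hxθ.inner hxθ
    filter_upwards [h2.eventually_ne hxx] with k hk
    rw [hW]
    simp only
    rw [inner_sub_left, real_inner_smul_left, div_mul_cancel₀ _ hk, sub_self]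
  have hμlim : Filter.Tendsto (fun k => μ (θ k)) Filter.atTop
      (nhds (fderiv ℝ (fderiv ℝ φ) x0 v0 v0)) := by
    have h1 := tendsto_clm_apply (tendsto_clm_apply hD2 hlim') hlim'
    refine h1.congr fun k => ?_
    rw [hμ (θ k) (v (θ k)) (hvx (θ k)), real_inner_self_eq_norm_sq, hv1]
    ring
  have hL := tendsto_clm_apply (tendsto_clm_apply hD2 hlim') hWlim
  have hR := hμlim.mul (hlim'.inner hWlim)
  refine tendsto_nhds_unique hL (hR.congr' ?_)
  filter_upwards [hWx] with k hk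
  exact (hμ (θ k) (W k) hk).symm

end Pool.Agent.LF
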