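import Pool.Agent.LF.EX

/-!
[LEAF], row FM: the condition `Cyc` on the sphere for real-analytic phases. If the phase is real
analytic near the sphere and `Cyc` holds at one point of the sphere, it holds at almost all points,
and the set of these points is open and dense; it is open for every phase of class `C²`.
-/

set_option autoImplicit false

namespace Pool.Agent.LF

open MeasureTheory Set Pool.Agent.MP_6cbfb8_an Matrix
open scoped ENNReal Real RealInnerProductSpace ContDiff

variable {n : ℕ}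

namespace FM

/-- A function which is analytic away from the origin and does not vanish at one point different from
the origin vanishes only on a null set. -/
theorem null_of_analytic (hn : 2 ≤ n) {f : E n → ℝ} (hf : AnalyticOnNhd ℝ f {0}ᶜ) {y0 : E n}
    (hy0 : y0 ≠ 0) (hfy : f y0 ≠ 0) : volume {x : E n | x ≠ 0 ∧ f x = 0} = 0 := by
  set W : Set (E n) := {x : E n | x ≠ 0 ∧ f x = 0} with hW
  have hWm : MeasurableSet W := by
    have h1 : IsOpen ({0}ᶜ ∩ f ⁻¹' {0}ᶜ : Set (E n)) :=
      hf.continuousOn.isOpen_inter_preimage isOpen_compl_singleton isOpen_compl_singleton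
    have h2 : W = {0}ᶜ \ ({0}ᶜ ∩ f ⁻¹' {0}ᶜ : Set (E n)) := by
      ext x
      simp only [hW, mem_ofPred_eq, mem_sdiff, mem_compl_iff, mem_singleton_iff, mem_inter_iff,
        mem_preimage]
      tauto
    rw [h2]
    exact isOpen_compl_singleton.measurableSet.diff h1.measurableSet
  -- the bad directions
  have hbad : volume ((Submodule.span ℝ {y0} : Submodule ℝ (E n)) : Set (E n)) = 0 := by
    apply Measure.addHaar_submodule
    intro htop
    have h1 : Module.finrank ℝ (Submodule.span ℝ {y0} : Submodule ℝ (E n)) = 1 :=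
      finrank_span_singleton hy0
    rw [htop, finrank_top, finrank_euclideanSpace_fin] at h1
    omega
  set ν : Measure ℝ := (volume : Measure ℝ).restrict (Icc 1 2) with hν
  have hae : ∀ᵐ v : E n, ν {r | y0 + r • v ∈ W} = 0 := by
    have h0 : ∀ᵐ v : E n, v ∉ ((Submodule.span ℝ {y0} : Submodule ℝ (E n)) : Set (E n)) :=
      measure_eq_zero_iff_ae_notMem.1 hbad
    filter_upwards [h0] with v hv
    have hne : ∀ r : ℝ, y0 + r • v ≠ 0 := by
      intro r hr
      rcases eq_or_ne r 0 with rfl | hr0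
      · simp at hr
        exact hy0 hr
      · apply hv
        have : v = (-r⁻¹) • y0 := by
          have h3 : r • v = -y0 := by
            rw [eq_neg_iff_add_eq_zero, add_comm]
            exact hr
          rw [neg_smul, ← smul_neg, ← h3, smul_smul, inv_mul_cancel₀ hr0, one_smul]
        rw [this]
        exact Submodule.smul_mem _ _ (Submodule.mem_span_singleton_self y0)
    have han : AnalyticOnNhd ℝ (fun r : ℝ => f (y0 + r • v)) univ := by
      intro r _
      have h1 : AnalyticAt ℝ (fun r : ℝ => y0 + r • v) r :=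
        analyticAt_const.add (analyticAt_id.smul analyticAt_const)
      exact AnalyticAt.fun_comp (hf _ (hne r)) h1
    have h0' : (fun r : ℝ => f (y0 + r • v)) 0 ≠ 0 := by simpa using hfy
    have hcod := han.preimage_zero_mem_codiscreteWithin h0' (mem_univ _) isConnected_univ
    have hae := ae_restrict_le_codiscreteWithin (μ := (volume : Measure ℝ)) MeasurableSet.univ hcod
    rw [Measure.restrict_univ] at hae
    have : (volume : Measure ℝ) {r | y0 + r • v ∈ W} = 0 := by
      refine measure_mono_null ?_ (mem_ae_iff.1 hae)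
      intro r hr
      simp only [hW, mem_ofPred_eq] at hr
      simp only [mem_compl_iff, mem_preimage, mem_singleton_iff, not_not]
      exact hr.2
    exact le_antisymm ((Measure.restrict_apply_le _ _).trans this.le) bot_le
  have hmeas : Measurable fun q : E n × ℝ => y0 + q.2 • q.1 := by fun_prop
  have hprod : ((volume : Measure (E n)).prod ν) {q | y0 + q.2 • q.1 ∈ W} = 0 := by
    have h5 : {q : E n × ℝ | y0 + q.2 • q.1 ∈ W} = (fun q : E n × ℝ => y0 + q.2 • q.1) ⁻¹' W := rfl
    rw [h5, Measure.measure_prod_null (hmeas hWm)]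
    exact hae
  have hsw : ∀ᵐ r ∂ν, (volume : Measure (E n)) {v | y0 + r • v ∈ W} = 0 := by
    have hprod' : (ν.prod (volume : Measure (E n))) {q | y0 + q.1 • q.2 ∈ W} = 0 := by
      rw [← Measure.prod_swap, Measure.map_apply measurable_swap (by
        exact (by fun_prop : Measurable fun q : ℝ × E n => y0 + q.1 • q.2) hWm)]
      exact hprod
    exact Measure.measure_ae_null_of_prod_null hprod'
  have hνne : ν ≠ 0 := by
    rw [hν]
    intro h
    have := congrArg (fun m : Measure ℝ => m univ) h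
    simp at this
  have : (ae ν).NeBot := ae_neBot.2 hνne
  obtain ⟨r, hr, hr1⟩ := (hsw.and (ae_restrict_mem measurableSet_Icc)).exists
  have hr0 : r ≠ 0 := by
    have := hr1.1
    positivity
  have h1 : {v | y0 + r • v ∈ W} = (fun v => r • v) ⁻¹' ((fun v => y0 + v) ⁻¹' W) := rfl
  rw [h1, Measure.addHaar_preimage_smul _ hr0, measure_preimage_add] at hr
  rcases mul_eq_zero.1 hr with h2 | h2
  · exfalso
    rw [ENNReal.ofReal_eq_zero] at h2
    have : 0 < |(r ^ Module.finrank ℝ (E n))⁻¹| := by positivity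
    linarith
  · exact h2

/-- The zero set on the sphere of a function which is analytic near the sphere and does not vanish
identically on it. -/
theorem sphere_ae_ne (hn : 2 ≤ n) {D : E n → ℝ} (hD : AnalyticOnNhd ℝ D (Metric.sphere 0 1))
    {x0 : E n} (hx0 : x0 ∈ Metric.sphere (0 : E n) 1) (h0 : D x0 ≠ 0) :
    ∀ᵐ x : S n ∂(sm n), D x ≠ 0 := by
  set f : E n → ℝ := fun x => D (‖x‖⁻¹ • x) with hf
  have hfa : AnalyticOnNhd ℝ f {0}ᶜ := by
    intro x hx
    have hx' : x ≠ 0 := hx
    have h1 : AnalyticAt ℝ (fun x : E n => ‖x‖) x :=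
      (contDiffAt_norm ℝ hx').analyticAt
    have h2 : AnalyticAt ℝ (fun x : E n => ‖x‖⁻¹ • x) x :=
      (h1.inv (norm_ne_zero_iff.2 hx')).smul analyticAt_id
    refine AnalyticAt.fun_comp (hD _ ?_) h2
    rw [mem_sphere_zero_iff_norm, norm_smul, norm_inv, norm_norm,
      inv_mul_cancel₀ (norm_ne_zero_iff.2 hx')]
  have hx0' : x0 ≠ 0 := by
    rintro rfl
    simp at hx0
  have hfx0 : f x0 ≠ 0 := by
    rw [hf]
    simp only
    rw [mem_sphere_zero_iff_norm.1 hx0]
    simpa using h0
  have hnull := null_of_analytic hn hfa hx0' hfx0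
  have hDc : Continuous fun x : S n => D x := by
    have : ContinuousOn D (Metric.sphere 0 1) := hD.continuousOn
    exact this.comp_continuous continuous_subtype_val fun x => x.2
  have hms : MeasurableSet {x : S n | D x = 0} := (isClosed_eq hDc continuous_const).measurableSet
  rw [ae_iff]
  simp only [ne_eq, not_not]
  rw [Measure.toSphere_apply' _ hms]
  refine mul_eq_zero_of_right _ (measure_mono_null ?_ hnull)
  rintro x ⟨r, hr, y, ⟨z, hz, rfl⟩, rfl⟩
  have hr0 : 0 < r := hr.1
  have hz1 : ‖(z : E n)‖ = 1 := mem_sphere_zero_iff_norm.1 z.2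
  have hne : r • (z : E n) ≠ 0 := by
    rw [← norm_ne_zero_iff, norm_smul, hz1, mul_one, Real.norm_eq_abs]
    positivity
  refine ⟨hne, ?_⟩
  have h2 : ‖r • (z : E n)‖⁻¹ • (r • (z : E n)) = z := by
    rw [norm_smul, hz1, mul_one, Real.norm_eq_abs, abs_of_pos hr0, smul_smul,
      inv_mul_cancel₀ hr0.ne', one_smul]
  simp only [hf, h2]
  exact hz

/-- The standard basis vector. -/
noncomputable def bas (i : Fin n) : E n := EuclideanSpace.single i (1 : ℝ)

/-- The matrix of the second derivative. -/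
noncomputable def hesM (φ : E n → ℝ) (x : E n) : Matrix (Fin n) (Fin n) ℝ :=
  fun i j => fderiv ℝ (fderiv ℝ φ) x (bas i) (bas j)

/-- `1 - x xᵀ`. -/
noncomputable def prM (x : E n) : Matrix (Fin n) (Fin n) ℝ :=
  fun i j => (1 : Matrix (Fin n) (Fin n) ℝ) i j - x i * x j

/-- The compressed second derivative. -/
noncomputable def comM (φ : E n → ℝ) (x : E n) : Matrix (Fin n) (Fin n) ℝ :=
  prM x * hesM φ x * prM x

/-- The projected gradient. -/
noncomputable def grV (φ : E n → ℝ) (x : E n) : Fin n → ℝ :=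
  (prM x) *ᵥ fun i => fderiv ℝ φ x (bas i)

/-- The powers of the compressed second derivative, applied to the projected gradient. -/
noncomputable def krV (φ : E n → ℝ) (x : E n) (k : ℕ) : Fin n → ℝ :=
  (comM φ x ^ k) *ᵥ grV φ x

/-- The Gram matrix of the rows. -/
noncomputable def gramM (φ : E n → ℝ) (x : E n) : Matrix (Fin n) (Fin n) ℝ :=
  fun i j => x i * x j + ∑ k ∈ Finset.range n, krV φ x k i * krV φ x k j

/-- The function which detects `Cyc`. -/
noncomputable def cycD (φ : E n → ℝ) (x : E n) : ℝ := (gramM φ x).det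

theorem vec_eq_sum (v : E n) : v = ∑ i, v i • bas i := by
  ext j
  simp only [bas]
  rw [WithLp.ofLp_sum, Finset.sum_apply]
  simp

theorem clm_apply_sum (L : E n →L[ℝ] ℝ) (v : E n) : L v = ∑ i, v i * L (bas i) := by
  conv_lhs => rw [vec_eq_sum v]
  simp [map_sum]

theorem hes_apply (φ : E n → ℝ) (x v w : E n) :
    fderiv ℝ (fderiv ℝ φ) x v w = (fun i => v i) ⬝ᵥ ((hesM φ x) *ᵥ fun i => w i) := by
  rw [clm_apply_sum (fderiv ℝ (fderiv ℝ φ) x v) w]
  have h1 : ∀ j, fderiv ℝ (fderiv ℝ φ) x v (bas j) =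
      ∑ i, v i * fderiv ℝ (fderiv ℝ φ) x (bas i) (bas j) := by
    intro j
    have := clm_apply_sum ((ContinuousLinearMap.apply ℝ ℝ (bas j)).comp (fderiv ℝ (fderiv ℝ φ) x)) v
    simpa using this
  simp only [h1, dotProduct, mulVec, hesM]
  simp only [Finset.mul_sum]
  rw [Finset.sum_comm]
  refine Finset.sum_congr rfl fun i _ => Finset.sum_congr rfl fun j _ => ?_
  ring

theorem inner_eq_dot (v w : E n) : ⟪v, w⟫ = (fun i => v i) ⬝ᵥ (fun i => w i) := by
  simp only [dotProduct, PiLp.inner_apply]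
  refine Finset.sum_congr rfl fun i _ => ?_
  simp [mul_comm]

theorem prM_mulVec (x : E n) (v : Fin n → ℝ) :
    (prM x) *ᵥ v = fun i => v i - x i * ((fun i => x i) ⬝ᵥ v) := by
  funext i
  simp only [mulVec, prM, dotProduct, sub_mul, Finset.sum_sub_distrib, Finset.mul_sum]
  congr 1
  · simp [Matrix.one_apply]
  · refine Finset.sum_congr rfl fun j _ => ?_
    ring

theorem prM_transpose (x : E n) : (prM x)ᵀ = prM x := by
  ext i j
  simp only [transpose_apply, prM, Matrix.one_apply]
  rw [mul_comm]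
  by_cases h : i = j
  · simp [h]
  · simp [h, Ne.symm h]

theorem prM_mul_self {x : E n} (hx : ‖x‖ = 1) : prM x * prM x = prM x := by
  have h1 : (fun i => x i) ⬝ᵥ (fun i => x i) = (1 : ℝ) := by
    rw [← inner_eq_dot, real_inner_self_eq_norm_sq, hx, one_pow]
  refine Matrix.ext_of_mulVec_single fun j => ?_
  rw [← mulVec_mulVec, prM_mulVec, prM_mulVec]
  funext i
  have h2 : (fun i => x i) ⬝ᵥ (fun i => (Pi.single j (1 : ℝ) : Fin n → ℝ) i -
      x i * ((fun i => x i) ⬝ᵥ (Pi.single j (1 : ℝ) : Fin n → ℝ))) = 0 := by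
    have : (fun i => (Pi.single j (1 : ℝ) : Fin n → ℝ) i -
      x i * ((fun i => x i) ⬝ᵥ (Pi.single j (1 : ℝ) : Fin n → ℝ))) =
      (Pi.single j (1 : ℝ) : Fin n → ℝ) -
        ((fun i => x i) ⬝ᵥ (Pi.single j (1 : ℝ) : Fin n → ℝ)) • (fun i => x i) := by
      funext i
      simp [mul_comm]
    rw [this, dotProduct_sub, dotProduct_smul, h1]
    simp
  rw [h2]
  ring

theorem comM_transpose {φ : E n → ℝ} {x : E n} (hs : (hesM φ x)ᵀ = hesM φ x) :
    (comM φ x)ᵀ = comM φ x := by
  simp only [comM, transpose_mul, prM_transpose, hs, Matrix.mul_assoc]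

/-- `Cyc` at a point of the sphere. -/
theorem cyc_iff {φ : E n → ℝ} {x : E n} (hx : ‖x‖ = 1) (hs : (hesM φ x)ᵀ = hesM φ x) :
    Cyc φ x ↔ cycD φ x ≠ 0 := by
  have hxx : (fun i => x i) ⬝ᵥ (fun i => x i) = (1 : ℝ) := by
    rw [← inner_eq_dot, real_inner_self_eq_norm_sq, hx, one_pow]
  have hPx : (prM x) *ᵥ (fun i => x i) = 0 := by
    rw [prM_mulVec, hxx]
    funext i
    simp
  have hHx : (comM φ x) *ᵥ (fun i => x i) = 0 := by
    rw [comM, ← mulVec_mulVec, hPx, mulVec_zero]
  have hsym : ∀ u v : Fin n → ℝ, (comM φ x *ᵥ u) ⬝ᵥ v = u ⬝ᵥ (comM φ x *ᵥ v) := by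
    intro u v
    rw [dotProduct_mulVec, ← mulVec_transpose, comM_transpose hs]
  have hPsym : ∀ u v : Fin n → ℝ, (prM x *ᵥ u) ⬝ᵥ v = u ⬝ᵥ (prM x *ᵥ v) := by
    intro u v
    rw [dotProduct_mulVec, ← mulVec_transpose, prM_transpose]
  have hpow : ∀ (k : ℕ) (u v : Fin n → ℝ),
      u ⬝ᵥ ((comM φ x ^ (k + 1)) *ᵥ v) = (comM φ x *ᵥ u) ⬝ᵥ ((comM φ x ^ k) *ᵥ v) := by
    intro k u v
    rw [pow_succ', ← mulVec_mulVec, hsym]
  have hPv : ∀ v : Fin n → ℝ, (fun i => x i) ⬝ᵥ v = 0 → (prM x) *ᵥ v = v := by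
    intro v hv
    rw [prM_mulVec, hv]
    funext i
    simp
  have hgr : ∀ v : E n, ⟪v, x⟫ = 0 → (fun i => v i) ⬝ᵥ grV φ x = fderiv ℝ φ x v := by
    intro v hv
    rw [grV, ← hPsym, hPv _ (by rw [← inner_eq_dot, real_inner_comm, hv]), clm_apply_sum]
    rfl
  -- the Gram matrix
  have hmul : ∀ v : Fin n → ℝ, gramM φ x *ᵥ v = (v ⬝ᵥ (fun i => x i)) • (fun i => x i) +
      ∑ k ∈ Finset.range n, (v ⬝ᵥ krV φ x k) • krV φ x k := by
    intro v
    funext i
    simp only [mulVec, gramM, dotProduct, Pi.add_apply, Pi.smul_apply, smul_eq_mul,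
      Finset.sum_apply, add_mul, Finset.sum_add_distrib, Finset.sum_mul]
    congr 1
    · refine Finset.sum_congr rfl fun j _ => ?_
      ring
    · rw [Finset.sum_comm]
      refine Finset.sum_congr rfl fun k _ => Finset.sum_congr rfl fun j _ => ?_
      ring
  have hquad : ∀ v : Fin n → ℝ, v ⬝ᵥ (gramM φ x *ᵥ v) =
      (v ⬝ᵥ (fun i => x i)) ^ 2 + ∑ k ∈ Finset.range n, (v ⬝ᵥ krV φ x k) ^ 2 := by
    intro v
    rw [hmul, dotProduct_add, dotProduct_smul, smul_eq_mul, ← sq, dotProduct_sum]
    congr 1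
    refine Finset.sum_congr rfl fun k _ => ?_
    rw [dotProduct_smul, smul_eq_mul, ← sq]
  have hn : 0 < n := by
    rcases Nat.eq_zero_or_pos n with rfl | h
    · exfalso
      rw [Subsingleton.elim x 0, norm_zero] at hx
      exact zero_ne_one hx
    · exact h
  constructor
  · intro hcyc hdet
    obtain ⟨v0, hv0, hMv⟩ := Matrix.exists_mulVec_eq_zero_iff.2 hdet
    have hz := hquad v0
    rw [hMv, dotProduct_zero] at hz
    have hsum : 0 ≤ ∑ k ∈ Finset.range n, (v0 ⬝ᵥ krV φ x k) ^ 2 :=
      Finset.sum_nonneg fun k _ => sq_nonneg _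
    have hvx : v0 ⬝ᵥ (fun i => x i) = 0 := by
      have : (v0 ⬝ᵥ (fun i => x i)) ^ 2 = 0 := by nlinarith [sq_nonneg (v0 ⬝ᵥ (fun i => x i))]
      exact pow_eq_zero_iff (two_ne_zero) |>.1 this
    have hvk : ∀ k < n, v0 ⬝ᵥ krV φ x k = 0 := by
      intro k hk
      have h1 : ∑ k ∈ Finset.range n, (v0 ⬝ᵥ krV φ x k) ^ 2 = 0 := by
        nlinarith [sq_nonneg (v0 ⬝ᵥ (fun i => x i))]
      have h2 := (Finset.sum_eq_zero_iff_of_nonneg fun k _ => sq_nonneg _).1 h1 k
        (Finset.mem_range.2 hk)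
      exact pow_eq_zero_iff (two_ne_zero) |>.1 h2
    -- all powers, by Cayley-Hamilton
    have hvall : ∀ k, v0 ⬝ᵥ krV φ x k = 0 := by
      intro k
      have hdeg : (Polynomial.X ^ k %ₘ (comM φ x).charpoly).natDegree < n := by
        have h1 : (Polynomial.X ^ k %ₘ (comM φ x).charpoly).degree < (comM φ x).charpoly.degree :=
          Polynomial.degree_modByMonic_lt _ (Matrix.charpoly_monic _)
        have h2 : (comM φ x).charpoly.degree = (n : ℕ) := by
          rw [Matrix.charpoly_degree_eq_dim, Fintype.card_fin]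
        rw [h2] at h1
        rcases eq_or_ne (Polynomial.X ^ k %ₘ (comM φ x).charpoly) 0 with h0 | h0
        · rw [h0, Polynomial.natDegree_zero]
          exact hn
        · exact (Polynomial.natDegree_lt_iff_degree_lt h0).2 h1
      rw [krV, Matrix.pow_eq_aeval_mod_charpoly, Polynomial.aeval_eq_sum_range' hdeg, sum_mulVec,
        dotProduct_sum]
      refine Finset.sum_eq_zero fun i hi => ?_
      rw [smul_mulVec, dotProduct_smul]
      have := hvk i (Finset.mem_range.1 hi)
      rw [krV] at this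
      rw [this, smul_zero]
    -- the invariant subspace
    set V : Submodule ℝ (E n) :=
      { carrier := {v | (fun i => v i) ⬝ᵥ (fun i => x i) = 0 ∧
          ∀ k, (fun i => v i) ⬝ᵥ krV φ x k = 0}
        add_mem' := by
          rintro a b ⟨ha, ha'⟩ ⟨hb, hb'⟩
          have e : (fun i => (a + b) i) = (fun i => a i) + fun i => b i := rfl
          refine ⟨?_, fun k => ?_⟩
          · rw [e, add_dotProduct, ha, hb, add_zero]
          · rw [e, add_dotProduct, ha', hb', add_zero]
        zero_mem' := by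
          have e : (fun i => (0 : E n) i) = (0 : Fin n → ℝ) := rfl
          refine ⟨?_, fun k => ?_⟩
          · rw [e, zero_dotProduct]
          · rw [e, zero_dotProduct]
        smul_mem' := by
          rintro c a ⟨ha, ha'⟩
          have e : (fun i => (c • a) i) = c • fun i => a i := rfl
          refine ⟨?_, fun k => ?_⟩
          · rw [e, smul_dotProduct, ha, smul_zero]
          · rw [e, smul_dotProduct, ha', smul_zero] } with hV
    set T : E n →ₗ[ℝ] E n := Matrix.toEuclideanLin (comM φ x) with hT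
    have hTa : ∀ v : E n, (fun i => T v i) = comM φ x *ᵥ fun i => v i := by
      intro v
      rfl
    have hTs : T.IsSymmetric := by
      intro u v
      rw [inner_eq_dot, inner_eq_dot, hTa, hTa, hsym]
    have hTV : ∀ v ∈ V, T v ∈ V := by
      rintro v ⟨h1, h2⟩
      refine ⟨?_, fun k => ?_⟩
      · rw [hTa, hsym, hHx, dotProduct_zero]
      · rw [hTa, krV, ← hpow]
        exact h2 (k + 1)
    have hv0V : (WithLp.toLp 2 v0 : E n) ∈ V := ⟨hvx, hvall⟩
    have hv0n : (WithLp.toLp 2 v0 : E n) ≠ 0 := by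
      intro h
      apply hv0
      funext i
      have := congrArg (fun w : E n => w i) h
      simpa using this
    have : Nontrivial V := ⟨⟨⟨_, hv0V⟩, 0, fun h => hv0n (congrArg Subtype.val h)⟩⟩
    have hTr := (hTs.restrict_invariant hTV).hasEigenvalue_iSup_of_finiteDimensional
    obtain ⟨w, hw⟩ := hTr.exists_hasEigenvector
    have hw1 := hw.apply_eq_smul
    generalize (⨆ y : { y : V // y ≠ 0 }, RCLike.re ⟪(T.restrict hTV) y, (y : V)⟫ /
      ‖(y : V)‖ ^ 2 : ℝ) = μ at hw1
    have hw0 : (w : E n) ≠ 0 := fun h => hw.2 (Subtype.ext h)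
    obtain ⟨hwx, hwk⟩ := w.2
    have hwx' : ⟪(w : E n), x⟫ = 0 := by rw [inner_eq_dot, hwx]
    have hTw : T (w : E n) = μ • (w : E n) := by
      have := congrArg Subtype.val hw1
      simpa using this
    have hcw : comM φ x *ᵥ (fun i => (w : E n) i) = μ • fun i => (w : E n) i := by
      rw [← hTa, hTw]
      rfl
    have hgw : fderiv ℝ φ x w = 0 := by
      rw [← hgr _ hwx']
      have := hwk 0
      rwa [krV, pow_zero, one_mulVec] at this
    obtain ⟨u, hux, hu⟩ := hcyc w hw0 hwx' hgw μ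
    apply hu
    have hPw : prM x *ᵥ (fun i => (w : E n) i) = fun i => (w : E n) i :=
      hPv _ (by rw [dotProduct_comm, hwx])
    have hPu : prM x *ᵥ (fun i => u i) = fun i => u i :=
      hPv _ (by rw [← inner_eq_dot, real_inner_comm, hux])
    rw [hes_apply, inner_eq_dot, ← smul_eq_mul, ← smul_dotProduct, ← hcw, hsym, comM,
      ← mulVec_mulVec, ← mulVec_mulVec, hPu, ← hPsym, hPw]
  · intro hD v hv hvx hgv μ
    by_contra hcon
    push Not at hcon
    apply hD
    refine Matrix.exists_mulVec_eq_zero_iff.1 ⟨fun i => v i, ?_, ?_⟩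
    · intro h
      apply hv
      ext i
      exact congrFun h i
    · have hvx' : (fun i => v i) ⬝ᵥ (fun i => x i) = 0 := by rw [← inner_eq_dot, hvx]
      have hPv' : prM x *ᵥ (fun i => v i) = fun i => v i := hPv _ (by rw [dotProduct_comm, hvx'])
      have hcv : comM φ x *ᵥ (fun i => v i) = μ • fun i => v i := by
        rw [← dotProduct_eq_iff]
        intro u
        set u' : E n := WithLp.toLp 2 (prM x *ᵥ u) with hu'
        have hux : ⟪u', x⟫ = 0 := by
          rw [inner_eq_dot]
          have : (fun i => u' i) = prM x *ᵥ u := rfl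
          rw [this, hPsym, hPx, dotProduct_zero]
        have h1 := hcon u' hux
        rw [hes_apply, inner_eq_dot] at h1
        have e : (fun i => u' i) = prM x *ᵥ u := rfl
        rw [e] at h1
        rw [hsym, comM, ← mulVec_mulVec, ← mulVec_mulVec, ← hPsym, hPv', h1, ← hPsym, hPv',
          smul_dotProduct, smul_eq_mul]
      have hk : ∀ k, (fun i => v i) ⬝ᵥ krV φ x k = 0 := by
        intro k
        induction k with
        | zero =>
          rw [krV, pow_zero, one_mulVec, hgr v hvx, hgv]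
        | succ k ih =>
          rw [krV, hpow, hcv, smul_dotProduct]
          rw [krV] at ih
          rw [ih, smul_zero]
      rw [hmul, hvx', zero_smul, zero_add]
      refine Finset.sum_eq_zero fun k _ => ?_
      rw [hk k, zero_smul]

theorem hesM_symm {φ : E n → ℝ} {x : E n} (h : ContDiffAt ℝ 2 φ x) :
    (hesM φ x)ᵀ = hesM φ x := by
  have h1 : IsSymmSndFDerivAt ℝ φ x := h.isSymmSndFDerivAt (by simp)
  ext i j
  exact h1.eq (bas j) (bas i)

section Entries

variable {x0 : E n}

theorem an_mul {A B : E n → Matrix (Fin n) (Fin n) ℝ}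
    (hA : ∀ i j, AnalyticAt ℝ (fun x => A x i j) x0)
    (hB : ∀ i j, AnalyticAt ℝ (fun x => B x i j) x0) (i j : Fin n) :
    AnalyticAt ℝ (fun x => (A x * B x) i j) x0 := by
  simp only [Matrix.mul_apply]
  exact Finset.analyticAt_fun_sum _ fun k _ => (hA i k).mul (hB k j)

theorem an_mulVec {A : E n → Matrix (Fin n) (Fin n) ℝ} {v : E n → Fin n → ℝ}
    (hA : ∀ i j, AnalyticAt ℝ (fun x => A x i j) x0)
    (hv : ∀ j, AnalyticAt ℝ (fun x => v x j) x0) (i : Fin n) :
    AnalyticAt ℝ (fun x => (A x *ᵥ v x) i) x0 := by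
  simp only [Matrix.mulVec, dotProduct]
  exact Finset.analyticAt_fun_sum _ fun k _ => (hA i k).mul (hv k)

theorem an_pow {A : E n → Matrix (Fin n) (Fin n) ℝ}
    (hA : ∀ i j, AnalyticAt ℝ (fun x => A x i j) x0) (k : ℕ) :
    ∀ i j, AnalyticAt ℝ (fun x => (A x ^ k) i j) x0 := by
  induction k with
  | zero =>
    intro i j
    simp only [pow_zero]
    exact analyticAt_const
  | succ k ih =>
    intro i j
    simp only [pow_succ]
    exact an_mul ih hA i j

theorem an_det {A : E n → Matrix (Fin n) (Fin n) ℝ}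
    (hA : ∀ i j, AnalyticAt ℝ (fun x => A x i j) x0) :
    AnalyticAt ℝ (fun x => (A x).det) x0 := by
  simp only [Matrix.det_apply]
  refine Finset.analyticAt_fun_sum _ fun σ _ => ?_
  have : AnalyticAt ℝ (fun x => ∏ i, A x (σ i) i) x0 :=
    Finset.analyticAt_fun_prod _ fun i _ => hA (σ i) i
  have h2 : (fun x => Equiv.Perm.sign σ • ∏ i, A x (σ i) i) =
      fun x => ((Equiv.Perm.sign σ : ℤ) : ℝ) * ∏ i, A x (σ i) i := by
    funext x
    rw [Units.smul_def, zsmul_eq_mul]
  rw [h2]
  exact analyticAt_const.mul this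

theorem an_coord (i : Fin n) : AnalyticAt ℝ (fun x : E n => x i) x0 :=
  (EuclideanSpace.proj i : E n →L[ℝ] ℝ).analyticAt x0

theorem an_prM (i j : Fin n) : AnalyticAt ℝ (fun x : E n => prM x i j) x0 := by
  simp only [prM]
  exact analyticAt_const.sub ((an_coord i).mul (an_coord j))

theorem an_hesM {φ : E n → ℝ} (h : AnalyticAt ℝ φ x0) (i j : Fin n) :
    AnalyticAt ℝ (fun x : E n => hesM φ x i j) x0 := by
  have h1 : AnalyticAt ℝ (fderiv ℝ (fderiv ℝ φ)) x0 := h.fderiv.fderiv
  have h2 : AnalyticAt ℝ (fun x => fderiv ℝ (fderiv ℝ φ) x (bas i)) x0 :=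
    AnalyticAt.fun_comp ((ContinuousLinearMap.apply ℝ (E n →L[ℝ] ℝ) (bas i)).analyticAt
      (fderiv ℝ (fderiv ℝ φ) x0)) h1
  exact ((ContinuousLinearMap.apply ℝ ℝ (bas j)).analyticAt _).comp h2

theorem an_comM {φ : E n → ℝ} (h : AnalyticAt ℝ φ x0) (i j : Fin n) :
    AnalyticAt ℝ (fun x : E n => comM φ x i j) x0 :=
  an_mul (an_mul an_prM (an_hesM h)) an_prM i j

theorem an_grV {φ : E n → ℝ} (h : AnalyticAt ℝ φ x0) (i : Fin n) :
    AnalyticAt ℝ (fun x : E n => grV φ x i) x0 :=
  an_mulVec an_prM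
    (fun j => ((ContinuousLinearMap.apply ℝ ℝ (bas j)).analyticAt _).comp h.fderiv) i

theorem an_krV {φ : E n → ℝ} (h : AnalyticAt ℝ φ x0) (k : ℕ) (i : Fin n) :
    AnalyticAt ℝ (fun x : E n => krV φ x k i) x0 :=
  an_mulVec (an_pow (an_comM h) k) (an_grV h) i

theorem an_gramM {φ : E n → ℝ} (h : AnalyticAt ℝ φ x0) (i j : Fin n) :
    AnalyticAt ℝ (fun x : E n => gramM φ x i j) x0 := by
  simp only [gramM]
  exact ((an_coord i).mul (an_coord j)).add
    (Finset.analyticAt_fun_sum _ fun k _ => (an_krV h k i).mul (an_krV h k j))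

theorem an_cycD {φ : E n → ℝ} (h : AnalyticAt ℝ φ x0) : AnalyticAt ℝ (cycD φ) x0 :=
  an_det (an_gramM h)

end Entries

end FM

open FM

/-- **Row FM**: if the phase is real analytic near the sphere and `Cyc` holds at one point of the
sphere, it holds at almost all points. -/
theorem cyc_ae (hn : 2 ≤ n) {φ : E n → ℝ} (hφ : AnalyticOnNhd ℝ φ (Metric.sphere 0 1))
    {x0 : E n} (hx0 : x0 ∈ Metric.sphere (0 : E n) 1) (h : Cyc φ x0) :
    ∀ᵐ x : S n ∂(sm n), Cyc φ x := by
  have hiff : ∀ x ∈ Metric.sphere (0 : E n) 1, Cyc φ x ↔ cycD φ x ≠ 0 := fun x hx =>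
    cyc_iff (mem_sphere_zero_iff_norm.1 hx) (hesM_symm ((hφ x hx).contDiffAt))
  have h1 : AnalyticOnNhd ℝ (cycD φ) (Metric.sphere 0 1) := fun x hx => an_cycD (hφ x hx)
  filter_upwards [sphere_ae_ne hn h1 hx0 ((hiff x0 hx0).1 h)] with x hx
  exact (hiff x x.2).2 hx

/-- The set of the points of the sphere with `Cyc` is open, for every phase of class `C²`. -/
theorem cyc_isOpen_sphere {φ : E n → ℝ} (hφ : ∀ x ∈ Metric.sphere (0 : E n) 1, ContDiffAt ℝ 2 φ x) :
    IsOpen {x : S n | Cyc φ x} := by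
  have hc : ContinuousOn (cycD φ) (Metric.sphere 0 1) := by
    intro x hx
    apply ContinuousAt.continuousWithinAt
    have h1 : ContDiffAt ℝ 1 (fderiv ℝ φ) x := (hφ x hx).fderiv_right (by norm_num)
    have h2 : ContinuousAt (fderiv ℝ (fderiv ℝ φ)) x :=
      (h1.fderiv_right (m := 0) (by norm_num)).continuousAt
    have h3 : ContinuousAt (fun x => hesM φ x) x := by
      refine continuousAt_pi.2 fun i => continuousAt_pi.2 fun j => ?_
      exact (h2.clm_apply continuousAt_const).clm_apply continuousAt_const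
    have h4 : ContinuousAt (fun x : E n => prM x) x := by
      refine continuousAt_pi.2 fun i => continuousAt_pi.2 fun j => ?_
      exact (an_prM i j).continuousAt
    have h5 : ContinuousAt (fun x => comM φ x) x := (h4.mul h3).mul h4
    have hmv : ∀ (A : E n → Matrix (Fin n) (Fin n) ℝ) (v : E n → Fin n → ℝ), ContinuousAt A x →
        ContinuousAt v x → ContinuousAt (fun y => A y *ᵥ v y) x := by
      intro A v hA hv
      have hm : Continuous fun q : Matrix (Fin n) (Fin n) ℝ × (Fin n → ℝ) => q.1 *ᵥ q.2 :=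
        continuous_fst.matrix_mulVec continuous_snd
      exact hm.continuousAt.comp (hA.prodMk hv)
    have h6 : ContinuousAt (fun x => grV φ x) x := by
      refine hmv _ _ h4 ?_
      exact continuousAt_pi.2 fun i => h1.continuousAt.clm_apply continuousAt_const
    have h7 : ∀ k, ContinuousAt (fun x => krV φ x k) x := fun k => hmv _ _ (h5.pow k) h6
    have h8 : ContinuousAt (fun x => gramM φ x) x := by
      refine continuousAt_pi.2 fun i => continuousAt_pi.2 fun j => ?_
      refine ((an_coord i).continuousAt.mul (an_coord j).continuousAt).add ?_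
      refine tendsto_finsetSum _ fun k _ => ?_
      exact (continuousAt_pi.1 (h7 k) i).mul (continuousAt_pi.1 (h7 k) j)
    exact (continuous_id.matrix_det).continuousAt.comp h8
  have hset : {x : S n | Cyc φ x} = {x : S n | cycD φ x ≠ 0} := by
    ext x
    exact cyc_iff (mem_sphere_zero_iff_norm.1 x.2) (hesM_symm (hφ x x.2))
  rw [hset]
  exact isOpen_ne_fun (hc.comp_continuous continuous_subtype_val fun x => x.2) continuous_const

/-- The set of the points of the sphere with `Cyc` is dense, for a real-analytic phase with `Cyc` at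
one point. -/
theorem cyc_dense (hn : 2 ≤ n) {φ : E n → ℝ} (hφ : AnalyticOnNhd ℝ φ (Metric.sphere 0 1))
    {x0 : E n} (hx0 : x0 ∈ Metric.sphere (0 : E n) 1) (h : Cyc φ x0) :
    Dense {x : S n | Cyc φ x} :=
  Measure.dense_of_ae (cyc_ae hn hφ hx0 h)

end Pool.Agent.LF
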