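import Pool.Agent.LF.Df0

/-!
[LEAF] row G01: compactness, the lines of stationary points, the rectangle form and the determinant
form.
-/

namespace Pool.Agent.LF.G1

open Set Filter Topology Function Module Pool.Agent.MP_6cbfb8_an
open scoped RealInnerProductSpace ContDiff

variable {m n : ℕ}

/-! ### Linear algebra of the gradient -/

/-- The pairing of `R × R^m`. -/
noncomputable def dt (g u : ℝ × E m) : ℝ := g.1 * u.1 + ⟪g.2, u.2⟫

theorem dt_le (g u : ℝ × E m) : |dt g u| ≤ 2 * ‖g‖ * ‖u‖ := by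
  have h1 : |g.1 * u.1| ≤ ‖g‖ * ‖u‖ := by
    rw [abs_mul]
    exact mul_le_mul (norm_fst_le g) (norm_fst_le u) (abs_nonneg _) (norm_nonneg _)
  have h2 : |⟪g.2, u.2⟫| ≤ ‖g‖ * ‖u‖ := (abs_real_inner_le_norm _ _).trans
    (mul_le_mul (norm_snd_le g) (norm_snd_le u) (norm_nonneg _) (norm_nonneg _))
  calc |dt g u| ≤ |g.1 * u.1| + |⟪g.2, u.2⟫| := abs_add_le _ _
    _ ≤ 2 * ‖g‖ * ‖u‖ := by linarith

theorem le_dt_self (g : ℝ × E m) : ‖g‖ ^ 2 ≤ dt g g := by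
  unfold dt
  rw [real_inner_self_eq_norm_sq]
  rcases max_cases ‖g.1‖ ‖g.2‖ with ⟨h, _⟩ | ⟨h, _⟩
  · rw [Prod.norm_def, h, Real.norm_eq_abs, sq_abs]
    nlinarith [sq_nonneg ‖g.2‖]
  · rw [Prod.norm_def, h]
    nlinarith [mul_self_nonneg g.1]

/-- The gradient of `w · T` for a linear map `T`, linear in `T`. -/
noncomputable def gl (w : E n) : ((ℝ × E m) →L[ℝ] E n) →L[ℝ] ℝ × E m :=
  LinearMap.toContinuousLinearMap
    { toFun := fun T => (⟪w, T (1, 0)⟫,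
        ContinuousLinearMap.adjoint (T.comp (ContinuousLinearMap.inr ℝ ℝ (E m))) w)
      map_add' := fun T S => by
        simp only [add_apply, inner_add_right, ContinuousLinearMap.add_comp,
          map_add, Prod.mk_add_mk]
      map_smul' := fun a T => by
        simp only [smul_apply, inner_smul_right, ContinuousLinearMap.smul_comp,
          map_smulₛₗ, RingHom.id_apply, Prod.smul_mk, smul_eq_mul]
        simp }

theorem gl_apply (w : E n) (T : (ℝ × E m) →L[ℝ] E n) : gl w T = (⟪w, T (1, 0)⟫,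
    ContinuousLinearMap.adjoint (T.comp (ContinuousLinearMap.inr ℝ ℝ (E m))) w) := rfl

theorem dt_gl (w : E n) (T : (ℝ × E m) →L[ℝ] E n) (u : ℝ × E m) : dt (gl w T) u = ⟪w, T u⟫ := by
  rw [gl_apply, dt]
  simp only
  rw [ContinuousLinearMap.adjoint_inner_left]
  have hu : u = u.1 • ((1, 0) : ℝ × E m) + (0, u.2) := by
    ext <;> simp
  conv_rhs => rw [hu, map_add, map_smul, inner_add_right, inner_smul_right]
  simp only [ContinuousLinearMap.comp_apply, ContinuousLinearMap.inr_apply]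
  ring

theorem Gw_eq (X : ℝ × E m → E n) (w : E n) (p : ℝ × E m) : Gw X w p = gl w (fderiv ℝ X p) := rfl

theorem Vw_eq (X : ℝ × E m → E n) (w : E n) (p : ℝ × E m) : Vw X w p = (gl w (fderiv ℝ X p)).2 :=
  rfl

theorem norm_gl_le (w : E n) (T : (ℝ × E m) →L[ℝ] E n) : ‖gl w T‖ ≤ ‖w‖ * ‖T‖ := by
  rw [gl_apply, Prod.norm_def]
  refine max_le ?_ ?_
  · refine (norm_inner_le_norm _ _).trans (mul_le_mul_of_nonneg_left ?_ (norm_nonneg _))
    refine (T.le_opNorm _).trans ?_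
    have : ‖((1, 0) : ℝ × E m)‖ = 1 := by simp [Prod.norm_def]
    rw [this, mul_one]
  · refine (ContinuousLinearMap.le_opNorm _ _).trans ?_
    rw [LinearIsometryEquiv.norm_map, mul_comm]
    refine mul_le_mul_of_nonneg_left ?_ (norm_nonneg _)
    refine (ContinuousLinearMap.opNorm_comp_le _ _).trans ?_
    exact mul_le_of_le_one_right (norm_nonneg _) (ContinuousLinearMap.norm_inr_le_one _ _ _)

section

variable {X : ℝ × E m → E n} (hX : ContDiff ℝ ∞ X)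

include hX

theorem g_dX : ContDiff ℝ ∞ (fderiv ℝ X) := hX.fderiv_right (by simp)

theorem g_ddX : ContDiff ℝ ∞ (fderiv ℝ (fderiv ℝ X)) := (g_dX hX).fderiv_right (by simp)

theorem hasFDerivAt_Gw (w : E n) (p : ℝ × E m) :
    HasFDerivAt (Gw X w) ((gl w).comp (fderiv ℝ (fderiv ℝ X) p)) p :=
  (gl w).hasFDerivAt.comp p ((g_dX hX).differentiable (by simp) p).hasFDerivAt

theorem hasFDerivAt_Vw (w : E n) (p : ℝ × E m) :
    HasFDerivAt (Vw X w)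
      ((ContinuousLinearMap.snd ℝ ℝ (E m)).comp ((gl w).comp (fderiv ℝ (fderiv ℝ X) p))) p :=
  (ContinuousLinearMap.snd ℝ ℝ (E m)).hasFDerivAt.comp p (hasFDerivAt_Gw hX w p)

theorem fderiv_Gw (w : E n) (p u : ℝ × E m) :
    fderiv ℝ (Gw X w) p u = gl w (fderiv ℝ (fderiv ℝ X) p u) := by
  rw [(hasFDerivAt_Gw hX w p).fderiv]
  rfl

theorem fderiv_Vw (w : E n) (p u : ℝ × E m) :
    fderiv ℝ (Vw X w) p u = (gl w (fderiv ℝ (fderiv ℝ X) p u)).2 := by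
  rw [(hasFDerivAt_Vw hX w p).fderiv]
  rfl

theorem g_symm (p u v : ℝ × E m) :
    fderiv ℝ (fderiv ℝ X) p u v = fderiv ℝ (fderiv ℝ X) p v u := by
  have h : ContDiffAt ℝ ∞ X p := hX.contDiffAt
  exact (h.isSymmSndFDerivAt (by simp; norm_cast)) u v

/-- The pairing of the second derivatives: `M^T v · u = v · M u`. -/
theorem dt_fderiv_Gw (w : E n) (p u : ℝ × E m) (v : E m) :
    dt (fderiv ℝ (Gw X w) p (0, v)) u = ⟪fderiv ℝ (Vw X w) p u, v⟫ := by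
  rw [fderiv_Gw hX, dt_gl, g_symm hX, fderiv_Vw hX]
  have h := dt_gl w (fderiv ℝ (fderiv ℝ X) p u) ((0, v) : ℝ × E m)
  rw [← h, dt]
  simp

end

/-- A vector near `a`. -/
theorem g_near {V : Type*} [SeminormedAddCommGroup V] {a k : V} {ε : ℝ}
    (h : ‖a - k‖ ≤ ε * ‖a‖) (hε : ε ≤ 1 / 2) : ‖a‖ / 2 ≤ ‖k‖ ∧ ‖k‖ ≤ 2 * ‖a‖ := by
  have h0 : ‖a - k‖ ≤ ‖a‖ / 2 := h.trans (by nlinarith [norm_nonneg a])
  have h1 := norm_sub_norm_le a (a - k)
  have h2 := norm_sub_le a (a - k)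
  rw [sub_sub_cancel] at h1 h2
  constructor
  · linarith
  · linarith [norm_nonneg a]

/-- Perturbation of a product. -/
theorem g_pair {V : Type*} [NormedAddCommGroup V] [InnerProductSpace ℝ V] {a b S T : V}
    {e K r s : ℝ} (he : 0 ≤ e) (hK : 0 ≤ K) (hr : 0 ≤ r) (h1 : ‖a - S‖ ≤ e * r)
    (h2 : ‖b - T‖ ≤ e * s) (h3 : ‖S‖ ≤ K * r) (h4 : ‖T‖ ≤ K * s) :
    |⟪S, T⟫| ≤ |⟪a, b⟫| + (2 * K * e + e ^ 2) * (r * s) := by
  set u := a - S with hu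
  set v := b - T with hv
  have e7 : ⟪S, T⟫ = ⟪a, b⟫ - (⟪S, v⟫ + ⟪u, T⟫ + ⟪u, v⟫) := by
    have f1 : a = S + u := by rw [hu]; abel
    have f2 : b = T + v := by rw [hv]; abel
    rw [f1, f2, inner_add_left, inner_add_right, inner_add_right]
    ring
  have m1 : |⟪S, v⟫| ≤ K * r * (e * s) :=
    (abs_real_inner_le_norm _ _).trans (mul_le_mul h3 h2 (norm_nonneg _) (by positivity))
  have m2 : |⟪u, T⟫| ≤ e * r * (K * s) :=
    (abs_real_inner_le_norm _ _).trans (mul_le_mul h1 h4 (norm_nonneg _) (by positivity))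
  have m3 : |⟪u, v⟫| ≤ e * r * (e * s) :=
    (abs_real_inner_le_norm _ _).trans (mul_le_mul h1 h2 (norm_nonneg _) (by positivity))
  have m4 : |⟪S, v⟫ + ⟪u, T⟫ + ⟪u, v⟫| ≤ (2 * K * e + e ^ 2) * (r * s) := by
    refine (abs_add_le _ _).trans ((add_le_add (abs_add_le _ _) le_rfl).trans ?_)
    linarith
  have m5 : |⟪S, T⟫| ≤ |⟪a, b⟫| + |⟪S, v⟫ + ⟪u, T⟫ + ⟪u, v⟫| := by
    rw [e7]
    exact abs_sub _ _
  linarith

/-! ### Compactness -/

theorem g_compact {P Y : Type*} [TopologicalSpace P] [TopologicalSpace Y] {F : P × Y → ℝ}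
    (hF : Continuous F) {p0 : P} {K : Set Y} (hK : IsCompact K) (h : ∀ y ∈ K, 0 < F (p0, y)) :
    ∃ c > 0, ∀ᶠ p in 𝓝 p0, ∀ y ∈ K, c < F (p, y) := by
  have h1 : ∃ c > 0, ∀ y ∈ K, c < F (p0, y) := by
    rcases K.eq_empty_or_nonempty with rfl | hne
    · exact ⟨1, one_pos, by simp⟩
    · obtain ⟨y0, hy0, hmin⟩ := hK.exists_isMinOn hne
        (f := fun y => F (p0, y)) (hF.comp (Continuous.prodMk_right p0)).continuousOn
      refine ⟨F (p0, y0) / 2, half_pos (h y0 hy0), fun y hy => ?_⟩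
      have := hmin hy
      simp only [mem_ofPred_eq] at this
      linarith [h y0 hy0]
  obtain ⟨c, hc, h2⟩ := h1
  refine ⟨c, hc, ?_⟩
  have h3 := hK.eventually_forall_of_forall_eventually (x₀ := p0)
    (P := fun p y => c < F (p, y)) (fun y hy => ?_)
  · exact h3
  · exact hF.continuousAt.eventually (lt_mem_nhds (h2 y hy))

section

variable {X : ℝ × E m → E n} (hX : ContDiff ℝ ∞ X) {p0 : ℝ × E m}

include hX

theorem g_imm (himm : Injective (fderiv ℝ X p0)) :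
    ∃ c > 0, ∀ᶠ p in 𝓝 p0, ∀ u : ℝ × E m, c * ‖u‖ ≤ ‖fderiv ℝ X p u‖ := by
  have hF : Continuous fun x : (ℝ × E m) × (ℝ × E m) => ‖fderiv ℝ X x.1 x.2‖ :=
    (((g_dX hX).continuous.comp continuous_fst).clm_apply continuous_snd).norm
  obtain ⟨c, hc, h⟩ := g_compact hF (p0 := p0) (isCompact_sphere (0 : ℝ × E m) 1) (fun u hu => by
    rw [mem_sphere_zero_iff_norm] at hu
    rw [norm_pos_iff]
    intro h0
    have : u = 0 := himm (by rw [h0, map_zero])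
    rw [this, norm_zero] at hu
    exact zero_ne_one hu)
  refine ⟨c, hc, h.mono fun p hp u => ?_⟩
  rcases eq_or_ne u 0 with rfl | hu
  · simp
  have hu' : 0 < ‖u‖ := norm_pos_iff.2 hu
  have h1 := hp (‖u‖⁻¹ • u) (by
    rw [mem_sphere_zero_iff_norm, norm_smul, norm_inv, norm_norm, inv_mul_cancel₀ hu'.ne'])
  simp only [map_smul, norm_smul, norm_inv, norm_norm] at h1
  rw [inv_mul_eq_div, lt_div_iff₀ hu'] at h1
  exact h1.le

theorem g_qn (hN : ∀ w, w ≠ 0 → Vw X w p0 = 0 → ∀ v : E m, v ≠ 0 →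
      fderiv ℝ (Gw X w) p0 (0, v) ≠ 0) :
    ∃ c > 0, ∀ᶠ p in 𝓝 p0, ∀ w : E n, 1 / 4 ≤ ‖w‖ → ‖w‖ ≤ 8 → ‖Vw X w p‖ < c →
      ∀ v : E m, c * ‖v‖ ≤ ‖fderiv ℝ (Gw X w) p (0, v)‖ := by
  have c1 : Continuous fun x : (ℝ × E m) × (E n × E m) => fderiv ℝ X x.1 :=
    (g_dX hX).continuous.comp continuous_fst
  have c2 : Continuous fun x : (ℝ × E m) × (E n × E m) =>
      fderiv ℝ (fderiv ℝ X) x.1 ((0, x.2.2) : ℝ × E m) :=
    ((g_ddX hX).continuous.comp continuous_fst).clm_apply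
      (continuous_const.prodMk (continuous_snd.comp continuous_snd))
  have cw : Continuous fun x : (ℝ × E m) × (E n × E m) => x.2.1 := continuous_fst.comp continuous_snd
  have hgl : ∀ T : (ℝ × E m) × (E n × E m) → ((ℝ × E m) →L[ℝ] E n), Continuous T →
      Continuous fun x => gl x.2.1 (T x) := fun T hT => by
    simp only [gl_apply]
    refine Continuous.prodMk (cw.inner (hT.clm_apply continuous_const)) ?_
    exact ((ContinuousLinearMap.adjoint (𝕜 := ℝ) (E := E m) (F := E n)).continuous.comp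
      (hT.clm_comp continuous_const)).clm_apply cw
  have hF : Continuous fun x : (ℝ × E m) × (E n × E m) =>
      max ‖(gl x.2.1 (fderiv ℝ X x.1)).2‖
        ‖gl x.2.1 (fderiv ℝ (fderiv ℝ X) x.1 ((0, x.2.2) : ℝ × E m))‖ :=
    ((hgl _ c1).snd.norm).max ((hgl _ c2).norm)
  have hK : IsCompact ((Metric.closedBall (0 : E n) 8 \ Metric.ball (0 : E n) (1 / 4)) ×ˢ
      Metric.sphere (0 : E m) 1) :=
    ((isCompact_closedBall _ _).diff Metric.isOpen_ball).prod (isCompact_sphere _ _)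
  obtain ⟨c, hc, h⟩ := g_compact hF (p0 := p0) hK (fun y hy => by
    obtain ⟨⟨_, hy2⟩, hy3⟩ := hy
    rw [mem_ball_zero_iff, not_lt] at hy2
    rw [mem_sphere_zero_iff_norm] at hy3
    by_cases hV : Vw X y.1 p0 = 0
    · refine lt_max_of_lt_right (norm_pos_iff.2 ?_)
      have h1 := hN y.1 (norm_pos_iff.1 (by linarith)) hV y.2 (by
        intro h0
        rw [h0, norm_zero] at hy3
        exact zero_ne_one hy3)
      rwa [fderiv_Gw hX] at h1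
    · exact lt_max_of_lt_left (norm_pos_iff.2 hV))
  refine ⟨c, hc, h.mono fun p hp w hw1 hw2 hV v => ?_⟩
  rcases eq_or_ne v 0 with rfl | hv
  · have h0 : ((0, 0) : ℝ × E m) = 0 := rfl
    rw [norm_zero, mul_zero]
    exact norm_nonneg _
  have hv' : 0 < ‖v‖ := norm_pos_iff.2 hv
  have h1 := hp (w, ‖v‖⁻¹ • v) ⟨⟨by simpa using hw2, by
    rw [mem_ball_zero_iff, not_lt]; exact hw1⟩, by
    rw [mem_sphere_zero_iff_norm, norm_smul, norm_inv, norm_norm, inv_mul_cancel₀ hv'.ne']⟩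
  simp only at h1
  rcases lt_max_iff.1 h1 with h2 | h2
  · exact absurd (h2.trans hV) (lt_irrefl _)
  · have h3 : ((0, ‖v‖⁻¹ • v) : ℝ × E m) = ‖v‖⁻¹ • ((0, v) : ℝ × E m) := by simp
    rw [h3, map_smul, map_smul, norm_smul, norm_inv, norm_norm, inv_mul_eq_div,
      lt_div_iff₀ hv'] at h2
    rw [fderiv_Gw hX]
    exact h2.le

/-- The basic neighbourhood. -/
theorem g_base (himm : Injective (fderiv ℝ X p0))
    (hN : ∀ w, w ≠ 0 → Vw X w p0 = 0 → ∀ v : E m, v ≠ 0 → fderiv ℝ (Gw X w) p0 (0, v) ≠ 0) :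
    ∃ c A : ℝ, 0 < c ∧ 1 ≤ A ∧ ∀ η : ℝ, 0 < η → ∃ δ : ℝ, 0 < δ ∧ ∀ p, ‖p - p0‖ ≤ δ →
      (∀ u : ℝ × E m, c * ‖u‖ ≤ ‖fderiv ℝ X p u‖) ∧ ‖fderiv ℝ X p‖ ≤ A ∧
      ‖fderiv ℝ (fderiv ℝ X) p‖ ≤ A ∧
      (∀ w : E n, 1 / 4 ≤ ‖w‖ → ‖w‖ ≤ 8 → ‖Vw X w p‖ < c →
        ∀ v : E m, c * ‖v‖ ≤ ‖fderiv ℝ (Gw X w) p (0, v)‖) ∧
      ∀ p', ‖p' - p0‖ ≤ δ → ‖fderiv ℝ X p - fderiv ℝ X p'‖ ≤ η ∧
        ‖fderiv ℝ (fderiv ℝ X) p - fderiv ℝ (fderiv ℝ X) p'‖ ≤ η := by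
  obtain ⟨c1, hc1, h1⟩ := g_imm hX himm
  obtain ⟨c2, hc2, h2⟩ := g_qn hX hN
  refine ⟨min c1 c2, ‖fderiv ℝ X p0‖ + ‖fderiv ℝ (fderiv ℝ X) p0‖ + 1, lt_min hc1 hc2,
    by linarith [norm_nonneg (fderiv ℝ X p0), norm_nonneg (fderiv ℝ (fderiv ℝ X) p0)],
    fun η hη => ?_⟩
  have h3 : ∀ᶠ p in 𝓝 p0, ‖fderiv ℝ X p - fderiv ℝ X p0‖ < min (η / 2) 1 := by
    have := (g_dX hX).continuous.continuousAt (x := p0)
    have h := Metric.tendsto_nhds.1 this (min (η / 2) 1) (by positivity)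
    simpa [dist_eq_norm] using h
  have h4 : ∀ᶠ p in 𝓝 p0, ‖fderiv ℝ (fderiv ℝ X) p - fderiv ℝ (fderiv ℝ X) p0‖ <
      min (η / 2) 1 := by
    have := (g_ddX hX).continuous.continuousAt (x := p0)
    have h := Metric.tendsto_nhds.1 this (min (η / 2) 1) (by positivity)
    simpa [dist_eq_norm] using h
  obtain ⟨δ, hδ, h5⟩ := Metric.eventually_nhds_iff.1 (h1.and (h2.and (h3.and h4)))
  refine ⟨δ / 2, half_pos hδ, fun p hp => ?_⟩
  obtain ⟨a1, a2, a3, a4⟩ := h5 (y := p) (by rw [dist_eq_norm]; linarith)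
  refine ⟨fun u => le_trans ?_ (a1 u), ?_, ?_, fun w hw1 hw2 hV v => le_trans ?_
    (a2 w hw1 hw2 (hV.trans_le (min_le_right _ _)) v), fun p' hp' => ?_⟩
  · exact mul_le_mul_of_nonneg_right (min_le_left _ _) (norm_nonneg _)
  · have : fderiv ℝ X p = fderiv ℝ X p0 + (fderiv ℝ X p - fderiv ℝ X p0) := by abel
    rw [this]
    refine (norm_add_le _ _).trans ?_
    have := a3.le.trans (min_le_right _ _)
    linarith [norm_nonneg (fderiv ℝ (fderiv ℝ X) p0)]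
  · have h6 := norm_add_le (fderiv ℝ (fderiv ℝ X) p0)
      (fderiv ℝ (fderiv ℝ X) p - fderiv ℝ (fderiv ℝ X) p0)
    have e : fderiv ℝ (fderiv ℝ X) p0 + (fderiv ℝ (fderiv ℝ X) p - fderiv ℝ (fderiv ℝ X) p0) =
      fderiv ℝ (fderiv ℝ X) p := by abel
    have e' := congrArg norm e
    have h7 := a4.le.trans (min_le_right _ _)
    linarith [norm_nonneg (fderiv ℝ X p0)]
  · exact mul_le_mul_of_nonneg_right (min_le_right _ _) (norm_nonneg _)
  · obtain ⟨_, _, b3, b4⟩ := h5 (y := p') (by rw [dist_eq_norm]; linarith)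
    constructor
    · have e : fderiv ℝ X p - fderiv ℝ X p' =
        (fderiv ℝ X p - fderiv ℝ X p0) - (fderiv ℝ X p' - fderiv ℝ X p0) := by abel
      rw [e]
      refine (norm_sub_le _ _).trans ?_
      have := min_le_left (η / 2) 1
      linarith
    · have e : fderiv ℝ (fderiv ℝ X) p - fderiv ℝ (fderiv ℝ X) p' =
        (fderiv ℝ (fderiv ℝ X) p - fderiv ℝ (fderiv ℝ X) p0) -
          (fderiv ℝ (fderiv ℝ X) p' - fderiv ℝ (fderiv ℝ X) p0) := by abel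
      rw [e]
      have hh := norm_sub_le (fderiv ℝ (fderiv ℝ X) p - fderiv ℝ (fderiv ℝ X) p0)
        (fderiv ℝ (fderiv ℝ X) p' - fderiv ℝ (fderiv ℝ X) p0)
      have := min_le_left (η / 2) 1
      linarith

theorem g_linX {δ η : ℝ} {p p' : ℝ × E m}
    (h : ∀ q, ‖q - p0‖ ≤ δ → ‖fderiv ℝ X q - fderiv ℝ X p'‖ ≤ η) (hp : ‖p - p0‖ ≤ δ)
    (hp' : ‖p' - p0‖ ≤ δ) : ‖X p - X p' - fderiv ℝ X p' (p - p')‖ ≤ η * ‖p - p'‖ := by
  refine (convex_closedBall p0 δ).norm_image_sub_le_of_norm_fderiv_le' (f := X)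
    (fun x _ => hX.differentiable (by simp) x) (fun x hx => h x ?_) ?_ ?_
  · rwa [mem_closedBall_iff_norm] at hx
  · rwa [mem_closedBall_iff_norm]
  · rwa [mem_closedBall_iff_norm]

theorem g_linV {δ η : ℝ} {p p' : ℝ × E m} {w : E n} (hη : 0 ≤ η) (hw : ‖w‖ ≤ 8)
    (h : ∀ q, ‖q - p0‖ ≤ δ → ‖fderiv ℝ (fderiv ℝ X) q - fderiv ℝ (fderiv ℝ X) p'‖ ≤ η)
    (hp : ‖p - p0‖ ≤ δ) (hp' : ‖p' - p0‖ ≤ δ) :
    ‖Vw X w p - Vw X w p' - fderiv ℝ (Vw X w) p' (p - p')‖ ≤ 8 * η * ‖p - p'‖ := by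
  refine (convex_closedBall p0 δ).norm_image_sub_le_of_norm_fderiv_le' (f := Vw X w)
    (fun x _ => (hasFDerivAt_Vw hX w x).differentiableAt) (fun x hx => ?_) ?_ ?_
  · rw [mem_closedBall_iff_norm] at hx
    refine ContinuousLinearMap.opNorm_le_bound _ (by positivity) fun u => ?_
    have e : fderiv ℝ (fderiv ℝ X) x u - fderiv ℝ (fderiv ℝ X) p' u =
      (fderiv ℝ (fderiv ℝ X) x - fderiv ℝ (fderiv ℝ X) p') u := rfl
    rw [sub_apply, fderiv_Vw hX, fderiv_Vw hX, ← Prod.snd_sub, ← map_sub, e]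
    refine (norm_snd_le _).trans ((norm_gl_le _ _).trans ?_)
    calc ‖w‖ * ‖(fderiv ℝ (fderiv ℝ X) x - fderiv ℝ (fderiv ℝ X) p') u‖
        ≤ 8 * (η * ‖u‖) := by
          refine mul_le_mul hw ?_ (norm_nonneg _) (by norm_num)
          exact (ContinuousLinearMap.le_opNorm _ _).trans
            (mul_le_mul_of_nonneg_right (h x hx) (norm_nonneg _))
      _ = 8 * η * ‖u‖ := by ring
  · rwa [mem_closedBall_iff_norm]
  · rwa [mem_closedBall_iff_norm]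

/-- The bounded right inverse of `M`. -/
theorem g_right {p : ℝ × E m} {w : E n} {c : ℝ} (hc : 0 < c)
    (h : ∀ v : E m, c * ‖v‖ ≤ ‖fderiv ℝ (Gw X w) p (0, v)‖) (u : E m) :
    ∃ x : ℝ × E m, fderiv ℝ (Vw X w) p x = u ∧ c * ‖x‖ ≤ ‖u‖ := by
  set T : E m →ₗ[ℝ] E m :=
    { toFun := fun v => fderiv ℝ (Vw X w) p (fderiv ℝ (Gw X w) p (0, v))
      map_add' := fun v v' => by
        have : ((0, v + v') : ℝ × E m) = (0, v) + (0, v') := by simp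
        rw [this, map_add, map_add]
      map_smul' := fun a v => by
        have : ((0, a • v) : ℝ × E m) = a • (0, v) := by simp
        rw [this, map_smul, map_smul, RingHom.id_apply] } with hT
  have key : ∀ v, ‖fderiv ℝ (Gw X w) p (0, v)‖ ^ 2 ≤ ⟪T v, v⟫ := fun v => by
    refine (le_dt_self _).trans (le_of_eq ?_)
    rw [dt_fderiv_Gw hX]
    rfl
  have hinj : Injective T := by
    rw [← LinearMap.ker_eq_bot, LinearMap.ker_eq_bot']
    intro v hv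
    have h1 := key v
    rw [hv, inner_zero_left] at h1
    have h2 : ‖fderiv ℝ (Gw X w) p (0, v)‖ = 0 := by nlinarith [norm_nonneg (fderiv ℝ (Gw X w) p (0, v))]
    have h3 := h v
    rw [h2] at h3
    have h4 : ‖v‖ ≤ 0 := by
      by_contra h5
      push Not at h5
      nlinarith
    exact norm_le_zero_iff.1 h4
  obtain ⟨v, hv⟩ := (LinearMap.injective_iff_surjective.1 hinj) u
  refine ⟨fderiv ℝ (Gw X w) p (0, v), hv, ?_⟩
  have h1 := key v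
  rw [hv] at h1
  have h2 : ⟪u, v⟫ ≤ ‖u‖ * ‖v‖ := real_inner_le_norm _ _
  have h3 := h v
  set a := ‖fderiv ℝ (Gw X w) p (0, v)‖ with ha
  have ha0 : 0 ≤ a := norm_nonneg _
  rcases eq_or_lt_of_le ha0 with h0 | h0
  · rw [← h0, mul_zero]; exact norm_nonneg _
  · have h4 : c * a ^ 2 ≤ ‖u‖ * a := by
      calc c * a ^ 2 ≤ c * (‖u‖ * ‖v‖) := mul_le_mul_of_nonneg_left (h1.trans h2) hc.le
        _ = ‖u‖ * (c * ‖v‖) := by ring
        _ ≤ ‖u‖ * a := mul_le_mul_of_nonneg_left h3 (norm_nonneg _)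
    have h5 : (c * a) * a ≤ ‖u‖ * a := by nlinarith
    exact le_of_mul_le_mul_right h5 h0

/-- The chord of two points with small `V` is nearly a kernel vector. -/
theorem g_kap {δ η c : ℝ} {p p' : ℝ × E m} {w : E n} (hη : 0 ≤ η) (hc : 0 < c) (hw : ‖w‖ ≤ 8)
    (hq : ∀ v : E m, c * ‖v‖ ≤ ‖fderiv ℝ (Gw X w) p' (0, v)‖)
    (h : ∀ q, ‖q - p0‖ ≤ δ → ‖fderiv ℝ (fderiv ℝ X) q - fderiv ℝ (fderiv ℝ X) p'‖ ≤ η)
    (hp : ‖p - p0‖ ≤ δ) (hp' : ‖p' - p0‖ ≤ δ) {θ C : ℝ} (hC : 0 < C) (hV : ‖Vw X w p‖ ≤ θ)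
    (hV' : ‖Vw X w p'‖ ≤ θ) (hθ : C * θ ≤ ‖p - p'‖) :
    ∃ k : ℝ × E m, fderiv ℝ (Vw X w) p' k = 0 ∧
      ‖(p - p') - k‖ ≤ (2 / C + 8 * η) / c * ‖p - p'‖ := by
  obtain ⟨x, hx1, hx2⟩ := g_right hX hc hq (fderiv ℝ (Vw X w) p' (p - p'))
  refine ⟨(p - p') - x, by rw [map_sub, hx1, sub_self], ?_⟩
  rw [sub_sub_cancel]
  have h1 := g_linV hX hη hw h hp hp'
  have h2 : ‖fderiv ℝ (Vw X w) p' (p - p')‖ ≤ 2 * θ + 8 * η * ‖p - p'‖ := by
    have e : fderiv ℝ (Vw X w) p' (p - p') = (Vw X w p - Vw X w p') -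
        (Vw X w p - Vw X w p' - fderiv ℝ (Vw X w) p' (p - p')) := by abel
    rw [e]
    refine (norm_sub_le _ _).trans (add_le_add ((norm_sub_le _ _).trans ?_) h1)
    linarith
  have h3 : θ ≤ ‖p - p'‖ / C := by
    rw [le_div_iff₀ hC]
    linarith
  have h4 : c * ‖x‖ ≤ (2 / C + 8 * η) * ‖p - p'‖ := by
    refine hx2.trans (h2.trans ?_)
    have : 2 * (‖p - p'‖ / C) = 2 / C * ‖p - p'‖ := by ring
    nlinarith
  rw [div_mul_eq_mul_div, le_div_iff₀ hc]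
  linarith

/-- The chord `X p - X p'` is nearly `DX(p') k`. -/
theorem g_chord {δ η A ε : ℝ} {p p' k : ℝ × E m} (hA : 0 ≤ A)
    (hb : ‖fderiv ℝ X p'‖ ≤ A)
    (h : ∀ q, ‖q - p0‖ ≤ δ → ‖fderiv ℝ X q - fderiv ℝ X p'‖ ≤ η) (hp : ‖p - p0‖ ≤ δ)
    (hp' : ‖p' - p0‖ ≤ δ) (hk : ‖(p - p') - k‖ ≤ ε * ‖p - p'‖) :
    ‖(X p - X p') - fderiv ℝ X p' k‖ ≤ (η + A * ε) * ‖p - p'‖ := by
  have e : (X p - X p') - fderiv ℝ X p' k = (X p - X p' - fderiv ℝ X p' (p - p')) +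
      fderiv ℝ X p' ((p - p') - k) := by
    rw [map_sub (fderiv ℝ X p') (p - p') k]; abel
  rw [e]
  refine (norm_add_le _ _).trans ?_
  have h1 := g_linX hX h hp hp'
  have h2 : ‖fderiv ℝ X p' ((p - p') - k)‖ ≤ A * (ε * ‖p - p'‖) :=
    ((fderiv ℝ X p').le_opNorm _).trans (mul_le_mul hb hk (norm_nonneg _) hA)
  linarith

theorem g_bl {δ η A c : ℝ} {p p' : ℝ × E m} (hc : ∀ u : ℝ × E m, c * ‖u‖ ≤ ‖fderiv ℝ X p' u‖)
    (hb : ‖fderiv ℝ X p'‖ ≤ A)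
    (h : ∀ q, ‖q - p0‖ ≤ δ → ‖fderiv ℝ X q - fderiv ℝ X p'‖ ≤ η) (hp : ‖p - p0‖ ≤ δ)
    (hp' : ‖p' - p0‖ ≤ δ) :
    (c - η) * ‖p - p'‖ ≤ ‖X p - X p'‖ ∧ ‖X p - X p'‖ ≤ (A + η) * ‖p - p'‖ := by
  have h1 := g_linX hX h hp hp'
  have h2 := hc (p - p')
  have h3 : ‖fderiv ℝ X p' (p - p')‖ ≤ A * ‖p - p'‖ :=
    ((fderiv ℝ X p').le_opNorm _).trans (mul_le_mul_of_nonneg_right hb (norm_nonneg _))
  constructor
  · have e : fderiv ℝ X p' (p - p') = (X p - X p') - (X p - X p' - fderiv ℝ X p' (p - p')) := by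
      abel
    have h4 := norm_sub_le (X p - X p') (X p - X p' - fderiv ℝ X p' (p - p'))
    rw [← e] at h4
    nlinarith
  · have e : X p - X p' = (X p - X p' - fderiv ℝ X p' (p - p')) + fderiv ℝ X p' (p - p') := by
      abel
    have h4 := norm_add_le (X p - X p' - fderiv ℝ X p' (p - p')) (fderiv ℝ X p' (p - p'))
    rw [← e] at h4
    nlinarith

/-- Two kernel vectors of `M` are proportional. -/
theorem g_prop {p : ℝ × E m} {w : E n} {c : ℝ} (hc : 0 < c)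
    (h : ∀ v : E m, c * ‖v‖ ≤ ‖fderiv ℝ (Gw X w) p (0, v)‖) {k k' : ℝ × E m}
    (hk : fderiv ℝ (Vw X w) p k = 0) (hk' : fderiv ℝ (Vw X w) p k' = 0) (hk0 : k ≠ 0) :
    ∃ a : ℝ, k' = a • k := by
  have hs : Surjective (fderiv ℝ (Vw X w) p : (ℝ × E m) →ₗ[ℝ] E m) := fun u => by
    obtain ⟨x, hx, _⟩ := g_right hX hc h u
    exact ⟨x, hx⟩
  have h1 := LinearMap.finrank_range_add_finrank_ker
    (fderiv ℝ (Vw X w) p : (ℝ × E m) →ₗ[ℝ] E m)
  rw [LinearMap.range_eq_top.2 hs, finrank_top, Module.finrank_prod, Module.finrank_self] at h1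
  have h2 : finrank ℝ (E m) = m := by simp
  have h3 : finrank ℝ (LinearMap.ker (fderiv ℝ (Vw X w) p : (ℝ × E m) →ₗ[ℝ] E m)) = 1 := by omega
  obtain ⟨a, ha⟩ := (finrank_eq_one_iff_of_nonzero'
    (⟨k, hk⟩ : LinearMap.ker (fderiv ℝ (Vw X w) p : (ℝ × E m) →ₗ[ℝ] E m)) (by
      intro h0
      exact hk0 (congrArg Subtype.val h0))).1 h3 ⟨k', hk'⟩
  exact ⟨a, (congrArg Subtype.val ha).symm⟩

/-- **The rectangle form.** -/
theorem g_rect (himm : Injective (fderiv ℝ X p0))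
    (hN : ∀ w, w ≠ 0 → Vw X w p0 = 0 → ∀ v : E m, v ≠ 0 → fderiv ℝ (Gw X w) p0 (0, v) ≠ 0) :
    ∃ c C δ : ℝ, 0 < c ∧ 1 ≤ C ∧ 0 < δ ∧ (∀ p p', ‖p - p0‖ ≤ δ → ‖p' - p0‖ ≤ δ →
      c * ‖p - p'‖ ≤ ‖X p - X p'‖ ∧ ‖X p - X p'‖ ≤ C * ‖p - p'‖) ∧
    ∀ (w : E n) (θ : ℝ) (p p' p'' : ℝ × E m), 1 / 4 ≤ ‖w‖ → ‖w‖ ≤ 8 → ‖p - p0‖ ≤ δ →
      ‖p' - p0‖ ≤ δ → ‖p'' - p0‖ ≤ δ → ‖Vw X w p‖ ≤ θ → ‖Vw X w p'‖ ≤ θ → ‖Vw X w p''‖ ≤ θ →
      C * θ ≤ ‖p - p'‖ → C * θ ≤ ‖p - p''‖ →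
      c * (‖p - p'‖ * ‖p - p''‖) ≤ |⟪X p - X p', X p - X p''⟫| := by
  obtain ⟨c, A, hc, hA, H⟩ := g_base hX himm hN
  have hA0 : 0 < A := by linarith
  -- the small parameters
  set ε1 : ℝ := min (1 / 2) (c ^ 2 / (128 * A ^ 2)) with hε1
  have hε1p : 0 < ε1 := lt_min (by norm_num) (by positivity)
  have hε1a : ε1 ≤ 1 / 2 := min_le_left _ _
  have hε1b : ε1 * (128 * A ^ 2) ≤ c ^ 2 := by
    have : ε1 ≤ c ^ 2 / (128 * A ^ 2) := min_le_right _ _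
    rwa [le_div_iff₀ (by positivity)] at this
  set η : ℝ := min (min (c / 2) 1) (min ε1 (c * ε1 / 16)) with hη
  have hηp : 0 < η := lt_min (lt_min (by positivity) one_pos) (lt_min hε1p (by positivity))
  have hη1 : η ≤ c / 2 := (min_le_left _ _).trans (min_le_left _ _)
  have hη2 : η ≤ 1 := (min_le_left _ _).trans (min_le_right _ _)
  have hη3 : η ≤ ε1 := (min_le_right _ _).trans (min_le_left _ _)
  have hη4 : η ≤ c * ε1 / 16 := (min_le_right _ _).trans (min_le_right _ _)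
  obtain ⟨δ1, hδ1, hb⟩ := H η hηp
  set C : ℝ := max (max 1 (4 / (c * ε1))) (A + 1) with hC
  have hC1 : 1 ≤ C := (le_max_left _ _).trans (le_max_left _ _)
  have hC2 : 4 / (c * ε1) ≤ C := (le_max_right _ _).trans (le_max_left _ _)
  have hC3 : A + 1 ≤ C := le_max_right _ _
  have hC0 : 0 < C := by linarith
  have hε : (2 / C + 8 * η) / c ≤ ε1 := by
    rw [div_le_iff₀ hc]
    have h1 : 2 / C ≤ c * ε1 / 2 := by
      rw [div_le_iff₀ hC0]
      rw [div_le_iff₀ (by positivity)] at hC2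
      nlinarith
    linarith
  set δ : ℝ := min δ1 (c / 4) with hδ
  have hδp : 0 < δ := lt_min hδ1 (by positivity)
  have hδa : δ ≤ δ1 := min_le_left _ _
  have hδb : δ ≤ c / 4 := min_le_right _ _
  refine ⟨min (c / 2) (c ^ 2 / 8), C, δ, lt_min (by positivity) (by positivity), hC1, hδp,
    fun p p' hp hp' => ?_, fun w θ p p' p'' hw1 hw2 hp hp' hp'' hV hV' hV'' h1 h2 => ?_⟩
  · obtain ⟨b1, b2, _, _, b5⟩ := hb p' (hp'.trans hδa)
    obtain ⟨r1, r2⟩ := g_bl hX b1 b2 (fun q hq => by rw [norm_sub_rev]; exact (b5 q hq).1)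
      (hp.trans hδa) (hp'.trans hδa)
    constructor
    · refine le_trans (mul_le_mul_of_nonneg_right ?_ (norm_nonneg _)) r1
      have := min_le_left (c / 2) (c ^ 2 / 8)
      linarith
    · refine r2.trans (mul_le_mul_of_nonneg_right ?_ (norm_nonneg _))
      linarith
  · have hθ0 : 0 ≤ θ := (norm_nonneg _).trans hV
    -- degenerate cases
    rcases eq_or_ne p p' with rfl | hpp'
    · simp
    rcases eq_or_ne p p'' with rfl | hpp''
    · simp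
    have hρ' : 0 < ‖p' - p‖ := norm_pos_iff.2 (sub_ne_zero.2 hpp'.symm)
    have hρ'' : 0 < ‖p'' - p‖ := norm_pos_iff.2 (sub_ne_zero.2 hpp''.symm)
    obtain ⟨b1, b2, _, b4, b5⟩ := hb p (hp.trans hδa)
    have hVc : ‖Vw X w p‖ < c := by
      have hs : ‖p - p'‖ ≤ 2 * δ := by
        have e : p - p' = (p - p0) - (p' - p0) := by abel
        rw [e]
        refine (norm_sub_le _ _).trans ?_
        linarith
      have : θ ≤ C * θ := by nlinarith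
      linarith
    have hq := b4 w hw1 hw2 hVc
    have e5 : ∀ q, ‖q - p0‖ ≤ δ1 → ‖fderiv ℝ X q - fderiv ℝ X p‖ ≤ η := fun q hq => by
      rw [norm_sub_rev]; exact (b5 q hq).1
    have e6 : ∀ q, ‖q - p0‖ ≤ δ1 → ‖fderiv ℝ (fderiv ℝ X) q - fderiv ℝ (fderiv ℝ X) p‖ ≤ η :=
      fun q hq => by
        have h := norm_sub_rev (fderiv ℝ (fderiv ℝ X) q) (fderiv ℝ (fderiv ℝ X) p)
        exact h.le.trans (b5 q hq).2
    obtain ⟨k', hk1, hk2⟩ := g_kap hX hηp.le hc hw2 hq e6 (hp'.trans hδa) (hp.trans hδa) hC0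
      hV' hV (by rwa [norm_sub_rev])
    obtain ⟨k'', hk3, hk4⟩ := g_kap hX hηp.le hc hw2 hq e6 (hp''.trans hδa) (hp.trans hδa) hC0
      hV'' hV (by rwa [norm_sub_rev])
    have hk2' : ‖(p' - p) - k'‖ ≤ ε1 * ‖p' - p‖ :=
      hk2.trans (mul_le_mul_of_nonneg_right hε (norm_nonneg _))
    have hk4' : ‖(p'' - p) - k''‖ ≤ ε1 * ‖p'' - p‖ :=
      hk4.trans (mul_le_mul_of_nonneg_right hε (norm_nonneg _))
    obtain ⟨n1, n3⟩ := g_near hk2' hε1a
    obtain ⟨n2, n4⟩ := g_near hk4' hε1a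
    have hk0 : k' ≠ 0 := by
      intro h0
      rw [h0, norm_zero] at n1
      linarith
    obtain ⟨a, rfl⟩ := g_prop hX hc hq hk1 hk3 hk0
    -- the two chords
    have g1 := g_chord hX hA0.le b2 e5 (hp'.trans hδa) (hp.trans hδa) hk2'
    have g2 := g_chord hX hA0.le b2 e5 (hp''.trans hδa) (hp.trans hδa) hk4'
    have hAe : η + A * ε1 ≤ 2 * A * ε1 := by nlinarith
    replace g1 := g1.trans (mul_le_mul_of_nonneg_right hAe (norm_nonneg _))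
    replace g2 := g2.trans (mul_le_mul_of_nonneg_right hAe (norm_nonneg _))
    set T := fderiv ℝ X p with hT
    have t1 : |⟪T k', T (a • k')⟫| = ‖T k'‖ * ‖T (a • k')‖ := by
      rw [map_smul, inner_smul_right, real_inner_self_eq_norm_sq, abs_mul, norm_smul,
        Real.norm_eq_abs, abs_of_nonneg (sq_nonneg ‖T k'‖)]
      ring
    have t2 : c ^ 2 / 4 * (‖p' - p‖ * ‖p'' - p‖) ≤ ‖T k'‖ * ‖T (a • k')‖ := by
      have a1 := b1 k'
      have a2 := b1 (a • k')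
      have a3 : c * (‖p' - p‖ / 2) ≤ ‖T k'‖ := (mul_le_mul_of_nonneg_left n1 hc.le).trans a1
      have a4 : c * (‖p'' - p‖ / 2) ≤ ‖T (a • k')‖ := (mul_le_mul_of_nonneg_left n2 hc.le).trans a2
      calc c ^ 2 / 4 * (‖p' - p‖ * ‖p'' - p‖) = (c * (‖p' - p‖ / 2)) * (c * (‖p'' - p‖ / 2)) := by
            ring
        _ ≤ _ := mul_le_mul a3 a4 (by positivity) (norm_nonneg _)
    have t3 : ‖T k'‖ ≤ 2 * A * ‖p' - p‖ := by
      refine (T.le_opNorm _).trans ?_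
      calc ‖T‖ * ‖k'‖ ≤ A * (2 * ‖p' - p‖) := mul_le_mul b2 n3 (norm_nonneg _) hA0.le
        _ = _ := by ring
    have t4 : ‖T (a • k')‖ ≤ 2 * A * ‖p'' - p‖ := by
      refine (T.le_opNorm _).trans ?_
      calc ‖T‖ * ‖a • k'‖ ≤ A * (2 * ‖p'' - p‖) := mul_le_mul b2 n4 (norm_nonneg _) hA0.le
        _ = _ := by ring
    have r0 := g_pair (by positivity) (by positivity) hρ'.le g1 g2 t3 t4
    rw [t1] at r0
    have r1 : c ^ 2 / 8 * (‖p' - p‖ * ‖p'' - p‖) ≤ |⟪X p' - X p, X p'' - X p⟫| := by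
      have hA2 : 0 < A ^ 2 := by positivity
      have q2 : 2 * (2 * A) * (2 * A * ε1) + (2 * A * ε1) ^ 2 ≤ c ^ 2 / 8 := by
        have : ε1 ^ 2 ≤ ε1 * (1 / 2) := by nlinarith only [hε1p, hε1a]
        have : A ^ 2 * ε1 ^ 2 ≤ A ^ 2 * (ε1 * (1 / 2)) := mul_le_mul_of_nonneg_left this hA2.le
        have e : 2 * (2 * A) * (2 * A * ε1) + (2 * A * ε1) ^ 2 =
          8 * (ε1 * A ^ 2) + 4 * (A ^ 2 * ε1 ^ 2) := by ring
        rw [e]
        have hh : 0 < ε1 * A ^ 2 := by positivity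
        nlinarith only [this, hε1b, hh]
      have q3 := mul_le_mul_of_nonneg_right q2 (mul_pos hρ' hρ'').le
      have q4 : c ^ 2 / 4 * (‖p' - p‖ * ‖p'' - p‖) = c ^ 2 / 8 * (‖p' - p‖ * ‖p'' - p‖) +
        c ^ 2 / 8 * (‖p' - p‖ * ‖p'' - p‖) := by ring
      linarith only [q3, q4, t2, r0]
    have r2 : ⟪X p - X p', X p - X p''⟫ = ⟪X p' - X p, X p'' - X p⟫ := by
      rw [← neg_sub (X p') (X p), ← neg_sub (X p'') (X p), inner_neg_neg]
    rw [r2]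
    rw [norm_sub_rev p p', norm_sub_rev p p'']
    refine le_trans (mul_le_mul_of_nonneg_right (min_le_right _ _) (by positivity)) r1

/-- **Compactness.** -/
theorem g_qnc (himm : Injective (fderiv ℝ X p0))
    (hN : ∀ w, w ≠ 0 → Vw X w p0 = 0 → ∀ v : E m, v ≠ 0 → fderiv ℝ (Gw X w) p0 (0, v) ≠ 0) :
    ∃ c > 0, ∃ δ > 0, ∀ p, ‖p - p0‖ ≤ δ → (∀ u, c * ‖u‖ ≤ ‖fderiv ℝ X p u‖) ∧
      ∀ w : E n, 1 / 4 ≤ ‖w‖ → ‖w‖ ≤ 8 → ‖Vw X w p‖ < c →
        ∀ v : E m, c * ‖v‖ ≤ ‖fderiv ℝ (Gw X w) p (0, v)‖ := by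
  obtain ⟨c, A, hc, hA, H⟩ := g_base hX himm hN
  obtain ⟨δ, hδ, hb⟩ := H 1 one_pos
  exact ⟨c, hc, δ, hδ, fun p hp => ⟨(hb p hp).1, (hb p hp).2.2.2.1⟩⟩

/-- **The lines of stationary points.** -/
theorem g_lines (himm : Injective (fderiv ℝ X p0))
    (hN : ∀ w, w ≠ 0 → Vw X w p0 = 0 → ∀ v : E m, v ≠ 0 → fderiv ℝ (Gw X w) p0 (0, v) ≠ 0)
    (ε : ℝ) (hε : 0 < ε) :
    ∃ δ > 0, ∃ C > 0, ∀ (p p' : ℝ × E m) (w : E n) (θ : ℝ), ‖p - p0‖ ≤ δ → ‖p' - p0‖ ≤ δ →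
      1 / 4 ≤ ‖w‖ → ‖w‖ ≤ 8 → ‖Vw X w p‖ ≤ θ → ‖Vw X w p'‖ ≤ θ → C * θ ≤ ‖p - p'‖ → p ≠ p' →
      ∃ kp, fderiv ℝ (Vw X w) p' kp = 0 ∧ ‖(p - p') - kp‖ ≤ ε * ‖p - p'‖ := by
  obtain ⟨c, A, hc, hA, H⟩ := g_base hX himm hN
  obtain ⟨δ1, hδ1, hb⟩ := H (c * ε / 16) (by positivity)
  set C : ℝ := max 1 (4 / (c * ε)) with hC
  have hC1 : 1 ≤ C := le_max_left _ _
  have hC2 : 4 / (c * ε) ≤ C := le_max_right _ _
  have hC0 : 0 < C := by linarith
  have hε' : (2 / C + 8 * (c * ε / 16)) / c ≤ ε := by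
    rw [div_le_iff₀ hc]
    have h1 : 2 / C ≤ c * ε / 2 := by
      rw [div_le_iff₀ hC0]
      rw [div_le_iff₀ (by positivity)] at hC2
      nlinarith
    linarith
  refine ⟨min δ1 (c / 4), lt_min hδ1 (by positivity), C, hC0,
    fun p p' w θ hp hp' hw1 hw2 hV hV' hθ _ => ?_⟩
  have hp1 := hp.trans (min_le_left _ _)
  have hp1' := hp'.trans (min_le_left _ _)
  have hp2 := hp.trans (min_le_right _ _)
  have hp2' := hp'.trans (min_le_right _ _)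
  obtain ⟨_, _, _, b4, b5⟩ := hb p' hp1'
  have hθ0 : 0 ≤ θ := (norm_nonneg _).trans hV
  have hVc : ‖Vw X w p'‖ < c := by
    have hs : ‖p - p'‖ ≤ c / 4 + c / 4 := by
      have e : p - p' = (p - p0) - (p' - p0) := by abel
      rw [e]
      exact (norm_sub_le _ _).trans (add_le_add hp2 hp2')
    have : θ ≤ C * θ := by nlinarith
    linarith
  have e6 : ∀ q, ‖q - p0‖ ≤ δ1 →
      ‖fderiv ℝ (fderiv ℝ X) q - fderiv ℝ (fderiv ℝ X) p'‖ ≤ c * ε / 16 := fun q hq => by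
    have h := norm_sub_rev (fderiv ℝ (fderiv ℝ X) q) (fderiv ℝ (fderiv ℝ X) p')
    exact h.le.trans (b5 q hq).2
  obtain ⟨k, hk1, hk2⟩ := g_kap hX (by positivity) hc hw2 (b4 w hw1 hw2 hVc) e6 hp1 hp1' hC0
    hV hV' hθ
  exact ⟨k, hk1, hk2.trans (mul_le_mul_of_nonneg_right hε' (norm_nonneg _))⟩

end

/-- **The frame.** -/
theorem g_frame {X : ℝ × E m → E (m + 2)} (hX : ContDiff ℝ ∞ X) {p0 : ℝ × E m}
    (himm : Injective (fderiv ℝ X p0)) (h1 : ∃ δ > 0, ∀ p, ‖p - p0‖ ≤ δ → ‖X p‖ = 1) :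
    ∃ c > 0, ∃ δ > 0, ∀ p, ‖p - p0‖ ≤ δ → ∀ ξ : E (m + 2),
      c * ‖ξ‖ ≤ |⟪ξ, X p⟫| + ‖Gw X ξ p‖ := by
  obtain ⟨δ0, hδ0, h1⟩ := h1
  have hX0 : ‖X p0‖ = 1 := h1 p0 (by simp [hδ0.le])
  -- the tangent plane is orthogonal to `X p0`
  have hperp : ∀ u, ⟪X p0, fderiv ℝ X p0 u⟫ = 0 := fun u => by
    have hd : HasFDerivAt X (fderiv ℝ X p0) p0 := (hX.differentiable (by simp) p0).hasFDerivAt
    have h2 := hd.inner ℝ hd
    have h3 : (fun p => ⟪X p, X p⟫) =ᶠ[𝓝 p0] fun _ => (1 : ℝ) := by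
      refine (Metric.eventually_nhds_iff.2 ⟨δ0, hδ0, fun y hy => ?_⟩)
      simp only
      rw [real_inner_self_eq_norm_sq, h1 y (by rw [← dist_eq_norm]; exact hy.le), one_pow]
    have h4 : HasFDerivAt (fun p => ⟪X p, X p⟫) (0 : (ℝ × E m) →L[ℝ] ℝ) p0 :=
      (hasFDerivAt_const (1 : ℝ) p0).congr_of_eventuallyEq h3
    have h5 := congrArg (fun L : (ℝ × E m) →L[ℝ] ℝ => L u) (h2.unique h4)
    simp only [ContinuousLinearMap.comp_apply, ContinuousLinearMap.prod_apply,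
      fderivInnerCLM_apply, zero_apply] at h5
    rw [real_inner_comm (fderiv ℝ X p0 u)] at h5
    linarith [real_inner_comm (X p0) (fderiv ℝ X p0 u)]
  set L : (ℝ × (ℝ × E m)) →ₗ[ℝ] E (m + 2) :=
    { toFun := fun x => x.1 • X p0 + fderiv ℝ X p0 x.2
      map_add' := fun x y => by
        rw [Prod.fst_add, Prod.snd_add, add_smul, map_add]; abel
      map_smul' := fun a x => by
        rw [Prod.smul_fst, Prod.smul_snd, map_smul, smul_add, smul_assoc, RingHom.id_apply] } with hL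
  have hinj : Injective L := by
    rw [← LinearMap.ker_eq_bot, LinearMap.ker_eq_bot']
    intro x hx
    have hx' : x.1 • X p0 + fderiv ℝ X p0 x.2 = 0 := hx
    have h2 := congrArg (fun y => ⟪X p0, y⟫) hx'
    simp only [inner_add_right, inner_smul_right, inner_zero_right, hperp] at h2
    rw [real_inner_self_eq_norm_sq, hX0] at h2
    have h3 : x.1 = 0 := by linarith
    rw [h3, zero_smul, zero_add] at hx'
    have h4 : x.2 = 0 := himm (by rw [hx', map_zero])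
    exact Prod.ext h3 h4
  have hdim : finrank ℝ (ℝ × (ℝ × E m)) = finrank ℝ (E (m + 2)) := by
    simp only [Module.finrank_prod, Module.finrank_self, finrank_euclideanSpace,
      Fintype.card_fin]
    omega
  have hsurj : Surjective L := (LinearMap.injective_iff_surjective_of_finrank_eq_finrank hdim).1 hinj
  have hgl : Continuous fun x : (ℝ × E m) × E (m + 2) => gl x.2 (fderiv ℝ X x.1) := by
    simp only [gl_apply]
    have c1 : Continuous fun x : (ℝ × E m) × E (m + 2) => fderiv ℝ X x.1 :=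
      (g_dX hX).continuous.comp continuous_fst
    refine Continuous.prodMk (continuous_snd.inner (c1.clm_apply continuous_const)) ?_
    exact ((ContinuousLinearMap.adjoint (𝕜 := ℝ) (E := E m) (F := E (m + 2))).continuous.comp
      (c1.clm_comp continuous_const)).clm_apply continuous_snd
  have hF : Continuous fun x : (ℝ × E m) × E (m + 2) =>
      |⟪x.2, X x.1⟫| + ‖gl x.2 (fderiv ℝ X x.1)‖ :=
    (continuous_snd.inner (hX.continuous.comp continuous_fst)).abs.add hgl.norm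
  obtain ⟨c, hc, h⟩ := g_compact hF (p0 := p0) (isCompact_sphere (0 : E (m + 2)) 1)
    (fun ξ hξ => by
      rw [mem_sphere_zero_iff_norm] at hξ
      simp only
      by_contra h0
      have p1 := abs_nonneg ⟪ξ, X p0⟫
      have p2 := norm_nonneg (gl ξ (fderiv ℝ X p0))
      have q1 : ⟪ξ, X p0⟫ = 0 := abs_eq_zero.1 (by linarith)
      have q2 : gl ξ (fderiv ℝ X p0) = 0 := norm_eq_zero.1 (by linarith)
      obtain ⟨x, hx⟩ := hsurj ξ
      have hx' : x.1 • X p0 + fderiv ℝ X p0 x.2 = ξ := hx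
      have h2 : ⟪ξ, ξ⟫ = 0 := by
        have q3 : ⟪ξ, fderiv ℝ X p0 x.2⟫ = 0 := by
          rw [← dt_gl, q2]
          simp [dt]
        calc ⟪ξ, ξ⟫ = ⟪ξ, x.1 • X p0 + fderiv ℝ X p0 x.2⟫ := by rw [hx']
          _ = 0 := by rw [inner_add_right, inner_smul_right, q3, q1, mul_zero, add_zero]
      rw [real_inner_self_eq_norm_sq, hξ] at h2
      norm_num at h2)
  obtain ⟨δ, hδ, h5⟩ := Metric.eventually_nhds_iff.1 h
  refine ⟨c, hc, δ / 2, half_pos hδ, fun p hp ξ => ?_⟩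
  have h6 := h5 (y := p) (by rw [dist_eq_norm]; linarith)
  rcases eq_or_ne ξ 0 with rfl | hξ
  · rw [norm_zero, mul_zero]
    positivity
  have hξ' : 0 < ‖ξ‖ := norm_pos_iff.2 hξ
  have h7 := h6 (‖ξ‖⁻¹ • ξ) (by
    rw [mem_sphere_zero_iff_norm, norm_smul, norm_inv, norm_norm, inv_mul_cancel₀ hξ'.ne'])
  have h8 : gl (‖ξ‖⁻¹ • ξ) (fderiv ℝ X p) = ‖ξ‖⁻¹ • Gw X ξ p := by
    rw [Gw_eq, gl_apply, gl_apply, inner_smul_left, map_smul, Prod.smul_mk]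
    simp
  rw [inner_smul_left, h8, norm_smul, abs_mul, norm_inv, norm_norm] at h7
  have h9 : |(starRingEnd ℝ) ‖ξ‖⁻¹| = ‖ξ‖⁻¹ := by
    simp
  rw [h9, ← mul_add, inv_mul_eq_div, lt_div_iff₀ hξ'] at h7
  exact h7.le

end Pool.Agent.LF.G1
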