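import Pool.Agent.MP_6cbfb8_an.SteinTomas
import Pool.Agent.LF.EX
import Pool.Agent.LF.Cl

/-!
Densities which are rough in one direction: from neighbourhoods of the points of a compact set to
a neighbourhood of the compact set.
-/

namespace Pool.Agent.LF

open MeasureTheory Set Pool.Agent.MP_6cbfb8_an
open scoped ENNReal Real RealInnerProductSpace ContDiff Topology

/-- Bound for the densities `x ↦ G (φ x) x`. -/
def RB {n : ℕ} (φ : E n → ℝ) (p : ℝ) (U : Set (E n)) : Prop :=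
  ∀ B : ℕ → ℝ, ∃ C : ℝ≥0∞, C ≠ ⊤ ∧ ∀ G, Cl U B G →
    ∫⁻ ξ, ‖extn (fun x => G (φ x) x) ξ‖ₑ ^ p ≤ C

theorem Cl.mono {n : ℕ} {U V : Set (E n)} {B : ℕ → ℝ} {G : ℝ → E n → ℂ} (h : Cl V B G)
    (hVU : V ⊆ U) : Cl U B G :=
  ⟨h.1, h.2.1, h.2.2.1, fun t x hx hxU => h.2.2.2 t x hx fun hxV => hxU (hVU hxV)⟩

theorem RB.mono {n : ℕ} {φ : E n → ℝ} {p : ℝ} {U V : Set (E n)} (h : RB φ p U) (hVU : V ⊆ U) :
    RB φ p V := by
  intro B
  obtain ⟨C, hC, h'⟩ := h B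
  exact ⟨C, hC, fun G hG => h' G (hG.mono hVU)⟩

theorem lf_extn_congr {n : ℕ} {f g : E n → ℂ} (h : ∀ x : E n, ‖x‖ = 1 → f x = g x) (ξ : E n) :
    extn f ξ = extn g ξ := by
  unfold extn
  refine integral_congr_ae (Filter.Eventually.of_forall fun x => ?_)
  have hx : ‖(x : E n)‖ = 1 := mem_sphere_zero_iff_norm.mp x.2
  simp only [h x hx]

theorem rb_empty {n : ℕ} (φ : E n → ℝ) {p : ℝ} (hp : 0 < p) : RB φ p ∅ := by
  intro B
  refine ⟨0, ENNReal.zero_ne_top, fun G hG => ?_⟩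
  have h : ∀ ξ, extn (fun x => G (φ x) x) ξ = 0 := by
    intro ξ
    rw [lf_extn_congr (g := fun _ => 0) (fun x hx => hG.2.2.2 _ x hx (notMem_empty x))]
    unfold extn
    simp
  simp [h, ENNReal.zero_rpow_of_pos hp]

/-- The phase may be changed away from `V`. -/
theorem rb_congr {n : ℕ} {φ ψ : E n → ℝ} {V U : Set (E n)} (hφ : ∀ x ∈ V, φ x = ψ x)
    (hU : U ⊆ V) {p : ℝ} (h : RB φ p U) : RB ψ p U := by
  intro B
  obtain ⟨C, hC, h'⟩ := h B
  refine ⟨C, hC, fun G hG => le_trans (le_of_eq ?_) (h' G hG)⟩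
  refine lintegral_congr fun ξ => ?_
  rw [lf_extn_congr fun x hx => ?_]
  by_cases hxU : x ∈ U
  · rw [hφ x (hU hxU)]
  · rw [hG.2.2.2 _ x hx hxU, hG.2.2.2 _ x hx hxU]

theorem Cl.norm_le {n : ℕ} {U : Set (E n)} {B : ℕ → ℝ} {G : ℝ → E n → ℂ} (hG : Cl U B G)
    (t : ℝ) (x : E n) : ‖G t x‖ ≤ B 0 := by
  have h := hG.2.2.1 0 t x
  rwa [norm_iteratedFDeriv_zero] at h

theorem Cl.measurable {n : ℕ} {U : Set (E n)} {B : ℕ → ℝ} {G : ℝ → E n → ℂ} (hG : Cl U B G)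
    {φ : E n → ℝ} (hφ : Measurable φ) : Measurable fun x => G (φ x) x :=
  hG.1.comp (hφ.prodMk measurable_id)

theorem lf_integrable_extn {n : ℕ} {g : E n → ℂ} (hg : Measurable g) {b : ℝ}
    (hb : ∀ x, ‖g x‖ ≤ b) (ξ : E n) : Integrable (fun x : S n => g x *
      Complex.exp (((-(2 * π * inner ℝ (x : E n) ξ) : ℝ) : ℂ) * Complex.I)) (sm n) := by
  have h3 : Continuous fun x : S n => (inner ℝ (x : E n) ξ : ℝ) :=
    continuous_subtype_val.inner continuous_const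
  have h2 : Measurable fun x : S n =>
      Complex.exp (((-(2 * π * inner ℝ (x : E n) ξ) : ℝ) : ℂ) * Complex.I) :=
    (by fun_prop : Continuous fun x : S n =>
      Complex.exp (((-(2 * π * inner ℝ (x : E n) ξ) : ℝ) : ℂ) * Complex.I)).measurable
  have h1 := hg.comp (measurable_subtype_coe (p := fun x : E n => x ∈ S n))
  refine Integrable.mono' (integrable_const b) (h1.mul h2).aestronglyMeasurable ?_
  refine Filter.Eventually.of_forall fun x => ?_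
  rw [norm_mul, Complex.norm_exp_ofReal_mul_I, mul_one]
  exact hb _

/-- Two sets. -/
theorem rb_union {n : ℕ} {φ : E n → ℝ} (hφ : Measurable φ) {p : ℝ} (hp : 1 ≤ p)
    {L₁ V₁ W₂ : Set (E n)} (hL₁ : IsCompact L₁) (hV₁ : IsOpen V₁)
    (hLV₁ : L₁ ⊆ V₁) (h₁ : RB φ p V₁) (h₂ : RB φ p W₂) :
    RB φ p (L₁ ∪ W₂) := by
  obtain ⟨L, hL, hL₁L, hLV⟩ := exists_compact_between hL₁ hV₁ hLV₁
  obtain ⟨χ', hχ0, hχ1, hχ⟩ := exists_contMDiffMap_zero_one_of_isClosed (n := (⊤ : ℕ∞))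
    (modelWithCornersSelf ℝ (E n))
    (s := (interior L)ᶜ) (t := L₁) isOpen_interior.isClosed_compl hL₁.isClosed
    (disjoint_left.2 fun x hx hx' => hx (hL₁L hx'))
  set χ : E n → ℝ := fun x => χ' x with hχd
  have hχs : ContDiff ℝ ∞ χ := χ'.contMDiff.contDiff
  have hχsupp : ∀ x, x ∉ L → χ x = 0 := fun x hx => hχ0 fun h => hx (interior_subset h)
  have hcomp : HasCompactSupport χ := by
    refine HasCompactSupport.intro hL hχsupp
  have hM : ∀ i : ℕ, ∃ M : ℝ, ∀ x, ‖iteratedFDeriv ℝ i χ x‖ ≤ M := by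
    intro i
    have hc : Continuous (iteratedFDeriv ℝ i χ) :=
      hχs.continuous_iteratedFDeriv (by exact_mod_cast le_top)
    have hs : HasCompactSupport (iteratedFDeriv ℝ i χ) := hcomp.iteratedFDeriv i
    exact hs.exists_bound_of_continuous hc
  choose M hM using hM
  intro B
  set B₁ : ℕ → ℝ := fun k => ∑ i ∈ Finset.range (k + 1), (k.choose i : ℝ) * M i * B (k - i) with hB₁
  obtain ⟨C₁, hC₁, hb₁⟩ := h₁ B₁
  obtain ⟨C₂, hC₂, hb₂⟩ := h₂ (fun k => B k + B₁ k)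
  refine ⟨2 ^ (p - 1) * (C₁ + C₂), ?_, fun G hG => ?_⟩
  · exact ENNReal.mul_ne_top (ENNReal.rpow_ne_top_of_nonneg (by linarith) (by simp))
      (ENNReal.add_ne_top.2 ⟨hC₁, hC₂⟩)
  obtain ⟨hGm, hGs, hGb, hG0⟩ := hG
  have hM0 : ∀ i, 0 ≤ M i := fun i => (norm_nonneg _).trans (hM i 0)
  have hbd₁ : ∀ k t x, ‖iteratedFDeriv ℝ k (fun y => χ y • G t y) x‖ ≤ B₁ k := by
    intro k t x
    refine (norm_iteratedFDeriv_smul_le (N := ∞) hχs (hGs t) x
      (by exact_mod_cast le_top)).trans ?_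
    refine Finset.sum_le_sum fun i _ => ?_
    have h1 := hM i x
    have h2 := hGb (k - i) t x
    have h3 := hM0 i
    gcongr
  have hr₁ : Cl V₁ B₁ fun t x => χ x • G t x := by
    refine ⟨?_, fun t => hχs.smul (hGs t), hbd₁, fun t x _ hx => ?_⟩
    · exact (hχs.continuous.measurable.comp measurable_snd).smul hGm
    · simp only
      rw [hχsupp x fun h => hx (hLV h), zero_smul]
  have hr₂ : Cl W₂ (fun k => B k + B₁ k) fun t x => G t x - χ x • G t x := by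
    refine ⟨?_, fun t => (hGs t).sub (hχs.smul (hGs t)), ?_, fun t x hx1 hx => ?_⟩
    · exact hGm.sub ((hχs.continuous.measurable.comp measurable_snd).smul hGm)
    · intro k t x
      have h1 : iteratedFDeriv ℝ k (fun y => G t y - χ y • G t y) x =
          iteratedFDeriv ℝ k (G t) x - iteratedFDeriv ℝ k (fun y => χ y • G t y) x := by
        have h2 := iteratedFDeriv_sub_apply (𝕜 := ℝ) (i := k) (x := x) (f := G t)
          (g := fun y => χ y • G t y)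
          ((hGs t).of_le (by exact_mod_cast le_top)).contDiffAt
          ((hχs.smul (hGs t)).of_le (by exact_mod_cast le_top)).contDiffAt
        exact h2
      rw [h1]
      exact (norm_sub_le _ _).trans (add_le_add (hGb k t x) (hbd₁ k t x))
    · by_cases hx₁ : x ∈ L₁
      · have h1 : χ x = 1 := hχ1 hx₁
        simp only
        rw [h1, one_smul, sub_self]
      · simp only
        rw [hG0 t x hx1 fun h => h.elim hx₁ hx, smul_zero, sub_self]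
  have hm₁ := hr₁.measurable hφ
  have hm₂ := hr₂.measurable hφ
  have hsum : ∀ ξ, extn (fun x => G (φ x) x) ξ =
      extn (fun x => χ x • G (φ x) x) ξ + extn (fun x => G (φ x) x - χ x • G (φ x) x) ξ := by
    intro ξ
    unfold extn
    rw [← integral_add (lf_integrable_extn hm₁ (fun x => hr₁.norm_le (φ x) x) ξ)
      (lf_integrable_extn hm₂ (fun x => hr₂.norm_le (φ x) x) ξ)]
    refine integral_congr_ae (Filter.Eventually.of_forall fun x => ?_)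
    simp only
    ring
  calc ∫⁻ ξ, ‖extn (fun x => G (φ x) x) ξ‖ₑ ^ p
      ≤ ∫⁻ ξ, 2 ^ (p - 1) * (‖extn (fun x => χ x • G (φ x) x) ξ‖ₑ ^ p +
          ‖extn (fun x => G (φ x) x - χ x • G (φ x) x) ξ‖ₑ ^ p) := by
        refine lintegral_mono fun ξ => ?_
        rw [hsum]
        refine (ENNReal.rpow_le_rpow (enorm_add_le _ _) (by linarith)).trans ?_
        exact ENNReal.rpow_add_le_mul_rpow_add_rpow _ _ hp
    _ = 2 ^ (p - 1) * ((∫⁻ ξ, ‖extn (fun x => χ x • G (φ x) x) ξ‖ₑ ^ p) +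
          ∫⁻ ξ, ‖extn (fun x => G (φ x) x - χ x • G (φ x) x) ξ‖ₑ ^ p) := by
        rw [lintegral_const_mul', lintegral_add_left]
        · exact (STAux.measurable_extn _ hm₁).enorm.pow_const p
        · exact ENNReal.rpow_ne_top_of_nonneg (by linarith) (by simp)
    _ ≤ _ := mul_le_mul_right (add_le_add (hb₁ _ hr₁) (hb₂ _ hr₂)) _

/-- From the neighbourhoods of the points of a compact set to a neighbourhood of the compact
set, for all exponents in `P` at a time. -/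
theorem rb_compact {n : ℕ} {φ : E n → ℝ} {P : Set ℝ} (hP : ∀ p ∈ P, 1 ≤ p) {V : Set (E n)}
    (hV : IsOpen V) (hφ : ContinuousOn φ V) {K : Set (E n)} (hK : IsCompact K) (hKV : K ⊆ V)
    (hloc : ∀ x ∈ K, ∃ U ∈ 𝓝 x, ∀ p ∈ P, RB φ p U) :
    ∃ U, IsOpen U ∧ K ⊆ U ∧ ∀ p ∈ P, RB φ p U := by
  classical
  have hm : Measurable (V.piecewise φ fun _ => 0) :=
    ContinuousOn.measurable_piecewise hφ continuousOn_const hV.measurableSet
  set φ' : E n → ℝ := V.piecewise φ fun _ => 0 with hφ'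
  have hφV : ∀ x ∈ V, φ x = φ' x := fun x hx => (Set.piecewise_eq_of_mem _ _ _ hx).symm
  have key : ∃ L, IsCompact L ∧ K ⊆ L ∧ ∃ U, IsOpen U ∧ L ⊆ U ∧ U ⊆ V ∧
      ∀ p ∈ P, RB φ' p U := by
    refine hK.induction_on (p := fun s => ∃ L, IsCompact L ∧ s ⊆ L ∧ ∃ U, IsOpen U ∧ L ⊆ U ∧
      U ⊆ V ∧ ∀ p ∈ P, RB φ' p U) ?_ ?_ ?_ ?_
    · exact ⟨∅, isCompact_empty, subset_rfl, ∅, isOpen_empty, subset_rfl, empty_subset _,
        fun p hp => rb_empty φ' (by linarith [hP p hp])⟩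
    · rintro s t hst ⟨L, hL, htL, h⟩
      exact ⟨L, hL, hst.trans htL, h⟩
    · rintro s t ⟨L₁, hL₁, hs, V₁, hV₁, hLV₁, hVV₁, h₁⟩ ⟨L₂, hL₂, ht, V₂, hV₂, hLV₂, hVV₂, h₂⟩
      obtain ⟨L, hL, hL₁L, hLV⟩ := exists_compact_between hL₁ hV₁ hLV₁
      refine ⟨L₁ ∪ L₂, hL₁.union hL₂, union_subset_union hs ht, interior L ∪ V₂,
        isOpen_interior.union hV₂, union_subset_union hL₁L hLV₂,
        union_subset (interior_subset.trans (hLV.trans hVV₁)) hVV₂, fun p hp => ?_⟩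
      exact (rb_union hm (hP p hp) hL hV₁ hLV (h₁ p hp) (h₂ p hp)).mono
        (union_subset_union_left _ interior_subset)
    · intro x hx
      obtain ⟨U, hU, h⟩ := hloc x hx
      have hUV : interior U ∩ V ∈ 𝓝 x :=
        Filter.inter_mem (interior_mem_nhds.2 hU) (hV.mem_nhds (hKV hx))
      obtain ⟨L, hL, hxL, hLU⟩ := exists_compact_subset (isOpen_interior.inter hV)
        (mem_of_mem_nhds hUV)
      refine ⟨L, mem_nhdsWithin_of_mem_nhds (mem_interior_iff_mem_nhds.1 hxL), L, hL, subset_rfl,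
        interior U ∩ V, isOpen_interior.inter hV, hLU, inter_subset_right, fun p hp => ?_⟩
      exact rb_congr hφV inter_subset_right
        ((h p hp).mono (inter_subset_left.trans interior_subset))
  obtain ⟨L, -, hKL, U, hU, hLU, hUV, h⟩ := key
  exact ⟨U, hU, hKL.trans hLU, fun p hp => rb_congr (fun x hx => (hφV x hx).symm) hUV (h p hp)⟩

/-- The statement at a point. -/
def LeafAt (n : ℕ) : Prop :=
  ∀ (φ : E n → ℝ) (x0 : E n), ‖x0‖ = 1 → (∀ᶠ x in 𝓝 x0, ContDiffAt ℝ ∞ φ x) → Cyc φ x0 →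
    ∃ U, IsOpen U ∧ x0 ∈ U ∧ ∀ p : ℝ, 2 * (n : ℝ) / (n - 1) < p →
      ∀ B : ℕ → ℝ, ∃ C : ℝ≥0∞, C ≠ ⊤ ∧ ∀ G, Cl U B G →
        ∫⁻ ξ, ‖extn (fun x => G (φ x) x) ξ‖ₑ ^ p ≤ C

/-- Compact sets of points of the sphere where the condition holds: one neighbourhood of the
compact set and one constant. -/
theorem glue {n : ℕ} (hn : 3 ≤ n) (H : LeafAt n) (φ : E n → ℝ) {K : Set (E n)} (hK : IsCompact K)
    (hc : ∀ x ∈ K, ‖x‖ = 1 ∧ (∀ᶠ y in 𝓝 x, ContDiffAt ℝ ∞ φ y) ∧ Cyc φ x) :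
    ∃ U, IsOpen U ∧ K ⊆ U ∧ ∀ p : ℝ, 2 * (n : ℝ) / (n - 1) < p →
      ∀ B : ℕ → ℝ, ∃ C : ℝ≥0∞, C ≠ ⊤ ∧ ∀ G, Cl U B G →
        ∫⁻ ξ, ‖extn (fun x => G (φ x) x) ξ‖ₑ ^ p ≤ C := by
  set V : Set (E n) := {x | ∀ᶠ y in 𝓝 x, ContDiffAt ℝ ∞ φ y} with hV
  have hVo : IsOpen V := isOpen_setOfPred_eventually_nhds
  have hcont : ContinuousOn φ V := fun x hx =>
    (hx.self_of_nhds : ContDiffAt ℝ ∞ φ x).continuousAt.continuousWithinAt
  have hP : ∀ p ∈ {p : ℝ | 2 * (n : ℝ) / (n - 1) < p}, 1 ≤ p := by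
    intro p hp
    have hn3 : (3 : ℝ) ≤ n := by exact_mod_cast hn
    have h1 : (1 : ℝ) ≤ 2 * (n : ℝ) / (n - 1) := by
      rw [le_div_iff₀ (by linarith)]
      linarith
    exact h1.trans (le_of_lt hp)
  obtain ⟨U, hU, hKU, h⟩ := rb_compact hP hVo hcont hK (fun x hx => (hc x hx).2.1) fun x hx => by
    obtain ⟨U, hU, hxU, h⟩ := H φ x (hc x hx).1 (hc x hx).2.1 (hc x hx).2.2
    exact ⟨U, hU.mem_nhds hxU, h⟩
  exact ⟨U, hU, hKU, h⟩

/-- The products `a (x) F (φ (x))`. -/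
theorem rb_prod {n : ℕ} {φ : E n → ℝ} {p : ℝ} {U : Set (E n)}
    (h : ∀ B : ℕ → ℝ, ∃ C : ℝ≥0∞, C ≠ ⊤ ∧ ∀ G, Cl U B G →
      ∫⁻ ξ, ‖extn (fun x => G (φ x) x) ξ‖ₑ ^ p ≤ C) {a : E n → ℂ}
    (ha : ContDiff ℝ ∞ a) (hac : HasCompactSupport a) (hU : ∀ x, ‖x‖ = 1 → x ∉ U → a x = 0) :
    ∃ C : ℝ≥0∞, C ≠ ⊤ ∧ ∀ F : ℝ → ℂ, Measurable F → (∀ t, ‖F t‖ ≤ 1) →
      ∫⁻ ξ, ‖extn (fun x => a x * F (φ x)) ξ‖ₑ ^ p ≤ C := by
  have hM : ∀ i : ℕ, ∃ M : ℝ, ∀ x, ‖iteratedFDeriv ℝ i a x‖ ≤ M := by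
    intro i
    have hc : Continuous (iteratedFDeriv ℝ i a) :=
      ha.continuous_iteratedFDeriv (by exact_mod_cast le_top)
    exact (hac.iteratedFDeriv i).exists_bound_of_continuous hc
  choose M hM using hM
  obtain ⟨C, hC, h'⟩ := h M
  refine ⟨C, hC, fun F hF hF1 => ?_⟩
  have h1 : Cl U M fun t x => F t • a x := by
    refine ⟨?_, fun t => ha.const_smul (F t), ?_, fun t x hx hxU => by
      simp only
      rw [hU x hx hxU, smul_zero]⟩
    · exact (hF.comp measurable_fst).smul (ha.continuous.measurable.comp measurable_snd)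
    · intro k t x
      have h2 : iteratedFDeriv ℝ k (fun y => F t • a y) x = F t • iteratedFDeriv ℝ k a x :=
        iteratedFDeriv_const_smul_apply (𝕜 := ℝ) (i := k) (a := F t) (f := a)
          (ha.of_le (by exact_mod_cast le_top)).contDiffAt
      rw [h2, norm_smul]
      calc ‖F t‖ * ‖iteratedFDeriv ℝ k a x‖ ≤ 1 * ‖iteratedFDeriv ℝ k a x‖ := by
            gcongr
            exact hF1 t
        _ ≤ M k := by rw [one_mul]; exact hM k x
  have h3 := h' _ h1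
  refine le_trans (le_of_eq ?_) h3
  refine lintegral_congr fun ξ => ?_
  congr 3
  funext x
  rw [smul_eq_mul, mul_comm]

/-- The points where the condition holds are an open set. -/
theorem cyc_isOpen {n : ℕ} (φ : E n → ℝ) :
    IsOpen {x : E n | x ≠ 0 ∧ (∀ᶠ y in 𝓝 x, ContDiffAt ℝ ∞ φ y) ∧ Cyc φ x} := by
  rw [isOpen_iff_mem_nhds]
  rintro x ⟨hx, hφ, hc⟩
  have h1 : ∀ᶠ y in 𝓝 x, y ≠ 0 := isOpen_ne.mem_nhds hx
  have h2 : ∀ᶠ y in 𝓝 x, ∀ᶠ z in 𝓝 y, ContDiffAt ℝ ∞ φ z := hφ.eventually_nhds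
  have h4 : (2 : WithTop ℕ∞) ≤ ((⊤ : ℕ∞) : WithTop ℕ∞) := ENat.LEInfty.out
  have h3 := cyc_open φ x hx (hφ.self_of_nhds.of_le h4) hc
  filter_upwards [h1, h2, h3] with y hy1 hy2 hy3
  exact ⟨hy1, hy2, hy3⟩

end Pool.Agent.LF
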