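import Pool.Agent.LF.Df0

/-!
[LEAF], row T: the determinant form of the geometric inequality.
-/

set_option autoImplicit false

namespace Pool.Agent.LF

open MeasureTheory Set Pool.Agent.MP_6cbfb8_an Filter Topology
open scoped ENNReal Real RealInnerProductSpace ContDiff

variable {m n : ℕ}

/-- The pairing on `ℝ × E m`. -/
noncomputable def pr (s k : ℝ × E m) : ℝ := s.1 * k.1 + ⟪s.2, k.2⟫

theorem pr_add (s t k : ℝ × E m) : pr (s + t) k = pr s k + pr t k := by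
  simp only [pr, Prod.fst_add, Prod.snd_add, inner_add_left]
  ring

theorem pr_smul (c : ℝ) (s k : ℝ × E m) : pr (c • s) k = c * pr s k := by
  simp only [pr, Prod.smul_fst, Prod.smul_snd, inner_smul_left, smul_eq_mul, conj_trivial]
  ring

theorem pr_sub (s t k : ℝ × E m) : pr (s - t) k = pr s k - pr t k := by
  simp only [pr, Prod.fst_sub, Prod.snd_sub, inner_sub_left]
  ring

theorem abs_pr_le (s k : ℝ × E m) : |pr s k| ≤ 2 * ‖s‖ * ‖k‖ := by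
  have h1 : |s.1 * k.1| ≤ ‖s‖ * ‖k‖ := by
    rw [abs_mul]
    exact mul_le_mul (norm_fst_le s) (norm_fst_le k) (abs_nonneg _) (norm_nonneg _)
  have h2 : |⟪s.2, k.2⟫| ≤ ‖s‖ * ‖k‖ :=
    (abs_real_inner_le_norm _ _).trans
      (mul_le_mul (norm_snd_le s) (norm_snd_le k) (norm_nonneg _) (norm_nonneg _))
  calc |pr s k| ≤ |s.1 * k.1| + |⟪s.2, k.2⟫| := abs_add_le _ _
    _ ≤ 2 * ‖s‖ * ‖k‖ := by linarith

/-- The gradient of `ξ · X`. -/
theorem pr_Gw (X : ℝ × E m → E n) (ξ : E n) (q k : ℝ × E m) :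
    pr (Gw X ξ q) k = ⟪ξ, fderiv ℝ X q k⟫ := by
  have h1 : k = k.1 • ((1 : ℝ), (0 : E m)) + ((0 : ℝ), k.2) := by
    ext <;> simp
  have h2 : fderiv ℝ X q k = k.1 • fderiv ℝ X q (1, 0) + fderiv ℝ X q (0, k.2) := by
    conv_lhs => rw [h1]
    rw [map_add, map_smul]
  rw [h2, inner_add_right, inner_smul_right]
  simp only [pr, Gw, Xt, Vw, Xz]
  rw [ContinuousLinearMap.adjoint_inner_left]
  simp only [ContinuousLinearMap.comp_apply, ContinuousLinearMap.inr_apply]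
  ring

theorem inner_Vw (X : ℝ × E m → E n) (w : E n) (q : ℝ × E m) (y : E m) :
    ⟪y, Vw X w q⟫ = ⟪w, fderiv ℝ X q (0, y)⟫ := by
  have h := pr_Gw X w q (0, y)
  simp only [pr, Gw, mul_zero, zero_add] at h
  rw [real_inner_comm]
  exact h

/-- `Gw` is small if the derivative is. -/
theorem norm_Gw_sub_le (X : ℝ × E m → E n) (ξ : E n) (q q' : ℝ × E m) :
    ‖Gw X ξ q' - Gw X ξ q‖ ≤ ‖ξ‖ * ‖fderiv ℝ X q' - fderiv ℝ X q‖ := by
  rw [Prod.norm_def]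
  refine max_le ?_ ?_
  · have h1 : (Gw X ξ q' - Gw X ξ q).1 = ⟪ξ, (fderiv ℝ X q' - fderiv ℝ X q) (1, 0)⟫ := by
      simp only [Gw, Xt, Prod.fst_sub, _root_.sub_apply, inner_sub_right]
    rw [h1, Real.norm_eq_abs]
    refine (abs_real_inner_le_norm _ _).trans ?_
    refine mul_le_mul_of_nonneg_left ?_ (norm_nonneg _)
    refine ((fderiv ℝ X q' - fderiv ℝ X q).le_opNorm _).trans (le_of_eq ?_)
    simp [Prod.norm_def]
  · set s : E m := (Gw X ξ q' - Gw X ξ q).2 with hs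
    have h1 : ⟪s, s⟫ = ⟪ξ, (fderiv ℝ X q' - fderiv ℝ X q) (0, s)⟫ := by
      have e : s = Vw X ξ q' - Vw X ξ q := rfl
      have h0 : ⟪s, s⟫ = ⟪s, Vw X ξ q' - Vw X ξ q⟫ := by rw [← e]
      rw [h0, inner_sub_right, inner_Vw, inner_Vw, _root_.sub_apply, inner_sub_right]
    have h2 : ‖s‖ * ‖s‖ ≤ ‖ξ‖ * ‖fderiv ℝ X q' - fderiv ℝ X q‖ * ‖s‖ := by
      rw [← real_inner_self_eq_norm_mul_norm, h1]
      refine (real_inner_le_norm _ _).trans ?_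
      rw [mul_assoc]
      refine mul_le_mul_of_nonneg_left ?_ (norm_nonneg _)
      refine ((fderiv ℝ X q' - fderiv ℝ X q).le_opNorm _).trans (le_of_eq ?_)
      simp [Prod.norm_def]
    rcases (norm_nonneg s).eq_or_lt with h3 | h3
    · rw [← h3]
      positivity
    · exact le_of_mul_le_mul_right h2 h3

/-- `Vw` in coordinates. -/
theorem Vw_eq (X : ℝ × E m → E n) (w : E n) (q : ℝ × E m) :
    Vw X w q = ∑ i, ⟪w, fderiv ℝ X q (0, EuclideanSpace.basisFun (Fin m) ℝ i)⟫ •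
      (EuclideanSpace.basisFun (Fin m) ℝ i : E m) := by
  rw [← (EuclideanSpace.basisFun (Fin m) ℝ).sum_repr' (Vw X w q)]
  simp only [inner_Vw]

theorem diff_inner {X : ℝ × E m → E n} (hX : ContDiff ℝ ∞ X) (w : E n) (k : ℝ × E m) :
    Differentiable ℝ fun q => ⟪w, fderiv ℝ X q k⟫ := by
  have h1 : ContDiff ℝ ∞ (fderiv ℝ X) := hX.fderiv_right (m := ∞) (by simp)
  have h2 : Differentiable ℝ (fderiv ℝ X) := h1.differentiable (by simp)
  exact (differentiable_const w).inner ℝ (h2.clm_apply (differentiable_const k))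

theorem diff_Vw {X : ℝ × E m → E n} (hX : ContDiff ℝ ∞ X) (w : E n) :
    Differentiable ℝ (Vw X w) := by
  have e : Vw X w = fun q => ∑ i, ⟪w, fderiv ℝ X q (0, EuclideanSpace.basisFun (Fin m) ℝ i)⟫ •
      (EuclideanSpace.basisFun (Fin m) ℝ i : E m) := funext fun q => Vw_eq X w q
  rw [e]
  exact Differentiable.fun_sum fun i _ => (diff_inner hX w _).smul_const _

theorem diff_Gw {X : ℝ × E m → E n} (hX : ContDiff ℝ ∞ X) (w : E n) :
    Differentiable ℝ (Gw X w) := by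
  unfold Gw
  exact (diff_inner hX w (1, 0)).prodMk (diff_Vw hX w)

theorem fderiv_inner_X {X : ℝ × E m → E n} (hX : ContDiff ℝ ∞ X) (w : E n) (q u k : ℝ × E m) :
    fderiv ℝ (fun q => ⟪w, fderiv ℝ X q k⟫) q u = ⟪w, fderiv ℝ (fderiv ℝ X) q u k⟫ := by
  have h1 : ContDiff ℝ ∞ (fderiv ℝ X) := hX.fderiv_right (m := ∞) (by simp)
  have h2 : Differentiable ℝ (fderiv ℝ X) := h1.differentiable (by simp)
  rw [fderiv_inner_apply ℝ (differentiableAt_const w) (h2.clm_apply (differentiable_const k) q),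
    fderiv_clm_apply (h2 q) (differentiableAt_const k)]
  simp

/-- The derivative of the gradient. -/
theorem pr_fderiv_Gw {X : ℝ × E m → E n} (hX : ContDiff ℝ ∞ X) (w : E n) (q u k : ℝ × E m) :
    pr (fderiv ℝ (Gw X w) q u) k = ⟪w, fderiv ℝ (fderiv ℝ X) q u k⟫ := by
  set L : ℝ × E m →L[ℝ] ℝ := k.1 • ContinuousLinearMap.fst ℝ ℝ (E m) +
    (innerSL ℝ k.2).comp (ContinuousLinearMap.snd ℝ ℝ (E m)) with hL
  have hLs : ∀ s, L s = pr s k := fun s => by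
    simp [hL, pr, real_inner_comm, mul_comm]
  have h1 : fderiv ℝ (fun q => L (Gw X w q)) q u = L (fderiv ℝ (Gw X w) q u) := by
    have h3 := L.hasFDerivAt.comp q (diff_Gw hX w q).hasFDerivAt
    have h4 := h3.fderiv
    have h5 : (L ∘ Gw X w) = fun q => L (Gw X w q) := rfl
    rw [h5] at h4
    rw [h4]
    rfl
  have h2 : (fun q => L (Gw X w q)) = fun q => ⟪w, fderiv ℝ X q k⟫ := by
    funext q
    rw [hLs, pr_Gw]
  rw [← hLs, ← h1, h2, fderiv_inner_X hX]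

theorem inner_fderiv_Vw {X : ℝ × E m → E n} (hX : ContDiff ℝ ∞ X) (w : E n) (q k : ℝ × E m)
    (y : E m) : ⟪y, fderiv ℝ (Vw X w) q k⟫ = ⟪w, fderiv ℝ (fderiv ℝ X) q k (0, y)⟫ := by
  have h1 : fderiv ℝ (fun q => ⟪y, Vw X w q⟫) q k = ⟪y, fderiv ℝ (Vw X w) q k⟫ := by
    rw [fderiv_inner_apply ℝ (differentiableAt_const y) (diff_Vw hX w q)]
    simp
  rw [← h1]
  have h2 : (fun q => ⟪y, Vw X w q⟫) = fun q => ⟪w, fderiv ℝ X q (0, y)⟫ :=
    funext fun q => inner_Vw X w q y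
  rw [h2, fderiv_inner_X hX]

/-- The transposed matrix. -/
theorem pr_transpose {X : ℝ × E m → E n} (hX : ContDiff ℝ ∞ X) (w : E n) (q k : ℝ × E m)
    (y : E m) : pr (fderiv ℝ (Gw X w) q (0, y)) k = ⟪y, fderiv ℝ (Vw X w) q k⟫ := by
  rw [pr_fderiv_Gw hX, inner_fderiv_Vw hX]
  have h1 : IsSymmSndFDerivAt ℝ X q :=
    (hX.contDiffAt (x := q)).isSymmSndFDerivAt (by
      rw [minSmoothness_of_isRCLikeNormedField]
      exact WithTop.coe_le_coe.2 (le_top : (2 : ℕ∞) ≤ ⊤))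
  rw [h1.eq]

/-- Bounds near one point. -/
theorem loc_bounds {X : ℝ × E m → E n} (hX : ContDiff ℝ ∞ X) (p0 : ℝ × E m) : ∃ A : ℝ, 1 ≤ A ∧
    ∀ p p' : ℝ × E m, ‖p - p0‖ ≤ 1 → ‖p' - p0‖ ≤ 1 →
      ‖fderiv ℝ X p‖ ≤ A ∧ ‖fderiv ℝ X p' - fderiv ℝ X p‖ ≤ A * ‖p' - p‖ ∧
      ‖X p - X p' - fderiv ℝ X p' (p - p')‖ ≤ A * ‖p - p'‖ * ‖p - p'‖ := by
  have h1 : ContDiff ℝ ∞ (fderiv ℝ X) := hX.fderiv_right (m := ∞) (by simp)
  have h2 : ContDiff ℝ ∞ (fderiv ℝ (fderiv ℝ X)) := h1.fderiv_right (m := ∞) (by simp)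
  have hK : IsCompact (Metric.closedBall p0 1) := isCompact_closedBall _ _
  obtain ⟨A1, hA1⟩ := hK.exists_bound_of_continuousOn h1.continuous.continuousOn
  obtain ⟨A2, hA2⟩ := hK.exists_bound_of_continuousOn (f := fderiv ℝ (fderiv ℝ X))
    h2.continuous.continuousOn
  refine ⟨max 1 (max A1 A2), le_max_left _ _, fun p p' hp hp' => ?_⟩
  have hpm : p ∈ Metric.closedBall p0 1 := by rwa [mem_closedBall_iff_norm]
  have hpm' : p' ∈ Metric.closedBall p0 1 := by rwa [mem_closedBall_iff_norm]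
  have hcv : Convex ℝ (Metric.closedBall p0 1) := convex_closedBall _ _
  have hlip : ∀ a ∈ Metric.closedBall p0 1, ∀ b ∈ Metric.closedBall p0 1,
      ‖fderiv ℝ X b - fderiv ℝ X a‖ ≤ max 1 (max A1 A2) * ‖b - a‖ := by
    intro a ha b hb
    refine hcv.norm_image_sub_le_of_norm_fderiv_le (f := fderiv ℝ X)
      (fun x _ => h1.differentiable (by simp) x) (fun x hx => ?_) ha hb
    exact (hA2 x hx).trans ((le_max_right _ _).trans (le_max_right _ _))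
  refine ⟨(hA1 p hpm).trans ((le_max_left _ _).trans (le_max_right _ _)), hlip p hpm p' hpm', ?_⟩
  have hseg : segment ℝ p' p ⊆ Metric.closedBall p0 1 := hcv.segment_subset hpm' hpm
  refine (convex_segment p' p).norm_image_sub_le_of_norm_fderiv_le' (f := X)
    (φ := fderiv ℝ X p') (C := max 1 (max A1 A2) * ‖p - p'‖)
    (fun x _ => hX.differentiable (by simp) x) (fun x hx => ?_) (left_mem_segment ℝ p' p)
    (right_mem_segment ℝ p' p)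
  refine (hlip p' hpm' x (hseg hx)).trans ?_
  gcongr
  have h3 := norm_sub_le_of_mem_segment hx
  exact h3

theorem pr_ext {s t : ℝ × E m} (h : ∀ k, pr s k = pr t k) : s = t := by
  have h1 : pr (s - t) (s - t) = 0 := by
    rw [pr_sub, h, sub_self]
  simp only [pr] at h1
  have h2 : 0 ≤ (s - t).1 * (s - t).1 := mul_self_nonneg _
  have h3 : 0 ≤ ⟪(s - t).2, (s - t).2⟫ := real_inner_self_nonneg
  have h4 : (s - t).1 = 0 := mul_self_eq_zero.1 (by linarith)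
  have h5 : (s - t).2 = 0 := inner_self_eq_zero.1 (show ⟪(s - t).2, (s - t).2⟫ = 0 by linarith)
  exact sub_eq_zero.1 (Prod.ext h4 h5)

/-- On the part where `|X| = 1` the derivative is orthogonal to `X`. -/
theorem inner_X_fderiv {X : ℝ × E m → E n} (hX : ContDiff ℝ ∞ X) {p0 : ℝ × E m} {δ : ℝ}
    (hs : ∀ p, ‖p - p0‖ ≤ δ → ‖X p‖ = 1) {p : ℝ × E m} (hp : ‖p - p0‖ < δ) (k : ℝ × E m) :
    ⟪X p, fderiv ℝ X p k⟫ = 0 := by
  have hd : DifferentiableAt ℝ X p := hX.differentiable (by simp) p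
  have e1 : (fun r => ⟪X r, X r⟫) =ᶠ[𝓝 p] fun _ => (1 : ℝ) := by
    have : Metric.ball p0 δ ∈ 𝓝 p := Metric.isOpen_ball.mem_nhds (by
      rwa [mem_ball_iff_norm])
    filter_upwards [this] with r hr
    rw [real_inner_self_eq_norm_sq, hs r (mem_ball_iff_norm.1 hr).le, one_pow]
  have e2 : fderiv ℝ (fun r => ⟪X r, X r⟫) p k = 0 := by
    rw [e1.fderiv_eq]
    simp
  rw [fderiv_inner_apply ℝ hd hd, real_inner_comm (X p) (fderiv ℝ X p k)] at e2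
  linarith

/-- **Row T**: the determinant form. -/
theorem det_T {X : ℝ × E m → E n} (hX : ContDiff ℝ ∞ X) {p0 : ℝ × E m}
    (h1 : ∃ δ > 0, ∀ p, ‖p - p0‖ ≤ δ → ‖X p‖ = 1)
    (hqn : ∃ c > 0, ∃ δ > 0, ∀ p, ‖p - p0‖ ≤ δ → (∀ u, c * ‖u‖ ≤ ‖fderiv ℝ X p u‖) ∧
      ∀ w : E n, 1 / 4 ≤ ‖w‖ → ‖w‖ ≤ 8 → ‖Vw X w p‖ < c →
        ∀ v : E m, c * ‖v‖ ≤ ‖fderiv ℝ (Gw X w) p (0, v)‖)
    (hkap : ∀ ε > 0, ∃ δ > 0, ∃ C > 0, ∀ (p p' : ℝ × E m) (w : E n) (θ : ℝ), ‖p - p0‖ ≤ δ →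
      ‖p' - p0‖ ≤ δ → 1 / 4 ≤ ‖w‖ → ‖w‖ ≤ 8 → ‖Vw X w p‖ ≤ θ → ‖Vw X w p'‖ ≤ θ →
      C * θ ≤ ‖p - p'‖ → p ≠ p' → ∃ kp : ℝ × E m, fderiv ℝ (Vw X w) p' kp = 0 ∧
        ‖(p - p') - kp‖ ≤ ε * ‖p - p'‖)
    (hfr : ∃ c > 0, ∃ δ > 0, ∀ p, ‖p - p0‖ ≤ δ → ∀ ξ : E n, c * ‖ξ‖ ≤ |⟪ξ, X p⟫| + ‖Gw X ξ p‖) :
    ∃ c > 0, ∃ C0 > 0, ∃ δ > 0, ∀ (p p' : ℝ × E m) (w : E n) (θ : ℝ), ‖p - p0‖ ≤ δ →
      ‖p' - p0‖ ≤ δ → 1 / 2 ≤ ‖w‖ → ‖w‖ ≤ 4 → ‖Vw X w p‖ ≤ θ → ‖Vw X w p'‖ ≤ θ →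
      C0 * θ ≤ ‖p - p'‖ → p ≠ p' → ∀ (w1 : E n) (y1 : E m),
      c * (‖w1‖ + ‖y1‖) ≤ ‖Gw X w1 p‖ +
        ‖(‖p - p'‖)⁻¹ • (Gw X w1 p' - Gw X w1 p) + fderiv ℝ (Gw X w) p' (0, y1)‖ := by
  obtain ⟨δ1, hδ1, hs⟩ := h1
  obtain ⟨c2, hc2, δ2, hδ2, hq⟩ := hqn
  obtain ⟨c3, hc3, δ3, hδ3, hf⟩ := hfr
  obtain ⟨A, hA, hloc⟩ := loc_bounds hX p0
  have hA0 : 0 < A := by linarith
  -- the choice of `ε`
  set ε : ℝ := min (1 / 2) (c2 / (8 * A)) with hε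
  have hε0 : 0 < ε := lt_min (by norm_num) (by positivity)
  have hε1 : ε ≤ 1 / 2 := min_le_left _ _
  have hε2 : A * ε ≤ c2 / 8 := by
    have h3 : ε ≤ c2 / (8 * A) := min_le_right _ _
    rw [le_div_iff₀ (by positivity)] at h3
    linarith
  obtain ⟨δ4, hδ4, C4, hC4, hk⟩ := hkap ε hε0
  set δ : ℝ := min (min (min (δ1 / 2) δ2) (min δ3 δ4)) (min (1 / 2) (c2 / (16 * A))) with hδ
  have hδ0 : 0 < δ := lt_min (lt_min (lt_min (by positivity) hδ2) (lt_min hδ3 hδ4))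
    (lt_min (by norm_num) (by positivity))
  have e1 : δ ≤ δ1 / 2 := (min_le_left _ _).trans ((min_le_left _ _).trans (min_le_left _ _))
  have e2 : δ ≤ δ2 := (min_le_left _ _).trans ((min_le_left _ _).trans (min_le_right _ _))
  have e3 : δ ≤ δ3 := (min_le_left _ _).trans ((min_le_right _ _).trans (min_le_left _ _))
  have e4 : δ ≤ δ4 := (min_le_left _ _).trans ((min_le_right _ _).trans (min_le_right _ _))
  have e5 : δ ≤ 1 / 2 := (min_le_right _ _).trans (min_le_left _ _)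
  have e6 : A * (2 * δ) ≤ c2 / 8 := by
    have h3 : δ ≤ c2 / (16 * A) := (min_le_right _ _).trans (min_le_right _ _)
    rw [le_div_iff₀ (by positivity)] at h3
    linarith
  -- the constants
  set C0 : ℝ := max C4 (2 / c2) with hC0
  have hC00 : 0 < C0 := hC4.trans_le (le_max_left _ _)
  set D : ℝ := (1 + A / c2) * (32 / c2 ^ 2 + (16 * A / c2 ^ 2 + 1) / c3) + 1 / c2 with hD
  have hD0 : 0 < D := by positivity
  refine ⟨1 / D, by positivity, C0, hC00, δ, hδ0, ?_⟩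
  intro p p' w θ hp hp' hw1 hw2 hV hV' hC hne w1 y1
  have hθ : 0 ≤ θ := (norm_nonneg _).trans hV
  set ρ : ℝ := ‖p - p'‖ with hρ
  have hρ0 : 0 < ρ := norm_pos_iff.2 (sub_ne_zero.2 hne)
  have hρδ : ρ ≤ 2 * δ := by
    have h3 : p - p' = (p - p0) - (p' - p0) := by abel
    rw [hρ, h3]
    exact (norm_sub_le _ _).trans (by linarith)
  have hθ2 : θ ≤ c2 / 2 := by
    have h3 : 2 / c2 * θ ≤ C0 * θ := mul_le_mul_of_nonneg_right (le_max_right _ _) hθ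
    have h4 : 2 / c2 * θ ≤ 1 := by linarith
    rw [div_mul_eq_mul_div, div_le_one hc2] at h4
    linarith
  obtain ⟨hlA, hlip, htay⟩ := hloc p p' (by linarith) (by linarith)
  obtain ⟨hlA', -, -⟩ := hloc p' p (by linarith) (by linarith)
  set a : ℝ × E m := Gw X w1 p with ha
  set b : ℝ × E m := ρ⁻¹ • (Gw X w1 p' - Gw X w1 p) + fderiv ℝ (Gw X w) p' (0, y1) with hb
  set x : ℝ := ⟪w1, X p⟫ with hx
  set τ : E n := w1 - x • X p with hτ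
  have hXp : ‖X p‖ = 1 := hs p (by linarith)
  have hX1 : ∀ k, ⟪X p, fderiv ℝ X p k⟫ = 0 := inner_X_fderiv hX hs (by linarith)
  have hX2 : ∀ k, ⟪X p', fderiv ℝ X p' k⟫ = 0 := inner_X_fderiv hX hs (by linarith)
  have hτX : ⟪τ, X p⟫ = 0 := by
    rw [hτ, inner_sub_left, inner_smul_left, real_inner_self_eq_norm_sq, hXp]
    simp only [conj_trivial, one_pow, mul_one]
    rw [hx, sub_self]
  have hGτ : Gw X τ p = a := by
    refine pr_ext fun k => ?_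
    rw [ha, pr_Gw, pr_Gw, hτ, inner_sub_left, inner_smul_left, hX1, mul_zero, sub_zero]
  have hτa : c3 * ‖τ‖ ≤ ‖a‖ := by
    have h3 := hf p (by linarith) τ
    rw [hτX, abs_zero, zero_add, hGτ] at h3
    exact h3
  -- the kernel vector
  obtain ⟨kp, hkp1, hkp2⟩ := hk p p' w θ (by linarith) (by linarith) (by linarith) (by linarith)
    hV hV' ((mul_le_mul_of_nonneg_right (le_max_left _ _) hθ).trans hC) hne
  have hkpu : ‖kp‖ ≤ 2 * ρ := by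
    have h3 : kp = (p - p') - ((p - p') - kp) := by abel
    have h4 : ‖kp‖ ≤ ‖p - p'‖ + ‖(p - p') - kp‖ := by
      conv_lhs => rw [h3]
      exact norm_sub_le _ _
    rw [← hρ] at h4
    nlinarith
  have hkpl : ρ / 2 ≤ ‖kp‖ := by
    have h4 : ‖p - p'‖ ≤ ‖(p - p') - kp‖ + ‖kp‖ := by
      have h3 : p - p' = ((p - p') - kp) + kp := by abel
      conv_lhs => rw [h3]
      exact norm_add_le _ _
    rw [← hρ] at h4
    nlinarith
  set Y : E n := fderiv ℝ X p' kp with hY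
  have hYl : c2 * (ρ / 2) ≤ ‖Y‖ :=
    (mul_le_mul_of_nonneg_left hkpl hc2.le).trans ((hq p' (by linarith)).1 kp)
  have hprb : pr b kp = ρ⁻¹ * (⟪w1, Y⟫ - ⟪w1, fderiv ℝ X p kp⟫) := by
    rw [hb, pr_add, pr_smul, pr_sub, pr_Gw, pr_Gw, pr_transpose hX, hkp1, inner_zero_right,
      add_zero]
  have hw1e : w1 = x • X p + τ := by rw [hτ]; abel
  have hpair : ρ * pr b kp = x * ⟪X p, Y⟫ + ⟪τ, (fderiv ℝ X p' - fderiv ℝ X p) kp⟫ := by
    rw [hprb, ← mul_assoc, mul_inv_cancel₀ hρ0.ne', one_mul]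
    conv_lhs => rw [hw1e]
    rw [inner_add_left, inner_add_left, inner_smul_left, inner_smul_left, hX1,
      _root_.sub_apply, inner_sub_right, ← hY]
    simp only [conj_trivial]
    ring
  -- the lower bound
  set Er : E n := (X p - X p' - fderiv ℝ X p' (p - p')) + fderiv ℝ X p' ((p - p') - kp) with hEr
  have hXX : X p - X p' = Y + Er := by
    rw [hEr, hY, map_sub (fderiv ℝ X p') (p - p') kp]
    abel
  have hErn : ‖Er‖ ≤ c2 * ρ / 4 := by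
    have h3 : ‖Er‖ ≤ A * ρ * ρ + A * (ε * ρ) := by
      refine (norm_add_le _ _).trans (add_le_add htay ?_)
      refine ((fderiv ℝ X p').le_opNorm _).trans ?_
      exact mul_le_mul hlA' hkp2 (norm_nonneg _) hA0.le
    have h4 : A * ρ ≤ c2 / 8 := (mul_le_mul_of_nonneg_left hρδ hA0.le).trans e6
    have h5 : A * ρ * ρ ≤ c2 / 8 * ρ := mul_le_mul_of_nonneg_right h4 hρ0.le
    have h6 : A * ε * ρ ≤ c2 / 8 * ρ := mul_le_mul_of_nonneg_right hε2 hρ0.le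
    nlinarith
  have hlow : c2 ^ 2 * ρ ^ 2 / 8 ≤ ⟪X p, Y⟫ := by
    have h3 : ⟪X p, Y⟫ = ⟪Y, Y⟫ + ⟪Er, Y⟫ := by
      rw [← inner_add_left, ← hXX, inner_sub_left, hX2, sub_zero]
    have h4 : -(‖Er‖ * ‖Y‖) ≤ ⟪Er, Y⟫ := by
      have := abs_real_inner_le_norm Er Y
      exact (abs_le.1 this).1
    rw [h3, real_inner_self_eq_norm_mul_norm]
    have h5 : c2 * ρ / 4 ≤ ‖Y‖ - ‖Er‖ := by linarith
    have h6 : c2 * (ρ / 2) * (c2 * ρ / 4) ≤ ‖Y‖ * (‖Y‖ - ‖Er‖) :=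
      mul_le_mul hYl h5 (by positivity) (norm_nonneg _)
    nlinarith
  have hxb : |x| ≤ 32 / c2 ^ 2 * ‖b‖ + 16 * A / c2 ^ 2 * ‖τ‖ := by
    have h3 : |x| * (c2 ^ 2 * ρ ^ 2 / 8) ≤ |x * ⟪X p, Y⟫| := by
      rw [abs_mul]
      exact mul_le_mul_of_nonneg_left (hlow.trans (le_abs_self _)) (abs_nonneg _)
    have h4 : x * ⟪X p, Y⟫ = ρ * pr b kp - ⟪τ, (fderiv ℝ X p' - fderiv ℝ X p) kp⟫ := by linarith
    have h5 : |⟪τ, (fderiv ℝ X p' - fderiv ℝ X p) kp⟫| ≤ ‖τ‖ * (A * ρ * (2 * ρ)) := by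
      refine (abs_real_inner_le_norm _ _).trans ?_
      refine mul_le_mul_of_nonneg_left ?_ (norm_nonneg _)
      refine ((fderiv ℝ X p' - fderiv ℝ X p).le_opNorm _).trans ?_
      refine mul_le_mul ?_ hkpu (norm_nonneg _) (by positivity)
      rw [norm_sub_rev p' p] at hlip
      exact hlip
    have h6 : |ρ * pr b kp| ≤ ρ * (2 * ‖b‖ * (2 * ρ)) := by
      rw [abs_mul, abs_of_pos hρ0]
      refine mul_le_mul_of_nonneg_left ?_ hρ0.le
      exact (abs_pr_le _ _).trans (mul_le_mul_of_nonneg_left hkpu (by positivity))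
    have h7 : |x| * (c2 ^ 2 * ρ ^ 2 / 8) ≤ ρ * (2 * ‖b‖ * (2 * ρ)) + ‖τ‖ * (A * ρ * (2 * ρ)) := by
      refine h3.trans ?_
      rw [h4]
      exact (abs_sub _ _).trans (add_le_add h6 h5)
    have h8 : |x| * (c2 ^ 2 * ρ ^ 2 / 8) ≤
        (32 / c2 ^ 2 * ‖b‖ + 16 * A / c2 ^ 2 * ‖τ‖) * (c2 ^ 2 * ρ ^ 2 / 8) := by
      refine h7.trans (le_of_eq ?_)
      field_simp
      ring
    exact le_of_mul_le_mul_right h8 (by positivity)
  have hw1n : ‖w1‖ ≤ |x| + ‖τ‖ := by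
    have h3 : ‖w1‖ ≤ ‖x • X p‖ + ‖τ‖ := by
      conv_lhs => rw [hw1e]
      exact norm_add_le _ _
    rwa [norm_smul, hXp, mul_one, Real.norm_eq_abs] at h3
  have hτa' : ‖τ‖ ≤ ‖a‖ / c3 := by
    rw [le_div_iff₀ hc3]
    linarith
  have hw1f : ‖w1‖ ≤ 32 / c2 ^ 2 * ‖b‖ + (16 * A / c2 ^ 2 + 1) / c3 * ‖a‖ := by
    have h3 : (16 * A / c2 ^ 2 + 1) * ‖τ‖ ≤ (16 * A / c2 ^ 2 + 1) * (‖a‖ / c3) :=
      mul_le_mul_of_nonneg_left hτa' (by positivity)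
    have h4 : (16 * A / c2 ^ 2 + 1) * (‖a‖ / c3) = (16 * A / c2 ^ 2 + 1) / c3 * ‖a‖ := by ring
    linarith
  have hy1 : c2 * ‖y1‖ ≤ ‖b‖ + A * ‖w1‖ := by
    refine ((hq p' (by linarith)).2 w (by linarith) (by linarith) (by linarith) y1).trans ?_
    have h3 : fderiv ℝ (Gw X w) p' (0, y1) = b - ρ⁻¹ • (Gw X w1 p' - Gw X w1 p) := by
      rw [hb]
      abel
    rw [h3]
    refine (norm_sub_le _ _).trans (add_le_add le_rfl ?_)
    rw [norm_smul, norm_inv, Real.norm_eq_abs, abs_of_pos hρ0]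
    have h4 := norm_Gw_sub_le X w1 p p'
    have h5 : ‖Gw X w1 p' - Gw X w1 p‖ ≤ ‖w1‖ * (A * ρ) := by
      refine h4.trans (mul_le_mul_of_nonneg_left ?_ (norm_nonneg _))
      rw [norm_sub_rev p' p] at hlip
      exact hlip
    calc ρ⁻¹ * ‖Gw X w1 p' - Gw X w1 p‖ ≤ ρ⁻¹ * (‖w1‖ * (A * ρ)) :=
          mul_le_mul_of_nonneg_left h5 (by positivity)
      _ = A * ‖w1‖ := by field_simp
  have hy1' : ‖y1‖ ≤ 1 / c2 * ‖b‖ + A / c2 * ‖w1‖ := by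
    have h3 : ‖y1‖ * c2 ≤ (1 / c2 * ‖b‖ + A / c2 * ‖w1‖) * c2 := by
      have h4 : (1 / c2 * ‖b‖ + A / c2 * ‖w1‖) * c2 = ‖b‖ + A * ‖w1‖ := by field_simp
      rw [h4]
      linarith
    exact le_of_mul_le_mul_right h3 hc2
  rw [one_div, inv_mul_le_iff₀ hD0]
  have hna := norm_nonneg a
  have hnb := norm_nonneg b
  have h10 : (1 + A / c2) * ‖w1‖ ≤
      (1 + A / c2) * (32 / c2 ^ 2 * ‖b‖ + (16 * A / c2 ^ 2 + 1) / c3 * ‖a‖) :=
    mul_le_mul_of_nonneg_left hw1f (by positivity)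
  have h11 : (1 + A / c2) * (32 / c2 ^ 2 * ‖b‖ + (16 * A / c2 ^ 2 + 1) / c3 * ‖a‖) + 1 / c2 * ‖b‖ ≤
      D * (‖a‖ + ‖b‖) := by
    have h12 : D * (‖a‖ + ‖b‖) = (1 + A / c2) * (32 / c2 ^ 2 * ‖b‖ +
        (16 * A / c2 ^ 2 + 1) / c3 * ‖a‖) + 1 / c2 * ‖b‖ +
        ((1 + A / c2) * (32 / c2 ^ 2) * ‖a‖ + (1 + A / c2) * ((16 * A / c2 ^ 2 + 1) / c3) * ‖b‖ +
          1 / c2 * ‖a‖) := by
      rw [hD]
      ring
    rw [h12]
    have : 0 ≤ (1 + A / c2) * (32 / c2 ^ 2) * ‖a‖ + (1 + A / c2) * ((16 * A / c2 ^ 2 + 1) / c3) * ‖b‖ +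
          1 / c2 * ‖a‖ := by positivity
    linarith
  calc ‖w1‖ + ‖y1‖ ≤ (1 + A / c2) * ‖w1‖ + 1 / c2 * ‖b‖ := by linarith
    _ ≤ _ := by linarith

end Pool.Agent.LF
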