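import Pool.Agent.LF.G01
import Pool.Agent.LF.T

/-!
[LEAF] the bounds of G01 and the determinant form over one neighbourhood and one pair of constants.
-/

set_option autoImplicit false

namespace Pool.Agent.LF

open Pool.Agent.MP_6cbfb8_an
open scoped RealInnerProductSpace ContDiff

/-- The bi-Lipschitz bound, the rectangle form and the determinant form. -/
theorem gp {m : ℕ} {X : ℝ × E m → E (m + 2)} {p0 : ℝ × E m} {δ : ℝ} (hδ : 0 < δ)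
    (hX : ContDiff ℝ ∞ X) (h1 : ∀ p, ‖p - p0‖ ≤ δ → ‖X p‖ = 1)
    (himm : ∀ p, ‖p - p0‖ ≤ δ → ∀ v, fderiv ℝ X p v = 0 → v = 0)
    (hN : ∀ w, w ≠ 0 → Vw X w p0 = 0 → ∀ y, fderiv ℝ (Gw X w) p0 (0, y) = 0 → y = 0) :
    ∃ c C δ1 : ℝ, 0 < c ∧ 1 ≤ C ∧ 0 < δ1 ∧ δ1 ≤ δ ∧ δ1 ≤ 1 / 4 ∧
      (∀ p p', ‖p - p0‖ ≤ δ1 → ‖p' - p0‖ ≤ δ1 →
        c * ‖p - p'‖ ≤ ‖X p - X p'‖ ∧ ‖X p - X p'‖ ≤ C * ‖p - p'‖) ∧
      (∀ (w : E (m + 2)) (θ : ℝ) (p p' p'' : ℝ × E m), 1 / 4 ≤ ‖w‖ → ‖w‖ ≤ 8 →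
        ‖p - p0‖ ≤ δ1 → ‖p' - p0‖ ≤ δ1 → ‖p'' - p0‖ ≤ δ1 →
        ‖Vw X w p‖ ≤ θ → ‖Vw X w p'‖ ≤ θ → ‖Vw X w p''‖ ≤ θ →
        C * θ ≤ ‖p - p'‖ → C * θ ≤ ‖p - p''‖ →
        c * (‖p - p'‖ * ‖p - p''‖) ≤ |⟪X p - X p', X p - X p''⟫|) ∧
      (∀ (w : E (m + 2)) (θ : ℝ) (p p' : ℝ × E m), 1 / 2 ≤ ‖w‖ → ‖w‖ ≤ 4 →
        ‖p - p0‖ ≤ δ1 → ‖p' - p0‖ ≤ δ1 → ‖Vw X w p‖ ≤ θ → ‖Vw X w p'‖ ≤ θ →
        C * θ ≤ ‖p - p'‖ → p ≠ p' → ∀ (w1 : E (m + 2)) (y1 : E m),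
        c * (‖w1‖ + ‖y1‖) ≤ ‖Gw X w1 p‖ +
          ‖(‖p - p'‖)⁻¹ • (Gw X w1 p' - Gw X w1 p) + fderiv ℝ (Gw X w) p' (0, y1)‖) := by
  have hi : Function.Injective (fderiv ℝ X p0) := by
    intro u v huv
    have h2 : fderiv ℝ X p0 (u - v) = 0 := by rw [map_sub, huv, sub_self]
    exact sub_eq_zero.1 (himm p0 (by simpa using hδ.le) _ h2)
  have hN' : ∀ w, w ≠ 0 → Vw X w p0 = 0 → ∀ v : E m, v ≠ 0 → fderiv ℝ (Gw X w) p0 (0, v) ≠ 0 :=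
    fun w hw hV v hv h0 => hv (hN w hw hV v h0)
  obtain ⟨c1, C1, δ1, hc1, hC1, hδ1, hbl, hrect⟩ := G1.g_rect hX hi hN'
  obtain ⟨c2, hc2, C2, hC2, δ2, hδ2, hT⟩ := det_T hX ⟨δ, hδ, h1⟩ (G1.g_qnc hX hi hN')
    (G1.g_lines hX hi hN') (G1.g_frame hX hi ⟨δ, hδ, h1⟩)
  refine ⟨min c1 c2, max C1 C2, min (min δ (1 / 4)) (min δ1 δ2), lt_min hc1 hc2,
    hC1.trans (le_max_left _ _), lt_min (lt_min hδ (by norm_num)) (lt_min hδ1 hδ2),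
    (min_le_left _ _).trans (min_le_left _ _), (min_le_left _ _).trans (min_le_right _ _),
    fun p p' hp hp' => ?_, fun w θ p p' p'' hw1 hw2 hp hp' hp'' hV hV' hV'' h3 h4 => ?_,
    fun w θ p p' hw1 hw2 hp hp' hV hV' h3 hne w1 y1 => ?_⟩
  · have e1 := hp.trans ((min_le_right _ _).trans (min_le_left _ _))
    have e2 := hp'.trans ((min_le_right _ _).trans (min_le_left _ _))
    obtain ⟨r1, r2⟩ := hbl p p' e1 e2
    exact ⟨(mul_le_mul_of_nonneg_right (min_le_left _ _) (norm_nonneg _)).trans r1,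
      r2.trans (mul_le_mul_of_nonneg_right (le_max_left _ _) (norm_nonneg _))⟩
  · have e1 := hp.trans ((min_le_right _ _).trans (min_le_left _ _))
    have e2 := hp'.trans ((min_le_right _ _).trans (min_le_left _ _))
    have e3 := hp''.trans ((min_le_right _ _).trans (min_le_left _ _))
    have hθ : 0 ≤ θ := (norm_nonneg _).trans hV
    have m1 := mul_le_mul_of_nonneg_right (le_max_left C1 C2) hθ
    exact (mul_le_mul_of_nonneg_right (min_le_left _ _) (by positivity)).trans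
      (hrect w θ p p' p'' hw1 hw2 e1 e2 e3 hV hV' hV'' (m1.trans h3) (m1.trans h4))
  · have e1 := hp.trans ((min_le_right _ _).trans (min_le_right _ _))
    have e2 := hp'.trans ((min_le_right _ _).trans (min_le_right _ _))
    have hθ : 0 ≤ θ := (norm_nonneg _).trans hV
    have m1 := mul_le_mul_of_nonneg_right (le_max_right C1 C2) hθ
    exact (mul_le_mul_of_nonneg_right (min_le_right _ _) (by positivity)).trans
      (hT p p' w θ e1 e2 hw1 hw2 hV hV' (m1.trans h3) hne w1 y1)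

end Pool.Agent.LF
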