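import Pool.Agent.LF.KAKa
import Pool.Agent.GNP.LFI

/-!
The integral over one pair of intervals, off the diagonal.
-/

set_option autoImplicit false

namespace Pool.Agent.LF

open MeasureTheory Set Module Pool.Agent.MP_6cbfb8_an Pool.Agent.GNP Pool.Agent.GNP.LF
open scoped ENNReal NNReal Real RealInnerProductSpace ContDiff

theorem kak_haar1 (m : ℕ) : (volume : Measure (ℝ × E m)).IsAddHaarMeasure := by
  rw [Measure.volume_eq_prod]
  infer_instance

theorem kak_haar2 (m n : ℕ) : (volume : Measure (E n × E m)).IsAddHaarMeasure := by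
  rw [Measure.volume_eq_prod]
  infer_instance

theorem kak_haar3 (m : ℕ) : (volume : Measure ((ℝ × E m) × (ℝ × E m))).IsAddHaarMeasure := by
  have h1 := kak_haar1 m
  exact Measure.prod.instIsAddHaarMeasure (volume : Measure (ℝ × E m)) volume

/-- The integral over a finite union. -/
theorem kak_biUnion {V ι : Type*} [MeasurableSpace V] (μ : Measure V) (s : Finset ι)
    (t : ι → Set V) (f : V → ℝ≥0∞) :
    ∫⁻ x in ⋃ i ∈ s, t i, f x ∂μ ≤ ∑ i ∈ s, ∫⁻ x in t i, f x ∂μ := by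
  classical
  induction s using Finset.induction_on with
  | empty => simp
  | insert a s ha ih =>
    rw [Finset.set_biUnion_insert, Finset.sum_insert ha]
    refine (lintegral_union_le _ _ _).trans ?_
    gcongr

/-- The change of variables by the scaled double gradient map. -/
theorem kak_box (m : ℕ) {A c : ℝ} (hA : 0 ≤ A) (hc : 0 < c) : ∃ C : ℝ≥0,
    ∀ (T : ℝ × E m → (ℝ × E m) →L[ℝ] E (m + 2))
      (T' : ℝ × E m → (ℝ × E m) →L[ℝ] (ℝ × E m) →L[ℝ] E (m + 2)),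
      (∀ p, HasFDerivAt T (T' p) p) → (∀ p, ‖T' p‖ ≤ A) →
      (∀ p p', ‖T' p - T' p'‖ ≤ A * ‖p - p'‖) → ∀ (p : ℝ × E m) (t' ρ : ℝ), 0 < ρ → ρ ≤ 1 →
      ∀ D : Set (E (m + 2) × E m), (∀ x ∈ D, ‖x‖ ≤ 2 ∧
        ∀ v, c * ‖v‖ ≤ ‖PH' T T' p t' ρ x v‖) →
      ∀ h : (ℝ × E m) × (ℝ × E m) → ℝ≥0∞,
        ∫⁻ x in D, h (PH T p t' ρ x) ≤ C * ∫⁻ y, h y := by
  have hfin : finrank ℝ (E (m + 2) × E m) = finrank ℝ ((ℝ × E m) × (ℝ × E m)) := by
    simp only [finrank_prod, finrank_euclideanSpace_fin, finrank_self]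
    ring
  have hh2 := kak_haar2 m (m + 2)
  have hh3 := kak_haar3 m
  obtain ⟨C1, hC1⟩ := inj_box (volume : Measure (E (m + 2) × E m))
    (volume : Measure ((ℝ × E m) × (ℝ × E m))) hfin c hc
  set r1 : ℝ := min 1 (c / (20 * A + 1)) with hr1
  have hr10 : 0 < r1 := lt_min one_pos (by positivity)
  have hr11 : r1 ≤ 1 := min_le_left _ _
  have hr12 : 10 * A * r1 ≤ c / 2 := by
    have h1 : r1 ≤ c / (20 * A + 1) := min_le_right _ _
    calc 10 * A * r1 ≤ 10 * A * (c / (20 * A + 1)) := by gcongr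
      _ ≤ c / 2 := by
        rw [mul_div_assoc', div_le_div_iff₀ (by positivity) (by norm_num)]
        nlinarith
  obtain ⟨s, -, hsf, hs⟩ := (isCompact_closedBall (0 : E (m + 2) × E m) 2).finite_cover_balls hr10
  refine ⟨(hsf.toFinset.card : ℝ≥0) * C1, ?_⟩
  intro T T' hT h2 h3 p t' ρ hρ hρ1 D hD h
  have hcov : D ⊆ ⋃ i ∈ hsf.toFinset, D ∩ Metric.ball i r1 := by
    intro x hx
    have h1 : x ∈ Metric.closedBall (0 : E (m + 2) × E m) 2 := by
      rw [mem_closedBall_zero_iff]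
      exact (hD x hx).1
    have h4 := hs h1
    simp only [mem_iUnion] at h4 ⊢
    obtain ⟨i, hi, hxi⟩ := h4
    exact ⟨i, hsf.mem_toFinset.2 hi, hx, hxi⟩
  calc ∫⁻ x in D, h (PH T p t' ρ x)
      ≤ ∫⁻ x in ⋃ i ∈ hsf.toFinset, D ∩ Metric.ball i r1, h (PH T p t' ρ x) :=
        lintegral_mono_set hcov
    _ ≤ ∑ i ∈ hsf.toFinset, ∫⁻ x in D ∩ Metric.ball i r1, h (PH T p t' ρ x) :=
        kak_biUnion _ _ _ _
    _ ≤ ∑ i ∈ hsf.toFinset, C1 * ∫⁻ y, h y := by
      refine Finset.sum_le_sum fun i _ => ?_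
      rcases (D ∩ Metric.ball i r1).eq_empty_or_nonempty with he | ⟨x0, hx0, hxi⟩
      · rw [he]
        simp
      · refine (lintegral_mono_set inter_subset_right).trans ?_
        refine hC1 (Metric.ball i r1) (Metric.ball i r1) (PH T p t' ρ) (PH' T T' p t' ρ)
          (PH' T T' p t' ρ x0) (convex_ball i r1) measurableSet_ball subset_rfl
          (fun x _ => PH_deriv hT p t' hρ.ne' x)
          (hD x0 hx0).2 (fun x hx => ?_) h
        refine (PH_var hA hT h2 h3 p t' hρ hρ1 x x0 ?_).trans ?_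
        · exact ((norm_fst_le x0).trans (hD x0 hx0).1).trans (by norm_num)
        · have h4 : ‖x - x0‖ ≤ 2 * r1 := by
            rw [Metric.mem_ball] at hx hxi
            rw [← dist_eq_norm]
            have := dist_triangle_right x x0 i
            linarith
          calc 5 * A * ‖x - x0‖ ≤ 5 * A * (2 * r1) := by gcongr
            _ = 10 * A * r1 := by ring
            _ ≤ c / 2 := hr12
    _ = ((hsf.toFinset.card : ℝ≥0) * C1 : ℝ≥0) * ∫⁻ y, h y := by
      rw [Finset.sum_const, nsmul_eq_mul, ENNReal.coe_mul, ENNReal.coe_natCast, mul_assoc]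

/-- Scaling of an integral. -/
theorem kak_smul {V : Type*} [NormedAddCommGroup V] [NormedSpace ℝ V] [FiniteDimensional ℝ V]
    [MeasurableSpace V] [BorelSpace V] (μ : Measure V) [μ.IsAddHaarMeasure] {r : ℝ} (hr : 0 < r)
    (a : V) (h : V → ℝ≥0∞) : ∫⁻ x, h x ∂μ =
      ENNReal.ofReal (r ^ finrank ℝ V) * ∫⁻ x, h (a + r • x) ∂μ := by
  have h1 : ∫⁻ x, h (a + x) ∂μ = ∫⁻ x, h x ∂μ := lintegral_add_left_eq_self _ _
  have h2 : ∫⁻ x, h (a + r • x) ∂μ = ∫⁻ x, h (a + x) ∂(Measure.map (r • ·) μ) :=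
    ((Homeomorph.smulOfNeZero r hr.ne').measurableEmbedding.lintegral_map
      (fun x => h (a + x))).symm
  rw [h2, Measure.map_addHaar_smul μ hr.ne', lintegral_smul_measure, h1, smul_eq_mul, ← mul_assoc,
    ← ENNReal.ofReal_mul (by positivity), abs_of_pos (by positivity),
    mul_inv_cancel₀ (by positivity), ENNReal.ofReal_one, one_mul]

/-- One function of one variable, localised in the other variables. -/
noncomputable def kG (m : ℕ) (Λ : ℝ) (g : ℝ → ℝ≥0∞) (u : ℝ × E m) : ℝ≥0∞ :=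
  g u.1 * (Metric.closedBall (0 : E m) Λ).indicator 1 u.2

theorem kG_meas (m : ℕ) (Λ : ℝ) {g : ℝ → ℝ≥0∞} (hg : Measurable g) : Measurable (kG m Λ g) := by
  refine (hg.comp measurable_fst).mul ?_
  exact ((measurable_const (a := (1 : ℝ≥0∞))).indicator
    Metric.isClosed_closedBall.measurableSet).comp measurable_snd

theorem kG_int (m : ℕ) {Λ : ℝ} (hΛ : 0 ≤ Λ) {g : ℝ → ℝ≥0∞} (hg : Measurable g) :
    ∫⁻ u, kG m Λ g u = (∫⁻ τ, g τ) *
      (ENNReal.ofReal (Λ ^ m) * volume (Metric.ball (0 : E m) 1)) := by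
  have h1 : ∫⁻ u, kG m Λ g u = (∫⁻ τ, g τ) *
      ∫⁻ b : E m, (Metric.closedBall (0 : E m) Λ).indicator 1 b := by
    rw [Measure.volume_eq_prod]
    exact lintegral_prod_mul (μ := volume) (ν := volume) (f := g)
      (g := (Metric.closedBall (0 : E m) Λ).indicator 1) hg.aemeasurable
      ((measurable_const (a := (1 : ℝ≥0∞))).indicator
        Metric.isClosed_closedBall.measurableSet).aemeasurable
  rw [h1, lintegral_indicator_one Metric.isClosed_closedBall.measurableSet,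
    Measure.addHaar_closedBall _ _ hΛ, finrank_euclideanSpace_fin]

theorem kG_of_le {m : ℕ} {Λ : ℝ} (g : ℝ → ℝ≥0∞) {u : ℝ × E m} (hu : ‖u.2‖ ≤ Λ) :
    kG m Λ g u = g u.1 := by
  rw [kG, indicator_of_mem (mem_closedBall_zero_iff.2 hu)]
  simp

/-- **One pair, off the diagonal, fixed `z`.** -/
theorem kak_pt (m : ℕ) {A c : ℝ} (hA : 0 ≤ A) (hc : 0 < c) : ∃ C : ℝ≥0,
    ∀ (T : ℝ × E m → (ℝ × E m) →L[ℝ] E (m + 2))
      (T' : ℝ × E m → (ℝ × E m) →L[ℝ] (ℝ × E m) →L[ℝ] E (m + 2)),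
      (∀ p, HasFDerivAt T (T' p) p) → (∀ p, ‖T' p‖ ≤ A) →
      (∀ p p', ‖T' p - T' p'‖ ≤ A * ‖p - p'‖) → ∀ (p : ℝ × E m) (t' ρ R Λ : ℝ), 0 < ρ → ρ ≤ 1 →
      0 < R → 0 ≤ Λ → ∀ S : Set (E (m + 2) × E m), MeasurableSet S →
      (∀ x ∈ S, ‖x.1‖ ≤ 2 * R ∧ ‖x.2 - p.2‖ ≤ 2 * ρ ∧ ‖(LB m (m + 2) x.1 (T p)).2‖ ≤ Λ ∧
        ‖(LB m (m + 2) x.1 (T (t', x.2))).2‖ ≤ Λ ∧
        ∀ v, c * ‖v‖ ≤ ‖PH' T T' p t' ρ (R⁻¹ • x.1, ρ⁻¹ • (x.2 - p.2)) v‖) →
      ∀ g g' : ℝ → ℝ≥0∞, Measurable g → Measurable g' →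
        ∫⁻ ξ, ∫⁻ z', S.indicator (fun x => g (LB m (m + 2) x.1 (T p)).1 *
          g' (LB m (m + 2) x.1 (T (t', x.2))).1) (ξ, z') ≤
        C * ENNReal.ofReal (Λ ^ (2 * m) / (R ^ m * ρ)) * ((∫⁻ τ, g τ) * ∫⁻ τ, g' τ) := by
  obtain ⟨C1, hC1⟩ := kak_box m hA hc
  have hh1 := kak_haar1 m
  set om : ℝ≥0∞ := volume (Metric.ball (0 : E m) 1) with hom
  have homf : om ≠ ⊤ := measure_ball_lt_top.ne
  refine ⟨C1 * (om.toNNReal * om.toNNReal), ?_⟩
  intro T T' hT h2 h3 p t' ρ R Λ hρ hρ1 hR hΛ S hS hSp g g' hg hg'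
  have hTc : Continuous T := continuous_iff_continuousAt.2 fun q => (hT q).continuousAt
  set F : E (m + 2) × E m → ℝ≥0∞ := S.indicator (fun x => g (LB m (m + 2) x.1 (T p)).1 *
    g' (LB m (m + 2) x.1 (T (t', x.2))).1) with hF
  set hh : (ℝ × E m) × (ℝ × E m) → ℝ≥0∞ := fun q =>
    kG m Λ g (R • q.1) * kG m Λ g' (R • q.1 + (R * ρ) • q.2) with hhdef
  set D : Set (E (m + 2) × E m) := {x | (R • x.1, p.2 + ρ • x.2) ∈ S} with hD
  have hDm : MeasurableSet D := by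
    have h4 : Continuous fun x : E (m + 2) × E m => (R • x.1, p.2 + ρ • x.2) := by fun_prop
    exact h4.measurable hS
  have hhm : Measurable hh := by
    refine Measurable.mul ?_ ?_
    · exact (kG_meas m Λ hg).comp (by fun_prop)
    · exact (kG_meas m Λ hg').comp (by fun_prop)
  have hPHc : Continuous (PH T p t' ρ) := continuous_iff_continuousAt.2 fun x =>
    (PH_deriv hT p t' hρ.ne' x).continuousAt
  -- scaling
  have e1 : ∫⁻ ξ, ∫⁻ z', F (ξ, z') = ENNReal.ofReal (R ^ (m + 2)) * (ENNReal.ofReal (ρ ^ m) *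
      ∫⁻ w : E (m + 2), ∫⁻ y : E m, F (R • w, p.2 + ρ • y)) := by
    have h4 : ∀ ξ : E (m + 2), ∫⁻ z', F (ξ, z') =
        ENNReal.ofReal (ρ ^ m) * ∫⁻ y : E m, F (ξ, p.2 + ρ • y) := by
      intro ξ
      have h5 := kak_smul (volume : Measure (E m)) hρ p.2 (fun z' => F (ξ, z'))
      rwa [finrank_euclideanSpace_fin] at h5
    simp only [h4]
    rw [kak_smul (volume : Measure (E (m + 2))) hR 0, finrank_euclideanSpace_fin]
    simp only [zero_add]
    rw [lintegral_const_mul' _ _ ENNReal.ofReal_ne_top]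
  -- comparison
  have e2 : ∀ x : E (m + 2) × E m, F (R • x.1, p.2 + ρ • x.2) ≤
      D.indicator (fun x => hh (PH T p t' ρ x)) x := by
    intro x
    by_cases hx : x ∈ D
    · have hx' : (R • x.1, p.2 + ρ • x.2) ∈ S := hx
      obtain ⟨-, -, h6, h7, -⟩ := hSp _ hx'
      rw [indicator_of_mem hx, hF, indicator_of_mem hx', hhdef]
      simp only at h6 h7 ⊢
      have h8 : R • (PH T p t' ρ x).1 = LB m (m + 2) (R • x.1) (T p) := by
        rw [PH, map_smul, smul_apply]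
      have h9 : R • (PH T p t' ρ x).1 + (R * ρ) • (PH T p t' ρ x).2 =
          LB m (m + 2) (R • x.1) (T (t', p.2 + ρ • x.2)) := by
        rw [PH]
        simp only
        rw [smul_smul, mul_assoc, mul_inv_cancel₀ hρ.ne', mul_one, ← smul_add, add_sub_cancel,
          map_smul, smul_apply]
      rw [h9, h8, kG_of_le g h6, kG_of_le g' h7]
    · have hx' : (R • x.1, p.2 + ρ • x.2) ∉ S := hx
      rw [indicator_of_notMem hx, hF, indicator_of_notMem hx']
  have e3 : ∫⁻ w : E (m + 2), ∫⁻ y : E m, F (R • w, p.2 + ρ • y) ≤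
      ∫⁻ x in D, hh (PH T p t' ρ x) := by
    have hm : Measurable (D.indicator (fun x => hh (PH T p t' ρ x))) :=
      (hhm.comp hPHc.measurable).indicator hDm
    rw [← lintegral_indicator hDm, Measure.volume_eq_prod, lintegral_prod _ hm.aemeasurable]
    exact lintegral_mono fun w => lintegral_mono fun y => e2 (w, y)
  have e4 : ∫⁻ x in D, hh (PH T p t' ρ x) ≤ C1 * ∫⁻ q, hh q := by
    refine hC1 T T' hT h2 h3 p t' ρ hρ hρ1 D (fun x hx => ?_) hh
    have hx' : (R • x.1, p.2 + ρ • x.2) ∈ S := hx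
    obtain ⟨h4, h5, -, -, h6⟩ := hSp _ hx'
    simp only at h4 h5 h6
    rw [add_sub_cancel_left, norm_smul, Real.norm_of_nonneg hρ.le] at h5
    rw [norm_smul, Real.norm_of_nonneg hR.le] at h4
    rw [add_sub_cancel_left, smul_smul, smul_smul, inv_mul_cancel₀ hρ.ne',
      inv_mul_cancel₀ hR.ne', one_smul, one_smul] at h6
    refine ⟨?_, h6⟩
    rw [Prod.norm_def]
    refine max_le ?_ ?_
    · exact le_of_mul_le_mul_left (by linarith) hR
    · exact le_of_mul_le_mul_left (by linarith) hρ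
  have e5 : ENNReal.ofReal (R ^ (m + 1)) * (ENNReal.ofReal ((R * ρ) ^ (m + 1)) * ∫⁻ q, hh q) =
      (∫⁻ u, kG m Λ g u) * ∫⁻ u, kG m Λ g' u := by
    have hfr : finrank ℝ (ℝ × E m) = m + 1 := by
      rw [finrank_prod, finrank_euclideanSpace_fin, finrank_self, add_comm]
    have h4 : ∫⁻ q, hh q = ∫⁻ u : ℝ × E m, ∫⁻ v : ℝ × E m, hh (u, v) := by
      rw [Measure.volume_eq_prod]
      exact lintegral_prod _ hhm.aemeasurable
    have h5 : ∀ u : ℝ × E m, ENNReal.ofReal ((R * ρ) ^ (m + 1)) * ∫⁻ v : ℝ × E m, hh (u, v) =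
        kG m Λ g (R • u) * ∫⁻ u, kG m Λ g' u := by
      intro u
      have h6 := kak_smul (volume : Measure (ℝ × E m)) (mul_pos hR hρ) (R • u) (kG m Λ g')
      rw [hfr] at h6
      rw [h6, hhdef]
      simp only
      have hm : Measurable fun v : ℝ × E m => kG m Λ g' (R • u + (R * ρ) • v) :=
        (kG_meas m Λ hg').comp (by fun_prop)
      rw [lintegral_const_mul _ hm]
      ring
    rw [h4, ← lintegral_const_mul' _ _ ENNReal.ofReal_ne_top]
    simp only [h5]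
    have hm : Measurable fun u : ℝ × E m => kG m Λ g (R • u) :=
      (kG_meas m Λ hg).comp (by fun_prop)
    rw [lintegral_mul_const _ hm, ← mul_assoc]
    have h6 := kak_smul (volume : Measure (ℝ × E m)) hR 0 (kG m Λ g)
    rw [hfr] at h6
    rw [h6]
    simp only [zero_add]
  have e6 : ENNReal.ofReal (R ^ (m + 2)) * (ENNReal.ofReal (ρ ^ m)) =
      ENNReal.ofReal (1 / (R ^ m * ρ)) *
        (ENNReal.ofReal (R ^ (m + 1)) * ENNReal.ofReal ((R * ρ) ^ (m + 1))) := by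
    rw [← ENNReal.ofReal_mul (by positivity), ← ENNReal.ofReal_mul (by positivity),
      ← ENNReal.ofReal_mul (by positivity)]
    congr 1
    rw [mul_pow]
    field_simp
    ring
  calc ∫⁻ ξ, ∫⁻ z', F (ξ, z')
      = ENNReal.ofReal (R ^ (m + 2)) * (ENNReal.ofReal (ρ ^ m) *
        ∫⁻ w : E (m + 2), ∫⁻ y : E m, F (R • w, p.2 + ρ • y)) := e1
    _ ≤ ENNReal.ofReal (R ^ (m + 2)) * (ENNReal.ofReal (ρ ^ m) * (C1 * ∫⁻ q, hh q)) := by
        gcongr
        exact e3.trans e4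
    _ = C1 * (ENNReal.ofReal (R ^ (m + 2)) * (ENNReal.ofReal (ρ ^ m)) * ∫⁻ q, hh q) := by ring
    _ = C1 * (ENNReal.ofReal (1 / (R ^ m * ρ)) *
        (ENNReal.ofReal (R ^ (m + 1)) * (ENNReal.ofReal ((R * ρ) ^ (m + 1)) * ∫⁻ q, hh q))) := by
        rw [e6]
        ring
    _ = C1 * (ENNReal.ofReal (1 / (R ^ m * ρ)) * (((∫⁻ τ, g τ) * (ENNReal.ofReal (Λ ^ m) * om)) *
        ((∫⁻ τ, g' τ) * (ENNReal.ofReal (Λ ^ m) * om)))) := by
        rw [e5, kG_int m hΛ hg, kG_int m hΛ hg']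
    _ = (C1 * (om.toNNReal * om.toNNReal) : ℝ≥0) * ENNReal.ofReal (Λ ^ (2 * m) / (R ^ m * ρ)) *
        ((∫⁻ τ, g τ) * ∫⁻ τ, g' τ) := by
        have h4 : ENNReal.ofReal (Λ ^ (2 * m) / (R ^ m * ρ)) = ENNReal.ofReal (1 / (R ^ m * ρ)) *
            (ENNReal.ofReal (Λ ^ m) * ENNReal.ofReal (Λ ^ m)) := by
          rw [← ENNReal.ofReal_mul (by positivity), ← ENNReal.ofReal_mul (by positivity)]
          congr 1
          rw [two_mul, pow_add]
          ring
        rw [h4, ENNReal.coe_mul, ENNReal.coe_mul, ENNReal.coe_toNNReal homf]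
        ring

end Pool.Agent.LF
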