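import Pool.Agent.LF.Df0
import Pool.Agent.LF.KAKb

/-!
The integral over one pair of intervals, off the diagonal.
-/

set_option autoImplicit false

namespace Pool.Agent.LF

open MeasureTheory Set Module Pool.Agent.MP_6cbfb8_an Pool.Agent.GNP
open scoped ENNReal NNReal Real RealInnerProductSpace ContDiff

theorem kGw_eq {m n : ℕ} (X : ℝ × E m → E n) (w : E n) (p : ℝ × E m) :
    Gw X w p = LB m n w (fderiv ℝ X p) := by
  have h1 : Vw X w p =
      P0J m ((innerSL ℝ w).comp ((fderiv ℝ X p).comp (ContinuousLinearMap.inr ℝ ℝ (E m)))) := by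
    refine ext_inner_right ℝ fun v => ?_
    rw [Vw, ContinuousLinearMap.adjoint_inner_left, P0J_inner]
    rfl
  rw [LB_apply, Gw, Xt, h1]

theorem kVw_eq {m n : ℕ} (X : ℝ × E m → E n) (w : E n) (p : ℝ × E m) :
    Vw X w p = (LB m n w (fderiv ℝ X p)).2 := by
  rw [← kGw_eq]
  rfl

theorem kXt_eq {m n : ℕ} (X : ℝ × E m → E n) (w : E n) (p : ℝ × E m) :
    ⟪w, Xt X p⟫ = (LB m n w (fderiv ℝ X p)).1 := by
  rw [← kGw_eq]
  rfl

/-- The transversality of two points of one critical curve. -/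
def Trv {m : ℕ} (X : ℝ × E m → E (m + 2)) (p0 : ℝ × E m) (δ c C0 : ℝ) : Prop :=
  ∀ (p p' : ℝ × E m) (w : E (m + 2)) (θ : ℝ), ‖p - p0‖ ≤ δ → ‖p' - p0‖ ≤ δ → 1 ≤ ‖w‖ →
    ‖w‖ ≤ 2 → ‖Vw X w p‖ ≤ θ → ‖Vw X w p'‖ ≤ θ → C0 * θ ≤ ‖p - p'‖ → p ≠ p' →
    ∀ (w1 : E (m + 2)) (y1 : E m), c * (‖w1‖ + ‖y1‖) ≤ ‖Gw X w1 p‖ +
      ‖‖p - p'‖⁻¹ • (Gw X w1 p' - Gw X w1 p) + fderiv ℝ (Gw X w) p' (0, y1)‖

/-- The pairs at distance about `ρ` at which both gradients are small. -/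
def kS {m : ℕ} (X : ℝ × E m → E (m + 2)) (t t' ρ Λ : ℝ) : Set (E (m + 2) × E m × E m) :=
  {x | ρ ≤ ‖((t, x.2.1) : ℝ × E m) - (t', x.2.2)‖ ∧
    ‖((t, x.2.1) : ℝ × E m) - (t', x.2.2)‖ ≤ 2 * ρ ∧ ‖Vw X x.1 (t, x.2.1)‖ ≤ Λ ∧
    ‖Vw X x.1 (t', x.2.2)‖ ≤ Λ}

section meas

variable {m n : ℕ} {X : ℝ × E m → E n}

theorem kak_contT (hX : ContDiff ℝ ∞ X) : Continuous (fderiv ℝ X) :=
  hX.continuous_fderiv (by simp)

theorem kak_contLB (hX : ContDiff ℝ ∞ X) :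
    Continuous fun x : E n × (ℝ × E m) => LB m n x.1 (fderiv ℝ X x.2) := by
  have h1 := kak_contT hX
  exact ((LB m n).continuous.comp continuous_fst).clm_apply (h1.comp continuous_snd)

theorem kak_contVw (hX : ContDiff ℝ ∞ X) :
    Continuous fun x : E n × (ℝ × E m) => Vw X x.1 x.2 := by
  simp only [kVw_eq]
  exact continuous_snd.comp (kak_contLB hX)

theorem kak_contXt (hX : ContDiff ℝ ∞ X) :
    Continuous fun x : E n × (ℝ × E m) => ⟪x.1, Xt X x.2⟫ := by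
  simp only [kXt_eq]
  exact continuous_fst.comp (kak_contLB hX)

end meas

theorem kS_meas {m : ℕ} {X : ℝ × E m → E (m + 2)} (hX : ContDiff ℝ ∞ X) (t t' ρ Λ : ℝ) :
    MeasurableSet (kS X t t' ρ Λ) := by
  have h1 : Continuous fun x : E (m + 2) × E m × E m => Vw X x.1 (t, x.2.1) :=
    (kak_contVw hX).comp (g := fun x => Vw X x.1 x.2)
      (f := fun x : E (m + 2) × E m × E m => (x.1, (t, x.2.1))) (by fun_prop)
  have h2 : Continuous fun x : E (m + 2) × E m × E m => Vw X x.1 (t', x.2.2) :=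
    (kak_contVw hX).comp (g := fun x => Vw X x.1 x.2)
      (f := fun x : E (m + 2) × E m × E m => (x.1, (t', x.2.2))) (by fun_prop)
  have h3 : Continuous fun x : E (m + 2) × E m × E m =>
      ‖((t, x.2.1) : ℝ × E m) - (t', x.2.2)‖ := by fun_prop
  exact ((measurableSet_le measurable_const h3.measurable).inter
    ((measurableSet_le h3.measurable measurable_const).inter
      ((measurableSet_le h1.norm.measurable measurable_const).inter
        (measurableSet_le h2.norm.measurable measurable_const))))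

theorem kGw_fderiv {m n : ℕ} {X : ℝ × E m → E n} (hX : ContDiff ℝ ∞ X) (w : E n)
    (p v : ℝ × E m) :
    fderiv ℝ (Gw X w) p v = LB m n w (fderiv ℝ (fderiv ℝ X) p v) := by
  have hd : HasFDerivAt (fderiv ℝ X) (fderiv ℝ (fderiv ℝ X) p) p :=
    (((hX.fderiv_right (m := 1) (by norm_cast)).differentiable (by norm_num)) p).hasFDerivAt
  have h10 : Gw X w = fun q => LB m n w (fderiv ℝ X q) := by
    funext q
    exact kGw_eq X _ q
  have h11 : HasFDerivAt (fun q => LB m n w (fderiv ℝ X q))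
      ((LB m n w).comp (fderiv ℝ (fderiv ℝ X) p)) p :=
    (LB m n w).hasFDerivAt.comp p hd
  rw [h10, h11.fderiv]
  rfl

/-- The same for shorter vectors. -/
theorem kTrv_low {m : ℕ} {X : ℝ × E m → E (m + 2)} (hX : ContDiff ℝ ∞ X) {p0 : ℝ × E m}
    {δ c C0 : ℝ} (hc : 0 < c) (hT : Trv X p0 δ c C0) {p p' : ℝ × E m} {w : E (m + 2)} {θ : ℝ}
    (hp : ‖p - p0‖ ≤ δ) (hp' : ‖p' - p0‖ ≤ δ) (hw : 1 / 4 ≤ ‖w‖) (h1 : ‖Vw X w p‖ ≤ ‖w‖ * θ)
    (h2 : ‖Vw X w p'‖ ≤ ‖w‖ * θ) (h3 : C0 * θ ≤ ‖p - p'‖) (hne : p ≠ p') (w1 : E (m + 2))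
    (y1 : E m) : c / 4 * (‖w1‖ + ‖y1‖) ≤ ‖Gw X w1 p‖ +
      ‖‖p - p'‖⁻¹ • (Gw X w1 p' - Gw X w1 p) + fderiv ℝ (Gw X w) p' (0, y1)‖ := by
  set s : ℝ := ‖w‖ with hs
  have hs0 : 0 < s := by linarith
  have hVs : ∀ q : ℝ × E m, ‖Vw X w q‖ ≤ s * θ → ‖Vw X (s⁻¹ • w) q‖ ≤ θ := by
    intro q hq
    rw [Vw, map_smul, norm_smul, Real.norm_of_nonneg (by positivity), ← Vw,
      inv_mul_le_iff₀ hs0]
    exact hq
  have hw1 : ‖s⁻¹ • w‖ = 1 := by
    rw [norm_smul, Real.norm_of_nonneg (by positivity), ← hs, inv_mul_cancel₀ hs0.ne']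
  have h7 := hT p p' (s⁻¹ • w) θ hp hp' hw1.ge (by rw [hw1]; norm_num) (hVs _ h1) (hVs _ h2) h3
    hne w1 (s • y1)
  have h8 : fderiv ℝ (Gw X (s⁻¹ • w)) p' (0, s • y1) = fderiv ℝ (Gw X w) p' (0, y1) := by
    rw [kGw_fderiv hX, kGw_fderiv hX]
    have h9 : ((0, s • y1) : ℝ × E m) = s • (0, y1) := by
      rw [Prod.smul_mk, smul_zero]
    rw [h9, map_smul, map_smul, map_smul, smul_apply, smul_smul, mul_inv_cancel₀ hs0.ne',
      one_smul]
  rw [h8] at h7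
  refine le_trans ?_ h7
  rw [norm_smul, Real.norm_of_nonneg hs0.le]
  have h10 : 1 / 4 * ‖y1‖ ≤ s * ‖y1‖ := by gcongr
  have h11 : 1 / 4 * ‖w1‖ ≤ ‖w1‖ := by linarith [norm_nonneg w1]
  have h12 : 1 / 4 * (‖w1‖ + ‖y1‖) ≤ ‖w1‖ + s * ‖y1‖ := by linarith
  calc c / 4 * (‖w1‖ + ‖y1‖) = c * (1 / 4 * (‖w1‖ + ‖y1‖)) := by ring
    _ ≤ c * (‖w1‖ + s * ‖y1‖) := by gcongr

/-- **One pair of intervals, off the diagonal.** -/
theorem kak1 {m : ℕ} {X : ℝ × E m → E (m + 2)} (hX : ContDiff ℝ ∞ X) {A : ℝ} (hA : 0 ≤ A)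
    (h2 : ∀ p, ‖fderiv ℝ (fderiv ℝ X) p‖ ≤ A)
    (h3 : ∀ p p', ‖fderiv ℝ (fderiv ℝ X) p - fderiv ℝ (fderiv ℝ X) p'‖ ≤ A * ‖p - p'‖)
    {p0 : ℝ × E m} {δ c C0 : ℝ} (hδ1 : δ ≤ 1 / 4) (hc : 0 < c) (hT : Trv X p0 δ c C0) :
    ∃ C : ℝ, 0 < C ∧ ∀ R Λ ρ : ℝ, 1 ≤ R → √R ≤ Λ → 0 < ρ → 2 * C0 * Λ ≤ R * ρ → ∀ t t' : ℝ,
      |t - p0.1| ≤ δ → |t' - p0.1| ≤ δ → ∀ g g' : ℝ → ℝ≥0∞, Measurable g → Measurable g' →
      ∫⁻ τ, g τ ≤ ENNReal.ofReal (1 / √R) → ∫⁻ τ, g' τ ≤ ENNReal.ofReal (1 / √R) →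
      ∫⁻ ξ in {ξ : E (m + 2) | R / 2 ≤ ‖ξ‖ ∧ ‖ξ‖ ≤ 4 * R}, ∫⁻ z in Metric.closedBall p0.2 δ,
        ∫⁻ z' in Metric.closedBall p0.2 δ, (kS X t t' ρ Λ).indicator 1 (ξ, z, z') *
          (g ⟪ξ, Xt X (t, z)⟫ * g' ⟪ξ, Xt X (t', z')⟫) ≤
        ENNReal.ofReal (C * (Λ / √R) ^ (2 * m) / (R * ρ)) := by
  obtain ⟨C1, hC1⟩ := kak_pt m hA (c := c / 4 / 4) (by positivity)
  set B : Set (E m) := Metric.closedBall p0.2 δ with hB
  have hBm : MeasurableSet B := Metric.isClosed_closedBall.measurableSet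
  have hBf : volume B ≠ ⊤ := measure_closedBall_lt_top.ne
  set bv : ℝ := (volume B).toReal with hbv
  have hbv0 : 0 ≤ bv := ENNReal.toReal_nonneg
  have hbve : volume B = ENNReal.ofReal bv := (ENNReal.ofReal_toReal hBf).symm
  refine ⟨C1 * bv + 1, by positivity, ?_⟩
  intro R Λ ρ hR hΛ hρ hC0 t t' ht ht' g g' hg hg' hgi hgi'
  have hR0 : 0 < R := by linarith
  have hsR : 0 < √R := Real.sqrt_pos.2 hR0
  have hΛ0 : 0 < Λ := hsR.trans_le hΛ
  have hmem : ∀ s : ℝ, |s - p0.1| ≤ δ → ∀ z ∈ B, ‖((s, z) : ℝ × E m) - p0‖ ≤ δ := by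
    intro s hs z hz
    rw [Prod.norm_def]
    refine max_le ?_ ?_
    · simpa using hs
    · rw [hB, mem_closedBall_iff_norm] at hz
      exact hz
  set Ann : Set (E (m + 2)) := {ξ | R / 2 ≤ ‖ξ‖ ∧ ‖ξ‖ ≤ 4 * R} with hAnn
  have hAm : MeasurableSet Ann := (measurableSet_le measurable_const measurable_norm).inter
    (measurableSet_le measurable_norm measurable_const)
  by_cases hρ1 : ρ ≤ 1
  swap
  · have h0 : ∀ ξ, ∀ z ∈ B, ∀ z' ∈ B, (kS X t t' ρ Λ).indicator 1 (ξ, z, z') *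
        (g ⟪ξ, Xt X (t, z)⟫ * g' ⟪ξ, Xt X (t', z')⟫) = 0 := by
      intro ξ z hz z' hz'
      have h4 : (ξ, z, z') ∉ kS X t t' ρ Λ := by
        intro h5
        have h6 : ρ ≤ ‖((t, z) : ℝ × E m) - (t', z')‖ := h5.1
        have h7 := norm_sub_le_norm_sub_add_norm_sub ((t, z) : ℝ × E m) p0 (t', z')
        have h8 := hmem t ht z hz
        have h9 := hmem t' ht' z' hz'
        rw [norm_sub_rev] at h9
        linarith
      rw [indicator_of_notMem h4, zero_mul]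
    have h4 : ∫⁻ ξ in Ann, ∫⁻ z in B, ∫⁻ z' in B, (kS X t t' ρ Λ).indicator 1 (ξ, z, z') *
        (g ⟪ξ, Xt X (t, z)⟫ * g' ⟪ξ, Xt X (t', z')⟫) = ∫⁻ ξ in Ann, ∫⁻ z in B, ∫⁻ z' in B, 0 :=
      lintegral_congr fun ξ => setLIntegral_congr_fun hBm fun z hz =>
        setLIntegral_congr_fun hBm fun z' hz' => h0 ξ z hz z' hz'
    rw [h4]
    simp
  set f : E (m + 2) × E m × E m → ℝ≥0∞ := fun x => (kS X t t' ρ Λ).indicator 1 x *
    (g ⟪x.1, Xt X (t, x.2.1)⟫ * g' ⟪x.1, Xt X (t', x.2.2)⟫) with hf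
  have hfm : Measurable f := by
    have c1 : Continuous fun x : E (m + 2) × E m × E m => ⟪x.1, Xt X (t, x.2.1)⟫ :=
      (kak_contXt hX).comp (g := fun x => ⟪x.1, Xt X x.2⟫)
        (f := fun x : E (m + 2) × E m × E m => (x.1, (t, x.2.1))) (by fun_prop)
    have c2 : Continuous fun x : E (m + 2) × E m × E m => ⟪x.1, Xt X (t', x.2.2)⟫ :=
      (kak_contXt hX).comp (g := fun x => ⟪x.1, Xt X x.2⟫)
        (f := fun x : E (m + 2) × E m × E m => (x.1, (t', x.2.2))) (by fun_prop)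
    exact ((measurable_const (a := (1 : ℝ≥0∞))).indicator (kS_meas hX t t' ρ Λ)).mul
      ((hg.comp c1.measurable).mul (hg'.comp c2.measurable))
  have hm2 : Measurable fun q : E (m + 2) × E m => ∫⁻ z' in B, f (q.1, q.2, z') := by
    have h4 : Measurable fun q : (E (m + 2) × E m) × E m => f (q.1.1, q.1.2, q.2) :=
      hfm.comp (by fun_prop)
    exact h4.lintegral_prod_right'
  have hswap : ∫⁻ ξ in Ann, ∫⁻ z in B, ∫⁻ z' in B, f (ξ, z, z') =
      ∫⁻ z in B, ∫⁻ ξ in Ann, ∫⁻ z' in B, f (ξ, z, z') :=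
    lintegral_lintegral_swap hm2.aemeasurable
  change ∫⁻ ξ in Ann, ∫⁻ z in B, ∫⁻ z' in B, f (ξ, z, z') ≤ _
  rw [hswap]
  have hpt : ∀ z ∈ B, ∫⁻ ξ in Ann, ∫⁻ z' in B, f (ξ, z, z') ≤
      C1 * ENNReal.ofReal (Λ ^ (2 * m) / (R ^ m * ρ)) * ((∫⁻ τ, g τ) * ∫⁻ τ, g' τ) := by
    intro z hz
    set p : ℝ × E m := (t, z) with hp
    have hpδ : ‖p - p0‖ ≤ δ := hmem t ht z hz
    set S : Set (E (m + 2) × E m) := {x | x.1 ∈ Ann ∧ x.2 ∈ B ∧ (x.1, z, x.2) ∈ kS X t t' ρ Λ}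
      with hS
    have hSm : MeasurableSet S := by
      refine (measurable_fst hAm).inter ((measurable_snd hBm).inter ?_)
      have h4 : Measurable fun x : E (m + 2) × E m => (x.1, z, x.2) := by fun_prop
      exact h4 (kS_meas hX t t' ρ Λ)
    have hd : ∀ q, HasFDerivAt (fderiv ℝ X) (fderiv ℝ (fderiv ℝ X) q) q := fun q =>
      (((hX.fderiv_right (m := 1) (by norm_cast)).differentiable (by norm_num)) q).hasFDerivAt
    have hmain := hC1 (fderiv ℝ X) (fderiv ℝ (fderiv ℝ X)) hd h2 h3 p t' ρ (2 * R) Λ hρ hρ1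
      (by positivity) hΛ0.le S hSm ?_ g g' hg hg'
    · have hR2 : ENNReal.ofReal (Λ ^ (2 * m) / ((2 * R) ^ m * ρ)) ≤
          ENNReal.ofReal (Λ ^ (2 * m) / (R ^ m * ρ)) := by
        refine ENNReal.ofReal_le_ofReal ?_
        gcongr
        linarith
      refine le_trans (le_of_eq ?_) (hmain.trans (by gcongr))
      rw [← lintegral_indicator hAm]
      refine lintegral_congr fun ξ => ?_
      by_cases hξ : ξ ∈ Ann
      · rw [indicator_of_mem hξ, ← lintegral_indicator hBm]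
        refine lintegral_congr fun z' => ?_
        by_cases hz' : z' ∈ B
        · rw [indicator_of_mem hz']
          by_cases hk : (ξ, z, z') ∈ kS X t t' ρ Λ
          · have hxS : (ξ, z') ∈ S := ⟨hξ, hz', hk⟩
            rw [indicator_of_mem hxS, hf]
            simp only
            rw [indicator_of_mem hk, Pi.one_apply, one_mul, kXt_eq, kXt_eq]
          · have hxS : (ξ, z') ∉ S := fun h => hk h.2.2
            rw [indicator_of_notMem hxS, hf]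
            simp only
            rw [indicator_of_notMem hk, zero_mul]
        · have hxS : (ξ, z') ∉ S := fun h => hz' h.2.1
          rw [indicator_of_notMem hz', indicator_of_notMem hxS]
      · rw [indicator_of_notMem hξ]
        have h4 : ∀ z', S.indicator (fun x => g (LB m (m + 2) x.1 (fderiv ℝ X p)).1 *
            g' (LB m (m + 2) x.1 (fderiv ℝ X (t', x.2))).1) (ξ, z') = 0 :=
          fun z' => indicator_of_notMem (fun h => hξ h.1) _
        simp only [h4, lintegral_zero]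
    · rintro ⟨ξ, z'⟩ ⟨hξ, hz', hk1, hk2, hk3, hk4⟩
      simp only at hξ hz' hk1 hk2 hk3 hk4 ⊢
      have hzz : ‖z' - z‖ ≤ ‖((t, z) : ℝ × E m) - (t', z')‖ := by
        rw [norm_sub_rev]
        exact norm_snd_le (((t, z) : ℝ × E m) - (t', z'))
      refine ⟨by linarith [hξ.2], hzz.trans hk2, ?_, ?_, ?_⟩
      · rw [← kVw_eq]; exact hk3
      · rw [← kVw_eq]; exact hk4
      · have hP : ((t', p.2 + ρ • (ρ⁻¹ • (z' - p.2))) : ℝ × E m) = (t', z') := by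
          rw [smul_smul, mul_inv_cancel₀ hρ.ne', one_smul, add_sub_cancel]
        have hr : 0 < ‖((t, z) : ℝ × E m) - (t', z')‖ := hρ.trans_le hk1
        have hne : ((t, z) : ℝ × E m) ≠ (t', z') := fun h => by
          rw [h, sub_self, norm_zero] at hr
          exact lt_irrefl _ hr
        have hw1 : ‖(2 * R)⁻¹ • ξ‖ = (2 * R)⁻¹ * ‖ξ‖ := by
          rw [norm_smul, Real.norm_of_nonneg (by positivity)]
        have hw2 : 1 / 4 ≤ ‖(2 * R)⁻¹ • ξ‖ := by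
          rw [hw1, ← div_eq_inv_mul, le_div_iff₀ (by positivity)]
          linarith [hξ.1]
        have hVs : ∀ q : ℝ × E m, ‖Vw X ξ q‖ ≤ Λ →
            ‖Vw X ((2 * R)⁻¹ • ξ) q‖ ≤ ‖(2 * R)⁻¹ • ξ‖ * (2 * Λ / R) := by
          intro q hq
          have h5 : ‖Vw X ((2 * R)⁻¹ • ξ) q‖ ≤ (2 * R)⁻¹ * Λ := by
            rw [Vw, map_smul, norm_smul, Real.norm_of_nonneg (by positivity), ← Vw]
            gcongr
          have h6 : (2 * R)⁻¹ * Λ = 1 / 4 * (2 * Λ / R) := by field_simp; norm_num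
          rw [h6] at h5
          refine h5.trans ?_
          gcongr
        have hθ : C0 * (2 * Λ / R) ≤ ‖((t, z) : ℝ × E m) - (t', z')‖ := by
          refine le_trans ?_ hk1
          rw [← mul_div_assoc, div_le_iff₀ hR0]
          linarith
        refine PH_low (by positivity) hρ _ hk1 hk2 fun w1 y1 => ?_
        have h8 := kTrv_low hX hc hT hpδ (hmem t' ht' z' hz') hw2 (hVs _ hk3) (hVs _ hk4) hθ hne
          w1 y1
        rw [kGw_fderiv hX, kGw_eq, kGw_eq] at h8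
        rw [hP]
        exact h8
  calc ∫⁻ z in B, ∫⁻ ξ in Ann, ∫⁻ z' in B, f (ξ, z, z')
      ≤ ∫⁻ _ in B, C1 * ENNReal.ofReal (Λ ^ (2 * m) / (R ^ m * ρ)) *
        ((∫⁻ τ, g τ) * ∫⁻ τ, g' τ) := setLIntegral_mono' hBm hpt
    _ = C1 * ENNReal.ofReal (Λ ^ (2 * m) / (R ^ m * ρ)) * ((∫⁻ τ, g τ) * ∫⁻ τ, g' τ) *
        ENNReal.ofReal bv := by
        rw [setLIntegral_const, hbve]
    _ ≤ C1 * ENNReal.ofReal (Λ ^ (2 * m) / (R ^ m * ρ)) * (ENNReal.ofReal (1 / √R) *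
        ENNReal.ofReal (1 / √R)) * ENNReal.ofReal bv := by gcongr
    _ = ENNReal.ofReal (C1 * bv * (Λ / √R) ^ (2 * m) / (R * ρ)) := by
        rw [← ENNReal.ofReal_coe_nnreal, ← ENNReal.ofReal_mul (by positivity),
          ← ENNReal.ofReal_mul (by positivity), ← ENNReal.ofReal_mul (by positivity),
          ← ENNReal.ofReal_mul (by positivity)]
        congr 1
        have h4 : √R * √R = R := Real.mul_self_sqrt hR0.le
        have h5 : (√R) ^ (2 * m) = R ^ m := by rw [pow_mul, Real.sq_sqrt hR0.le]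
        rw [div_pow, h5]
        have h6 : 1 / √R * (1 / √R) = 1 / R := by
          rw [div_mul_div_comm, h4, one_mul]
        rw [h6]
        field_simp
    _ ≤ ENNReal.ofReal ((C1 * bv + 1) * (Λ / √R) ^ (2 * m) / (R * ρ)) := by
        refine ENNReal.ofReal_le_ofReal ?_
        gcongr
        linarith

end Pool.Agent.LF
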