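import Pool.Agent.LF.GP
import Pool.Agent.LF.KAK1

/-!
[LEAF] the same with the determinant form as `Trv`.
-/

set_option autoImplicit false

namespace Pool.Agent.LF

open Pool.Agent.MP_6cbfb8_an
open scoped RealInnerProductSpace ContDiff

/-- The bi-Lipschitz bound, the rectangle form and the determinant form. -/
theorem gpt {m : ℕ} {X : ℝ × E m → E (m + 2)} {p0 : ℝ × E m} {δ : ℝ} (hδ : 0 < δ)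
    (hX : ContDiff ℝ ∞ X) (h1 : ∀ p, ‖p - p0‖ ≤ δ → ‖X p‖ = 1)
    (himm : ∀ p, ‖p - p0‖ ≤ δ → ∀ v, fderiv ℝ X p v = 0 → v = 0)
    (hN : ∀ w, w ≠ 0 → Vw X w p0 = 0 → ∀ y, fderiv ℝ (Gw X w) p0 (0, y) = 0 → y = 0) :
    ∃ c C δ1 : ℝ, 0 < c ∧ 1 ≤ C ∧ 0 < δ1 ∧ δ1 ≤ δ ∧ δ1 ≤ 1 / 4 ∧
      (∀ p p', ‖p - p0‖ ≤ δ1 → ‖p' - p0‖ ≤ δ1 →
        c * ‖p - p'‖ ≤ ‖X p - X p'‖ ∧ ‖X p - X p'‖ ≤ C * ‖p - p'‖) ∧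
      (∀ (w : E (m + 2)) (θ : ℝ) (p p' p'' : ℝ × E m), 1 / 4 ≤ ‖w‖ → ‖w‖ ≤ 8 →
        ‖p - p0‖ ≤ δ1 → ‖p' - p0‖ ≤ δ1 → ‖p'' - p0‖ ≤ δ1 →
        ‖Vw X w p‖ ≤ θ → ‖Vw X w p'‖ ≤ θ → ‖Vw X w p''‖ ≤ θ →
        C * θ ≤ ‖p - p'‖ → C * θ ≤ ‖p - p''‖ →
        c * (‖p - p'‖ * ‖p - p''‖) ≤ |⟪X p - X p', X p - X p''⟫|) ∧
      Trv X p0 δ1 c C := by
  obtain ⟨c, C, δ1, h2, h3, h4, h5, h6, h7, h8, h9⟩ := gp hδ hX h1 himm hN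
  exact ⟨c, C, δ1, h2, h3, h4, h5, h6, h7, h8, fun p p' w θ a1 a2 a3 a4 a5 a6 a7 a8 w1 y1 =>
    h9 w θ p p' (by linarith) (by linarith) a1 a2 a5 a6 a7 a8 w1 y1⟩

end Pool.Agent.LF
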