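import Mathlib

/-!
Linear changes of variables with a lower bound.
-/

namespace Pool.Agent.LF

open MeasureTheory Set
open scoped ENNReal NNReal Real

/-- Linear changes of variables with a lower bound: one constant. -/
theorem kl_lin_box {V W : Type*} [NormedAddCommGroup V] [NormedSpace ℝ V] [FiniteDimensional ℝ V]
    [MeasurableSpace V] [BorelSpace V] [NormedAddCommGroup W] [NormedSpace ℝ W]
    [FiniteDimensional ℝ W] [MeasurableSpace W] [BorelSpace W] (μ : Measure V)
    [μ.IsAddHaarMeasure] (ν : Measure W) [ν.IsAddHaarMeasure]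
    (hfr : Module.finrank ℝ V = Module.finrank ℝ W) {c : ℝ} (hc : 0 < c) :
    ∃ C : ℝ≥0∞, C ≠ ∞ ∧ ∀ T : V →L[ℝ] W, (∀ v, c * ‖v‖ ≤ ‖T v‖) → ∀ h : W → ℝ≥0∞,
      Measurable h → ∫⁻ x, h (T x) ∂μ ≤ C * ∫⁻ y, h y ∂ν := by
  have hν : ν (Metric.closedBall 0 1) ≠ 0 :=
    (Metric.measure_closedBall_pos ν (0 : W) one_pos).ne'
  have hν' : ν (Metric.closedBall 0 1) ≠ ∞ := measure_closedBall_lt_top.ne
  have hμ : μ (Metric.closedBall 0 c⁻¹) ≠ ∞ := measure_closedBall_lt_top.ne
  refine ⟨μ (Metric.closedBall 0 c⁻¹) / ν (Metric.closedBall 0 1),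
    ENNReal.div_ne_top hμ hν, fun T hT h hh => ?_⟩
  have hinj : Function.Injective T := by
    intro x y hxy
    have h1 := hT (x - y)
    rw [map_sub, hxy, sub_self, norm_zero] at h1
    have h2 : ‖x - y‖ ≤ 0 := by
      by_contra h3
      rw [not_le] at h3
      have : 0 < c * ‖x - y‖ := mul_pos hc h3
      linarith
    exact sub_eq_zero.1 (norm_le_zero_iff.1 h2)
  set e : V ≃L[ℝ] W :=
    (LinearEquiv.ofInjectiveOfFinrankEq (T : V →ₗ[ℝ] W) hinj hfr).toContinuousLinearEquiv with he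
  have heT : ∀ x, e x = T x := fun x => rfl
  have h1 : ∫⁻ x, h (T x) ∂μ = ∫⁻ y, h y ∂(μ.map e) := by
    rw [lintegral_map hh e.continuous.measurable]
    rfl
  have h2 : μ.map e = (Measure.addHaarScalarFactor (μ.map e) ν) • ν :=
    Measure.isAddLeftInvariant_eq_smul _ _
  have h3 : (μ.map e) (Metric.closedBall 0 1) ≤ μ (Metric.closedBall 0 c⁻¹) := by
    rw [Measure.map_apply e.continuous.measurable Metric.isClosed_closedBall.measurableSet]
    refine measure_mono fun x hx => ?_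
    rw [mem_preimage, mem_closedBall_zero_iff, heT] at hx
    rw [mem_closedBall_zero_iff, ← one_div, le_div_iff₀ hc, mul_comm]
    exact (hT x).trans hx
  have h4 : ((Measure.addHaarScalarFactor (μ.map e) ν : ℝ≥0) : ℝ≥0∞) ≤
      μ (Metric.closedBall 0 c⁻¹) / ν (Metric.closedBall 0 1) := by
    rw [ENNReal.le_div_iff_mul_le (Or.inl hν) (Or.inl hν')]
    refine le_trans (le_of_eq ?_) h3
    conv_rhs => rw [h2]
    rw [Measure.smul_apply]
    rfl
  rw [h1, h2, lintegral_smul_measure]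
  exact mul_le_mul' h4 le_rfl

end Pool.Agent.LF
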