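import Mathlib

/-!
Sums over pairs of separated points: the part of the estimate which does not see the geometry.
-/

namespace Pool.Agent.LF

open MeasureTheory Set
open scoped ENNReal Real

/-- Separated points in an interval. -/
theorem ks_card_sep {ι : Type*} (t : ι → ℝ) {h : ℝ} (hh : 0 < h)
    (hsep : ∀ i j, i ≠ j → h ≤ |t i - t j|) (a l : ℝ) (hl : 0 ≤ l) (s : Finset ι)
    (hs : ∀ i ∈ s, |t i - a| ≤ l) : (s.card : ℝ) ≤ 2 * l / h + 1 := by
  have h1 : volume (⋃ i ∈ s, Ioo (t i - h / 2) (t i + h / 2)) =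
      ∑ i ∈ s, volume (Ioo (t i - h / 2) (t i + h / 2)) := by
    refine measure_biUnion_finset (fun i _ j _ hij => ?_) fun i _ => measurableSet_Ioo
    rw [Function.onFun, Set.disjoint_left]
    intro x hx hx'
    have h2 := hsep i j hij
    rw [mem_Ioo] at hx hx'
    have h3 : |t i - t j| < h := by
      rw [abs_lt]
      constructor <;> linarith
    linarith
  have h2 : (⋃ i ∈ s, Ioo (t i - h / 2) (t i + h / 2)) ⊆ Ioo (a - l - h / 2) (a + l + h / 2) := by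
    intro x hx
    simp only [mem_iUnion, exists_prop] at hx
    obtain ⟨i, hi, hx⟩ := hx
    have h3 := abs_le.1 (hs i hi)
    rw [mem_Ioo] at hx ⊢
    constructor <;> linarith [hx.1, hx.2, h3.1, h3.2]
  have h3 := measure_mono (μ := volume) h2
  rw [h1] at h3
  simp only [Real.volume_Ioo] at h3
  have e1 : ∀ i, t i + h / 2 - (t i - h / 2) = h := fun i => by ring
  have e2 : a + l + h / 2 - (a - l - h / 2) = 2 * l + h := by ring
  simp only [e1, e2] at h3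
  rw [Finset.sum_const, nsmul_eq_mul, ← ENNReal.ofReal_natCast,
    ← ENNReal.ofReal_mul (Nat.cast_nonneg _),
    ENNReal.ofReal_le_ofReal_iff (by positivity)] at h3
  rw [← sub_le_iff_le_add, le_div_iff₀ hh]
  linarith

/-- Sums over pairs of separated points whose distance is at most `l`. -/
theorem ks_pair_sum {ι : Type*} [Fintype ι] (t : ι → ℝ) {h : ℝ} (hh : 0 < h)
    (hsep : ∀ i j, i ≠ j → h ≤ |t i - t j|) (l : ℝ) (hl : 0 ≤ l) (b : ℝ≥0∞) (w : ι → ι → ℝ≥0∞)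
    (hw : ∀ i j, w i j ≤ b) (hw0 : ∀ i j, l < |t i - t j| → w i j = 0) :
    ∑ i, ∑ j, w i j ≤ (Fintype.card ι : ℝ≥0∞) * (ENNReal.ofReal (2 * l / h + 1) * b) := by
  classical
  have h1 : ∀ i, ∑ j, w i j ≤ ENNReal.ofReal (2 * l / h + 1) * b := by
    intro i
    set s : Finset ι := Finset.univ.filter fun j => |t j - t i| ≤ l with hs
    have h2 : ∑ j, w i j = ∑ j ∈ s, w i j := by
      refine (Finset.sum_subset (Finset.subset_univ s) fun j _ hj => ?_).symm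
      refine hw0 i j ?_
      rw [hs, Finset.mem_filter] at hj
      rw [abs_sub_comm]
      by_contra hc
      exact hj ⟨Finset.mem_univ j, not_lt.1 hc⟩
    rw [h2]
    calc ∑ j ∈ s, w i j ≤ ∑ _j ∈ s, b := Finset.sum_le_sum fun j _ => hw i j
      _ = (s.card : ℝ≥0∞) * b := by rw [Finset.sum_const, nsmul_eq_mul]
      _ ≤ _ := by
          gcongr
          rw [← ENNReal.ofReal_natCast]
          refine ENNReal.ofReal_le_ofReal (ks_card_sep t hh hsep (t i) l hl s fun j hj => ?_)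
          rw [hs, Finset.mem_filter] at hj
          exact hj.2
  calc ∑ i, ∑ j, w i j ≤ ∑ _i : ι, ENNReal.ofReal (2 * l / h + 1) * b :=
        Finset.sum_le_sum fun i _ => h1 i
    _ = _ := by rw [Finset.sum_const, nsmul_eq_mul, Finset.card_univ]

/-- The dyadic decomposition of the distance. -/
theorem ks_dyad {r0 D : ℝ} (hr0 : 0 < r0) (L : ℕ) (hD : D ≤ 2 ^ L * r0) :
    (1 : ℝ≥0∞) ≤ {x : ℝ | x ≤ r0}.indicator 1 D +
      ∑ k ∈ Finset.range L, {x : ℝ | 2 ^ k * r0 ≤ x ∧ x ≤ 2 * (2 ^ k * r0)}.indicator 1 D := by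
  classical
  by_cases h0 : D ≤ r0
  · rw [indicator_of_mem (show D ∈ {x : ℝ | x ≤ r0} from h0)]
    exact le_self_add
  · rw [not_le] at h0
    have hex : ∃ k : ℕ, D ≤ 2 ^ k * r0 := ⟨L, hD⟩
    have h1 := Nat.find_spec hex
    have h2 : Nat.find hex ≠ 0 := by
      intro h3
      rw [h3, pow_zero, one_mul] at h1
      linarith
    obtain ⟨k, hk⟩ := Nat.exists_eq_succ_of_ne_zero h2
    have h3 : 2 ^ k * r0 < D := not_le.1 (Nat.find_min hex (by omega))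
    have h4 : k < L := by
      have := Nat.find_min' hex hD
      omega
    rw [hk] at h1
    have h5 : D ∈ {x : ℝ | 2 ^ k * r0 ≤ x ∧ x ≤ 2 * (2 ^ k * r0)} := by
      refine ⟨h3.le, h1.trans (le_of_eq ?_)⟩
      rw [pow_succ]
      ring
    refine le_add_left ?_
    refine le_trans ?_ (Finset.single_le_sum (f := fun k =>
      {x : ℝ | 2 ^ k * r0 ≤ x ∧ x ≤ 2 * (2 ^ k * r0)}.indicator (1 : ℝ → ℝ≥0∞) D)
      (fun _ _ => zero_le) (Finset.mem_range.2 h4))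
    simp only [indicator_of_mem h5, Pi.one_apply, le_refl]

/-- The square of a sum of integrals, by the distance of the points. -/
theorem ks_sq_sum {ι Ξ Z : Type*} [Fintype ι] [MeasurableSpace Ξ] [MeasurableSpace Z] (μ : Measure Ξ)
    (lam : Measure Z) [SFinite lam] [SFinite μ] (F : ι → Ξ → Z → ℝ≥0∞)
    (hF : ∀ i, Measurable fun x : Ξ × Z => F i x.1 x.2) (D : ι → ι → Z → Z → ℝ)
    (hD : ∀ i j, Measurable fun x : Z × Z => D i j x.1 x.2) (t : ι → ℝ) {h : ℝ} (hh : 0 < h)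
    (hsep : ∀ i j, i ≠ j → h ≤ |t i - t j|) (htD : ∀ i j z z', |t i - t j| ≤ D i j z z')
    (r0 : ℝ) (hr0 : 0 < r0) (L : ℕ) (hDL : ∀ i j ξ z z', F i ξ z ≠ 0 → F j ξ z' ≠ 0 → D i j z z' ≤ 2 ^ L * r0) (bn : ℝ≥0∞)
    (bk : ℕ → ℝ≥0∞)
    (hn : ∀ i j, ∫⁻ ξ, ∫⁻ z, ∫⁻ z', {x : ℝ | x ≤ r0}.indicator 1 (D i j z z') *
      (F i ξ z * F j ξ z') ∂lam ∂lam ∂μ ≤ bn)
    (hk : ∀ i j, ∀ k < L, ∫⁻ ξ, ∫⁻ z, ∫⁻ z',
      {x : ℝ | 2 ^ k * r0 ≤ x ∧ x ≤ 2 * (2 ^ k * r0)}.indicator 1 (D i j z z') *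
      (F i ξ z * F j ξ z') ∂lam ∂lam ∂μ ≤ bk k) :
    ∫⁻ ξ, (∑ i, ∫⁻ z, F i ξ z ∂lam) ^ 2 ∂μ ≤ (Fintype.card ι : ℝ≥0∞) *
      (ENNReal.ofReal (2 * r0 / h + 1) * bn) + ∑ k ∈ Finset.range L, (Fintype.card ι : ℝ≥0∞) *
        (ENNReal.ofReal (2 * (2 * (2 ^ k * r0)) / h + 1) * bk k) := by
  classical
  have hFi : ∀ i ξ, Measurable (F i ξ) := fun i ξ => (hF i).comp measurable_prodMk_left
  -- the indicators
  set I0 : ι → ι → Z → Z → ℝ≥0∞ := fun i j z z' => {x : ℝ | x ≤ r0}.indicator 1 (D i j z z')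
    with hI0
  set Ik : ℕ → ι → ι → Z → Z → ℝ≥0∞ := fun k i j z z' =>
    {x : ℝ | 2 ^ k * r0 ≤ x ∧ x ≤ 2 * (2 ^ k * r0)}.indicator 1 (D i j z z') with hIk
  have mI0 : ∀ i j, Measurable fun x : Z × Z => I0 i j x.1 x.2 := fun i j =>
    (measurable_one.indicator measurableSet_Iic).comp (hD i j)
  have mIk : ∀ k i j, Measurable fun x : Z × Z => Ik k i j x.1 x.2 := fun k i j =>
    (measurable_one.indicator measurableSet_Icc).comp (hD i j)
  have mG : ∀ i j, Measurable fun x : (Ξ × Z) × Z => F i x.1.1 x.1.2 * F j x.1.1 x.2 := by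
    intro i j
    refine ((hF i).comp measurable_fst).mul ?_
    exact (hF j).comp (measurable_fst.fst.prodMk measurable_snd)
  have m0 : ∀ i j, Measurable fun x : (Ξ × Z) × Z => I0 i j x.1.2 x.2 *
      (F i x.1.1 x.1.2 * F j x.1.1 x.2) := fun i j =>
    ((mI0 i j).comp (measurable_fst.snd.prodMk measurable_snd)).mul (mG i j)
  have mk : ∀ k i j, Measurable fun x : (Ξ × Z) × Z => Ik k i j x.1.2 x.2 *
      (F i x.1.1 x.1.2 * F j x.1.1 x.2) := fun k i j =>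
    ((mIk k i j).comp (measurable_fst.snd.prodMk measurable_snd)).mul (mG i j)
  -- pointwise
  have hpt : ∀ ξ, (∑ i, ∫⁻ z, F i ξ z ∂lam) ^ 2 ≤ ∑ i, ∑ j,
      ((∫⁻ z, ∫⁻ z', I0 i j z z' * (F i ξ z * F j ξ z') ∂lam ∂lam) +
        ∑ k ∈ Finset.range L, ∫⁻ z, ∫⁻ z', Ik k i j z z' * (F i ξ z * F j ξ z') ∂lam ∂lam) := by
    intro ξ
    rw [sq, Finset.sum_mul_sum]
    refine Finset.sum_le_sum fun i _ => Finset.sum_le_sum fun j _ => ?_
    have e1 : (∫⁻ z, F i ξ z ∂lam) * ∫⁻ z', F j ξ z' ∂lam =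
        ∫⁻ z, ∫⁻ z', F i ξ z * F j ξ z' ∂lam ∂lam := by
      rw [← lintegral_mul_const _ (hFi i ξ)]
      refine lintegral_congr fun z => ?_
      rw [lintegral_const_mul _ (hFi j ξ)]
    rw [e1]
    have m0' : ∀ z, Measurable fun z' => I0 i j z z' * (F i ξ z * F j ξ z') := fun z =>
      (m0 i j).comp (measurable_prodMk_left (x := (ξ, z)))
    have mk' : ∀ k z, Measurable fun z' => Ik k i j z z' * (F i ξ z * F j ξ z') := fun k z =>
      (mk k i j).comp (measurable_prodMk_left (x := (ξ, z)))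
    have m0'' : Measurable fun z => ∫⁻ z', I0 i j z z' * (F i ξ z * F j ξ z') ∂lam := by
      have h1 : Measurable fun x : Z × Z => I0 i j x.1 x.2 * (F i ξ x.1 * F j ξ x.2) :=
        (m0 i j).comp (measurable_prodMk_left (x := ξ) |>.comp measurable_fst |>.prodMk
          measurable_snd)
      exact h1.lintegral_prod_right'
    have mk'' : ∀ k, Measurable fun z => ∫⁻ z', Ik k i j z z' * (F i ξ z * F j ξ z') ∂lam := by
      intro k
      have h1 : Measurable fun x : Z × Z => Ik k i j x.1 x.2 * (F i ξ x.1 * F j ξ x.2) :=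
        (mk k i j).comp (measurable_prodMk_left (x := ξ) |>.comp measurable_fst |>.prodMk
          measurable_snd)
      exact h1.lintegral_prod_right'
    calc ∫⁻ z, ∫⁻ z', F i ξ z * F j ξ z' ∂lam ∂lam
        ≤ ∫⁻ z, ∫⁻ z', (I0 i j z z' * (F i ξ z * F j ξ z') + ∑ k ∈ Finset.range L,
            Ik k i j z z' * (F i ξ z * F j ξ z')) ∂lam ∂lam := by
          refine lintegral_mono fun z => lintegral_mono fun z' => ?_
          rw [← Finset.sum_mul, ← add_mul]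
          by_cases hFi : F i ξ z = 0
          · rw [hFi, zero_mul]
            exact zero_le
          by_cases hFj : F j ξ z' = 0
          · rw [hFj, mul_zero]
            exact zero_le
          exact le_mul_of_one_le_left zero_le (ks_dyad hr0 L (hDL i j ξ z z' hFi hFj))
      _ = ∫⁻ z, ((∫⁻ z', I0 i j z z' * (F i ξ z * F j ξ z') ∂lam) + ∑ k ∈ Finset.range L,
            ∫⁻ z', Ik k i j z z' * (F i ξ z * F j ξ z') ∂lam) ∂lam := by
          refine lintegral_congr fun z => ?_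
          rw [lintegral_add_left (m0' z), lintegral_finsetSum _ fun k _ => mk' k z]
      _ = _ := by
          rw [lintegral_add_left m0'', lintegral_finsetSum _ fun k _ => mk'' k]
  have M0 : ∀ i j, Measurable fun ξ => ∫⁻ z, ∫⁻ z', I0 i j z z' * (F i ξ z * F j ξ z') ∂lam ∂lam :=
    fun i j => ((m0 i j).lintegral_prod_right').lintegral_prod_right'
  have Mk : ∀ k i j, Measurable fun ξ => ∫⁻ z, ∫⁻ z', Ik k i j z z' * (F i ξ z * F j ξ z')
      ∂lam ∂lam := fun k i j => ((mk k i j).lintegral_prod_right').lintegral_prod_right'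
  -- sums
  have hz0 : ∀ i j, r0 < |t i - t j| →
      ∫⁻ ξ, ∫⁻ z, ∫⁻ z', I0 i j z z' * (F i ξ z * F j ξ z') ∂lam ∂lam ∂μ = 0 := by
    intro i j hij
    have : ∀ z z', I0 i j z z' = 0 := fun z z' => indicator_of_notMem (fun hx => by
      have h1 := htD i j z z'
      have h2 : D i j z z' ≤ r0 := hx
      linarith) _
    simp [this]
  have hzk : ∀ k i j, 2 * (2 ^ k * r0) < |t i - t j| →
      ∫⁻ ξ, ∫⁻ z, ∫⁻ z', Ik k i j z z' * (F i ξ z * F j ξ z') ∂lam ∂lam ∂μ = 0 := by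
    intro k i j hij
    have : ∀ z z', Ik k i j z z' = 0 := fun z z' => indicator_of_notMem (fun hx => by
      have h1 := htD i j z z'
      have h2 : D i j z z' ≤ 2 * (2 ^ k * r0) := hx.2
      linarith) _
    simp [this]
  have hsum : ∀ i j, Measurable fun ξ =>
      ((∫⁻ z, ∫⁻ z', I0 i j z z' * (F i ξ z * F j ξ z') ∂lam ∂lam) +
        ∑ k ∈ Finset.range L, ∫⁻ z, ∫⁻ z', Ik k i j z z' * (F i ξ z * F j ξ z') ∂lam ∂lam) :=
    fun i j => (M0 i j).add (Finset.measurable_sum _ fun k _ => Mk k i j)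
  have hij : ∀ i j, ∫⁻ ξ, ((∫⁻ z, ∫⁻ z', I0 i j z z' * (F i ξ z * F j ξ z') ∂lam ∂lam) +
        ∑ k ∈ Finset.range L, ∫⁻ z, ∫⁻ z', Ik k i j z z' * (F i ξ z * F j ξ z') ∂lam ∂lam) ∂μ =
      (∫⁻ ξ, ∫⁻ z, ∫⁻ z', I0 i j z z' * (F i ξ z * F j ξ z') ∂lam ∂lam ∂μ) +
        ∑ k ∈ Finset.range L, ∫⁻ ξ, ∫⁻ z, ∫⁻ z', Ik k i j z z' * (F i ξ z * F j ξ z')
          ∂lam ∂lam ∂μ := by
    intro i j
    rw [lintegral_add_left (M0 i j), lintegral_finsetSum _ fun k _ => Mk k i j]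
  calc ∫⁻ ξ, (∑ i, ∫⁻ z, F i ξ z ∂lam) ^ 2 ∂μ
      ≤ ∫⁻ ξ, ∑ i, ∑ j, ((∫⁻ z, ∫⁻ z', I0 i j z z' * (F i ξ z * F j ξ z') ∂lam ∂lam) +
        ∑ k ∈ Finset.range L, ∫⁻ z, ∫⁻ z', Ik k i j z z' * (F i ξ z * F j ξ z') ∂lam ∂lam) ∂μ :=
        lintegral_mono hpt
    _ = ∑ i, ∑ j, ((∫⁻ ξ, ∫⁻ z, ∫⁻ z', I0 i j z z' * (F i ξ z * F j ξ z') ∂lam ∂lam ∂μ) +
        ∑ k ∈ Finset.range L, ∫⁻ ξ, ∫⁻ z, ∫⁻ z', Ik k i j z z' * (F i ξ z * F j ξ z')
          ∂lam ∂lam ∂μ) := by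
        rw [lintegral_finsetSum Finset.univ fun i _ =>
          Finset.measurable_sum Finset.univ fun j _ => hsum i j]
        refine Finset.sum_congr rfl fun i _ => ?_
        rw [lintegral_finsetSum Finset.univ fun j _ => hsum i j]
        exact Finset.sum_congr rfl fun j _ => hij i j
    _ = (∑ i, ∑ j, ∫⁻ ξ, ∫⁻ z, ∫⁻ z', I0 i j z z' * (F i ξ z * F j ξ z') ∂lam ∂lam ∂μ) +
        ∑ k ∈ Finset.range L, ∑ i, ∑ j, ∫⁻ ξ, ∫⁻ z, ∫⁻ z', Ik k i j z z' *
          (F i ξ z * F j ξ z') ∂lam ∂lam ∂μ := by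
        simp only [Finset.sum_add_distrib]
        congr 1
        calc ∑ i, ∑ j, ∑ k ∈ Finset.range L, ∫⁻ ξ, ∫⁻ z, ∫⁻ z', Ik k i j z z' *
              (F i ξ z * F j ξ z') ∂lam ∂lam ∂μ
            = ∑ i, ∑ k ∈ Finset.range L, ∑ j, ∫⁻ ξ, ∫⁻ z, ∫⁻ z', Ik k i j z z' *
              (F i ξ z * F j ξ z') ∂lam ∂lam ∂μ :=
              Finset.sum_congr rfl fun i _ => Finset.sum_comm
          _ = _ := Finset.sum_comm
    _ ≤ _ := by
        gcongr with k hk'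
        · exact ks_pair_sum t hh hsep r0 hr0.le bn _ hn hz0
        · exact ks_pair_sum t hh hsep (2 * (2 ^ k * r0)) (by positivity) (bk k) _
            (fun i j => hk i j k (Finset.mem_range.1 hk')) (hzk k)

end Pool.Agent.LF
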