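import Pool.Agent.LF.KAK1
import Pool.Agent.LF.KS
import Pool.Agent.LF.KL

/-!
The square function estimate: all pairs of intervals.
-/

set_option autoImplicit false

namespace Pool.Agent.LF

open MeasureTheory Set Module Pool.Agent.MP_6cbfb8_an Pool.Agent.GNP
open scoped ENNReal NNReal Real RealInnerProductSpace ContDiff

/-- The function of one interval. -/
noncomputable def kF {m : ℕ} (X : ℝ × E m → E (m + 2)) (B : Set (E m)) (Λ s : ℝ) (g : ℝ → ℝ≥0∞)
    (ξ : E (m + 2)) (z : E m) : ℝ≥0∞ :=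
  {x : E (m + 2) × E m | x.2 ∈ B ∧ ‖Vw X x.1 (s, x.2)‖ ≤ Λ}.indicator
    (fun x => g ⟪x.1, Xt X (s, x.2)⟫) (ξ, z)

theorem kF_set {m : ℕ} {X : ℝ × E m → E (m + 2)} (hX : ContDiff ℝ ∞ X) {B : Set (E m)}
    (hB : MeasurableSet B) (Λ s : ℝ) :
    MeasurableSet {x : E (m + 2) × E m | x.2 ∈ B ∧ ‖Vw X x.1 (s, x.2)‖ ≤ Λ} := by
  have h1 : Continuous fun x : E (m + 2) × E m => Vw X x.1 (s, x.2) :=
    (kak_contVw hX).comp (g := fun x => Vw X x.1 x.2)
      (f := fun x : E (m + 2) × E m => (x.1, (s, x.2))) (by fun_prop)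
  exact (measurable_snd hB).inter (measurableSet_le h1.norm.measurable measurable_const)

theorem kF_meas {m : ℕ} {X : ℝ × E m → E (m + 2)} (hX : ContDiff ℝ ∞ X) {B : Set (E m)}
    (hB : MeasurableSet B) (Λ s : ℝ) {g : ℝ → ℝ≥0∞} (hg : Measurable g) :
    Measurable fun x : E (m + 2) × E m => kF X B Λ s g x.1 x.2 := by
  have h2 : Continuous fun x : E (m + 2) × E m => ⟪x.1, Xt X (s, x.2)⟫ :=
    (kak_contXt hX).comp (g := fun x => ⟪x.1, Xt X x.2⟫)
      (f := fun x : E (m + 2) × E m => (x.1, (s, x.2))) (by fun_prop)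
  exact (hg.comp h2.measurable).indicator (kF_set hX hB Λ s)

/-- The integral in `ξ` over a ball, one point. -/
theorem kak_one (m : ℕ) {cf : ℝ} (hcf : 0 < cf) : ∃ C : ℝ≥0∞, C ≠ ⊤ ∧
    ∀ (X : ℝ × E m → E (m + 2)) (p : ℝ × E m), ‖X p‖ = 1 →
      (∀ ξ, cf * ‖ξ‖ ≤ |⟪ξ, X p⟫| + ‖Gw X ξ p‖) → ∀ (R Λ : ℝ) (g : ℝ → ℝ≥0∞), 0 ≤ R → 0 ≤ Λ →
      Measurable g →
      ∫⁻ ξ in {ξ : E (m + 2) | R / 2 ≤ ‖ξ‖ ∧ ‖ξ‖ ≤ 4 * R},
        {ξ : E (m + 2) | ‖Vw X ξ p‖ ≤ Λ}.indicator (fun ξ => g ⟪ξ, Xt X p⟫) ξ ≤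
        C * ((∫⁻ τ, g τ) * (ENNReal.ofReal (Λ ^ m) * ENNReal.ofReal (8 * R))) := by
  have : (volume : Measure ((ℝ × E m) × ℝ)).IsAddHaarMeasure := by
    have := kak_haar1 m
    rw [Measure.volume_eq_prod]
    infer_instance
  obtain ⟨C, hC, h⟩ := kl_lin_box (V := E (m + 2)) (W := (ℝ × E m) × ℝ) volume volume (by
    simp [Module.finrank_prod]
    ring) (c := cf / 2) (by positivity)
  set v : ℝ≥0∞ := volume (Metric.ball (0 : E m) 1) with hv
  have hv' : v ≠ ⊤ := measure_ball_lt_top.ne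
  refine ⟨C * v, ENNReal.mul_ne_top hC hv', ?_⟩
  intro X p hX1 hfr R Λ g hR hΛ hg
  -- the linear map
  set T1 : E (m + 2) →L[ℝ] (ℝ × E m) := (LB m (m + 2)).flip (fderiv ℝ X p) with hT1
  have hT1' : ∀ ξ, T1 ξ = Gw X ξ p := fun ξ => by
    rw [kGw_eq]
    rfl
  set T : E (m + 2) →L[ℝ] (ℝ × E m) × ℝ := T1.prod ((innerSL ℝ) (X p)) with hT
  have hT' : ∀ ξ, T ξ = (Gw X ξ p, ⟪ξ, X p⟫) := fun ξ => by
    rw [hT, ContinuousLinearMap.prod_apply, hT1']
    congr 1
    rw [innerSL_apply_apply, real_inner_comm]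
  have hlow : ∀ ξ, cf / 2 * ‖ξ‖ ≤ ‖T ξ‖ := by
    intro ξ
    rw [hT', Prod.norm_mk]
    have h1 := hfr ξ
    have h2 := le_max_left ‖Gw X ξ p‖ ‖(⟪ξ, X p⟫ : ℝ)‖
    have h3 := le_max_right ‖Gw X ξ p‖ ‖(⟪ξ, X p⟫ : ℝ)‖
    rw [Real.norm_eq_abs] at h3 h2
    rw [Real.norm_eq_abs]
    linarith
  -- the function
  set H : (ℝ × E m) × ℝ → ℝ≥0∞ := fun x => g x.1.1 *
    ((Metric.closedBall (0 : E m) Λ).indicator 1 x.1.2 * (Icc (-(4 * R)) (4 * R)).indicator 1 x.2)
    with hH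
  have hHm : Measurable H := by
    refine (hg.comp measurable_fst.fst).mul (Measurable.mul ?_ ?_)
    · exact (measurable_one.indicator Metric.isClosed_closedBall.measurableSet).comp
        measurable_fst.snd
    · exact (measurable_one.indicator measurableSet_Icc).comp measurable_snd
  have h1 : ∫⁻ ξ in {ξ : E (m + 2) | R / 2 ≤ ‖ξ‖ ∧ ‖ξ‖ ≤ 4 * R},
        {ξ : E (m + 2) | ‖Vw X ξ p‖ ≤ Λ}.indicator (fun ξ => g ⟪ξ, Xt X p⟫) ξ ≤
      ∫⁻ ξ, H (T ξ) := by
    have hA : MeasurableSet {ξ : E (m + 2) | R / 2 ≤ ‖ξ‖ ∧ ‖ξ‖ ≤ 4 * R} :=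
      (measurableSet_le measurable_const measurable_norm).inter
        (measurableSet_le measurable_norm measurable_const)
    rw [← lintegral_indicator hA]
    refine lintegral_mono fun ξ => ?_
    by_cases h2 : ξ ∈ {ξ : E (m + 2) | R / 2 ≤ ‖ξ‖ ∧ ‖ξ‖ ≤ 4 * R}
    · rw [indicator_of_mem h2]
      by_cases h3 : ξ ∈ {ξ : E (m + 2) | ‖Vw X ξ p‖ ≤ Λ}
      · rw [indicator_of_mem h3, hT', hH]
        have h4 : (Gw X ξ p).2 ∈ Metric.closedBall (0 : E m) Λ := by
          rw [mem_closedBall_zero_iff]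
          exact h3
        have h5 : ⟪ξ, X p⟫ ∈ Icc (-(4 * R)) (4 * R) := by
          refine abs_le.1 ((abs_real_inner_le_norm _ _).trans ?_)
          rw [hX1, mul_one]
          exact h2.2
        simp only [indicator_of_mem h4, indicator_of_mem h5, Pi.one_apply, mul_one]
        exact le_rfl
      · rw [indicator_of_notMem h3]
        exact zero_le
    · rw [indicator_of_notMem h2]
      exact zero_le
  refine h1.trans ((h T hlow H hHm).trans ?_)
  have h6 : ∫⁻ y, H y = (∫⁻ τ, g τ) * (volume (Metric.closedBall (0 : E m) Λ) *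
      ENNReal.ofReal (8 * R)) := by
    have e1 : ∫⁻ y, H y = ∫⁻ y : ℝ × E m, g y.1 *
        ((Metric.closedBall (0 : E m) Λ).indicator 1 y.2 * ENNReal.ofReal (8 * R)) := by
      rw [Measure.volume_eq_prod, lintegral_prod _ hHm.aemeasurable]
      refine lintegral_congr fun y => ?_
      have mI : Measurable fun x : ℝ => (Icc (-(4 * R)) (4 * R)).indicator (1 : ℝ → ℝ≥0∞) x :=
        measurable_one.indicator measurableSet_Icc
      rw [hH]
      simp only
      rw [lintegral_const_mul _ (mI.const_mul _), lintegral_const_mul _ mI,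
        lintegral_indicator_one measurableSet_Icc, Real.volume_Icc]
      congr 3
      ring
    rw [e1, Measure.volume_eq_prod, lintegral_prod _ (by
      refine Measurable.aemeasurable ?_
      refine (hg.comp measurable_fst).mul (Measurable.mul_const ?_ _)
      exact (measurable_one.indicator Metric.isClosed_closedBall.measurableSet).comp
        measurable_snd)]
    have e2 : ∀ τ : ℝ, ∫⁻ b : E m, g τ * ((Metric.closedBall (0 : E m) Λ).indicator 1 b *
        ENNReal.ofReal (8 * R)) = g τ * (volume (Metric.closedBall (0 : E m) Λ) *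
        ENNReal.ofReal (8 * R)) := by
      intro τ
      have mB : Measurable fun b : E m =>
          (Metric.closedBall (0 : E m) Λ).indicator (1 : E m → ℝ≥0∞) b :=
        measurable_one.indicator Metric.isClosed_closedBall.measurableSet
      rw [lintegral_const_mul _ (mB.mul_const _), lintegral_mul_const _ mB,
        lintegral_indicator_one Metric.isClosed_closedBall.measurableSet]
    simp only [e2]
    rw [lintegral_mul_const _ hg]
  rw [h6, Measure.addHaar_closedBall _ _ hΛ, finrank_euclideanSpace, Fintype.card_fin, ← hv]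
  refine le_of_eq ?_
  ring

theorem kak_dist {m : ℕ} {p0 : ℝ × E m} {δ s s' : ℝ} (hs : |s - p0.1| ≤ δ) (hs' : |s' - p0.1| ≤ δ)
    {z z' : E m} (hz : z ∈ Metric.closedBall p0.2 δ) (hz' : z' ∈ Metric.closedBall p0.2 δ) :
    ‖((s, z) : ℝ × E m) - (s', z')‖ ≤ 2 * δ := by
  rw [mem_closedBall_iff_norm] at hz hz'
  rw [Prod.norm_def]
  refine max_le ?_ ?_
  · rw [Prod.fst_sub, Real.norm_eq_abs]
    calc |s - s'| = |(s - p0.1) - (s' - p0.1)| := by congr 1; ring
      _ ≤ |s - p0.1| + |s' - p0.1| := abs_sub _ _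
      _ ≤ 2 * δ := by linarith
  · rw [Prod.snd_sub]
    calc ‖z - z'‖ = ‖(z - p0.2) - (z' - p0.2)‖ := by congr 1; abel
      _ ≤ ‖z - p0.2‖ + ‖z' - p0.2‖ := norm_sub_le _ _
      _ ≤ 2 * δ := by linarith

/-- The near part. -/
theorem kak_near (m : ℕ) {cf : ℝ} (hcf : 0 < cf) : ∃ C : ℝ, 0 < C ∧
    ∀ (X : ℝ × E m → E (m + 2)), ContDiff ℝ ∞ X → ∀ (p0 : ℝ × E m) (δ : ℝ), δ ≤ 1 / 4 →
      (∀ p, ‖p - p0‖ ≤ δ → ‖X p‖ = 1) →
      (∀ p, ‖p - p0‖ ≤ δ → ∀ ξ, cf * ‖ξ‖ ≤ |⟪ξ, X p⟫| + ‖Gw X ξ p‖) →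
      ∀ (R Λ r0 : ℝ) (s s' : ℝ) (g g' : ℝ → ℝ≥0∞), 0 < R → 0 ≤ Λ → 0 ≤ r0 → |s - p0.1| ≤ δ →
      Measurable g → Measurable g' → ∫⁻ τ, g τ ≤ ENNReal.ofReal (1 / √R) →
      (∀ τ, g' τ ≤ ENNReal.ofReal (1 / R)) →
      ∫⁻ ξ in {ξ : E (m + 2) | R / 2 ≤ ‖ξ‖ ∧ ‖ξ‖ ≤ 4 * R}, ∫⁻ z in Metric.closedBall p0.2 δ,
        ∫⁻ z' in Metric.closedBall p0.2 δ,
          {x : ℝ | x ≤ r0}.indicator 1 ‖((s, z) : ℝ × E m) - (s', z')‖ *
          (kF X (Metric.closedBall p0.2 δ) Λ s g ξ z *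
            kF X (Metric.closedBall p0.2 δ) Λ s' g' ξ z') ≤
        ENNReal.ofReal (C * (Λ ^ m * r0 ^ m) / √R) := by
  obtain ⟨C, hC, hone⟩ := kak_one m hcf
  set v : ℝ≥0∞ := volume (Metric.ball (0 : E m) 1) with hv
  have hv' : v ≠ ⊤ := measure_ball_lt_top.ne
  obtain ⟨c1, hc1, hCe⟩ : ∃ c1 : ℝ, 0 ≤ c1 ∧ C = ENNReal.ofReal c1 :=
    ⟨C.toReal, ENNReal.toReal_nonneg, (ENNReal.ofReal_toReal hC).symm⟩
  obtain ⟨v1, hv1, hve⟩ : ∃ v1 : ℝ, 0 ≤ v1 ∧ v = ENNReal.ofReal v1 :=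
    ⟨v.toReal, ENNReal.toReal_nonneg, (ENNReal.ofReal_toReal hv').symm⟩
  refine ⟨8 * c1 * v1 * v1 + 1, by positivity, ?_⟩
  intro X hX p0 δ hδ hX1 hfr R Λ r0 s s' g g' hR hΛ hr0 hs hg hg' hgi hgs
  set B : Set (E m) := Metric.closedBall p0.2 δ with hB
  have hBm : MeasurableSet B := Metric.isClosed_closedBall.measurableSet
  have hBv : volume B ≤ v := by
    rw [hB, hv]
    rcases lt_or_ge δ 0 with h0 | h0
    · rw [Metric.closedBall_eq_empty.2 h0, measure_empty]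
      exact zero_le
    · rw [Measure.addHaar_closedBall _ _ h0, finrank_euclideanSpace, Fintype.card_fin]
      refine mul_le_of_le_one_left zero_le ?_
      rw [ENNReal.ofReal_le_one]
      exact pow_le_one₀ h0 (by linarith)
  have hsR : 0 < √R := Real.sqrt_pos.2 hR
  -- the integral in z'
  have h1 : ∀ ξ z, ∫⁻ z' in B, {x : ℝ | x ≤ r0}.indicator 1 ‖((s, z) : ℝ × E m) - (s', z')‖ *
      (kF X B Λ s g ξ z * kF X B Λ s' g' ξ z') ≤
      kF X B Λ s g ξ z * (ENNReal.ofReal (1 / R) * (ENNReal.ofReal (r0 ^ m) * v)) := by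
    intro ξ z
    have mB : Measurable fun z' : E m =>
        (Metric.closedBall z r0).indicator (1 : E m → ℝ≥0∞) z' :=
      measurable_one.indicator Metric.isClosed_closedBall.measurableSet
    calc ∫⁻ z' in B, {x : ℝ | x ≤ r0}.indicator 1 ‖((s, z) : ℝ × E m) - (s', z')‖ *
          (kF X B Λ s g ξ z * kF X B Λ s' g' ξ z')
        ≤ ∫⁻ z', kF X B Λ s g ξ z * (ENNReal.ofReal (1 / R) *
            (Metric.closedBall z r0).indicator 1 z') := by
          refine (setLIntegral_le_lintegral _ _).trans (lintegral_mono fun z' => ?_)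
          by_cases h2 : ‖((s, z) : ℝ × E m) - (s', z')‖ ≤ r0
          · have h3 : z' ∈ Metric.closedBall z r0 := by
              rw [mem_closedBall_iff_norm, ← norm_neg, neg_sub]
              refine le_trans ?_ h2
              rw [Prod.norm_def]
              exact le_max_right _ _
            rw [indicator_of_mem (show ‖((s, z) : ℝ × E m) - (s', z')‖ ∈ {x : ℝ | x ≤ r0} from h2),
              indicator_of_mem h3, Pi.one_apply, Pi.one_apply, one_mul, mul_one]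
            gcongr
            unfold kF
            refine (indicator_le_self _ _ _).trans (hgs _)
          · rw [indicator_of_notMem (show ‖((s, z) : ℝ × E m) - (s', z')‖ ∉ {x : ℝ | x ≤ r0}
              from h2), zero_mul]
            exact zero_le
      _ = _ := by
          rw [lintegral_const_mul _ (mB.const_mul _), lintegral_const_mul _ mB,
            lintegral_indicator_one Metric.isClosed_closedBall.measurableSet,
            Measure.addHaar_closedBall _ _ hr0, finrank_euclideanSpace, Fintype.card_fin, ← hv]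
  -- the integral in ξ
  have hFm := kF_meas hX hBm Λ s hg
  have h2 : ∫⁻ ξ in {ξ : E (m + 2) | R / 2 ≤ ‖ξ‖ ∧ ‖ξ‖ ≤ 4 * R}, ∫⁻ z in B, kF X B Λ s g ξ z ≤
      v * (C * (ENNReal.ofReal (1 / √R) * (ENNReal.ofReal (Λ ^ m) * ENNReal.ofReal (8 * R)))) := by
    rw [lintegral_lintegral_swap hFm.aemeasurable]
    calc ∫⁻ z in B, ∫⁻ ξ in {ξ : E (m + 2) | R / 2 ≤ ‖ξ‖ ∧ ‖ξ‖ ≤ 4 * R}, kF X B Λ s g ξ z
        ≤ ∫⁻ _z in B, (C * (ENNReal.ofReal (1 / √R) *
            (ENNReal.ofReal (Λ ^ m) * ENNReal.ofReal (8 * R)))) := by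
          refine setLIntegral_mono' hBm fun z hz => ?_
          have h3 : ‖((s, z) : ℝ × E m) - p0‖ ≤ δ := by
            rw [Prod.norm_def]
            refine max_le ?_ ?_
            · simpa using hs
            · rw [hB, mem_closedBall_iff_norm] at hz
              exact hz
          have h4 := hone X (s, z) (hX1 _ h3) (hfr _ h3) R Λ g hR.le hΛ hg
          refine le_trans (le_of_eq ?_) (h4.trans ?_)
          · refine lintegral_congr fun ξ => ?_
            unfold kF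
            by_cases h5 : ‖Vw X ξ (s, z)‖ ≤ Λ
            · rw [indicator_of_mem (show (ξ, z) ∈ {x : E (m + 2) × E m | x.2 ∈ B ∧
                ‖Vw X x.1 (s, x.2)‖ ≤ Λ} from ⟨hz, h5⟩), indicator_of_mem (show ξ ∈
                {ξ : E (m + 2) | ‖Vw X ξ (s, z)‖ ≤ Λ} from h5)]
            · rw [indicator_of_notMem (show (ξ, z) ∉ {x : E (m + 2) × E m | x.2 ∈ B ∧
                ‖Vw X x.1 (s, x.2)‖ ≤ Λ} from fun h6 => h5 h6.2), indicator_of_notMem (show ξ ∉
                {ξ : E (m + 2) | ‖Vw X ξ (s, z)‖ ≤ Λ} from h5)]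
          · gcongr
      _ = volume B * _ := by
          rw [setLIntegral_const, mul_comm]
      _ ≤ _ := by
          gcongr
  calc _ ≤ ∫⁻ ξ in {ξ : E (m + 2) | R / 2 ≤ ‖ξ‖ ∧ ‖ξ‖ ≤ 4 * R}, ∫⁻ z in B,
        kF X B Λ s g ξ z * (ENNReal.ofReal (1 / R) * (ENNReal.ofReal (r0 ^ m) * v)) :=
        lintegral_mono fun ξ => lintegral_mono fun z => h1 ξ z
    _ = (∫⁻ ξ in {ξ : E (m + 2) | R / 2 ≤ ‖ξ‖ ∧ ‖ξ‖ ≤ 4 * R}, ∫⁻ z in B, kF X B Λ s g ξ z) *
        (ENNReal.ofReal (1 / R) * (ENNReal.ofReal (r0 ^ m) * v)) := by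
        have h3 : ∀ ξ, Measurable (kF X B Λ s g ξ) := fun ξ =>
          hFm.comp (f := fun z : E m => (ξ, z)) (Measurable.prodMk measurable_const measurable_id)
        have h4 : Measurable fun ξ => ∫⁻ z in B, kF X B Λ s g ξ z :=
          Measurable.lintegral_prod_right' (f := fun x : E (m + 2) × E m =>
            kF X B Λ s g x.1 x.2) hFm
        rw [← lintegral_mul_const _ h4]
        refine lintegral_congr fun ξ => ?_
        rw [lintegral_mul_const _ (h3 ξ)]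
    _ ≤ (v * (C * (ENNReal.ofReal (1 / √R) * (ENNReal.ofReal (Λ ^ m) *
          ENNReal.ofReal (8 * R))))) * (ENNReal.ofReal (1 / R) * (ENNReal.ofReal (r0 ^ m) * v)) :=
        mul_le_mul' h2 le_rfl
    _ ≤ _ := by
        rw [hCe, hve]
        rw [← ENNReal.ofReal_mul (by positivity), ← ENNReal.ofReal_mul (by positivity),
          ← ENNReal.ofReal_mul hc1, ← ENNReal.ofReal_mul hv1,
          ← ENNReal.ofReal_mul (by positivity), ← ENNReal.ofReal_mul (by positivity),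
          ← ENNReal.ofReal_mul (by positivity)]
        apply ENNReal.ofReal_le_ofReal
        have e1 : v1 * (c1 * (1 / √R * (Λ ^ m * (8 * R)))) * (1 / R * (r0 ^ m * v1)) =
            (8 * c1 * v1 * v1) * (Λ ^ m * r0 ^ m) / √R := by
          field_simp
        rw [e1]
        have e2 : 0 ≤ Λ ^ m * r0 ^ m := by positivity
        have e3 : (8 * c1 * v1 * v1) * (Λ ^ m * r0 ^ m) ≤
            (8 * c1 * v1 * v1 + 1) * (Λ ^ m * r0 ^ m) :=
          mul_le_mul_of_nonneg_right (by linarith) e2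
        exact div_le_div_of_nonneg_right e3 hsR.le

end Pool.Agent.LF
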