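import Pool.Agent.GNP.P0

/-!
Gradients of the linear functions along a chart of the sphere, and the double gradient map.
-/

set_option autoImplicit false

namespace Pool.Agent.LF

open MeasureTheory Set Module Pool.Agent.MP_6cbfb8_an Pool.Agent.GNP
open scoped ENNReal Real RealInnerProductSpace ContDiff

/-- A linear form on `ℝ × E m` as a vector. -/
noncomputable def JJ (m : ℕ) : ((ℝ × E m) →L[ℝ] ℝ) →L[ℝ] (ℝ × E m) :=
  (ContinuousLinearMap.apply ℝ ℝ ((1 : ℝ), (0 : E m))).prod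
    ((P0J m).toContinuousLinearMap.comp
      ((ContinuousLinearMap.compL ℝ (E m) (ℝ × E m) ℝ).flip (ContinuousLinearMap.inr ℝ ℝ (E m))))

/-- The transpose of `T` applied to `w`. -/
noncomputable def LB (m n : ℕ) : E n →L[ℝ] ((ℝ × E m) →L[ℝ] E n) →L[ℝ] (ℝ × E m) :=
  ((ContinuousLinearMap.compL ℝ ((ℝ × E m) →L[ℝ] E n) ((ℝ × E m) →L[ℝ] ℝ) (ℝ × E m)) (JJ m)).comp
    ((ContinuousLinearMap.compL ℝ (ℝ × E m) (E n) ℝ).comp (innerSL ℝ))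

theorem LB_apply {m n : ℕ} (w : E n) (T : (ℝ × E m) →L[ℝ] E n) :
    LB m n w T = (⟪w, T (1, 0)⟫,
      P0J m ((innerSL ℝ w).comp (T.comp (ContinuousLinearMap.inr ℝ ℝ (E m))))) := rfl

theorem norm_LB {m n : ℕ} (w : E n) (T : (ℝ × E m) →L[ℝ] E n) : ‖LB m n w T‖ ≤ ‖w‖ * ‖T‖ := by
  rw [LB_apply, Prod.norm_mk, max_le_iff]
  constructor
  · refine (norm_inner_le_norm _ _).trans ?_
    have h1 := T.le_opNorm ((1 : ℝ), (0 : E m))
    have h2 : ‖((1 : ℝ), (0 : E m))‖ = 1 := by simp [Prod.norm_mk]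
    rw [h2, mul_one] at h1
    gcongr
  · rw [P0J_norm]
    refine ContinuousLinearMap.opNorm_le_bound _ (by positivity) fun v => ?_
    simp only [ContinuousLinearMap.comp_apply, innerSL_apply_apply]
    refine (norm_inner_le_norm _ _).trans ?_
    have h1 := T.le_opNorm ((0 : ℝ), v)
    have h2 : ‖((0 : ℝ), v)‖ = ‖v‖ := by simp [Prod.norm_mk]
    rw [h2] at h1
    calc ‖w‖ * ‖T (ContinuousLinearMap.inr ℝ ℝ (E m) v)‖ ≤ ‖w‖ * (‖T‖ * ‖v‖) := by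
          gcongr
          exact h1
      _ = _ := by ring

/-- The scaled double gradient map `(w, y) ↦ (∇(w·X)(p), ρ⁻¹ (∇(w·X)(t', z + ρ y) - ∇(w·X)(p)))`. -/
noncomputable def PH {m n : ℕ} (T : ℝ × E m → (ℝ × E m) →L[ℝ] E n) (p : ℝ × E m) (t' ρ : ℝ)
    (x : E n × E m) : (ℝ × E m) × (ℝ × E m) :=
  (LB m n x.1 (T p), ρ⁻¹ • (LB m n x.1 (T (t', p.2 + ρ • x.2)) - LB m n x.1 (T p)))

/-- Its derivative. -/
noncomputable def PH' {m n : ℕ} (T : ℝ × E m → (ℝ × E m) →L[ℝ] E n)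
    (T' : ℝ × E m → (ℝ × E m) →L[ℝ] (ℝ × E m) →L[ℝ] E n) (p : ℝ × E m) (t' ρ : ℝ)
    (x : E n × E m) : E n × E m →L[ℝ] (ℝ × E m) × (ℝ × E m) :=
  (((LB m n).flip (T p)).comp (ContinuousLinearMap.fst ℝ (E n) (E m))).prod
    (ρ⁻¹ • (((LB m n).flip (T (t', p.2 + ρ • x.2) - T p)).comp
        (ContinuousLinearMap.fst ℝ (E n) (E m))) +
      ((LB m n x.1).comp ((T' (t', p.2 + ρ • x.2)).comp (ContinuousLinearMap.inr ℝ ℝ (E m)))).comp
        (ContinuousLinearMap.snd ℝ (E n) (E m)))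

theorem PH'_apply {m n : ℕ} (T : ℝ × E m → (ℝ × E m) →L[ℝ] E n)
    (T' : ℝ × E m → (ℝ × E m) →L[ℝ] (ℝ × E m) →L[ℝ] E n) (p : ℝ × E m) (t' ρ : ℝ)
    (x v : E n × E m) : PH' T T' p t' ρ x v =
      (LB m n v.1 (T p), ρ⁻¹ • (LB m n v.1 (T (t', p.2 + ρ • x.2)) - LB m n v.1 (T p)) +
        LB m n x.1 (T' (t', p.2 + ρ • x.2) (0, v.2))) := by
  simp [PH', map_sub]

theorem PH_deriv {m n : ℕ} {T : ℝ × E m → (ℝ × E m) →L[ℝ] E n}
    {T' : ℝ × E m → (ℝ × E m) →L[ℝ] (ℝ × E m) →L[ℝ] E n} (hT : ∀ p, HasFDerivAt T (T' p) p)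
    (p : ℝ × E m) (t' : ℝ) {ρ : ℝ} (hρ : ρ ≠ 0) (x : E n × E m) :
    HasFDerivAt (PH T p t' ρ) (PH' T T' p t' ρ x) x := by
  have h1 : HasFDerivAt (fun x : E n × E m => ((t', p.2 + ρ • x.2) : ℝ × E m))
      ((ContinuousLinearMap.inr ℝ ℝ (E m)).comp (ρ • ContinuousLinearMap.snd ℝ (E n) (E m))) x := by
    have h2 : HasFDerivAt (fun x : E n × E m => p.2 + ρ • x.2)
        (ρ • ContinuousLinearMap.snd ℝ (E n) (E m)) x :=
      (hasFDerivAt_snd.const_smul ρ).const_add _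
    have h3 := (hasFDerivAt_const t' x).prodMk h2
    refine h3.congr_fderiv ?_
    ext v <;> simp
  have h4 : HasFDerivAt (fun x : E n × E m => T (t', p.2 + ρ • x.2))
      ((T' (t', p.2 + ρ • x.2)).comp ((ContinuousLinearMap.inr ℝ ℝ (E m)).comp
        (ρ • ContinuousLinearMap.snd ℝ (E n) (E m)))) x := (hT _).comp x h1
  have h5 := (LB m n).hasFDerivAt_of_bilinear (hasFDerivAt_fst (p := x)) h4
  have h6 : HasFDerivAt (fun x : E n × E m => LB m n x.1 (T p))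
      (((LB m n).flip (T p)).comp (ContinuousLinearMap.fst ℝ (E n) (E m))) x :=
    ((LB m n).flip (T p)).hasFDerivAt.comp x hasFDerivAt_fst
  have h7 := h6.prodMk ((h5.sub h6).const_smul ρ⁻¹)
  refine h7.congr_fderiv ?_
  refine ContinuousLinearMap.ext fun v => ?_
  rw [PH'_apply]
  simp [smul_sub, smul_smul, hρ, map_smul]
  abel

/-- The derivative varies slowly. -/
theorem PH_var {m n : ℕ} {T : ℝ × E m → (ℝ × E m) →L[ℝ] E n}
    {T' : ℝ × E m → (ℝ × E m) →L[ℝ] (ℝ × E m) →L[ℝ] E n} {A : ℝ} (hA : 0 ≤ A)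
    (hT : ∀ p, HasFDerivAt T (T' p) p) (h2 : ∀ p, ‖T' p‖ ≤ A)
    (h3 : ∀ p p', ‖T' p - T' p'‖ ≤ A * ‖p - p'‖) (p : ℝ × E m) (t' : ℝ) {ρ : ℝ} (hρ : 0 < ρ)
    (hρ1 : ρ ≤ 1) (x x' : E n × E m) (hx : ‖x'.1‖ ≤ 3) :
    ‖PH' T T' p t' ρ x - PH' T T' p t' ρ x'‖ ≤ 5 * A * ‖x - x'‖ := by
  have hd : ‖((t', p.2 + ρ • x.2) : ℝ × E m) - (t', p.2 + ρ • x'.2)‖ ≤ ρ * ‖x - x'‖ := by
    have e1 : ((t', p.2 + ρ • x.2) : ℝ × E m) - (t', p.2 + ρ • x'.2) = (0, ρ • (x.2 - x'.2)) := by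
      rw [Prod.mk_sub_mk, smul_sub]
      congr 1
      · ring
      · abel
    rw [e1, Prod.norm_mk, norm_zero, norm_smul, Real.norm_of_nonneg hρ.le, max_eq_right
      (by positivity)]
    have : ‖x.2 - x'.2‖ ≤ ‖x - x'‖ := norm_snd_le (x - x')
    gcongr
  have hTl : ‖T (t', p.2 + ρ • x.2) - T (t', p.2 + ρ • x'.2)‖ ≤ A * (ρ * ‖x - x'‖) := by
    have h4 := convex_univ.norm_image_sub_le_of_norm_hasFDerivWithin_le (𝕜 := ℝ) (f := T)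
      (f' := T') (C := A) (fun z _ => (hT z).hasFDerivWithinAt) (fun z _ => h2 z)
      (mem_univ (t', p.2 + ρ • x'.2)) (mem_univ (t', p.2 + ρ • x.2))
    exact h4.trans (by gcongr)
  refine ContinuousLinearMap.opNorm_le_bound _ (by positivity) fun v => ?_
  rw [sub_apply, PH'_apply, PH'_apply, Prod.mk_sub_mk, sub_self, Prod.norm_mk, norm_zero,
    max_eq_right (norm_nonneg _)]
  have hv1 : ‖v.1‖ ≤ ‖v‖ := norm_fst_le v
  have hv2 : ‖v.2‖ ≤ ‖v‖ := norm_snd_le v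
  have hx1 : ‖x.1 - x'.1‖ ≤ ‖x - x'‖ := norm_fst_le (x - x')
  set P := ((t', p.2 + ρ • x.2) : ℝ × E m) with hP
  set P' := ((t', p.2 + ρ • x'.2) : ℝ × E m) with hP'
  have e2 : ρ⁻¹ • (LB m n v.1 (T P) - LB m n v.1 (T p)) + LB m n x.1 (T' P (0, v.2)) -
      (ρ⁻¹ • (LB m n v.1 (T P') - LB m n v.1 (T p)) + LB m n x'.1 (T' P' (0, v.2))) =
      ρ⁻¹ • LB m n v.1 (T P - T P') + (LB m n (x.1 - x'.1) (T' P (0, v.2)) +
        LB m n x'.1 ((T' P - T' P') (0, v.2))) := by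
    simp only [map_sub, sub_apply, smul_sub]
    abel
  have h0v : ‖((0 : ℝ), v.2)‖ = ‖v.2‖ := by simp [Prod.norm_mk]
  have a1 : ‖ρ⁻¹ • LB m n v.1 (T P - T P')‖ ≤ A * ‖x - x'‖ * ‖v‖ := by
    rw [norm_smul, Real.norm_of_nonneg (by positivity)]
    calc ρ⁻¹ * ‖LB m n v.1 (T P - T P')‖ ≤ ρ⁻¹ * (‖v.1‖ * ‖T P - T P'‖) := by
          gcongr
          exact norm_LB _ _
      _ ≤ ρ⁻¹ * (‖v‖ * (A * (ρ * ‖x - x'‖))) := by gcongr
      _ = A * ‖x - x'‖ * ‖v‖ := by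
        field_simp
  have a2 : ‖LB m n (x.1 - x'.1) (T' P (0, v.2))‖ ≤ A * ‖x - x'‖ * ‖v‖ := by
    calc ‖LB m n (x.1 - x'.1) (T' P (0, v.2))‖ ≤ ‖x.1 - x'.1‖ * ‖T' P (0, v.2)‖ := norm_LB _ _
      _ ≤ ‖x - x'‖ * (A * ‖v‖) := by
        gcongr
        refine ((T' P).le_opNorm _).trans ?_
        rw [h0v]
        gcongr
        exact h2 _
      _ = _ := by ring
  have a3 : ‖LB m n x'.1 ((T' P - T' P') (0, v.2))‖ ≤ 3 * A * ‖x - x'‖ * ‖v‖ := by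
    calc ‖LB m n x'.1 ((T' P - T' P') (0, v.2))‖ ≤ ‖x'.1‖ * ‖(T' P - T' P') (0, v.2)‖ :=
          norm_LB _ _
      _ ≤ 3 * (A * ‖x - x'‖ * ‖v‖) := by
        gcongr
        refine ((T' P - T' P').le_opNorm _).trans ?_
        rw [h0v]
        have h5 : ‖T' P - T' P'‖ ≤ A * ‖x - x'‖ := by
          refine (h3 P P').trans ?_
          have : ‖P - P'‖ ≤ ‖x - x'‖ := hd.trans (by
            have := norm_nonneg (x - x')
            nlinarith)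
          gcongr
        gcongr
      _ = _ := by ring
  rw [e2]
  refine (norm_add_le _ _).trans ((add_le_add a1 ((norm_add_le _ _).trans
    (add_le_add a2 a3))).trans (le_of_eq ?_))
  ring

/-- The lower bound for the derivative. -/
theorem PH_low {m n : ℕ} {T : ℝ × E m → (ℝ × E m) →L[ℝ] E n}
    {T' : ℝ × E m → (ℝ × E m) →L[ℝ] (ℝ × E m) →L[ℝ] E n} {c : ℝ} (hc : 0 < c) {p : ℝ × E m}
    {t' ρ : ℝ} (hρ : 0 < ρ) (x : E n × E m) {r : ℝ} (hr1 : ρ ≤ r) (hr2 : r ≤ 2 * ρ)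
    (hT : ∀ (w1 : E n) (y1 : E m), c * (‖w1‖ + ‖y1‖) ≤ ‖LB m n w1 (T p)‖ +
      ‖r⁻¹ • (LB m n w1 (T (t', p.2 + ρ • x.2)) - LB m n w1 (T p)) +
        LB m n x.1 (T' (t', p.2 + ρ • x.2) (0, y1))‖) (v : E n × E m) :
    c / 4 * ‖v‖ ≤ ‖PH' T T' p t' ρ x v‖ := by
  have hr : 0 < r := hρ.trans_le hr1
  set lam : ℝ := r / ρ with hlam
  have hl1 : 1 ≤ lam := by rw [hlam, one_le_div hρ]; exact hr1
  have hl2 : lam ≤ 2 := by rw [hlam, div_le_iff₀ hρ]; exact hr2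
  have h1 := hT (lam • v.1) v.2
  set P := ((t', p.2 + ρ • x.2) : ℝ × E m) with hP
  have e1 : r⁻¹ • (LB m n (lam • v.1) (T P) - LB m n (lam • v.1) (T p)) =
      ρ⁻¹ • (LB m n v.1 (T P) - LB m n v.1 (T p)) := by
    simp only [map_smul, smul_apply]
    rw [← smul_sub, smul_smul]
    congr 1
    rw [hlam]
    field_simp
  rw [e1, norm_smul, Real.norm_of_nonneg (by linarith), map_smul, smul_apply, norm_smul,
    Real.norm_of_nonneg (by linarith)] at h1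
  set a := ‖LB m n v.1 (T p)‖ with ha
  set b := ‖ρ⁻¹ • (LB m n v.1 (T P) - LB m n v.1 (T p)) + LB m n x.1 (T' P (0, v.2))‖ with hb
  have hn : ‖PH' T T' p t' ρ x v‖ = max a b := by rw [PH'_apply]; exact Prod.norm_mk _ _
  rw [hn]
  have ha0 : 0 ≤ a := norm_nonneg _
  have hb0 : 0 ≤ b := norm_nonneg _
  have h2 : ‖v‖ ≤ ‖v.1‖ + ‖v.2‖ := by
    rw [Prod.norm_def]
    exact max_le (by linarith [norm_nonneg v.2]) (by linarith [norm_nonneg v.1])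
  have h3 : c * ‖v‖ ≤ c * (lam * ‖v.1‖ + ‖v.2‖) := by
    have : ‖v.1‖ ≤ lam * ‖v.1‖ := le_mul_of_one_le_left (norm_nonneg _) hl1
    have : ‖v‖ ≤ lam * ‖v.1‖ + ‖v.2‖ := by linarith
    gcongr
  have h4 : lam * a ≤ 2 * a := by gcongr
  have h5 : a ≤ max a b := le_max_left _ _
  have h6 : b ≤ max a b := le_max_right _ _
  have h7 : 0 ≤ max a b := ha0.trans h5
  linarith

end Pool.Agent.LF
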