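import Pool.Agent.LF.ORTHF2
import Pool.Agent.LF.Tb

/-!
The mean square of the oscillatory integral in a chart over a ball of radius `2 R`.
-/

set_option autoImplicit false

namespace Pool.Agent.LF

open MeasureTheory Set Pool.Agent.MP_6cbfb8_an
open scoped ENNReal Real RealInnerProductSpace ContDiff ComplexConjugate

/-- Schur's test for a convolution kernel. -/
theorem l2_schur {P : Type*} [NormedAddCommGroup P] [MeasurableSpace P] [BorelSpace P]
    [SecondCountableTopology P] (μ : Measure P) [SFinite μ] [μ.IsAddLeftInvariant]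
    [μ.IsNegInvariant] (f : P → ℝ≥0∞) (hf : Measurable f) (k : P → ℝ≥0∞) (hk : Measurable k) :
    ∫⁻ q, f q.1 * f q.2 * k (q.1 - q.2) ∂(μ.prod μ) ≤
      2 * ((∫⁻ p, f p ^ 2 ∂μ) * ∫⁻ p, k p ∂μ) := by
  have h1 : ∀ q : P × P, f q.1 * f q.2 * k (q.1 - q.2) ≤
      f q.1 ^ 2 * k (q.1 - q.2) + f q.2 ^ 2 * k (q.1 - q.2) := by
    intro q
    rw [← add_mul]
    gcongr
    rcases le_total (f q.1) (f q.2) with h | h
    · calc f q.1 * f q.2 ≤ f q.2 * f q.2 := by gcongr
        _ = f q.2 ^ 2 := by ring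
        _ ≤ _ := le_add_self
    · calc f q.1 * f q.2 ≤ f q.1 * f q.1 := by gcongr
        _ = f q.1 ^ 2 := by ring
        _ ≤ _ := le_self_add
  have hm1 : Measurable fun q : P × P => f q.1 ^ 2 * k (q.1 - q.2) := by fun_prop
  have hm2 : Measurable fun q : P × P => f q.2 ^ 2 * k (q.1 - q.2) := by fun_prop
  have hm3 : Measurable fun q : P × P => f q.1 ^ 2 * k (q.1 - q.2) := hm1
  refine (lintegral_mono h1).trans ?_
  rw [lintegral_add_left hm1, two_mul]
  refine add_le_add (le_of_eq ?_) (le_of_eq ?_)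
  · rw [lintegral_prod _ hm1.aemeasurable]
    simp only
    have h2 : ∀ p, ∫⁻ p', f p ^ 2 * k (p - p') ∂μ = f p ^ 2 * ∫⁻ p', k p' ∂μ := by
      intro p
      rw [lintegral_const_mul _ (by fun_prop), lintegral_sub_left_eq_self (fun p' => k p') p]
    simp only [h2]
    rw [lintegral_mul_const _ (by fun_prop)]
  · rw [lintegral_prod_symm _ hm2.aemeasurable]
    simp only
    have h2 : ∀ p', ∫⁻ p, f p' ^ 2 * k (p - p') ∂μ = f p' ^ 2 * ∫⁻ p, k p ∂μ := by
      intro p'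
      rw [lintegral_const_mul _ (by fun_prop), lintegral_sub_right_eq_self (fun p => k p) p']
    simp only [h2]
    rw [lintegral_mul_const _ (by fun_prop)]

/-- The cut-off to a ball. -/
theorem l2_eta (n : ℕ) : ∃ η : E n → ℝ, ContDiff ℝ ∞ η ∧ HasCompactSupport η ∧
    (∀ x, 0 ≤ η x) ∧ ∀ x, ‖x‖ ≤ 2 → η x = 1 := by
  let b1 : ContDiffBump (0 : E n) := ⟨2, 4, by norm_num, by norm_num⟩
  exact ⟨b1, b1.contDiff, b1.hasCompactSupport, fun x => b1.nonneg, fun x hx =>
    b1.one_of_mem_closedBall (by rw [Metric.mem_closedBall, dist_zero_right]; exact hx)⟩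

theorem l2_haar (m : ℕ) : (volume : Measure (ℝ × E m)).IsAddHaarMeasure := by
  rw [Measure.volume_eq_prod]
  infer_instance

/-- The mass of the kernel `(1 + a ‖p‖) ^ (-N)`. -/
theorem l2_kernel (m : ℕ) : ∃ C : ℝ, 0 < C ∧ ∀ a : ℝ, 0 < a →
    ∫⁻ p : ℝ × E m, ENNReal.ofReal (((1 + a * ‖p‖) ^ (m + 2))⁻¹) ≤
      ENNReal.ofReal (C / a ^ (m + 1)) := by
  have := l2_haar m
  have hfr : Module.finrank ℝ (ℝ × E m) = m + 1 := by
    rw [Module.finrank_prod, finrank_euclideanSpace_fin, Module.finrank_self, add_comm]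
  have h1 : Integrable fun p : ℝ × E m => ((1 + ‖p‖) ^ (m + 2))⁻¹ := by
    have h2 : Integrable fun p : ℝ × E m => (1 + ‖p‖) ^ (-((m + 2 : ℕ) : ℝ)) := by
      refine integrable_one_add_norm ?_
      rw [hfr]
      push_cast
      linarith
    refine h2.congr (Filter.Eventually.of_forall fun z => ?_)
    simp only
    rw [Real.rpow_neg (by positivity), Real.rpow_natCast]
  set I : ℝ := ∫ p : ℝ × E m, ((1 + ‖p‖) ^ (m + 2))⁻¹ with hI
  have hI0 : 0 ≤ I := integral_nonneg fun p => by positivity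
  refine ⟨I + 1, by linarith, fun a ha => ?_⟩
  have h3 : Integrable fun p : ℝ × E m => ((1 + a * ‖p‖) ^ (m + 2))⁻¹ := by
    have h4 := h1.comp_smul (R := a) ha.ne'
    refine h4.congr (Filter.Eventually.of_forall fun p => ?_)
    simp only
    rw [norm_smul, Real.norm_of_nonneg ha.le]
  rw [← ofReal_integral_eq_lintegral_ofReal h3
    (Filter.Eventually.of_forall fun p => by positivity)]
  refine ENNReal.ofReal_le_ofReal ?_
  have h5 := Measure.integral_comp_smul (volume : Measure (ℝ × E m))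
    (fun p => ((1 + ‖p‖) ^ (m + 2))⁻¹) a
  simp only [norm_smul, Real.norm_of_nonneg ha.le] at h5
  rw [h5, hfr, abs_of_pos (by positivity), smul_eq_mul, ← hI, inv_mul_eq_div]
  gcongr
  linarith

/-- **Mass.** -/
theorem lf_mass (m n : ℕ) (c : ℝ) (hc : 0 < c) : ∃ C : ℝ, 0 < C ∧
    ∀ (X : ℝ × E m → E n), Measurable X → ∀ b : ℝ × E m → ℂ, Measurable b → Integrable b →
      (∀ p p', b p ≠ 0 → b p' ≠ 0 → c * ‖p - p'‖ ≤ ‖X p - X p'‖) → ∀ R : ℝ, 0 < R →
      ∫⁻ ξ in {ξ : E n | ‖ξ‖ ≤ 2 * R}, ‖Tb X b ξ‖ₑ ^ 2 ≤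
        ENNReal.ofReal (C * (R ^ n / R ^ (m + 1))) * ∫⁻ p, ‖b p‖ₑ ^ 2 := by
  have := l2_haar m
  obtain ⟨η, hη, hη1, h0, h2⟩ := l2_eta n
  set ηs : SchwartzMap (E n) ℂ :=
    HasCompactSupport.toSchwartzMap (f := fun x : E n => ((η x : ℝ) : ℂ))
    (hη1.comp_left (g := fun t : ℝ => (t : ℂ)) Complex.ofReal_zero)
    (Complex.ofRealCLM.contDiff.comp hη) with hηs
  obtain ⟨C1, hC1, hdec⟩ := lff_decay ηs (m + 2) 1 one_pos
  obtain ⟨C2, hC2, hker⟩ := l2_kernel m
  refine ⟨2 * (C1 * (C2 / c ^ (m + 1))), by positivity, ?_⟩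
  intro X hX b hbm hb hsep R hR
  have hconj : Integrable (fun p => conj (b p)) := lff_conj hb
  have hB : Integrable (fun p : (ℝ × E m) × (ℝ × E m) => b p.1 * conj (b p.2))
      ((volume : Measure (ℝ × E m)).prod volume) := hb.mul_prod hconj
  have hXm : Measurable fun p : (ℝ × E m) × (ℝ × E m) => X p.1 - X p.2 :=
    (hX.comp measurable_fst).sub (hX.comp measurable_snd)
  have hηi : Integrable fun ξ : E n => ηs (R⁻¹ • ξ) :=
    (integrable_comp_smul_iff (volume : Measure (E n)) (⇑ηs) (inv_ne_zero hR.ne')).2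
      ηs.integrable
  -- the product as one exponential integral
  have hprod : ∀ ξ, Tb X b ξ * conj (Tb X b ξ) =
      lfT 1 ((volume : Measure (ℝ × E m)).prod volume) (fun p => X p.1 - X p.2)
        (fun p => b p.1 * conj (b p.2)) ξ := by
    intro ξ
    unfold lfT Tb
    rw [← integral_conj, ← integral_prod_mul]
    refine integral_congr_ae (Filter.Eventually.of_forall fun p => ?_)
    simp only [map_mul]
    rw [lff_conj_exp]
    have h : Complex.exp (((-(1 * ⟪X p.1 - X p.2, ξ⟫) : ℝ) : ℂ) * Complex.I) =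
        Complex.exp (((-⟪ξ, X p.1⟫ : ℝ) : ℂ) * Complex.I) *
        Complex.exp (((-(-⟪ξ, X p.2⟫) : ℝ) : ℂ) * Complex.I) := by
      rw [← Complex.exp_add]
      congr 1
      rw [one_mul, inner_sub_left, real_inner_comm ξ (X p.1), real_inner_comm ξ (X p.2)]
      push_cast
      ring
    rw [h]
    ring
  have hcont : Continuous (Tb X b) := by
    have := lff_continuous 1 (volume : Measure (ℝ × E m)) X hX b hb
    refine this.congr fun ξ => ?_
    unfold lfT Tb
    refine integral_congr_ae (Filter.Eventually.of_forall fun p => ?_)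
    simp only
    rw [one_mul, real_inner_comm]
  have hbd : ∀ ξ, ‖Tb X b ξ‖ ≤ ∫ p, ‖b p‖ := by
    intro ξ
    unfold Tb
    refine (norm_integral_le_integral_norm _).trans (le_of_eq ?_)
    refine integral_congr_ae (Filter.Eventually.of_forall fun p => ?_)
    simp only
    rw [norm_mul, Complex.norm_exp_ofReal_mul_I, mul_one]
  -- the left side
  have hleft : ∫⁻ ξ in {ξ : E n | ‖ξ‖ ≤ 2 * R}, ‖Tb X b ξ‖ₑ ^ 2 ≤
      ‖∫ ξ, ηs (R⁻¹ • ξ) * (Tb X b ξ * conj (Tb X b ξ))‖ₑ := by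
    have e1 : ∀ ξ, ηs (R⁻¹ • ξ) * (Tb X b ξ * conj (Tb X b ξ)) =
        ((η (R⁻¹ • ξ) * ‖Tb X b ξ‖ ^ 2 : ℝ) : ℂ) := by
      intro ξ
      rw [Complex.mul_conj, Complex.normSq_eq_norm_sq]
      push_cast
      rfl
    have hint : Integrable fun ξ : E n => η (R⁻¹ • ξ) * ‖Tb X b ξ‖ ^ 2 := by
      have h3 : Integrable fun ξ : E n => η (R⁻¹ • ξ) :=
        (integrable_comp_smul_iff (volume : Measure (E n)) η (inv_ne_zero hR.ne')).2
          (hη.continuous.integrable_of_hasCompactSupport hη1)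
      refine (h3.mul_const ((∫ p, ‖b p‖) ^ 2)).mono' ?_ (Filter.Eventually.of_forall fun ξ => ?_)
      · exact (h3.1).mul ((hcont.norm.pow 2).aestronglyMeasurable)
      · rw [norm_mul, Real.norm_of_nonneg (h0 _), Real.norm_of_nonneg (by positivity)]
        have h4 := h0 (R⁻¹ • ξ)
        gcongr
        exact hbd ξ
    have h5 : ∫ ξ, ηs (R⁻¹ • ξ) * (Tb X b ξ * conj (Tb X b ξ)) =
        ((∫ ξ, η (R⁻¹ • ξ) * ‖Tb X b ξ‖ ^ 2 : ℝ) : ℂ) := by
      rw [← integral_complex_ofReal]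
      exact integral_congr_ae (Filter.Eventually.of_forall fun ξ => e1 ξ)
    rw [h5]
    have h6 : ∀ x : ℝ, 0 ≤ x → ‖((x : ℝ) : ℂ)‖ₑ = ENNReal.ofReal x := by
      intro x hx
      rw [← ofReal_norm, Complex.norm_real, Real.norm_of_nonneg hx]
    have h7 : 0 ≤ ∫ ξ, η (R⁻¹ • ξ) * ‖Tb X b ξ‖ ^ 2 :=
      integral_nonneg fun ξ => mul_nonneg (h0 _) (by positivity)
    rw [h6 _ h7, ofReal_integral_eq_lintegral_ofReal hint
      (Filter.Eventually.of_forall fun ξ => mul_nonneg (h0 _) (by positivity)),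
      ← lintegral_indicator (measurableSet_le measurable_norm measurable_const)]
    refine lintegral_mono fun ξ => ?_
    by_cases hξ : ‖ξ‖ ≤ 2 * R
    · rw [indicator_of_mem (by exact hξ)]
      have h8 : η (R⁻¹ • ξ) = 1 := by
        refine h2 _ ?_
        rw [norm_smul, norm_inv, Real.norm_of_nonneg hR.le, inv_mul_le_iff₀ hR]
        linarith
      rw [h8, one_mul, ← ofReal_norm, ENNReal.ofReal_pow (norm_nonneg _)]
    · rw [indicator_of_notMem (by exact hξ)]
      exact zero_le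
  refine hleft.trans ?_
  simp only [hprod]
  rw [lff_fubini 1 _ _ hXm _ hB _ hηi]
  -- Schur
  set k : ℝ × E m → ℝ≥0∞ := fun p => ENNReal.ofReal (((1 + R * c * ‖p‖) ^ (m + 2))⁻¹) with hk
  have hkm : Measurable k := by
    refine ENNReal.measurable_ofReal.comp (Continuous.measurable ?_)
    exact Continuous.inv₀ (by fun_prop) fun p => by positivity
  have hpt : ∀ p : (ℝ × E m) × (ℝ × E m),
      ‖b p.1 * conj (b p.2) * ∫ ξ, ηs (R⁻¹ • ξ) *
        Complex.exp (((-(1 * ⟪X p.1 - X p.2, ξ⟫) : ℝ) : ℂ) * Complex.I)‖ₑ ≤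
      ENNReal.ofReal (C1 * R ^ n) * (‖b p.1‖ₑ * ‖b p.2‖ₑ * k (p.1 - p.2)) := by
    intro p
    rw [enorm_mul, enorm_mul]
    have h3 : ‖conj (b p.2)‖ₑ = ‖b p.2‖ₑ := by
      rw [← ofReal_norm, RCLike.norm_conj, ofReal_norm]
    rw [h3]
    by_cases hp : b p.1 = 0
    · rw [hp]; simp
    by_cases hp' : b p.2 = 0
    · rw [hp']; simp
    have h4 := hdec R hR (X p.1 - X p.2)
    have h5 := hsep _ _ hp hp'
    have h6 : ‖∫ ξ, ηs (R⁻¹ • ξ) *
        Complex.exp (((-(1 * ⟪X p.1 - X p.2, ξ⟫) : ℝ) : ℂ) * Complex.I)‖ₑ ≤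
        ENNReal.ofReal (C1 * R ^ n) * k (p.1 - p.2) := by
      rw [hk]
      simp only
      rw [← ENNReal.ofReal_mul (by positivity), ← ofReal_norm]
      refine ENNReal.ofReal_le_ofReal (h4.trans ?_)
      have h7 : R * c * ‖p.1 - p.2‖ ≤ R * ‖X p.1 - X p.2‖ := by
        rw [mul_assoc]
        gcongr
      gcongr
    calc ‖b p.1‖ₑ * ‖b p.2‖ₑ * _ ≤ ‖b p.1‖ₑ * ‖b p.2‖ₑ *
          (ENNReal.ofReal (C1 * R ^ n) * k (p.1 - p.2)) := by gcongr
      _ = _ := by ring
  refine (enorm_integral_le_lintegral_enorm _).trans ((lintegral_mono hpt).trans ?_)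
  rw [lintegral_const_mul' _ _ ENNReal.ofReal_ne_top]
  have h9 := l2_schur (volume : Measure (ℝ × E m)) (fun p => ‖b p‖ₑ) hbm.enorm k hkm
  have h10 := hker (R * c) (by positivity)
  calc ENNReal.ofReal (C1 * R ^ n) * ∫⁻ q : (ℝ × E m) × (ℝ × E m),
        ‖b q.1‖ₑ * ‖b q.2‖ₑ * k (q.1 - q.2) ∂((volume : Measure (ℝ × E m)).prod volume) ≤
        ENNReal.ofReal (C1 * R ^ n) * (2 * ((∫⁻ p, ‖b p‖ₑ ^ 2) *
          ENNReal.ofReal (C2 / (R * c) ^ (m + 1)))) := by
        gcongr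
        exact h9.trans (by gcongr)
    _ = (ENNReal.ofReal (C1 * R ^ n) * (ENNReal.ofReal 2 *
          ENNReal.ofReal (C2 / (R * c) ^ (m + 1)))) * (∫⁻ p, ‖b p‖ₑ ^ 2) := by
        rw [show ENNReal.ofReal 2 = 2 by norm_num]
        ring
    _ = _ := by
        rw [← ENNReal.ofReal_mul (by norm_num), ← ENNReal.ofReal_mul (by positivity)]
        congr 2
        rw [mul_pow]
        field_simp

end Pool.Agent.LF
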