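import Mathlib.MeasureTheory.Measure.Lebesgue.EqHaar
import Mathlib.MeasureTheory.Measure.Haar.InnerProductSpace
import Mathlib.MeasureTheory.Integral.MeanInequalities
import Mathlib.Analysis.SpecialFunctions.Pow.NNReal
import Mathlib.Topology.Algebra.InfiniteSum.ENNReal

/-!
From dyadic bounds of fourth moments to `L^p` bounds.
-/

namespace Pool.Agent.LF

open MeasureTheory Set
open scoped ENNReal

/-- Hoelder's inequality on a set, exponents `q < 4`. -/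
theorem lp_hoelder {X : Type*} [MeasurableSpace X] (μ : Measure X) (A : Set X) (f : X → ℝ≥0∞)
    (hf : Measurable f) (q : ℝ) (hq0 : 0 < q) (hq4 : q < 4) :
    ∫⁻ x in A, f x ^ q ∂μ ≤ (∫⁻ x in A, f x ^ (4 : ℝ) ∂μ) ^ (q / 4) * μ A ^ (1 - q / 4) := by
  have hpq : (4 / q).HolderConjugate (1 / (1 - q / 4)) := by
    rw [Real.holderConjugate_iff]
    refine ⟨by rw [lt_div_iff₀ hq0]; linarith, ?_⟩
    have h1 : 1 - q / 4 ≠ 0 := by
      have : 0 < 1 - q / 4 := by linarith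
      exact this.ne'
    have h2 : q ≠ 0 := hq0.ne'
    field_simp
    ring
  have h := ENNReal.lintegral_mul_le_Lp_mul_Lq (μ.restrict A) hpq
    (f := fun x => f x ^ q) (g := fun _ => 1) (hf.pow_const q).aemeasurable
    measurable_const.aemeasurable
  have e1 : ∀ x, (f x ^ q) ^ (4 / q) = f x ^ (4 : ℝ) := by
    intro x
    rw [← ENNReal.rpow_mul]
    congr 1
    field_simp
  simp only [Pi.mul_apply, mul_one, ENNReal.one_rpow, e1, lintegral_const,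
    Measure.restrict_apply MeasurableSet.univ, univ_inter, one_mul, one_div_one_div] at h
  rwa [one_div_div] at h

/-- Comparison of two exponents for a bounded function. -/
theorem lp_pow {f b : ℝ≥0∞} (hfb : f ≤ b) {p q : ℝ} (hq : 0 ≤ q) (hqp : q ≤ p) :
    f ^ p ≤ b ^ (p - q) * f ^ q := by
  have h : f ^ p = f ^ (p - q) * f ^ q := by
    rw [← ENNReal.rpow_add_of_nonneg _ _ (by linarith) hq]
    congr 1
    ring
  rw [h]
  exact mul_le_mul_left (ENNReal.rpow_le_rpow hfb (by linarith)) _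

/-- The powers of `2`. -/
theorem lp_two (n : ℕ) (e q : ℝ) (k : ℕ) :
    (((2 : ℝ) ^ k) ^ e) ^ (q / 4) * (((2 : ℝ) ^ (k + 1)) ^ n) ^ (1 - q / 4) =
      (2 : ℝ) ^ ((n : ℝ) * (1 - q / 4)) *
        ((2 : ℝ) ^ (e * (q / 4) + (n : ℝ) * (1 - q / 4))) ^ k := by
  have h2 : (0 : ℝ) ≤ 2 := by norm_num
  have h2' : (0 : ℝ) < 2 := by norm_num
  rw [← Real.rpow_natCast 2 k, ← Real.rpow_natCast 2 (k + 1),
    ← Real.rpow_natCast ((2 : ℝ) ^ ((k + 1 : ℕ) : ℝ)) n,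
    ← Real.rpow_natCast ((2 : ℝ) ^ (e * (q / 4) + (n : ℝ) * (1 - q / 4))) k]
  rw [← Real.rpow_mul h2, ← Real.rpow_mul h2, ← Real.rpow_mul h2, ← Real.rpow_mul h2,
    ← Real.rpow_mul h2, ← Real.rpow_add h2', ← Real.rpow_add h2']
  congr 1
  push_cast
  ring

/-- From the fourth moments on the dyadic annuli to the `L^p` norm, `p > 2n/(n-1)`. -/
theorem lp (n : ℕ) (hn : 3 ≤ n) (p : ℝ) (hp : 2 * (n : ℝ) / (n - 1) < p) :
    ∃ ε : ℝ, 0 < ε ∧ ∀ C0 B : ℝ, ∃ C : ℝ≥0∞, C ≠ ∞ ∧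
      ∀ F : EuclideanSpace ℝ (Fin n) → ℂ, Measurable F → (∀ ξ, ‖F ξ‖ ≤ B) →
        (∀ R : ℝ, 1 ≤ R → ∫⁻ ξ in {ξ | R ≤ ‖ξ‖ ∧ ‖ξ‖ ≤ 2 * R}, ‖F ξ‖ₑ ^ (4 : ℝ) ≤
          ENNReal.ofReal (C0 * R ^ (-((n : ℝ) - 2) + ε))) →
        ∫⁻ ξ, ‖F ξ‖ₑ ^ p ≤ C := by
  have hn3 : (3 : ℝ) ≤ n := by exact_mod_cast hn
  have hn1 : (0 : ℝ) < n - 1 := by linarith
  have hlt4 : 2 * (n : ℝ) / (n - 1) < 4 := by
    rw [div_lt_iff₀ hn1]
    linarith
  obtain ⟨q, hq1, hq2⟩ := exists_between (lt_min hp hlt4)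
  have hqp : q ≤ p := (lt_min_iff.1 hq2).1.le
  have hq4 : q < 4 := (lt_min_iff.1 hq2).2
  have hq2' : 2 < q := by
    refine lt_of_lt_of_le ?_ hq1.le
    rw [lt_div_iff₀ hn1]
    linarith
  have hq0 : 0 < q := by linarith
  have hmain : 0 < q * (n - 1) / 2 - n := by
    rw [div_lt_iff₀ hn1] at hq1
    linarith
  refine ⟨(q * (n - 1) / 2 - n) / q, div_pos hmain hq0, ?_⟩
  set ε : ℝ := (q * (n - 1) / 2 - n) / q with hε
  have hεq : ε * q = q * (n - 1) / 2 - n := by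
    rw [hε]
    field_simp
  intro C0 B
  set e : ℝ := -((n : ℝ) - 2) + ε with he
  set γ : ℝ := e * (q / 4) + (n : ℝ) * (1 - q / 4) with hγ
  have hγ0 : γ < 0 := by
    have : γ = -(3 / 4) * (q * (n - 1) / 2 - n) := by
      rw [hγ, he]
      have : (-((n : ℝ) - 2) + ε) * (q / 4) = -((n : ℝ) - 2) * (q / 4) + (ε * q) / 4 := by ring
      rw [this, hεq]
      ring
    rw [this]
    nlinarith
  set ω : ℝ≥0∞ := volume (Metric.ball (0 : EuclideanSpace ℝ (Fin n)) 1) with hω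
  have hω' : ω ≠ ∞ := measure_ball_lt_top.ne
  set b : ℝ≥0∞ := ENNReal.ofReal B with hb
  set K : ℝ≥0∞ := b ^ (p - q) * (ENNReal.ofReal (|C0| ^ (q / 4)) *
    (ENNReal.ofReal ((2 : ℝ) ^ ((n : ℝ) * (1 - q / 4))) * ω ^ (1 - q / 4))) with hK
  set r : ℝ≥0∞ := ENNReal.ofReal ((2 : ℝ) ^ γ) with hr
  have hr1 : r < 1 := by
    rw [hr, ENNReal.ofReal_lt_one]
    exact Real.rpow_lt_one_of_one_lt_of_neg (by norm_num) hγ0
  have hK' : K ≠ ∞ := by
    refine ENNReal.mul_ne_top (ENNReal.rpow_ne_top_of_nonneg (by linarith) ENNReal.ofReal_ne_top)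
      (ENNReal.mul_ne_top ENNReal.ofReal_ne_top (ENNReal.mul_ne_top ENNReal.ofReal_ne_top
        (ENNReal.rpow_ne_top_of_nonneg (by linarith) hω')))
  refine ⟨b ^ p * volume (Metric.closedBall (0 : EuclideanSpace ℝ (Fin n)) 1) + K * (1 - r)⁻¹,
    ?_, ?_⟩
  · refine ENNReal.add_ne_top.2 ⟨ENNReal.mul_ne_top
      (ENNReal.rpow_ne_top_of_nonneg (by linarith) ENNReal.ofReal_ne_top)
      measure_closedBall_lt_top.ne, ENNReal.mul_ne_top hK' ?_⟩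
    exact ENNReal.inv_ne_top.2 (tsub_pos_of_lt hr1).ne'
  intro F hF hFB hR
  have hFb : ∀ ξ, ‖F ξ‖ₑ ≤ b := by
    intro ξ
    rw [hb, ← ofReal_norm]
    exact ENNReal.ofReal_le_ofReal (hFB ξ)
  set A : ℕ → Set (EuclideanSpace ℝ (Fin n)) := fun k =>
    {ξ | (2 : ℝ) ^ k ≤ ‖ξ‖ ∧ ‖ξ‖ ≤ 2 * 2 ^ k} with hA
  have hcover : (univ : Set (EuclideanSpace ℝ (Fin n))) ⊆
      Metric.closedBall 0 1 ∪ ⋃ k, A k := by
    intro ξ _
    by_cases h : ‖ξ‖ ≤ 1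
    · left
      simpa using h
    · right
      obtain ⟨k, hk1, hk2⟩ := exists_nat_pow_near (x := ‖ξ‖) (y := 2) (not_le.1 h).le (by norm_num)
      rw [mem_iUnion]
      refine ⟨k, hk1, ?_⟩
      rw [pow_succ] at hk2
      linarith
  have hA4 : ∀ k, ∫⁻ ξ in A k, ‖F ξ‖ₑ ^ p ≤ K * r ^ k := by
    intro k
    have h2k : (0 : ℝ) < 2 ^ k := by positivity
    have h1 : ∫⁻ ξ in A k, ‖F ξ‖ₑ ^ p ≤ b ^ (p - q) * ∫⁻ ξ in A k, ‖F ξ‖ₑ ^ q := by
      rw [← lintegral_const_mul _ (hF.enorm.pow_const q)]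
      exact lintegral_mono fun ξ => lp_pow (hFb ξ) hq0.le hqp
    have h2 := lp_hoelder volume (A k) (fun ξ => ‖F ξ‖ₑ) hF.enorm q hq0 hq4
    have h3 : ∫⁻ ξ in A k, ‖F ξ‖ₑ ^ (4 : ℝ) ≤ ENNReal.ofReal (|C0| * ((2 : ℝ) ^ k) ^ e) := by
      refine (hR (2 ^ k) (one_le_pow₀ (by norm_num))).trans ?_
      refine ENNReal.ofReal_le_ofReal ?_
      exact mul_le_mul_of_nonneg_right (le_abs_self C0) (Real.rpow_nonneg h2k.le _)
    have h4 : volume (A k) ≤ ENNReal.ofReal (((2 : ℝ) ^ (k + 1)) ^ n) * ω := by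
      have : A k ⊆ Metric.closedBall 0 (2 ^ (k + 1)) := by
        intro ξ hξ
        rw [mem_closedBall_zero_iff]
        have := hξ.2
        rw [pow_succ]
        linarith
      refine (measure_mono this).trans ?_
      rw [Measure.addHaar_closedBall _ _ (by positivity), finrank_euclideanSpace_fin]
    refine h1.trans ?_
    rw [hK, mul_assoc]
    refine mul_le_mul_right (h2.trans ?_) _
    have h5 : (∫⁻ ξ in A k, ‖F ξ‖ₑ ^ (4 : ℝ)) ^ (q / 4) ≤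
        ENNReal.ofReal (|C0| ^ (q / 4)) * ENNReal.ofReal ((((2 : ℝ) ^ k) ^ e) ^ (q / 4)) := by
      refine (ENNReal.rpow_le_rpow h3 (by positivity)).trans ?_
      rw [ENNReal.ofReal_rpow_of_nonneg (mul_nonneg (abs_nonneg _) (Real.rpow_nonneg h2k.le _))
        (by positivity), Real.mul_rpow (abs_nonneg _) (Real.rpow_nonneg h2k.le _),
        ENNReal.ofReal_mul (Real.rpow_nonneg (abs_nonneg _) _)]
    have h6 : volume (A k) ^ (1 - q / 4) ≤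
        ENNReal.ofReal ((((2 : ℝ) ^ (k + 1)) ^ n) ^ (1 - q / 4)) * ω ^ (1 - q / 4) := by
      refine (ENNReal.rpow_le_rpow h4 (by linarith)).trans ?_
      rw [ENNReal.mul_rpow_of_nonneg _ _ (by linarith),
        ENNReal.ofReal_rpow_of_nonneg (by positivity) (by linarith)]
    refine (mul_le_mul' h5 h6).trans (le_of_eq ?_)
    have h7 : ENNReal.ofReal ((((2 : ℝ) ^ k) ^ e) ^ (q / 4)) *
        ENNReal.ofReal ((((2 : ℝ) ^ (k + 1)) ^ n) ^ (1 - q / 4)) =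
        ENNReal.ofReal ((2 : ℝ) ^ ((n : ℝ) * (1 - q / 4))) * r ^ k := by
      rw [← ENNReal.ofReal_mul (by positivity), lp_two n e q k,
        ENNReal.ofReal_mul (by positivity), hr, ENNReal.ofReal_pow (by positivity)]
    calc ENNReal.ofReal (|C0| ^ (q / 4)) * ENNReal.ofReal ((((2 : ℝ) ^ k) ^ e) ^ (q / 4)) *
          (ENNReal.ofReal ((((2 : ℝ) ^ (k + 1)) ^ n) ^ (1 - q / 4)) * ω ^ (1 - q / 4))
        = ENNReal.ofReal (|C0| ^ (q / 4)) * ((ENNReal.ofReal ((((2 : ℝ) ^ k) ^ e) ^ (q / 4)) *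
          ENNReal.ofReal ((((2 : ℝ) ^ (k + 1)) ^ n) ^ (1 - q / 4))) * ω ^ (1 - q / 4)) := by ring
      _ = _ := by
          rw [h7]
          ring
  calc ∫⁻ ξ, ‖F ξ‖ₑ ^ p = ∫⁻ ξ in univ, ‖F ξ‖ₑ ^ p := by rw [setLIntegral_univ]
    _ ≤ ∫⁻ ξ in Metric.closedBall 0 1 ∪ ⋃ k, A k, ‖F ξ‖ₑ ^ p := lintegral_mono_set hcover
    _ ≤ (∫⁻ ξ in Metric.closedBall 0 1, ‖F ξ‖ₑ ^ p) + ∫⁻ ξ in ⋃ k, A k, ‖F ξ‖ₑ ^ p :=
        lintegral_union_le _ _ _
    _ ≤ b ^ p * volume (Metric.closedBall (0 : EuclideanSpace ℝ (Fin n)) 1) +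
        K * (1 - r)⁻¹ := by
        refine add_le_add ?_ ?_
        · refine (lintegral_mono fun ξ => ENNReal.rpow_le_rpow (hFb ξ) (by linarith)).trans ?_
          rw [setLIntegral_const]
        · refine (lintegral_iUnion_le _ _).trans ?_
          refine (ENNReal.tsum_le_tsum hA4).trans ?_
          rw [ENNReal.tsum_mul_left, ENNReal.tsum_geometric]

end Pool.Agent.LF
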