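import Pool.Agent.LF.LP

/-!
From dyadic bounds of fourth moments to `L^p` bounds outside a ball.
-/

namespace Pool.Agent.LF

open MeasureTheory Set
open scoped ENNReal

/-- From the fourth moments on the dyadic annuli to the `L^p` norm outside a ball, `p > 2n/(n-1)`:
a power of the radius is gained. -/
theorem lp_tail (n : ℕ) (hn : 3 ≤ n) (p : ℝ) (hp : 2 * (n : ℝ) / (n - 1) < p) :
    ∃ ε η : ℝ, 0 < ε ∧ 0 < η ∧ ∀ C0 B : ℝ, ∃ C : ℝ, 0 ≤ C ∧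
      ∀ F : EuclideanSpace ℝ (Fin n) → ℂ, Measurable F → (∀ ξ, ‖F ξ‖ ≤ B) →
        (∀ R : ℝ, 1 ≤ R → ∫⁻ ξ in {ξ | R ≤ ‖ξ‖ ∧ ‖ξ‖ ≤ 2 * R}, ‖F ξ‖ₑ ^ (4 : ℝ) ≤
          ENNReal.ofReal (C0 * R ^ (-((n : ℝ) - 2) + ε))) →
        ∀ R : ℝ, 1 ≤ R → ∫⁻ ξ in {ξ | R ≤ ‖ξ‖}, ‖F ξ‖ₑ ^ p ≤ ENNReal.ofReal (C * R ^ (-η)) := by
  have hn3 : (3 : ℝ) ≤ n := by exact_mod_cast hn
  have hn1 : (0 : ℝ) < n - 1 := by linarith
  have hlt4 : 2 * (n : ℝ) / (n - 1) < 4 := by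
    rw [div_lt_iff₀ hn1]
    linarith
  obtain ⟨q, hq1, hq2⟩ := exists_between (lt_min hp hlt4)
  have hqp : q ≤ p := (lt_min_iff.1 hq2).1.le
  have hq4 : q < 4 := (lt_min_iff.1 hq2).2
  have hq2' : 2 < q := by
    refine lt_of_lt_of_le ?_ hq1.le
    rw [lt_div_iff₀ hn1]
    linarith
  have hq0 : 0 < q := by linarith
  have hmain : 0 < q * (n - 1) / 2 - n := by
    rw [div_lt_iff₀ hn1] at hq1
    linarith
  refine ⟨(q * (n - 1) / 2 - n) / q, 3 / 4 * (q * (n - 1) / 2 - n), div_pos hmain hq0,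
    mul_pos (by norm_num) hmain, ?_⟩
  set ε : ℝ := (q * (n - 1) / 2 - n) / q with hε
  have hεq : ε * q = q * (n - 1) / 2 - n := by
    rw [hε]
    field_simp
  intro C0 B
  set e : ℝ := -((n : ℝ) - 2) + ε with he
  set γ : ℝ := e * (q / 4) + (n : ℝ) * (1 - q / 4) with hγ
  have hγe : γ = -(3 / 4 * (q * (n - 1) / 2 - n)) := by
    rw [hγ, he]
    have : (-((n : ℝ) - 2) + ε) * (q / 4) = -((n : ℝ) - 2) * (q / 4) + (ε * q) / 4 := by ring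
    rw [this, hεq]
    ring
  have hγ0 : γ < 0 := by
    rw [hγe]
    linarith
  set ω : ℝ≥0∞ := volume (Metric.ball (0 : EuclideanSpace ℝ (Fin n)) 1) with hω
  have hω' : ω ≠ ∞ := measure_ball_lt_top.ne
  set b : ℝ≥0∞ := ENNReal.ofReal B with hb
  set K : ℝ≥0∞ := b ^ (p - q) * (ENNReal.ofReal (|C0| ^ (q / 4)) *
    (ENNReal.ofReal ((2 : ℝ) ^ ((n : ℝ) * (1 - q / 4))) * ω ^ (1 - q / 4))) with hK
  set r : ℝ≥0∞ := ENNReal.ofReal ((2 : ℝ) ^ γ) with hr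
  have hr1 : r < 1 := by
    rw [hr, ENNReal.ofReal_lt_one]
    exact Real.rpow_lt_one_of_one_lt_of_neg (by norm_num) hγ0
  have hK' : K ≠ ∞ := by
    refine ENNReal.mul_ne_top (ENNReal.rpow_ne_top_of_nonneg (by linarith) ENNReal.ofReal_ne_top)
      (ENNReal.mul_ne_top ENNReal.ofReal_ne_top (ENNReal.mul_ne_top ENNReal.ofReal_ne_top
        (ENNReal.rpow_ne_top_of_nonneg (by linarith) hω')))
  have hL' : K * (1 - r)⁻¹ ≠ ∞ :=
    ENNReal.mul_ne_top hK' (ENNReal.inv_ne_top.2 (tsub_pos_of_lt hr1).ne')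
  refine ⟨(K * (1 - r)⁻¹).toReal * 2 ^ (-γ), by positivity, ?_⟩
  intro F hF hFB hR
  have hFb : ∀ ξ, ‖F ξ‖ₑ ≤ b := by
    intro ξ
    rw [hb, ← ofReal_norm]
    exact ENNReal.ofReal_le_ofReal (hFB ξ)
  set A : ℕ → Set (EuclideanSpace ℝ (Fin n)) := fun k =>
    {ξ | (2 : ℝ) ^ k ≤ ‖ξ‖ ∧ ‖ξ‖ ≤ 2 * 2 ^ k} with hA
  have hA4 : ∀ k, ∫⁻ ξ in A k, ‖F ξ‖ₑ ^ p ≤ K * r ^ k := by
    intro k
    have h2k : (0 : ℝ) < 2 ^ k := by positivity
    have h1 : ∫⁻ ξ in A k, ‖F ξ‖ₑ ^ p ≤ b ^ (p - q) * ∫⁻ ξ in A k, ‖F ξ‖ₑ ^ q := by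
      rw [← lintegral_const_mul _ (hF.enorm.pow_const q)]
      exact lintegral_mono fun ξ => lp_pow (hFb ξ) hq0.le hqp
    have h2 := lp_hoelder volume (A k) (fun ξ => ‖F ξ‖ₑ) hF.enorm q hq0 hq4
    have h3 : ∫⁻ ξ in A k, ‖F ξ‖ₑ ^ (4 : ℝ) ≤ ENNReal.ofReal (|C0| * ((2 : ℝ) ^ k) ^ e) := by
      refine (hR (2 ^ k) (one_le_pow₀ (by norm_num))).trans ?_
      refine ENNReal.ofReal_le_ofReal ?_
      exact mul_le_mul_of_nonneg_right (le_abs_self C0) (Real.rpow_nonneg h2k.le _)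
    have h4 : volume (A k) ≤ ENNReal.ofReal (((2 : ℝ) ^ (k + 1)) ^ n) * ω := by
      have : A k ⊆ Metric.closedBall 0 (2 ^ (k + 1)) := by
        intro ξ hξ
        rw [mem_closedBall_zero_iff]
        have := hξ.2
        rw [pow_succ]
        linarith
      refine (measure_mono this).trans ?_
      rw [Measure.addHaar_closedBall _ _ (by positivity), finrank_euclideanSpace_fin]
    refine h1.trans ?_
    rw [hK, mul_assoc]
    refine mul_le_mul_right (h2.trans ?_) _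
    have h5 : (∫⁻ ξ in A k, ‖F ξ‖ₑ ^ (4 : ℝ)) ^ (q / 4) ≤
        ENNReal.ofReal (|C0| ^ (q / 4)) * ENNReal.ofReal ((((2 : ℝ) ^ k) ^ e) ^ (q / 4)) := by
      refine (ENNReal.rpow_le_rpow h3 (by positivity)).trans ?_
      rw [ENNReal.ofReal_rpow_of_nonneg (mul_nonneg (abs_nonneg _) (Real.rpow_nonneg h2k.le _))
        (by positivity), Real.mul_rpow (abs_nonneg _) (Real.rpow_nonneg h2k.le _),
        ENNReal.ofReal_mul (Real.rpow_nonneg (abs_nonneg _) _)]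
    have h6 : volume (A k) ^ (1 - q / 4) ≤
        ENNReal.ofReal ((((2 : ℝ) ^ (k + 1)) ^ n) ^ (1 - q / 4)) * ω ^ (1 - q / 4) := by
      refine (ENNReal.rpow_le_rpow h4 (by linarith)).trans ?_
      rw [ENNReal.mul_rpow_of_nonneg _ _ (by linarith),
        ENNReal.ofReal_rpow_of_nonneg (by positivity) (by linarith)]
    refine (mul_le_mul' h5 h6).trans (le_of_eq ?_)
    have h7 : ENNReal.ofReal ((((2 : ℝ) ^ k) ^ e) ^ (q / 4)) *
        ENNReal.ofReal ((((2 : ℝ) ^ (k + 1)) ^ n) ^ (1 - q / 4)) =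
        ENNReal.ofReal ((2 : ℝ) ^ ((n : ℝ) * (1 - q / 4))) * r ^ k := by
      rw [← ENNReal.ofReal_mul (by positivity), lp_two n e q k,
        ENNReal.ofReal_mul (by positivity), hr, ENNReal.ofReal_pow (by positivity)]
    calc ENNReal.ofReal (|C0| ^ (q / 4)) * ENNReal.ofReal ((((2 : ℝ) ^ k) ^ e) ^ (q / 4)) *
          (ENNReal.ofReal ((((2 : ℝ) ^ (k + 1)) ^ n) ^ (1 - q / 4)) * ω ^ (1 - q / 4))
        = ENNReal.ofReal (|C0| ^ (q / 4)) * ((ENNReal.ofReal ((((2 : ℝ) ^ k) ^ e) ^ (q / 4)) *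
          ENNReal.ofReal ((((2 : ℝ) ^ (k + 1)) ^ n) ^ (1 - q / 4))) * ω ^ (1 - q / 4)) := by ring
      _ = _ := by
          rw [h7]
          ring
  intro S hS
  obtain ⟨k0, hk1, hk2⟩ := exists_nat_pow_near (x := S) (y := 2) hS (by norm_num)
  have hcover : {ξ : EuclideanSpace ℝ (Fin n) | S ≤ ‖ξ‖} ⊆ ⋃ k, A (k0 + k) := by
    intro ξ hξ
    have hξ1 : S ≤ ‖ξ‖ := hξ
    obtain ⟨k, hk3, hk4⟩ := exists_nat_pow_near (x := ‖ξ‖) (y := 2) (hS.trans hξ1) (by norm_num)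
    have hk5 : k0 ≤ k := by
      by_contra h
      have h1 : k + 1 ≤ k0 := by omega
      have h2 : (2 : ℝ) ^ (k + 1) ≤ 2 ^ k0 := pow_le_pow_right₀ (by norm_num) h1
      linarith
    rw [mem_iUnion]
    refine ⟨k - k0, ?_⟩
    rw [show k0 + (k - k0) = k by omega]
    refine ⟨hk3, ?_⟩
    rw [pow_succ] at hk4
    linarith
  have hS0 : 0 < S := by linarith
  have hrk : r ^ k0 ≤ ENNReal.ofReal (2 ^ (-γ) * S ^ γ) := by
    rw [hr, ← ENNReal.ofReal_pow (by positivity)]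
    refine ENNReal.ofReal_le_ofReal ?_
    have h1 : ((2 : ℝ) ^ γ) ^ k0 = ((2 : ℝ) ^ k0) ^ γ := by
      rw [← Real.rpow_natCast ((2 : ℝ) ^ γ) k0, ← Real.rpow_natCast 2 k0,
        ← Real.rpow_mul (by norm_num), ← Real.rpow_mul (by norm_num), mul_comm]
    rw [h1]
    have h2 : (S / 2) ^ γ = 2 ^ (-γ) * S ^ γ := by
      rw [Real.div_rpow hS0.le (by norm_num), Real.rpow_neg (by norm_num)]
      field_simp
    rw [← h2]
    refine Real.rpow_le_rpow_of_nonpos (by positivity) ?_ hγ0.le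
    rw [pow_succ] at hk2
    linarith
  calc ∫⁻ ξ in {ξ | S ≤ ‖ξ‖}, ‖F ξ‖ₑ ^ p ≤ ∫⁻ ξ in ⋃ k, A (k0 + k), ‖F ξ‖ₑ ^ p :=
        lintegral_mono_set hcover
    _ ≤ ∑' k, ∫⁻ ξ in A (k0 + k), ‖F ξ‖ₑ ^ p := lintegral_iUnion_le _ _
    _ ≤ ∑' k : ℕ, (K * r ^ k0) * r ^ k := by
        refine ENNReal.tsum_le_tsum fun k => (hA4 (k0 + k)).trans (le_of_eq ?_)
        rw [pow_add]
        ring
    _ = K * (1 - r)⁻¹ * r ^ k0 := by
        rw [ENNReal.tsum_mul_left, ENNReal.tsum_geometric]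
        ring
    _ ≤ K * (1 - r)⁻¹ * ENNReal.ofReal (2 ^ (-γ) * S ^ γ) := mul_le_mul_right hrk _
    _ = ENNReal.ofReal ((K * (1 - r)⁻¹).toReal * 2 ^ (-γ) *
          S ^ (-(3 / 4 * (q * (n - 1) / 2 - n)))) := by
        rw [← hγe, mul_assoc (K * (1 - r)⁻¹).toReal, ENNReal.ofReal_mul ENNReal.toReal_nonneg,
          ENNReal.ofReal_toReal hL']

end Pool.Agent.LF
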