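import Pool.Agent.LF.GLUE
import Pool.Agent.MP_6cbfb8_an.Super

/-!
Superpositions of densities of the class.
-/

set_option autoImplicit false

namespace Pool.Agent.LF

open MeasureTheory Set Pool.Agent.MP_6cbfb8_an
open scoped ENNReal Real RealInnerProductSpace ContDiff

theorem Cl.scale {n : ℕ} {K : Set (E n)} {B : ℕ → ℝ} {G : ℝ → E n → ℂ} (h : Cl K B G) (c : ℂ) :
    Cl K (fun k => ‖c‖ * B k) (fun t x => c * G t x) := by
  obtain ⟨h1, h2, h3, h4⟩ := h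
  refine ⟨?_, ?_, ?_, ?_⟩
  · exact measurable_const.mul h1
  · exact fun t => contDiff_const.mul (h2 t)
  · intro k t x
    change ‖iteratedFDeriv ℝ k (c • G t) x‖ ≤ ‖c‖ * B k
    rw [iteratedFDeriv_const_smul_apply ((h2 t).contDiffAt.of_le (by exact_mod_cast le_top)),
      norm_smul]
    exact mul_le_mul_of_nonneg_left (h3 k t x) (norm_nonneg _)
  · intro t x hx hK
    change c * G t x = 0
    rw [h4 t x hx hK, mul_zero]

theorem extn_congr_S {n : ℕ} {g h : E n → ℂ} (e : ∀ x, ‖x‖ = 1 → g x = h x) : extn g = extn h := by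
  funext ξ
  unfold extn
  refine integral_congr_ae (Filter.Eventually.of_forall fun x => ?_)
  simp only
  rw [e (x : E n) (by simp)]

theorem extn_const_mul {n : ℕ} (c : ℂ) (g : E n → ℂ) (ξ : E n) :
    extn (fun x => c * g x) ξ = c * extn g ξ := by
  unfold extn
  rw [← integral_const_mul]
  refine integral_congr_ae (Filter.Eventually.of_forall fun x => ?_)
  simp only
  ring

/-- Superpositions. -/
theorem mix_of {n : ℕ} {φ : E n → ℝ} {K V : Set (E n)} (hV : IsOpen V) (hKV : ∀ x ∈ K, x ∈ V)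
    (hφ : ContinuousOn φ V) {p : ℝ} (hp : 1 ≤ p) (B : ℕ → ℝ)
    (H : ∀ B : ℕ → ℝ, ∃ C : ℝ≥0∞, C ≠ ⊤ ∧ ∀ G : ℝ → E n → ℂ, Cl K B G →
      ∫⁻ ξ, ‖extn (fun x => G (φ x) x) ξ‖ₑ ^ p ≤ C) :
    ∃ C : ℝ≥0∞, C ≠ ⊤ ∧ ∀ (W : Type) [MeasurableSpace W] (ν : Measure W) [IsFiniteMeasure ν]
      (R : W → (E n ≃ₗᵢ[ℝ] E n)) (η : W → E n) (G : W → ℝ → E n → ℂ),
      (Measurable fun q : W × E n => R q.1 q.2) → Measurable η →
      (Measurable fun q : W × ℝ × E n => G q.1 q.2.1 q.2.2) → (∀ w, Cl K B (G w)) →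
      ∫⁻ ξ, ‖extn (mix ν R η (fun w x => G w (φ x) x)) ξ‖ₑ ^ p ≤ C * ν univ ^ p := by
  classical
  set M : ℝ := max 1 (B 0) with hM
  have hM1 : 1 ≤ M := le_max_left _ _
  have hM0 : 0 < M := by linarith
  have hMc : ‖((M⁻¹ : ℝ) : ℂ)‖ = M⁻¹ := by
    rw [Complex.norm_real, Real.norm_eq_abs, abs_of_pos (inv_pos.2 hM0)]
  obtain ⟨C, hC, hH⟩ := H (fun k => M⁻¹ * B k)
  refine ⟨(‖((M : ℝ) : ℂ)‖ₑ) ^ p * C, ?_, ?_⟩
  · refine ENNReal.mul_ne_top ?_ hC
    exact ENNReal.rpow_ne_top_of_nonneg (by linarith) enorm_ne_top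
  intro W _ ν _ R η G hR hη hG hcl
  set ψ : E n → ℝ := V.piecewise φ (fun _ => 0) with hψ
  have hψm : Measurable ψ := hφ.measurable_piecewise continuousOn_const hV.measurableSet
  have hψe : ∀ (G : ℝ → E n → ℂ), Cl K B G → ∀ x, ‖x‖ = 1 → G (ψ x) x = G (φ x) x := by
    intro G hG x hx
    by_cases hK : x ∈ K
    · rw [hψ, piecewise_eq_of_mem _ _ _ (hKV x hK)]
    · rw [hG.2.2.2 _ x hx hK, hG.2.2.2 _ x hx hK]
  set c : ℂ := ((M⁻¹ : ℝ) : ℂ) with hc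
  -- normalised densities
  set h : W → E n → ℂ := fun w x => c * G w (ψ x) x with hh
  have hhm : Measurable (Function.uncurry h) := by
    have h1 : Measurable fun q : W × E n => G q.1 (ψ q.2) q.2 :=
      hG.comp (f := fun q : W × E n => (q.1, ψ q.2, q.2))
        (measurable_fst.prodMk ((hψm.comp measurable_snd).prodMk measurable_snd))
    exact measurable_const.mul h1
  have hb : ∀ w x, ‖h w x‖ ≤ 1 := by
    intro w x
    have h2 := (hcl w).2.2.1 0 (ψ x) x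
    rw [norm_iteratedFDeriv_zero] at h2
    rw [hh]
    simp only
    rw [norm_mul, hMc]
    calc M⁻¹ * ‖G w (ψ x) x‖ ≤ M⁻¹ * M := by
          refine mul_le_mul_of_nonneg_left (h2.trans (le_max_right _ _)) (inv_nonneg.2 hM0.le)
      _ = 1 := inv_mul_cancel₀ hM0.ne'
  have h3 := lintegral_mix_le hp (C := C)
    (fun g => ∃ G : ℝ → E n → ℂ, Cl K (fun k => M⁻¹ * B k) G ∧
      ∀ x, ‖x‖ = 1 → g x = G (φ x) x)
    (fun g _ _ ⟨G, hG, hg⟩ => by rw [extn_congr_S hg]; exact hH G hG)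
    ν R η h hR hη hhm hb (fun w => ⟨fun t x => c * G w t x, by
      have h4 := (hcl w).scale c
      rw [hMc] at h4
      exact h4, fun x hx => by
      rw [hh]
      simp only
      rw [hψe (G w) (hcl w) x hx]⟩)
  have h5 : ∀ x, ‖x‖ = 1 → mix ν R η (fun w x => G w (φ x) x) x =
      ((M : ℝ) : ℂ) * mix ν R η h x := by
    intro x hx
    unfold mix
    rw [← integral_const_mul]
    refine integral_congr_ae (Filter.Eventually.of_forall fun w => ?_)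
    simp only
    have h6 : ‖R w x‖ = 1 := by rw [LinearIsometryEquiv.norm_map, hx]
    rw [hh]
    simp only
    rw [hψe (G w) (hcl w) _ h6]
    have h7 : ((M : ℝ) : ℂ) * c = 1 := by
      rw [hc, ← Complex.ofReal_mul, mul_inv_cancel₀ hM0.ne', Complex.ofReal_one]
    calc _ = 1 * (Complex.exp (((2 * π * inner ℝ x (η w) : ℝ) : ℂ) * Complex.I) *
          G w (φ (R w x)) (R w x)) := by rw [one_mul]
      _ = _ := by rw [← h7]; ring
  rw [extn_congr_S h5]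
  calc ∫⁻ ξ, ‖extn (fun x => ((M : ℝ) : ℂ) * mix ν R η h x) ξ‖ₑ ^ p
      = ∫⁻ ξ, ‖((M : ℝ) : ℂ)‖ₑ ^ p * ‖extn (mix ν R η h) ξ‖ₑ ^ p := by
        refine lintegral_congr fun ξ => ?_
        rw [extn_const_mul, enorm_mul, ENNReal.mul_rpow_of_nonneg _ _ (by linarith)]
    _ = ‖((M : ℝ) : ℂ)‖ₑ ^ p * ∫⁻ ξ, ‖extn (mix ν R η h) ξ‖ₑ ^ p :=
        lintegral_const_mul' _ _ (ENNReal.rpow_ne_top_of_nonneg (by linarith) enorm_ne_top)
    _ ≤ ‖((M : ℝ) : ℂ)‖ₑ ^ p * (C * ν univ ^ p) := mul_le_mul' le_rfl h3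
    _ = _ := by ring

/-- Superpositions of densities supported in a compact set of points of the sphere where the
condition holds. -/
theorem leaf_mix {n : ℕ} (hn : 3 ≤ n) (H : LeafAt n) (φ : E n → ℝ) {K : Set (E n)}
    (hK : IsCompact K)
    (hc : ∀ x ∈ K, ‖x‖ = 1 ∧ (∀ᶠ y in nhds x, ContDiffAt ℝ ∞ φ y) ∧ Cyc φ x) (p : ℝ)
    (hp : 2 * (n : ℝ) / (n - 1) < p) (B : ℕ → ℝ) :
    ∃ C : ℝ≥0∞, C ≠ ⊤ ∧ ∀ (W : Type) [MeasurableSpace W] (ν : Measure W) [IsFiniteMeasure ν]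
      (R : W → (E n ≃ₗᵢ[ℝ] E n)) (η : W → E n) (G : W → ℝ → E n → ℂ),
      (Measurable fun q : W × E n => R q.1 q.2) → Measurable η →
      (Measurable fun q : W × ℝ × E n => G q.1 q.2.1 q.2.2) → (∀ w, Cl K B (G w)) →
      ∫⁻ ξ, ‖extn (mix ν R η (fun w x => G w (φ x) x)) ξ‖ₑ ^ p ≤ C * ν univ ^ p := by
  obtain ⟨U, _, hKU, hU⟩ := glue hn H φ hK hc
  have hp1 : 1 ≤ p := by
    have hn3 : (3 : ℝ) ≤ n := by exact_mod_cast hn
    refine le_of_lt (lt_of_le_of_lt ?_ hp)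
    rw [le_div_iff₀ (by linarith)]
    linarith
  refine mix_of (V := {x | ∀ᶠ y in nhds x, ContDiffAt ℝ ∞ φ y})
    isOpen_setOfPred_eventually_nhds (fun x hx => (hc x hx).2.1)
    (fun x hx => (hx.self_of_nhds : ContDiffAt ℝ ∞ φ x).continuousAt.continuousWithinAt) hp1 B
    fun B' => ?_
  obtain ⟨C, hC, h⟩ := hU p hp B'
  exact ⟨C, hC, fun G hG => h G (hG.mono hKU)⟩

end Pool.Agent.LF
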