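import Pool.Agent.GNP.P1h

/-!
LEAF row NSP, part 1: non-stationary phase on a cap, by linearisation of the phase.
-/

namespace Pool.Agent.LF

open MeasureTheory Set Metric Pool.Agent.MP_6cbfb8_an
open scoped Real FourierTransform ContDiff

/-- Decay of the Fourier transform of a compactly supported function of finite smoothness. -/
theorem nsp_cln (d K : ℕ) (R : ℝ) : ∃ C : ℝ, 0 ≤ C ∧ ∀ (C0 : ℝ) (G : E d → ℂ), 0 ≤ C0 →
    ContDiff ℝ K G → (∀ u, R < ‖u‖ → G u = 0) →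
    (∀ i ≤ K, ∀ u, ‖u‖ ≤ R → ‖iteratedFDeriv ℝ i G u‖ ≤ C0) → ∀ μ : E d,
      ‖∫ u : E d, Complex.exp (((inner ℝ μ u : ℝ) : ℂ) * Complex.I) * G u‖ ≤
        C * C0 * (1 / (1 + ‖μ‖)) ^ K := by
  obtain ⟨C, hC, hfd⟩ := Pool.Agent.GPH.fourier_decay d K R
  refine ⟨C * (2 * π) ^ K, by positivity, fun C0 G hC0 hG hs hb μ => ?_⟩
  have h1 := hfd G C0 hG hs hb ((-(2 * π)⁻¹) • μ)
  have h2 : 𝓕 G ((-(2 * π)⁻¹) • μ) =
      ∫ u : E d, Complex.exp (((inner ℝ μ u : ℝ) : ℂ) * Complex.I) * G u := by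
    rw [Real.fourier_eq']
    refine integral_congr_ae (Filter.Eventually.of_forall fun u => ?_)
    simp only [smul_eq_mul]
    congr 3
    rw [real_inner_smul_right, real_inner_comm]
    have := Real.pi_ne_zero
    push_cast
    field_simp
  rw [h2] at h1
  have hμ : 1 + ‖μ‖ ≤ 2 * π * (1 + ‖(-(2 * π)⁻¹) • μ‖) := by
    rw [norm_smul, norm_neg, norm_inv, Real.norm_of_nonneg (by positivity), mul_add, mul_one,
      mul_inv_cancel_left₀ (by positivity)]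
    have := Real.pi_gt_three
    linarith
  have h3 : (1 + ‖μ‖) ^ K ≤ (2 * π) ^ K * (1 + ‖(-(2 * π)⁻¹) • μ‖) ^ K := by
    rw [← mul_pow]
    exact pow_le_pow_left₀ (by positivity) hμ K
  have h4 : (0 : ℝ) < (1 + ‖μ‖) ^ K := by positivity
  rw [div_pow, one_pow, mul_one_div, le_div_iff₀ h4]
  calc ‖∫ u : E d, Complex.exp (((inner ℝ μ u : ℝ) : ℂ) * Complex.I) * G u‖ * (1 + ‖μ‖) ^ K
      ≤ ‖∫ u : E d, Complex.exp (((inner ℝ μ u : ℝ) : ℂ) * Complex.I) * G u‖ *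
          ((2 * π) ^ K * (1 + ‖(-(2 * π)⁻¹) • μ‖) ^ K) := by gcongr
    _ = (‖∫ u : E d, Complex.exp (((inner ℝ μ u : ℝ) : ℂ) * Complex.I) * G u‖ *
          (1 + ‖(-(2 * π)⁻¹) • μ‖) ^ K) * (2 * π) ^ K := by ring
    _ ≤ C * C0 * (2 * π) ^ K := by gcongr
    _ = C * (2 * π) ^ K * C0 := by ring

/-- The remainder of the phase in the rescaled variable. -/
noncomputable def nsp_r {m : ℕ} (Φ : E m → ℝ) (z0 : E m) (l : ℝ) (y : E m) : ℝ :=
  Φ (z0 + l • y) - Φ z0 - l * fderiv ℝ Φ z0 y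

theorem nsp_r_cd {m : ℕ} {Φ : E m → ℝ} {n : ℕ∞ω} (hΦ : ContDiff ℝ n Φ) (z0 : E m) (l : ℝ) :
    ContDiff ℝ n (nsp_r Φ z0 l) := by
  unfold nsp_r
  refine ((hΦ.comp (contDiff_const.add (contDiff_id.const_smul l))).sub
    contDiff_const).sub (contDiff_const.mul ?_)
  exact (fderiv ℝ Φ z0).contDiff

theorem nsp_comp {m : ℕ} {F : Type*} [NormedAddCommGroup F] [NormedSpace ℝ F] {Φ : E m → F}
    {j : ℕ} (hΦ : ContDiff ℝ j Φ) (z0 : E m) {l : ℝ} (hl : 0 ≤ l) (y : E m) :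
    ‖iteratedFDeriv ℝ j (fun y => Φ (z0 + l • y)) y‖ ≤
      ‖iteratedFDeriv ℝ j Φ (z0 + l • y)‖ * l ^ j := by
  have h1 : ContDiff ℝ j (fun w => Φ (z0 + w)) := hΦ.comp (contDiff_const.add contDiff_id)
  have h2 : (fun y => Φ (z0 + l • y)) =
      (fun w => Φ (z0 + w)) ∘ (l • ContinuousLinearMap.id ℝ (E m)) := by
    funext y; simp
  rw [h2, ContinuousLinearMap.iteratedFDeriv_comp_right _ h1 y le_rfl]
  refine (ContinuousMultilinearMap.norm_compContinuousLinearMap_le _ _).trans ?_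
  rw [iteratedFDeriv_comp_add_left, Finset.prod_const, Finset.card_univ, Fintype.card_fin]
  simp only [smul_apply, ContinuousLinearMap.id_apply]
  refine mul_le_mul_of_nonneg_left (pow_le_pow_left₀ (norm_nonneg _) ?_ j) (norm_nonneg _)
  rw [norm_smul, Real.norm_of_nonneg hl]
  exact mul_le_of_le_one_right hl ContinuousLinearMap.norm_id_le

theorem nsp_r_bd {m N : ℕ} {Φ : E m → ℝ} (hΦ : ContDiff ℝ ∞ Φ) {z0 : E m} {l ρ M : ℝ}
    (hl : 0 < l) (hl1 : l ≤ 1) (hρ : 1 ≤ ρ) (hM : 1 ≤ M)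
    (hb : ∀ j, 2 ≤ j → j ≤ N + 2 → ∀ z, ‖z - z0‖ ≤ ρ * l →
      ‖iteratedFDeriv ℝ j Φ z‖ ≤ M * (l ^ 2)⁻¹) :
    ∀ j, 1 ≤ j → j ≤ N → ∀ y, ‖y‖ ≤ ρ → ‖iteratedFDeriv ℝ j (nsp_r Φ z0 l) y‖ ≤ ρ * M := by
  intro j hj1 hjN y hy
  have hball : ∀ y : E m, ‖y‖ ≤ ρ → ‖z0 + l • y - z0‖ ≤ ρ * l := by
    intro y hy
    rw [add_sub_cancel_left, norm_smul, Real.norm_of_nonneg hl.le, mul_comm]
    gcongr
  have hcomp : ContDiff ℝ ∞ fun y : E m => Φ (z0 + l • y) :=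
    hΦ.comp (contDiff_const.add (contDiff_id.const_smul l))
  rcases Nat.lt_or_ge j 2 with hj2 | hj2
  · -- first derivative
    have hj : j = 1 := by omega
    subst hj
    have hdiff : Differentiable ℝ Φ := hΦ.differentiable (by simp)
    have hfd : ∀ y, HasFDerivAt (nsp_r Φ z0 l)
        (l • fderiv ℝ Φ (z0 + l • y) - l • fderiv ℝ Φ z0) y := by
      intro y
      have h1 : HasFDerivAt (fun y : E m => z0 + l • y) (l • ContinuousLinearMap.id ℝ (E m)) y :=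
        ((hasFDerivAt_id y).const_smul l).const_add z0
      have h2 := ((hdiff (z0 + l • y)).hasFDerivAt).comp y h1
      have h3 : HasFDerivAt (fun y : E m => l * fderiv ℝ Φ z0 y) (l • fderiv ℝ Φ z0) y :=
        ((fderiv ℝ Φ z0).hasFDerivAt).const_mul l
      have h4 := (h2.sub_const (Φ z0)).sub h3
      refine h4.congr_fderiv ?_
      ext v
      simp
    have h5 : ‖iteratedFDeriv ℝ 1 (nsp_r Φ z0 l) y‖ = ‖fderiv ℝ (nsp_r Φ z0 l) y‖ := by
      rw [← norm_iteratedFDeriv_fderiv, norm_iteratedFDeriv_zero]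
    rw [h5, (hfd y).fderiv, ← smul_sub, norm_smul, Real.norm_of_nonneg hl.le]
    have h6 : ‖fderiv ℝ Φ (z0 + l • y) - fderiv ℝ Φ z0‖ ≤
        M * (l ^ 2)⁻¹ * ‖z0 + l • y - z0‖ := by
      have hconv : Convex ℝ (closedBall z0 (ρ * l)) := convex_closedBall _ _
      refine hconv.norm_image_sub_le_of_norm_fderiv_le (𝕜 := ℝ)
        (fun z _ => (hΦ.fderiv_right (m := 1) (by norm_cast)).differentiable (by simp) z)
        (fun z hz => ?_) (mem_closedBall_self (by positivity)) ?_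
      · have h7 : ‖fderiv ℝ (fderiv ℝ Φ) z‖ = ‖iteratedFDeriv ℝ 2 Φ z‖ := by
          rw [← norm_iteratedFDeriv_fderiv, ← norm_iteratedFDeriv_fderiv, norm_iteratedFDeriv_zero]
        rw [h7]
        exact hb 2 le_rfl (by omega) z (by rwa [mem_closedBall_iff_norm] at hz)
      · rw [mem_closedBall_iff_norm]
        exact hball y hy
    calc l * ‖fderiv ℝ Φ (z0 + l • y) - fderiv ℝ Φ z0‖ ≤
          l * (M * (l ^ 2)⁻¹ * (ρ * l)) := by
          refine mul_le_mul_of_nonneg_left (h6.trans ?_) hl.le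
          exact mul_le_mul_of_nonneg_left (hball y hy) (by positivity)
      _ = ρ * M := by field_simp
  · -- higher derivatives
    have e1 : nsp_r Φ z0 l = fun y => (fun y => Φ (z0 + l • y)) y -
        (fun y => Φ z0 + l * fderiv ℝ Φ z0 y) y := by
      funext y; simp [nsp_r]; ring
    have hlin : ContDiff ℝ ∞ fun y : E m => Φ z0 + l * fderiv ℝ Φ z0 y :=
      contDiff_const.add (contDiff_const.mul (fderiv ℝ Φ z0).contDiff)
    have hj' : ((j : ℕ) : ℕ∞ω) ≤ ∞ := by exact_mod_cast le_top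
    rw [e1, fun_iteratedFDeriv_sub_apply (hcomp.of_le hj').contDiffAt (hlin.of_le hj').contDiffAt]
    have h0 : iteratedFDeriv ℝ j (fun y : E m => Φ z0 + l * fderiv ℝ Φ z0 y) y = 0 := by
      obtain ⟨i, rfl⟩ : ∃ i, j = i + 2 := ⟨j - 2, by omega⟩
      have h8 : ‖iteratedFDeriv ℝ (i + 2) (fun y : E m => Φ z0 + l * fderiv ℝ Φ z0 y) y‖ = 0 := by
        rw [← norm_iteratedFDeriv_fderiv]
        have h9 : fderiv ℝ (fun y : E m => Φ z0 + l * fderiv ℝ Φ z0 y) =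
            fun _ => l • fderiv ℝ Φ z0 := by
          funext y
          exact ((((fderiv ℝ Φ z0).hasFDerivAt).const_mul l).const_add (Φ z0)).fderiv
        rw [h9, iteratedFDeriv_const_of_ne (by omega)]
        simp
      exact norm_eq_zero.1 h8
    rw [h0, sub_zero]
    refine (nsp_comp (hΦ.of_le hj') z0 hl.le y).trans ?_
    calc ‖iteratedFDeriv ℝ j Φ (z0 + l • y)‖ * l ^ j ≤ (M * (l ^ 2)⁻¹) * l ^ 2 := by
          refine mul_le_mul (hb j hj2 (by omega) _ (hball y hy))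
            (pow_le_pow_of_le_one hl.le hl1 hj2) (by positivity) (by positivity)
      _ = 1 * M := by field_simp
      _ ≤ ρ * M := by gcongr

/-- Non-stationary phase at the scale `l`. -/
theorem nsp_core (m N : ℕ) (ρ : ℝ) (hρ : 1 ≤ ρ) : ∃ C : ℝ, 0 ≤ C ∧ ∀ (Bd M l : ℝ) (A : E m → ℂ)
    (Φ : E m → ℝ) (z0 : E m), 0 ≤ Bd → 1 ≤ M → 0 < l → l ≤ 1 → ContDiff ℝ N A →
    ContDiff ℝ ∞ Φ → (∀ z, ρ * l < ‖z - z0‖ → A z = 0) →
    (∀ j ≤ N, ∀ z, ‖iteratedFDeriv ℝ j A z‖ ≤ Bd * (l ^ j)⁻¹) →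
    (∀ j, 2 ≤ j → j ≤ N + 2 → ∀ z, ‖z - z0‖ ≤ ρ * l →
      ‖iteratedFDeriv ℝ j Φ z‖ ≤ M * (l ^ 2)⁻¹) →
    ‖∫ z : E m, A z * Complex.exp ((Φ z : ℂ) * Complex.I)‖ ≤
      C * Bd * M ^ N * l ^ m * (1 / (1 + l * ‖fderiv ℝ Φ z0‖)) ^ N := by
  obtain ⟨C, hC, hcln⟩ := nsp_cln m N ρ
  refine ⟨C * (2 ^ N * (N.factorial * ρ ^ N)), by positivity, ?_⟩
  intro Bd M l A Φ z0 hBd hM hl hl1 hA hΦ hsupp hAb hΦb
  have hρM : 1 ≤ ρ * M := one_le_mul_of_one_le_of_one_le hρ hM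
  set g : E m → ℂ := fun z => A z * Complex.exp ((Φ z : ℂ) * Complex.I) with hg
  have h1 : ∫ z, g z = ((l ^ m : ℝ) : ℂ) * ∫ y, g (z0 + l • y) := by
    have e1 : ∫ y, g (z0 + l • y) = (l ^ m)⁻¹ • ∫ z, g z := by
      rw [Measure.integral_comp_smul volume (fun y => g (z0 + y)) l,
        integral_add_left_eq_self g z0, finrank_euclideanSpace_fin,
        abs_of_pos (by positivity)]
    rw [e1, Complex.real_smul, ← mul_assoc, ← Complex.ofReal_mul,
      mul_inv_cancel₀ (by positivity), Complex.ofReal_one, one_mul]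
  set μ : E m := (InnerProductSpace.toDual ℝ (E m)).symm (l • fderiv ℝ Φ z0) with hμ
  have hμy : ∀ y, inner ℝ μ y = l * fderiv ℝ Φ z0 y := by
    intro y
    rw [hμ, InnerProductSpace.toDual_symm_apply]
    simp
  have hμn : ‖μ‖ = l * ‖fderiv ℝ Φ z0‖ := by
    rw [hμ, LinearIsometryEquiv.norm_map, norm_smul, Real.norm_of_nonneg hl.le]
  set G : E m → ℂ := fun y => A (z0 + l • y) * Pool.Agent.GPH.ee (nsp_r Φ z0 l y) with hG
  have hAc : ContDiff ℝ N fun y : E m => A (z0 + l • y) :=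
    hA.comp (contDiff_const.add (contDiff_id.const_smul l))
  have hrc : ContDiff ℝ N (nsp_r Φ z0 l) :=
    (nsp_r_cd hΦ z0 l).of_le (by exact_mod_cast le_top)
  have hGc : ContDiff ℝ N G := hAc.mul (Pool.Agent.GPH.contDiff_ee.comp hrc)
  have hGs : ∀ y, ρ < ‖y‖ → G y = 0 := by
    intro y hy
    simp only [hG]
    rw [hsupp, zero_mul]
    rw [add_sub_cancel_left, norm_smul, Real.norm_of_nonneg hl.le, mul_comm]
    gcongr
  have hGb : ∀ j ≤ N, ∀ y, ‖y‖ ≤ ρ → ‖iteratedFDeriv ℝ j G y‖ ≤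
      2 ^ N * Bd * (N.factorial * (ρ * M) ^ N) := by
    intro j hj y hy
    refine Pool.Agent.GPH.deriv_amp N (fun y => A (z0 + l • y)) (nsp_r Φ z0 l) hAc hrc y Bd
      (ρ * M) hBd hρM ?_ ?_ j hj
    · intro i hi
      have hi' : ((i : ℕ) : ℕ∞ω) ≤ ((N : ℕ) : ℕ∞ω) := by exact_mod_cast hi
      refine (nsp_comp (hA.of_le hi') z0 hl.le y).trans ?_
      calc ‖iteratedFDeriv ℝ i A (z0 + l • y)‖ * l ^ i ≤ Bd * (l ^ i)⁻¹ * l ^ i :=
            mul_le_mul_of_nonneg_right (hAb i hi _) (by positivity)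
        _ = Bd := by field_simp
    · intro i hi1 hi
      exact nsp_r_bd hΦ hl hl1 hρ hM hΦb i hi1 hi y hy
  have h2 := hcln _ G (by positivity) hGc hGs hGb μ
  have h3 : ∫ y, g (z0 + l • y) = Complex.exp ((Φ z0 : ℂ) * Complex.I) *
      ∫ y : E m, Complex.exp (((inner ℝ μ y : ℝ) : ℂ) * Complex.I) * G y := by
    rw [← integral_const_mul]
    refine integral_congr_ae (Filter.Eventually.of_forall fun y => ?_)
    simp only [hg, hG, Pool.Agent.GPH.ee]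
    have e3 : Complex.exp ((Φ (z0 + l • y) : ℂ) * Complex.I) =
        Complex.exp ((Φ z0 : ℂ) * Complex.I) *
          (Complex.exp (((inner ℝ μ y : ℝ) : ℂ) * Complex.I) *
            Complex.exp ((nsp_r Φ z0 l y : ℂ) * Complex.I)) := by
      rw [← Complex.exp_add, ← Complex.exp_add]
      congr 1
      rw [hμy, nsp_r]
      push_cast
      ring
    rw [e3]
    ring
  rw [h1, h3, norm_mul, norm_mul, Complex.norm_exp_ofReal_mul_I, one_mul, Complex.norm_real,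
    Real.norm_of_nonneg (by positivity), ← hμn]
  calc l ^ m * ‖∫ y : E m, Complex.exp (((inner ℝ μ y : ℝ) : ℂ) * Complex.I) * G y‖ ≤
        l ^ m * (C * (2 ^ N * Bd * (N.factorial * (ρ * M) ^ N)) * (1 / (1 + ‖μ‖)) ^ N) := by
        gcongr
    _ = _ := by
        rw [mul_pow]
        ring

end Pool.Agent.LF
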