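import Pool.Agent.MP_6cbfb8_an.Defs

/-!
Fubini half of the orthogonality of caps: quadruple integrals of exponential integrals over
arbitrary measure spaces.
-/

namespace Pool.Agent.LF

open MeasureTheory Set Pool.Agent.MP_6cbfb8_an
open scoped ENNReal Real RealInnerProductSpace ContDiff SchwartzMap FourierTransform ComplexConjugate

/-- The exponential integral of `b` over the surface `X`, frequency constant `c`. -/
noncomputable def lfT {n : ℕ} {P : Type*} [MeasurableSpace P] (c : ℝ) (μ : Measure P)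
    (X : P → E n) (b : P → ℂ) (ξ : E n) : ℂ :=
  ∫ p, b p * Complex.exp (((-(c * ⟪X p, ξ⟫) : ℝ) : ℂ) * Complex.I) ∂μ

theorem lff_conj_exp (t : ℝ) : conj (Complex.exp ((t : ℂ) * Complex.I)) =
    Complex.exp (((-t : ℝ) : ℂ) * Complex.I) := by
  rw [← Complex.exp_conj]
  congr 1
  simp [Complex.conj_ofReal]

theorem lff_norm_le {n : ℕ} {P : Type*} [MeasurableSpace P] (c : ℝ) (μ : Measure P)
    (X : P → E n) (b : P → ℂ) (ξ : E n) : ‖lfT c μ X b ξ‖ ≤ ∫ p, ‖b p‖ ∂μ := by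
  unfold lfT
  refine (norm_integral_le_integral_norm _).trans (le_of_eq ?_)
  refine integral_congr_ae (Filter.Eventually.of_forall fun p => ?_)
  simp only
  rw [norm_mul, Complex.norm_exp_ofReal_mul_I, mul_one]

theorem lff_meas_exp {n : ℕ} {P : Type*} [MeasurableSpace P] (c : ℝ)
    (X : P → E n) (hX : Measurable X) :
    Measurable fun q : E n × P =>
      Complex.exp (((-(c * ⟪X q.2, q.1⟫) : ℝ) : ℂ) * Complex.I) := by
  have h1 : Measurable fun q : E n × P => (X q.2, q.1) :=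
    (hX.comp measurable_snd).prodMk measurable_fst
  have h2 : Continuous fun v : E n × E n =>
      Complex.exp (((-(c * ⟪v.1, v.2⟫) : ℝ) : ℂ) * Complex.I) := by fun_prop
  have h3 := h2.measurable.comp h1
  simpa only [Function.comp_def] using h3

theorem lff_continuous {n : ℕ} {P : Type*} [MeasurableSpace P] (c : ℝ) (μ : Measure P)
    (X : P → E n) (hX : Measurable X) (b : P → ℂ) (hb : Integrable b μ) :
    Continuous (lfT c μ X b) := by
  unfold lfT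
  refine continuous_of_dominated (bound := fun p => ‖b p‖) ?_ ?_ hb.norm ?_
  · intro ξ
    refine hb.1.mul (Measurable.aestronglyMeasurable ?_)
    have h3 := (lff_meas_exp c X hX).comp (measurable_prodMk_left (x := ξ))
    simpa only [Function.comp_def] using h3
  · intro ξ
    refine Filter.Eventually.of_forall fun p => ?_
    rw [norm_mul, Complex.norm_exp_ofReal_mul_I, mul_one]
  · refine Filter.Eventually.of_forall fun p => ?_
    fun_prop

/-- The product of four exponential integrals is one exponential integral. -/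
theorem lff_prod {n : ℕ} {P : Type*} [MeasurableSpace P] (c : ℝ) (μ : Measure P) [SFinite μ]
    (X : P → E n) (b1 b2 b3 b4 : P → ℂ) (ξ : E n) :
    lfT c μ X b1 ξ * lfT c μ X b2 ξ * (conj (lfT c μ X b3 ξ) * conj (lfT c μ X b4 ξ)) =
      lfT c ((μ.prod μ).prod (μ.prod μ)) (fun p => X p.1.1 + X p.1.2 - (X p.2.1 + X p.2.2))
        (fun p => b1 p.1.1 * b2 p.1.2 * (conj (b3 p.2.1) * conj (b4 p.2.2))) ξ := by
  unfold lfT
  rw [← integral_conj, ← integral_conj, ← integral_prod_mul, ← integral_prod_mul,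
    ← integral_prod_mul]
  refine integral_congr_ae (Filter.Eventually.of_forall fun p => ?_)
  simp only [map_mul]
  rw [lff_conj_exp, lff_conj_exp]
  have h : Complex.exp (((-(c * ⟪X p.1.1 + X p.1.2 - (X p.2.1 + X p.2.2), ξ⟫) : ℝ) : ℂ) *
      Complex.I) = Complex.exp (((-(c * ⟪X p.1.1, ξ⟫) : ℝ) : ℂ) * Complex.I) *
      Complex.exp (((-(c * ⟪X p.1.2, ξ⟫) : ℝ) : ℂ) * Complex.I) *
      (Complex.exp (((-(-(c * ⟪X p.2.1, ξ⟫)) : ℝ) : ℂ) * Complex.I) *
      Complex.exp (((-(-(c * ⟪X p.2.2, ξ⟫)) : ℝ) : ℂ) * Complex.I)) := by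
    rw [← Complex.exp_add, ← Complex.exp_add, ← Complex.exp_add]
    congr 1
    rw [inner_sub_left, inner_add_left, inner_add_left]
    push_cast
    ring
  rw [h]
  ring

/-- Fubini. -/
theorem lff_fubini {n : ℕ} {P : Type*} [MeasurableSpace P] (c : ℝ) (μ : Measure P) [SFinite μ]
    (X : P → E n) (hX : Measurable X) (b : P → ℂ) (hb : Integrable b μ)
    (η : E n → ℂ) (hη : Integrable η) :
    ∫ ξ, η ξ * lfT c μ X b ξ =
      ∫ p, b p * (∫ ξ, η ξ * Complex.exp (((-(c * ⟪X p, ξ⟫) : ℝ) : ℂ) * Complex.I)) ∂μ := by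
  unfold lfT
  have h1 : Integrable (Function.uncurry fun (ξ : E n) (p : P) =>
      η ξ * (b p * Complex.exp (((-(c * ⟪X p, ξ⟫) : ℝ) : ℂ) * Complex.I)))
      ((volume : Measure (E n)).prod μ) := by
    have h2 : Integrable (fun q : E n × P => η q.1 * b q.2) ((volume : Measure (E n)).prod μ) :=
      hη.mul_prod hb
    refine h2.norm.mono' ?_ (Filter.Eventually.of_forall fun q => ?_)
    · have h3 := h2.1.mul (lff_meas_exp c X hX).aestronglyMeasurable
      refine h3.congr (Filter.Eventually.of_forall fun q => ?_)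
      simp only [Function.uncurry, Pi.mul_apply]
      ring
    · simp only [Function.uncurry]
      rw [norm_mul, norm_mul, Complex.norm_exp_ofReal_mul_I, mul_one, norm_mul]
  have h4 := integral_integral_swap h1
  calc ∫ ξ, η ξ * ∫ p, b p * Complex.exp (((-(c * ⟪X p, ξ⟫) : ℝ) : ℂ) * Complex.I) ∂μ
      = ∫ ξ, ∫ p, η ξ * (b p * Complex.exp (((-(c * ⟪X p, ξ⟫) : ℝ) : ℂ) * Complex.I)) ∂μ := by
        refine integral_congr_ae (Filter.Eventually.of_forall fun ξ => ?_)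
        simp only
        rw [integral_const_mul]
    _ = ∫ p, (∫ ξ, η ξ * (b p * Complex.exp (((-(c * ⟪X p, ξ⟫) : ℝ) : ℂ) * Complex.I))) ∂μ := h4
    _ = _ := by
        refine integral_congr_ae (Filter.Eventually.of_forall fun p => ?_)
        simp only
        rw [← integral_const_mul]
        refine integral_congr_ae (Filter.Eventually.of_forall fun ξ => ?_)
        simp only
        ring

/-- The integral against `η` is small when the Fourier transform of `η` is small on `X`. -/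
theorem lff_small {n : ℕ} {P : Type*} [MeasurableSpace P] (c : ℝ) (μ : Measure P) [SFinite μ]
    (X : P → E n) (hX : Measurable X) (b : P → ℂ) (hb : Integrable b μ)
    (η : E n → ℂ) (hη : Integrable η) (δ : ℝ)
    (h : ∀ p, b p ≠ 0 →
      ‖∫ ξ, η ξ * Complex.exp (((-(c * ⟪X p, ξ⟫) : ℝ) : ℂ) * Complex.I)‖ ≤ δ) :
    ‖∫ ξ, η ξ * lfT c μ X b ξ‖ ≤ (∫ p, ‖b p‖ ∂μ) * δ := by
  rw [lff_fubini c μ X hX b hb η hη]
  refine (norm_integral_le_integral_norm _).trans ?_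
  rw [← integral_mul_const]
  refine integral_mono_of_nonneg (Filter.Eventually.of_forall fun p => norm_nonneg _)
    (hb.norm.mul_const _) (Filter.Eventually.of_forall fun p => ?_)
  simp only
  rw [norm_mul]
  by_cases hp : b p = 0
  · rw [hp, norm_zero, zero_mul, zero_mul]
  · exact mul_le_mul_of_nonneg_left (h p hp) (norm_nonneg _)

theorem lff_conj {P : Type*} [MeasurableSpace P] {μ : Measure P} {b : P → ℂ}
    (hb : Integrable b μ) : Integrable (fun p => conj (b p)) μ := by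
  refine hb.norm.mono' (Complex.continuous_conj.comp_aestronglyMeasurable hb.1)
    (Filter.Eventually.of_forall fun p => ?_)
  rw [RCLike.norm_conj]

/-- Decay of the Fourier transform of `η (ξ / R)`. -/
theorem lff_decay {n : ℕ} (η : 𝓢(E n, ℂ)) (N : ℕ) (c : ℝ) (hc : 0 < c) :
    ∃ C : ℝ, 0 < C ∧ ∀ R : ℝ, 0 < R → ∀ e : E n,
      ‖∫ ξ, η (R⁻¹ • ξ) * Complex.exp (((-(c * ⟪e, ξ⟫) : ℝ) : ℂ) * Complex.I)‖ ≤
        C * R ^ n * ((1 + R * ‖e‖) ^ N)⁻¹ := by
  set F : 𝓢(E n, ℂ) := 𝓕 η with hF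
  set C0 : ℝ := 2 ^ N * (Finset.Iic ((N : ℕ), (0 : ℕ))).sup
    (fun m => SchwartzMap.seminorm ℝ m.1 m.2) F + 1 with hC0
  have hC0p : 0 < C0 := by positivity
  have hdec : ∀ x, (1 + ‖x‖) ^ N * ‖F x‖ ≤ C0 := by
    intro x
    have h := SchwartzMap.one_add_le_sup_seminorm_apply (𝕜 := ℝ) (m := ((N : ℕ), (0 : ℕ)))
      (k := N) (n := 0) le_rfl le_rfl F x
    rw [norm_iteratedFDeriv_zero] at h
    simp only at h
    linarith
  set c0 : ℝ := min 1 (c / (2 * π)) with hc0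
  have hc0p : 0 < c0 := by
    rw [hc0]
    exact lt_min one_pos (by positivity)
  refine ⟨C0 / c0 ^ N, by positivity, fun R hR e => ?_⟩
  have h1 : ∫ ξ, η (R⁻¹ • ξ) * Complex.exp (((-(c * ⟪e, ξ⟫) : ℝ) : ℂ) * Complex.I) =
      ((R ^ n : ℝ) : ℂ) * F ((c * R / (2 * π)) • e) := by
    have h2 := Measure.integral_comp_smul (volume : Measure (E n))
      (fun ζ => η ζ * Complex.exp (((-(c * R * ⟪e, ζ⟫) : ℝ) : ℂ) * Complex.I)) R⁻¹
    have h3 : ∀ ξ : E n, η (R⁻¹ • ξ) *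
        Complex.exp (((-(c * R * ⟪e, R⁻¹ • ξ⟫) : ℝ) : ℂ) * Complex.I) =
        η (R⁻¹ • ξ) * Complex.exp (((-(c * ⟪e, ξ⟫) : ℝ) : ℂ) * Complex.I) := by
      intro ξ
      rw [inner_smul_right]
      congr 4
      field_simp
    simp only [h3] at h2
    rw [h2, finrank_euclideanSpace_fin, hF, SchwartzMap.fourier_coe, Real.fourier_eq']
    rw [inv_pow, inv_inv, abs_of_pos (by positivity), Complex.real_smul]
    congr 1
    refine integral_congr_ae (Filter.Eventually.of_forall fun ζ => ?_)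
    simp only [smul_eq_mul]
    rw [mul_comm]
    congr 3
    rw [inner_smul_right, real_inner_comm]
    field_simp
  rw [h1, norm_mul, Complex.norm_real, Real.norm_of_nonneg (by positivity)]
  have h4 := hdec ((c * R / (2 * π)) • e)
  have h5 : c0 * (1 + R * ‖e‖) ≤ 1 + ‖(c * R / (2 * π)) • e‖ := by
    rw [norm_smul, Real.norm_of_nonneg (by positivity)]
    have h6 : c0 ≤ 1 := min_le_left _ _
    have h7 : c0 ≤ c / (2 * π) := min_le_right _ _
    have h8 : 0 ≤ R * ‖e‖ := by positivity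
    calc c0 * (1 + R * ‖e‖) = c0 + c0 * (R * ‖e‖) := by ring
      _ ≤ 1 + c / (2 * π) * (R * ‖e‖) := by gcongr
      _ = 1 + c * R / (2 * π) * ‖e‖ := by ring
  have h9 : (c0 * (1 + R * ‖e‖)) ^ N * ‖F ((c * R / (2 * π)) • e)‖ ≤ C0 := by
    refine le_trans ?_ h4
    gcongr
  rw [mul_pow] at h9
  have h10 : 0 < (1 + R * ‖e‖) ^ N := by positivity
  rw [← div_eq_mul_inv, le_div_iff₀ h10]
  calc R ^ n * ‖F ((c * R / (2 * π)) • e)‖ * (1 + R * ‖e‖) ^ N
      = (c0 ^ N * (1 + R * ‖e‖) ^ N * ‖F ((c * R / (2 * π)) • e)‖) / c0 ^ N * R ^ n := by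
        field_simp
    _ ≤ C0 / c0 ^ N * R ^ n := by gcongr

/-- **Fubini half of the orthogonality.** -/
theorem lff_quad {n : ℕ} (η : 𝓢(E n, ℂ)) (N : ℕ) (c : ℝ) (hc : 0 < c) :
    ∃ C : ℝ, 0 < C ∧ ∀ (R : ℝ), 0 < R → ∀ (P : Type) [MeasurableSpace P] (μ : Measure P)
      [SFinite μ] (X : P → E n), Measurable X → ∀ b1 b2 b3 b4 : P → ℂ, Integrable b1 μ →
      Integrable b2 μ → Integrable b3 μ → Integrable b4 μ → ∀ δ : ℝ, 0 ≤ δ →
      (∀ p1 p2 p3 p4, b1 p1 ≠ 0 → b2 p2 ≠ 0 → b3 p3 ≠ 0 → b4 p4 ≠ 0 →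
        δ ≤ R * ‖X p1 + X p2 - (X p3 + X p4)‖) →
      ‖∫ ξ, η (R⁻¹ • ξ) * (lfT c μ X b1 ξ * lfT c μ X b2 ξ *
          (conj (lfT c μ X b3 ξ) * conj (lfT c μ X b4 ξ)))‖ ≤
        ((∫ p, ‖b1 p‖ ∂μ) * (∫ p, ‖b2 p‖ ∂μ) * ((∫ p, ‖b3 p‖ ∂μ) * (∫ p, ‖b4 p‖ ∂μ))) *
          (C * R ^ n * ((1 + δ) ^ N)⁻¹) := by
  obtain ⟨C, hC, hdec⟩ := lff_decay η N c hc
  refine ⟨C, hC, ?_⟩
  intro R hR P _ μ _ X hX b1 b2 b3 b4 hb1 hb2 hb3 hb4 δ hδ hsep
  have hb3' : Integrable (fun p => conj (b3 p)) μ := lff_conj hb3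
  have hb4' : Integrable (fun p => conj (b4 p)) μ := lff_conj hb4
  have h12 : Integrable (fun p : P × P => b1 p.1 * b2 p.2) (μ.prod μ) := hb1.mul_prod hb2
  have h34 : Integrable (fun p : P × P => conj (b3 p.1) * conj (b4 p.2)) (μ.prod μ) :=
    hb3'.mul_prod hb4'
  have hB : Integrable (fun p : (P × P) × (P × P) =>
      b1 p.1.1 * b2 p.1.2 * (conj (b3 p.2.1) * conj (b4 p.2.2)))
      ((μ.prod μ).prod (μ.prod μ)) := h12.mul_prod h34
  have hXm : Measurable fun p : (P × P) × (P × P) => X p.1.1 + X p.1.2 - (X p.2.1 + X p.2.2) := by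
    fun_prop
  have hηi : Integrable fun ξ : E n => η (R⁻¹ • ξ) := by
    exact (integrable_comp_smul_iff (volume : Measure (E n)) (⇑η) (inv_ne_zero hR.ne')).2
      η.integrable
  simp only [lff_prod]
  refine (lff_small c _ _ hXm _ hB _ hηi (C * R ^ n * ((1 + δ) ^ N)⁻¹) ?_).trans
    (le_of_eq ?_)
  · intro p hp
    refine (hdec R hR _).trans ?_
    have h1 : b1 p.1.1 ≠ 0 := fun h0 => hp (by simp [h0])
    have h2 : b2 p.1.2 ≠ 0 := fun h0 => hp (by simp [h0])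
    have h3 : b3 p.2.1 ≠ 0 := fun h0 => hp (by simp [h0])
    have h4 : b4 p.2.2 ≠ 0 := fun h0 => hp (by simp [h0])
    have h5 := hsep _ _ _ _ h1 h2 h3 h4
    gcongr
  · congr 1
    rw [← integral_prod_mul, ← integral_prod_mul, ← integral_prod_mul]
    refine integral_congr_ae (Filter.Eventually.of_forall fun p => ?_)
    simp only [norm_mul, RCLike.norm_conj]


/-- The measure with density `η (ξ / R)`. -/
noncomputable def lfmu {n : ℕ} (η : E n → ℝ) (R : ℝ) : Measure (E n) :=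
  volume.withDensity fun ξ => ENNReal.ofReal (η (R⁻¹ • ξ))

theorem lff_integral {n : ℕ} (η : E n → ℝ) (hη : Continuous η) (h0 : ∀ x, 0 ≤ η x) (R : ℝ)
    (g : E n → ℂ) : ∫ ξ, g ξ ∂(lfmu η R) = ∫ ξ, ((η (R⁻¹ • ξ) : ℝ) : ℂ) * g ξ := by
  unfold lfmu
  rw [integral_withDensity_eq_integral_toReal_smul (by fun_prop)
    (Filter.Eventually.of_forall fun ξ => ENNReal.ofReal_lt_top)]
  refine integral_congr_ae (Filter.Eventually.of_forall fun ξ => ?_)
  simp only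
  rw [ENNReal.toReal_ofReal (h0 _), Complex.real_smul]

theorem lff_finite {n : ℕ} (η : E n → ℝ) (hη : Continuous η) (hc : HasCompactSupport η) (R : ℝ)
    (hR : 0 < R) : IsFiniteMeasure (lfmu η R) := by
  have h1 : Integrable fun ξ : E n => η (R⁻¹ • ξ) :=
    (integrable_comp_smul_iff (volume : Measure (E n)) η (inv_ne_zero hR.ne')).2
      (hη.integrable_of_hasCompactSupport hc)
  unfold lfmu
  exact isFiniteMeasure_withDensity_ofReal h1.2

/-- The mass of the measure is `C R ^ n`. -/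
theorem lff_mass {n : ℕ} (η : E n → ℝ) (hη : Continuous η) (hc : HasCompactSupport η)
    (h0 : ∀ x, 0 ≤ η x) (R : ℝ) (hR : 0 < R) :
    lfmu η R univ = ENNReal.ofReal (R ^ n * ∫ ξ, η ξ) := by
  have h1 : Integrable fun ξ : E n => η (R⁻¹ • ξ) :=
    (integrable_comp_smul_iff (volume : Measure (E n)) η (inv_ne_zero hR.ne')).2
      (hη.integrable_of_hasCompactSupport hc)
  unfold lfmu
  rw [withDensity_apply _ MeasurableSet.univ, Measure.restrict_univ,
    ← ofReal_integral_eq_lintegral_ofReal h1 (Filter.Eventually.of_forall fun ξ => h0 _)]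
  congr 1
  have h2 := Measure.integral_comp_smul (volume : Measure (E n)) η R⁻¹
  rw [h2, finrank_euclideanSpace_fin, inv_pow, inv_inv, abs_of_pos (by positivity), smul_eq_mul]

/-- **Row ORTH-F, (A).** The interaction of four caps is negligible unless `X p1 + X p2` is close
to `X p3 + X p4` for some points of the caps. -/
theorem orthF {n : ℕ} (η : E n → ℝ) (hη : ContDiff ℝ ∞ η) (hη1 : HasCompactSupport η)
    (h0 : ∀ x, 0 ≤ η x) (N : ℕ) (c : ℝ) (hc : 0 < c) :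
    ∃ C : ℝ, 0 < C ∧ ∀ (R : ℝ), 0 < R → ∀ (P : Type) [MeasurableSpace P] (μ : Measure P)
      [SFinite μ] (X : P → E n), Measurable X → ∀ b1 b2 b3 b4 : P → ℂ, Integrable b1 μ →
      Integrable b2 μ → Integrable b3 μ → Integrable b4 μ → ∀ δ : ℝ, 0 ≤ δ →
      (∀ p1 p2 p3 p4, b1 p1 ≠ 0 → b2 p2 ≠ 0 → b3 p3 ≠ 0 → b4 p4 ≠ 0 →
        δ ≤ R * ‖X p1 + X p2 - X p3 - X p4‖) →
      ‖∫ ξ, lfT c μ X b1 ξ * lfT c μ X b2 ξ * conj (lfT c μ X b3 ξ) * conj (lfT c μ X b4 ξ)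
          ∂(lfmu η R)‖ ≤
        ((∫ p, ‖b1 p‖ ∂μ) * (∫ p, ‖b2 p‖ ∂μ) * ((∫ p, ‖b3 p‖ ∂μ) * (∫ p, ‖b4 p‖ ∂μ))) *
          (C * R ^ n * ((1 + δ) ^ N)⁻¹) := by
  set ηs : 𝓢(E n, ℂ) := HasCompactSupport.toSchwartzMap (f := fun x : E n => ((η x : ℝ) : ℂ))
    (hη1.comp_left (g := fun t : ℝ => (t : ℂ)) Complex.ofReal_zero)
    (Complex.ofRealCLM.contDiff.comp hη) with hηs
  obtain ⟨C, hC, h⟩ := lff_quad ηs N c hc
  refine ⟨C, hC, ?_⟩
  intro R hR P _ μ _ X hX b1 b2 b3 b4 hb1 hb2 hb3 hb4 δ hδ hsep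
  have h1 := h R hR P μ X hX b1 b2 b3 b4 hb1 hb2 hb3 hb4 δ hδ
    (fun p1 p2 p3 p4 a1 a2 a3 a4 => by
      have := hsep p1 p2 p3 p4 a1 a2 a3 a4
      rwa [sub_sub] at this)
  rw [lff_integral η hη.continuous h0]
  refine le_trans (le_of_eq ?_) h1
  congr 1
  refine integral_congr_ae (Filter.Eventually.of_forall fun ξ => ?_)
  simp only
  rw [mul_assoc (lfT c μ X b1 ξ * lfT c μ X b2 ξ)]
  rfl

/-- **Row ORTH-F, (B).** The interaction of four functions is negligible if at every point of the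
support of the cut-off one of them is small. -/
theorem orthF_pt {n : ℕ} (η : E n → ℝ) (hη : Continuous η) (hη1 : HasCompactSupport η)
    (h0 : ∀ x, 0 ≤ η x) (R : ℝ) (hR : 0 < R) (f1 f2 f3 f4 : E n → ℂ) (M ε : ℝ) (hM : 0 ≤ M)
    (h1 : ∀ ξ, ‖f1 ξ‖ ≤ M) (h2 : ∀ ξ, ‖f2 ξ‖ ≤ M) (h3 : ∀ ξ, ‖f3 ξ‖ ≤ M) (h4 : ∀ ξ, ‖f4 ξ‖ ≤ M)
    (h : ∀ ξ, η (R⁻¹ • ξ) ≠ 0 → ‖f1 ξ‖ ≤ ε ∨ ‖f2 ξ‖ ≤ ε ∨ ‖f3 ξ‖ ≤ ε ∨ ‖f4 ξ‖ ≤ ε) :
    ‖∫ ξ, f1 ξ * f2 ξ * conj (f3 ξ) * conj (f4 ξ) ∂(lfmu η R)‖ ≤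
      M ^ 3 * ε * (R ^ n * ∫ ξ, η ξ) := by
  rw [lff_integral η hη h0]
  refine (norm_integral_le_integral_norm _).trans ?_
  have hi : Integrable fun ξ : E n => η (R⁻¹ • ξ) :=
    (integrable_comp_smul_iff (volume : Measure (E n)) η (inv_ne_zero hR.ne')).2
      (hη.integrable_of_hasCompactSupport hη1)
  have h5 := Measure.integral_comp_smul (volume : Measure (E n)) η R⁻¹
  rw [finrank_euclideanSpace_fin, inv_pow, inv_inv, abs_of_pos (by positivity), smul_eq_mul] at h5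
  rw [← h5, ← integral_const_mul]
  refine integral_mono_of_nonneg (Filter.Eventually.of_forall fun ξ => norm_nonneg _)
    (hi.const_mul _) (Filter.Eventually.of_forall fun ξ => ?_)
  simp only [norm_mul, RCLike.norm_conj, Complex.norm_real, Real.norm_of_nonneg (h0 _)]
  rw [mul_comm]
  by_cases hz : η (R⁻¹ • ξ) = 0
  · rw [hz]; simp
  refine mul_le_mul_of_nonneg_right ?_ (h0 _)
  have e1 := h1 ξ
  have e2 := h2 ξ
  have e3 := h3 ξ
  have e4 := h4 ξ
  rcases h ξ hz with h | h | h | h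
  · have hε := (norm_nonneg _).trans h
    calc ‖f1 ξ‖ * ‖f2 ξ‖ * ‖f3 ξ‖ * ‖f4 ξ‖ ≤ ε * M * M * M := by gcongr
      _ = _ := by ring
  · have hε := (norm_nonneg _).trans h
    calc ‖f1 ξ‖ * ‖f2 ξ‖ * ‖f3 ξ‖ * ‖f4 ξ‖ ≤ M * ε * M * M := by gcongr
      _ = _ := by ring
  · have hε := (norm_nonneg _).trans h
    calc ‖f1 ξ‖ * ‖f2 ξ‖ * ‖f3 ξ‖ * ‖f4 ξ‖ ≤ M * M * ε * M := by gcongr
      _ = _ := by ring
  · have hε := (norm_nonneg _).trans h
    calc ‖f1 ξ‖ * ‖f2 ξ‖ * ‖f3 ξ‖ * ‖f4 ξ‖ ≤ M * M * M * ε := by gcongr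
      _ = _ := by ring

end Pool.Agent.LF
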