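import Mathlib

/-!
Leaves: the geometric half of the orthogonality. Four caps which interact come in two near pairs, so
the fourth moment of the sum is bounded by the fourth moment of the square function.
-/

set_option autoImplicit false

namespace Pool.Agent.LF

open MeasureTheory Set Finset
open scoped ENNReal Real RealInnerProductSpace ComplexConjugate

/-- Four points of a sphere with `x₁ + x₂ - x₃ - x₄` small are nearly the corners of a rectangle. -/
theorem lf_rect {E : Type*} [NormedAddCommGroup E] [InnerProductSpace ℝ E] {x1 x2 x3 x4 : E}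
    (h1 : ‖x1‖ = 1) (h2 : ‖x2‖ = 1) (h3 : ‖x3‖ = 1) (h4 : ‖x4‖ = 1) :
    ⟪x1 - x3, x1 - x4⟫ = -⟪x2, x1 + x2 - x3 - x4⟫ + ‖x1 + x2 - x3 - x4‖ ^ 2 / 2 := by
  have e1 : ⟪x1, x1⟫ = 1 := by rw [real_inner_self_eq_norm_sq, h1]; norm_num
  have e2 : ⟪x2, x2⟫ = 1 := by rw [real_inner_self_eq_norm_sq, h2]; norm_num
  have e3 : ⟪x3, x3⟫ = 1 := by rw [real_inner_self_eq_norm_sq, h3]; norm_num
  have e4 : ⟪x4, x4⟫ = 1 := by rw [real_inner_self_eq_norm_sq, h4]; norm_num
  rw [← real_inner_self_eq_norm_sq]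
  simp only [inner_sub_left, inner_sub_right, inner_add_left, inner_add_right, e1, e2, e3, e4]
  rw [real_inner_comm x1 x2, real_inner_comm x1 x3, real_inner_comm x1 x4, real_inner_comm x2 x3,
    real_inner_comm x2 x4, real_inner_comm x3 x4]
  ring

theorem lf_rect_abs {E : Type*} [NormedAddCommGroup E] [InnerProductSpace ℝ E] {x1 x2 x3 x4 : E}
    {e : ℝ} (h1 : ‖x1‖ = 1) (h2 : ‖x2‖ = 1) (h3 : ‖x3‖ = 1) (h4 : ‖x4‖ = 1) (he1 : e ≤ 1)
    (he : ‖x1 + x2 - x3 - x4‖ ≤ e) : |⟪x1 - x3, x1 - x4⟫| ≤ 2 * e := by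
  rw [lf_rect h1 h2 h3 h4]
  have h5 : |⟪x2, x1 + x2 - x3 - x4⟫| ≤ e := by
    refine (abs_real_inner_le_norm _ _).trans ?_
    rw [h2, one_mul]
    exact he
  have h6 : ‖x1 + x2 - x3 - x4‖ ^ 2 ≤ e := by
    have := norm_nonneg (x1 + x2 - x3 - x4)
    nlinarith
  have h7 := sq_nonneg ‖x1 + x2 - x3 - x4‖
  rw [abs_le] at h5 ⊢
  constructor <;> linarith [h5.1, h5.2]

/-- The four points come in two near pairs. -/
theorem lf_pairs {P E : Type*} [NormedAddCommGroup P] [NormedAddCommGroup E]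
    [InnerProductSpace ℝ E] {X : P → E} {B G : Set P} {L L' c D e : ℝ} (hL : 0 ≤ L) (hL' : 0 ≤ L')
    (hX1 : ∀ p ∈ B, ‖X p‖ = 1)
    (hLo : ∀ p ∈ B, ∀ p' ∈ B, ‖p - p'‖ ≤ L * ‖X p - X p'‖)
    (hUp : ∀ p ∈ B, ∀ p' ∈ B, ‖X p - X p'‖ ≤ L' * ‖p - p'‖)
    (hc : 0 < c) (hD : 0 ≤ D) (he1 : e ≤ 1)
    (hrect : ∀ p ∈ G, ∀ p' ∈ G, ∀ p'' ∈ G, D < ‖p - p'‖ → D < ‖p - p''‖ →
      c * (‖p - p'‖ * ‖p - p''‖) ≤ |⟪X p - X p', X p - X p''⟫|)
    (hce : 2 * e ≤ c * D ^ 2)
    {p1 p2 p3 p4 : P} (h1 : p1 ∈ B) (h2 : p2 ∈ B) (h3 : p3 ∈ B) (h4 : p4 ∈ B)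
    (g1 : p1 ∈ G) (g3 : p3 ∈ G) (g4 : p4 ∈ G)
    (he : ‖X p1 + X p2 - X p3 - X p4‖ ≤ e) :
    (‖p1 - p3‖ ≤ D ∧ ‖p2 - p4‖ ≤ L * (L' * D + e)) ∨
      (‖p1 - p4‖ ≤ D ∧ ‖p2 - p3‖ ≤ L * (L' * D + e)) := by
  by_cases h13 : ‖p1 - p3‖ ≤ D
  · left
    refine ⟨h13, (hLo _ h2 _ h4).trans (mul_le_mul_of_nonneg_left ?_ hL)⟩
    have e1 : X p2 - X p4 = (X p1 + X p2 - X p3 - X p4) - (X p1 - X p3) := by abel
    rw [e1]
    refine (norm_sub_le _ _).trans ?_
    have := (hUp _ h1 _ h3).trans (mul_le_mul_of_nonneg_left h13 hL')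
    linarith
  by_cases h14 : ‖p1 - p4‖ ≤ D
  · right
    refine ⟨h14, (hLo _ h2 _ h3).trans (mul_le_mul_of_nonneg_left ?_ hL)⟩
    have e1 : X p2 - X p3 = (X p1 + X p2 - X p3 - X p4) - (X p1 - X p4) := by abel
    rw [e1]
    refine (norm_sub_le _ _).trans ?_
    have := (hUp _ h1 _ h4).trans (mul_le_mul_of_nonneg_left h14 hL')
    linarith
  exfalso
  push Not at h13 h14
  have h5 := hrect p1 g1 p3 g3 p4 g4 h13 h14
  have h6 := lf_rect_abs (hX1 _ h1) (hX1 _ h2) (hX1 _ h3) (hX1 _ h4) he1 he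
  have h7 : D ^ 2 < ‖p1 - p3‖ * ‖p1 - p4‖ := by nlinarith
  nlinarith

/-- The sum over the near pairs. -/
theorem lf_near {κ : Type*} [Fintype κ] (near : κ → κ → Prop) [DecidableRel near]
    (hsym : ∀ c c', near c c' → near c' c) {M : ℝ}
    (hM : ∀ c, ((univ.filter fun c' => near c c').card : ℝ) ≤ M) (a : κ → ℝ) :
    ∑ c, ∑ c', (if near c c' then a c * a c' else 0) ≤ M * ∑ c, a c ^ 2 := by
  have h1 : ∀ c c', (if near c c' then a c * a c' else 0) ≤
      (if near c c' then a c ^ 2 / 2 else 0) + (if near c' c then a c' ^ 2 / 2 else 0) := by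
    intro c c'
    by_cases h : near c c'
    · rw [if_pos h, if_pos h, if_pos (hsym _ _ h)]
      nlinarith [sq_nonneg (a c - a c')]
    · rw [if_neg h, if_neg h, if_neg (fun h' => h (hsym _ _ h'))]
      simp
  have h2 : ∑ c, ∑ c', (if near c c' then a c ^ 2 / 2 else 0) ≤ M / 2 * ∑ c, a c ^ 2 := by
    rw [mul_sum]
    refine sum_le_sum fun c _ => ?_
    rw [← sum_filter, sum_const, nsmul_eq_mul]
    have h3 := mul_le_mul_of_nonneg_right (hM c) (by positivity : 0 ≤ a c ^ 2 / 2)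
    linarith
  have h3 : ∑ c, ∑ c', (if near c' c then a c' ^ 2 / 2 else 0) ≤ M / 2 * ∑ c, a c ^ 2 := by
    rw [sum_comm]
    exact h2
  calc ∑ c, ∑ c', (if near c c' then a c * a c' else 0)
      ≤ ∑ c, ∑ c', ((if near c c' then a c ^ 2 / 2 else 0) +
          (if near c' c then a c' ^ 2 / 2 else 0)) :=
        sum_le_sum fun c _ => sum_le_sum fun c' _ => h1 c c'
    _ = ∑ c, ∑ c', (if near c c' then a c ^ 2 / 2 else 0) +
          ∑ c, ∑ c', (if near c' c then a c' ^ 2 / 2 else 0) := by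
        simp only [sum_add_distrib]
    _ ≤ _ := by linarith

/-- **(ORTH-G), abstract form.** If the integral of `f c₁ f c₂ conj (f c₃) conj (f c₄)` is at most
`ε` unless the four indices come in two near pairs, the fourth moment of the sum is bounded by that of
the square function. -/
theorem lf_orth {κ α : Type*} [Fintype κ] [MeasurableSpace α] (μ : Measure α) [IsFiniteMeasure μ]
    (near : κ → κ → Prop) (hsym : ∀ c c', near c c' → near c' c) {M B ε : ℝ}
    (hε : 0 ≤ ε) (hM : ∀ c, ({c' | near c c'}.ncard : ℝ) ≤ M) (f : κ → α → ℂ)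
    (hf : ∀ c, Measurable (f c)) (hB : ∀ c x, ‖f c x‖ ≤ B)
    (h : ∀ c1 c2 c3 c4, ¬((near c1 c3 ∧ near c2 c4) ∨ (near c1 c4 ∧ near c2 c3)) →
      ‖∫ x, f c1 x * f c2 x * conj (f c3 x) * conj (f c4 x) ∂μ‖ ≤ ε) :
    ∫ x, ‖∑ c, f c x‖ ^ 4 ∂μ ≤
      2 * M ^ 2 * ∫ x, (∑ c, ‖f c x‖ ^ 2) ^ 2 ∂μ + (Fintype.card κ : ℝ) ^ 4 * ε := by
  classical
  -- the products
  set g : κ × κ × κ × κ → α → ℂ := fun q x =>
    f q.1 x * f q.2.1 x * conj (f q.2.2.1 x) * conj (f q.2.2.2 x) with hg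
  set a : κ × κ × κ × κ → α → ℝ := fun q x =>
    ‖f q.1 x‖ * ‖f q.2.1 x‖ * ‖f q.2.2.1 x‖ * ‖f q.2.2.2 x‖ with ha
  have hga : ∀ q x, ‖g q x‖ = a q x := by
    intro q x
    simp only [hg, ha, norm_mul, RCLike.norm_conj]
  have hgm : ∀ q, Measurable (g q) := fun q =>
    (((hf _).mul (hf _)).mul (Complex.continuous_conj.measurable.comp (hf _))).mul
      (Complex.continuous_conj.measurable.comp (hf _))
  have ha4 : ∀ q x, a q x ≤ B ^ 4 := by
    intro q x
    have hB0 : 0 ≤ B := (norm_nonneg _).trans (hB q.1 x)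
    calc a q x ≤ B * B * B * B := by
          simp only [ha]
          gcongr <;> exact hB _ _
      _ = B ^ 4 := by ring
  have hgi : ∀ q, Integrable (g q) μ := fun q =>
    Integrable.of_bound (hgm q).aestronglyMeasurable (B ^ 4)
      (Filter.Eventually.of_forall fun x => (hga q x).le.trans (ha4 q x))
  have hai : ∀ q, Integrable (a q) μ := fun q => by
    have := (hgi q).norm
    simpa only [hga] using this
  -- the expansion
  have hexp : ∀ x, ((‖∑ c, f c x‖ ^ 4 : ℝ) : ℂ) = ∑ q, g q x := by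
    intro x
    have e1 : ((‖∑ c, f c x‖ ^ 4 : ℝ) : ℂ) =
        (∑ c, f c x) * ((∑ c, f c x) * ((∑ c, conj (f c x)) * ∑ c, conj (f c x))) := by
      rw [← map_sum]
      set F := ∑ c, f c x
      have e2 : F * conj F = ((‖F‖ ^ 2 : ℝ) : ℂ) := by
        rw [Complex.mul_conj, Complex.normSq_eq_norm_sq]
      calc ((‖F‖ ^ 4 : ℝ) : ℂ) = ((‖F‖ ^ 2 : ℝ) : ℂ) * ((‖F‖ ^ 2 : ℝ) : ℂ) := by
            push_cast; ring
        _ = (F * conj F) * (F * conj F) := by rw [e2]
        _ = _ := by ring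
    rw [e1]
    simp only [hg, Fintype.sum_prod_type]
    rw [Finset.sum_mul]
    refine sum_congr rfl fun c1 _ => ?_
    rw [Finset.sum_mul, mul_sum]
    refine sum_congr rfl fun c2 _ => ?_
    rw [Finset.sum_mul, mul_sum, mul_sum]
    refine sum_congr rfl fun c3 _ => ?_
    rw [mul_sum, mul_sum, mul_sum]
    refine sum_congr rfl fun c4 _ => ?_
    ring
  have hI : ∫ x, ‖∑ c, f c x‖ ^ 4 ∂μ ≤ ∑ q, ‖∫ x, g q x ∂μ‖ := by
    have e1 : ((∫ x, ‖∑ c, f c x‖ ^ 4 ∂μ : ℝ) : ℂ) = ∑ q, ∫ x, g q x ∂μ := by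
      rw [← integral_complex_ofReal, ← integral_finsetSum _ fun q _ => hgi q]
      exact integral_congr_ae (Filter.Eventually.of_forall hexp)
    calc ∫ x, ‖∑ c, f c x‖ ^ 4 ∂μ ≤ ‖((∫ x, ‖∑ c, f c x‖ ^ 4 ∂μ : ℝ) : ℂ)‖ := by
          rw [Complex.norm_real]
          exact Real.le_norm_self _
      _ = ‖∑ q, ∫ x, g q x ∂μ‖ := by rw [e1]
      _ ≤ _ := norm_sum_le _ _
  -- near and far
  set w : α → ℝ := fun x => ∑ c, ∑ c', (if near c c' then ‖f c x‖ * ‖f c' x‖ else 0) with hw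
  have hcard : ∀ c, ((univ.filter fun c' => near c c').card : ℝ) ≤ M := by
    intro c
    refine le_trans (le_of_eq ?_) (hM c)
    congr 1
    rw [← Set.ncard_coe_finset]
    congr 1
    ext c'
    simp
  have hw1 : ∀ x, w x ≤ M * ∑ c, ‖f c x‖ ^ 2 := fun x => lf_near near hsym hcard _
  have hw0 : ∀ x, 0 ≤ w x := fun x => sum_nonneg fun c _ => sum_nonneg fun c' _ => by
    split_ifs
    · positivity
    · exact le_rfl
  have hterm : ∀ q, ‖∫ x, g q x ∂μ‖ ≤
      ∫ x, ((if near q.1 q.2.2.1 ∧ near q.2.1 q.2.2.2 then a q x else 0) +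
        (if near q.1 q.2.2.2 ∧ near q.2.1 q.2.2.1 then a q x else 0)) ∂μ + ε := by
    intro q
    have ha0 : ∀ x, 0 ≤ a q x := fun x => (norm_nonneg _).trans (hga q x).le
    have hint : ∀ (p1 p2 : Prop) [Decidable p1] [Decidable p2],
        Integrable (fun x => (if p1 then a q x else 0) + (if p2 then a q x else 0)) μ := by
      intro p1 p2 _ _
      refine Integrable.add ?_ ?_
      · split_ifs
        · exact hai q
        · exact integrable_zero _ _ _
      · split_ifs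
        · exact hai q
        · exact integrable_zero _ _ _
    by_cases hn : (near q.1 q.2.2.1 ∧ near q.2.1 q.2.2.2) ∨ (near q.1 q.2.2.2 ∧ near q.2.1 q.2.2.1)
    · have h1 : ‖∫ x, g q x ∂μ‖ ≤ ∫ x, a q x ∂μ := by
        refine (norm_integral_le_integral_norm _).trans (le_of_eq ?_)
        exact integral_congr_ae (Filter.Eventually.of_forall (hga q))
      have h2 : ∫ x, a q x ∂μ ≤
          ∫ x, ((if near q.1 q.2.2.1 ∧ near q.2.1 q.2.2.2 then a q x else 0) +
            (if near q.1 q.2.2.2 ∧ near q.2.1 q.2.2.1 then a q x else 0)) ∂μ := by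
        refine integral_mono (hai q) (hint _ _) fun x => ?_
        have := ha0 x
        rcases hn with hn | hn
        · simp only [if_pos hn]
          split_ifs <;> linarith
        · simp only [if_pos hn]
          split_ifs <;> linarith
      linarith
    · have h1 := h q.1 q.2.1 q.2.2.1 q.2.2.2 hn
      have h2 : 0 ≤ ∫ x, ((if near q.1 q.2.2.1 ∧ near q.2.1 q.2.2.2 then a q x else 0) +
            (if near q.1 q.2.2.2 ∧ near q.2.1 q.2.2.1 then a q x else 0)) ∂μ := by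
        refine integral_nonneg fun x => ?_
        have := ha0 x
        simp only [Pi.zero_apply]
        split_ifs <;> linarith
      have h3 : ‖∫ x, g q x ∂μ‖ ≤ ε := h1
      linarith
  have hpt : ∀ x, ∑ q, ((if near q.1 q.2.2.1 ∧ near q.2.1 q.2.2.2 then a q x else 0) +
      (if near q.1 q.2.2.2 ∧ near q.2.1 q.2.2.1 then a q x else 0)) = 2 * w x ^ 2 := by
    intro x
    rw [sum_add_distrib]
    have e1 : ∑ q, (if near q.1 q.2.2.1 ∧ near q.2.1 q.2.2.2 then a q x else 0) = w x ^ 2 := by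
      simp only [ha, hw, Fintype.sum_prod_type, sq]
      rw [sum_mul_sum]
      refine sum_congr rfl fun c1 _ => ?_
      refine sum_congr rfl fun c2 _ => ?_
      rw [sum_mul_sum]
      refine sum_congr rfl fun c3 _ => sum_congr rfl fun c4 _ => ?_
      by_cases h1 : near c1 c3 <;> by_cases h2 : near c2 c4 <;> simp [h1, h2]
      ring
    have e2 : ∑ q, (if near q.1 q.2.2.2 ∧ near q.2.1 q.2.2.1 then a q x else 0) = w x ^ 2 := by
      simp only [ha, hw, Fintype.sum_prod_type, sq]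
      rw [sum_mul_sum]
      refine sum_congr rfl fun c1 _ => ?_
      refine sum_congr rfl fun c2 _ => ?_
      rw [sum_mul_sum, sum_comm]
      refine sum_congr rfl fun c4 _ => sum_congr rfl fun c3 _ => ?_
      by_cases h1 : near c1 c4 <;> by_cases h2 : near c2 c3 <;> simp [h1, h2]
      ring
    rw [e1, e2]
    ring
  have hint2 : ∀ q : κ × κ × κ × κ, Integrable (fun x =>
      (if near q.1 q.2.2.1 ∧ near q.2.1 q.2.2.2 then a q x else 0) +
        (if near q.1 q.2.2.2 ∧ near q.2.1 q.2.2.1 then a q x else 0)) μ := by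
    intro q
    refine Integrable.add ?_ ?_
    · split_ifs
      · exact hai q
      · exact integrable_zero _ _ _
    · split_ifs
      · exact hai q
      · exact integrable_zero _ _ _
  have hsq : Integrable (fun x => (∑ c, ‖f c x‖ ^ 2) ^ 2) μ := by
    refine Integrable.of_bound (C := (∑ _c : κ, B ^ 2) ^ 2) ?_ (Filter.Eventually.of_forall fun x => ?_)
    · exact ((Finset.measurable_fun_sum _ fun c _ => (hf c).norm.pow_const 2).pow_const
        2).aestronglyMeasurable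
    · rw [Real.norm_of_nonneg (by positivity)]
      gcongr with c
      exact hB c x
  have hsum : ∑ q, ‖∫ x, g q x ∂μ‖ ≤
      2 * M ^ 2 * ∫ x, (∑ c, ‖f c x‖ ^ 2) ^ 2 ∂μ + (Fintype.card κ : ℝ) ^ 4 * ε := by
    have h1 := sum_le_sum fun q (_ : q ∈ (univ : Finset (κ × κ × κ × κ))) => hterm q
    refine h1.trans ?_
    rw [sum_add_distrib, ← integral_finsetSum _ fun q _ => hint2 q]
    have h2 : ∑ _q : κ × κ × κ × κ, ε = (Fintype.card κ : ℝ) ^ 4 * ε := by
      rw [sum_const, nsmul_eq_mul, card_univ]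
      simp only [Fintype.card_prod]
      push_cast
      ring
    rw [h2]
    refine add_le_add ?_ le_rfl
    rw [← integral_const_mul]
    have h3 : Integrable (fun x => ∑ q : κ × κ × κ × κ,
        ((if near q.1 q.2.2.1 ∧ near q.2.1 q.2.2.2 then a q x else 0) +
        (if near q.1 q.2.2.2 ∧ near q.2.1 q.2.2.1 then a q x else 0))) μ :=
      integrable_finsetSum _ fun q _ => hint2 q
    refine integral_mono h3 (hsq.const_mul _) fun x => ?_
    simp only [hpt]
    have h4 := hw1 x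
    have h5 := hw0 x
    have h6 : w x ^ 2 ≤ (M * ∑ c, ‖f c x‖ ^ 2) ^ 2 := pow_le_pow_left₀ h5 h4 2
    calc 2 * w x ^ 2 ≤ 2 * (M * ∑ c, ‖f c x‖ ^ 2) ^ 2 := by linarith
      _ = _ := by ring
  exact hI.trans hsum

end Pool.Agent.LF
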